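import Mathlib

/-! Talagrand's influence inequality with constant 2 (MP_324c10_co, S07979): common definitions and module statements. -/

set_option autoImplicit false

open Finset Real

namespace Pool.Agent.H58.Tal

/-- mean over the cube `{0,1}^n` -/
noncomputable def mean {n : ℕ} (f : (Fin n → Bool) → ℝ) : ℝ := (∑ x, f x) / 2 ^ n

/-- mean over the half cube `x i = a` -/
noncomputable def hmean {n : ℕ} (f : (Fin n → Bool) → ℝ) (i : Fin n) (a : Bool) : ℝ :=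
  2 * ((∑ x, if x i = a then f x else 0) / 2 ^ n)

/-- relative influence-bias: `(E[f|x_i=1] - E[f|x_i=0]) / (2 E f)`; it lies in `[-1,1]` for `f ≥ 0` -/
noncomputable def th {n : ℕ} (f : (Fin n → Bool) → ℝ) (i : Fin n) : ℝ :=
  (hmean f i true - hmean f i false) / (2 * mean f)

/-! ### Part A: the potential `Ψ` and the one-level inequality -/

/-- `Ψ(b) = b(2-b)/(1+log₂(1/b))` (so `Ψ 0 = 0`) -/
noncomputable def Psi (b : ℝ) : ℝ := b * (2 - b) / (1 + Real.logb 2 (1 / b))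

/-- `J_b(θ) = [Ψ(b(1+θ)) + Ψ(b(1-θ))]/2 - Ψ(b)` -/
noncomputable def J (b t : ℝ) : ℝ := (Psi (b * (1 + t)) + Psi (b * (1 - t))) / 2 - Psi b

/-- the one-level inequality for `[0,1]`-valued functions -/
def OLI : Prop :=
  ∀ (n : ℕ) (f : (Fin n → Bool) → ℝ), (∀ x, 0 ≤ f x ∧ f x ≤ 1) → 0 < mean f →
    ∑ i, J (mean f) (th f i) ≤ Psi (mean f) - (mean f) ^ 2

/-- the frozen statement S07979 (verbatim) -/
def Frozen : Prop :=
    ∀ (n : ℕ) (A : Finset (Fin n → Bool)),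
      0 < A.card → A.card < 2 ^ n →
      (∃ i : Fin n,
          ((Finset.univ.filter (fun (x : Fin n → Bool) =>
              ¬ (x ∈ A ↔ Function.update x i (!(x i)) ∈ A))).card : ℝ) / 2 ^ n = 1) ∨
      2 * ((A.card : ℝ) / 2 ^ n) * (1 - (A.card : ℝ) / 2 ^ n) ≤
        ∑ i : Fin n,
          (((Finset.univ.filter (fun (x : Fin n → Bool) =>
              ¬ (x ∈ A ↔ Function.update x i (!(x i)) ∈ A))).card : ℝ) / 2 ^ n) /
            Real.logb 2 (1 / (((Finset.univ.filter (fun (x : Fin n → Bool) =>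
              ¬ (x ∈ A ↔ Function.update x i (!(x i)) ∈ A))).card : ℝ) / 2 ^ n))

/-- MODULE M1 -/
def M1 : Prop := OLI → Frozen

/-! ### The potentials -/

/-- `N_v(s) = [(1+s)^{1+v} + (1-s)^{1+v}]/2` -/
noncomputable def Nv (v s : ℝ) : ℝ := ((1 + s) ^ (1 + v) + (1 - s) ^ (1 + v)) / 2

/-- `Γ_v(s) = ln 2 (N_v(s) - 1)/(2^v - 1)`, `v > 0`; `Γ_v(±1) = ln 2` -/
noncomputable def Gam (v s : ℝ) : ℝ := Real.log 2 * (Nv v s - 1) / (2 ^ v - 1)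

/-- the trajectory: `L(ε) = (1/a_c)(1/ε + (21/20) ln ε - (59/100) ε + (11/100) ε² - 13/25) + 27/20`, `a_c = (2 - ln 2)/4`;
`L'(ε) = -g(ε)/(a_c ε²) = -1/f(ε)`, `g(ε) = 1 - (21/20) ε + (59/100) ε² - (11/50) ε³` -/
noncomputable def ac : ℝ := (2 - Real.log 2) / 4
noncomputable def gg (e : ℝ) : ℝ := 1 - (21 / 20) * e + (59 / 100) * e ^ 2 - (11 / 50) * e ^ 3
/-- `g'` -/
noncomputable def gg' (e : ℝ) : ℝ := -(21 / 20) + (59 / 50) * e - (33 / 50) * e ^ 2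
noncomputable def ff (e : ℝ) : ℝ := ac * e ^ 2 / gg e
noncomputable def LL (e : ℝ) : ℝ :=
  (1 / e + (21 / 20) * Real.log e - (59 / 100) * e + (11 / 100) * e ^ 2 - 13 / 25) / ac + 27 / 20

/-- MODULE M0: existence of the trajectory `ε(ℓ)`, `ℓ > 27/20` (decreasing from 1 to 0), and `ε(ℓ) ≤ 966/1000` for `ℓ ≥ 2 ln 2`. -/
structure Traj (ep : ℝ → ℝ) : Prop where
  pos : ∀ l, 27 / 20 < l → 0 < ep l
  lt_one : ∀ l, 27 / 20 < l → ep l < 1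
  le : ∀ l, 2 * Real.log 2 ≤ l → ep l ≤ 966 / 1000
  LL_ep : ∀ l, 27 / 20 < l → LL (ep l) = l
  ep_LL : ∀ e, 0 < e → e < 1 → ep (LL e) = e
  deriv : ∀ l, 27 / 20 < l → HasDerivAt ep (-ff (ep l)) l
  anti : ∀ l m, 27 / 20 < l → l ≤ m → ep m ≤ ep l

def M0 : Prop := ∃ ep, Traj ep

/-- MAIN THEOREM (for `[0,1]`-valued `f` of mean `e^{-ℓ}`, `ℓ ≥ 2 ln 2`) -/
def MainThm (ep : ℝ → ℝ) : Prop :=
  ∀ (n : ℕ) (f : (Fin n → Bool) → ℝ) (l : ℝ), (∀ x, 0 ≤ f x ∧ f x ≤ 1) → 2 * Real.log 2 ≤ l →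
    mean f = Real.exp (-l) → ∑ i, Gam (ep l) (th f i) ≤ l

/-- the two-point closure inequality -/
def Closure (ep : ℝ → ℝ) : Prop :=
  ∀ l t : ℝ, 0 < t → t < 1 → 2 * Real.log 2 ≤ l - Real.log (1 + t) →
    ∃ g : ℝ, 0 ≤ g ∧ g ≤ 1 ∧
      (∀ x y : ℝ, x ∈ Set.Icc (-1) 1 → y ∈ Set.Icc (-1) 1 →
        Gam (ep l) ((1 + t) / 2 * x + (1 - t) / 2 * y) ≤
          g * Gam (ep (l - Real.log (1 + t))) x + (1 - g) * Gam (ep (l - Real.log (1 - t))) y) ∧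
      Gam (ep l) t ≤ g * Real.log (1 + t) + (1 - g) * Real.log (1 - t)

/-- MODULE M7a: single-crossing lemma: `Γ_v(s)` is nondecreasing in `v ∈ (0,1]` (so `Γ_v(s) ≤ Γ_1(s) = ln 2 · s²`), even in `s`,
nonnegative on `[-1,1]` -/
def M7a : Prop :=
  (∀ v w s : ℝ, 0 < v → v ≤ w → w ≤ 1 → s ∈ Set.Icc (-1) 1 → Gam v s ≤ Gam w s) ∧
  (∀ v s : ℝ, 0 < v → v ≤ 1 → s ∈ Set.Icc (-1) 1 → 0 ≤ Gam v s)

/-- MODULE M3: induction on `n`. -/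
def M3 : Prop := ∀ ep, Traj ep → M7a → Closure ep → MainThm ep

/-- MODULE M7 (iii): the weighted average of the `Γ_v` with weights `b^v (1-2^{-v})`, `b = e^{-ℓ}`, is at most `Γ_{ε(ℓ)}`, given the
one-dimensional inequality `Ineq1D` between the coefficients of `s²`. -/
def Ineq1D (ep : ℝ → ℝ) : Prop :=
  ∀ l : ℝ, 2 * Real.log 2 ≤ l →
    Real.log 2 / 2 * (∫ v in (0:ℝ)..1, v * (1 + v) * Real.exp (-v * (l + Real.log 2))) ≤
    ((1 + ep l) / 2 * (Real.log 2 * ep l / (2 ^ (ep l) - 1))) *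
      ∫ v in (0:ℝ)..1, (Real.exp (-v * l) - Real.exp (-v * (l + Real.log 2)))

def AvgIneq (ep : ℝ → ℝ) : Prop :=
  ∀ l s : ℝ, 2 * Real.log 2 ≤ l → s ∈ Set.Icc (-1) 1 →
    (∫ v in (0:ℝ)..1, (Real.exp (-v * l) - Real.exp (-v * (l + Real.log 2))) * Gam v s) ≤
      (∫ v in (0:ℝ)..1, (Real.exp (-v * l) - Real.exp (-v * (l + Real.log 2)))) * Gam (ep l) s

def M7b : Prop := ∀ ep, Traj ep → Ineq1D ep → AvgIneq ep

/-- MODULE M2: from the main theorem and the averaging inequality to the one-level inequality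
(base `log₂(1/b) ≤ 2` by Parseval and parity). -/
def M2 : Prop := ∀ ep, Traj ep → M7a → MainThm ep → AvgIneq ep → OLI

/-! ### The closure: Z-convexity -/

/-- `g0(ε) = (1 - 2^{-ε})/(1+ε)` -/
noncomputable def g0 (e : ℝ) : ℝ := (1 - (2:ℝ) ^ (-e)) / (1 + e)

/-- `Z'(ℓ) = e^ℓ/g0(ε(ℓ))²` -/
noncomputable def Zp (ep : ℝ → ℝ) (l : ℝ) : ℝ := Real.exp l / (g0 (ep l)) ^ 2

/-- `γ₀(ℓ,θ) = (Z(ℓ₁)-Z(ℓ))/(Z(ℓ₁)-Z(ℓ₀))`, `ℓ₀ = ℓ - ln(1+θ)`, `ℓ₁ = ℓ - ln(1-θ)` -/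
noncomputable def gam0 (ep : ℝ → ℝ) (l t : ℝ) : ℝ :=
  (∫ x in l..(l - Real.log (1 - t)), Zp ep x) /
    (∫ x in (l - Real.log (1 + t))..(l - Real.log (1 - t)), Zp ep x)

def Cl2 (ep : ℝ → ℝ) : Prop :=
  ∀ l t : ℝ, 0 < t → t < 1 → 2 * Real.log 2 ≤ l - Real.log (1 + t) →
    ∀ x y : ℝ, x ∈ Set.Icc (-1) 1 → y ∈ Set.Icc (-1) 1 →
      Gam (ep l) ((1 + t) / 2 * x + (1 - t) / 2 * y) ≤
        gam0 ep l t * Gam (ep (l - Real.log (1 + t))) x +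
          (1 - gam0 ep l t) * Gam (ep (l - Real.log (1 - t))) y

def Cl1 (ep : ℝ → ℝ) : Prop :=
  ∀ l t : ℝ, 0 < t → t < 1 → 2 * Real.log 2 ≤ l - Real.log (1 + t) →
    Gam (ep l) t ≤ gam0 ep l t * Real.log (1 + t) + (1 - gam0 ep l t) * Real.log (1 - t)

/-- `D(s) = [(1+s)ln(1+s)+(1-s)ln(1-s)]/2` -/
noncomputable def Dn (s : ℝ) : ℝ := ((1 + s) * Real.log (1 + s) + (1 - s) * Real.log (1 - s)) / 2

noncomputable def nn1 (e s : ℝ) : ℝ :=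
  ((1 + s) ^ (1 + e) * Real.log (1 + s) + (1 - s) ^ (1 + e) * Real.log (1 - s)) / 2
noncomputable def nn2 (e s : ℝ) : ℝ :=
  ((1 + s) ^ (1 + e) * Real.log (1 + s) ^ 2 + (1 - s) ^ (1 + e) * Real.log (1 - s) ^ 2) / 2
noncomputable def mm (e s : ℝ) : ℝ := ((1 + s) ^ (1 - e) + (1 - s) ^ (1 - e)) / 2

/-- `c₁(ε) = ε((1+f')/f - 2/(1+ε)) = g/(a_c ε) + 2 - ε g'/g - 2ε/(1+ε)`, `g = gg`, `f = ff` -/
noncomputable def c1 (e : ℝ) : ℝ :=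
  gg e / (ac * e) + 2 - e * gg' e / gg e - 2 * e / (1 + e)
noncomputable def c2 (e : ℝ) : ℝ := (c1 e * Real.log 2 - e * Real.log 2 ^ 2) / (2 ^ e - 1)

noncomputable def TT (e s : ℝ) : ℝ :=
  (1 + e) * Real.log 2 ^ 2 + (Real.log 2 ^ 2 + c1 e * Real.log 2 + c2 e) * (Nv e s - 1)
    - (2 * Real.log 2 + c1 e) * nn1 e s + nn2 e s

/-- MODULE M5 -/
def Star : Prop :=
  ∀ e s : ℝ, 0 < e → e ≤ 966 / 1000 → 0 ≤ s → s < 1 →
    mm e s * TT e s ≤ (1 + e) * (Real.log 2 - Dn s) ^ 2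

/-- MODULE M4 -/
def M4 : Prop := ∀ ep, Traj ep → Star → Cl2 ep

/-- MODULE M6 -/
def M6 : Prop := ∀ ep, Traj ep → Cl1 ep

/-- MODULE M7c -/
def M7c : Prop := ∀ ep, Traj ep → Ineq1D ep

end Pool.Agent.H58.Tal
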