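import Pool.Agent.H58.Tal.Defs

/-! Module M6 (Cl1): definitions and sub-module statements. -/

set_option autoImplicit false

open Finset Real

namespace Pool.Agent.H58.Tal

/-- `B(e) = ln2 · e/(2^e - 1)` -/
noncomputable def Bb (e : ℝ) : ℝ := Real.log 2 * e / (2 ^ e - 1)
/-- `B'(e)` (for `e > 0`) -/
noncomputable def Bb' (e : ℝ) : ℝ := Bb e / e * (1 - Bb e - Real.log 2 * e)

/-- MODULE M6B (Bernoulli enclosure): `y = e ln 2` -/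
def M6B : Prop :=
  ∀ e : ℝ, 0 < e → e ≤ 1 →
    1 - Real.log 2 * e / 2 + (Real.log 2 * e) ^ 2 / 12 - (Real.log 2 * e) ^ 4 / 720 ≤ Bb e ∧
    Bb e ≤ 1 - Real.log 2 * e / 2 + (Real.log 2 * e) ^ 2 / 12 - (Real.log 2 * e) ^ 4 / 720
      + (Real.log 2 * e) ^ 6 / 30240

/-- `Y(e) = f g0'/g0 = (a_c e/g)(B - e/(1+e))`; `d/dℓ ln σ = Y` along the trajectory -/
noncomputable def YY (e : ℝ) : ℝ := ac * e / gg e * (Bb e - e / (1 + e))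
/-- `Y'(e)` (for `e > 0`) -/
noncomputable def YY' (e : ℝ) : ℝ :=
  ac * ((1 / gg e - e * gg' e / gg e ^ 2) * (Bb e - e / (1 + e)) + e / gg e * (Bb' e - 1 / (1 + e) ^ 2))
/-- `σ(e)² = (ln2/2)²/g0(e)² = ((1+e)(B + e ln2)/(2e))²` -/
noncomputable def sq (e : ℝ) : ℝ := ((1 + e) * (Bb e + Real.log 2 * e) / (2 * e)) ^ 2
/-- `W2 = (1/2) d²/dℓ² σ² = σ²(2Y² - f Y')` -/
noncomputable def W2 (e : ℝ) : ℝ := sq e * (2 * YY e ^ 2 - ff e * YY' e)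

noncomputable def wlo : ℝ := 262 / 10000
noncomputable def whi : ℝ := 123 / 1000

/-- MODULE M6W -/
def M6W : Prop := ∀ e : ℝ, 0 < e → e ≤ 966 / 1000 → wlo ≤ W2 e ∧ W2 e ≤ whi

/-- `u = 2Y(c-θ) + ρ(c²-2(c-θ))`, `c = -ln(1-θ)`, `ρ = wlo/σ²` -/
noncomputable def uu (e t : ℝ) : ℝ :=
  2 * YY e * (-Real.log (1 - t) - t) +
    wlo / sq e * (Real.log (1 - t) ^ 2 - 2 * (-Real.log (1 - t) - t))
/-- `v = 2Y(θ-a) - ρ'(2(θ-a)-a²)`, `a = ln(1+θ)`, `ρ' = whi/σ²` -/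
noncomputable def vv (e t : ℝ) : ℝ :=
  2 * YY e * (t - Real.log (1 + t)) -
    whi / sq e * (2 * (t - Real.log (1 + t)) - Real.log (1 + t) ^ 2)

/-- the two-variable inequality: `N[2θ+(1+θ)u-(1-θ)v] ≤ (1-θ²) artanh θ (u+v)`, `N = Γ - D` -/
def IneqII (e t : ℝ) : Prop :=
  (Gam e t - Dn t) * (2 * t + (1 + t) * uu e t - (1 - t) * vv e t) ≤
    (1 - t ^ 2) * ((Real.log (1 + t) - Real.log (1 - t)) / 2) * (uu e t + vv e t)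

def Dom (e t : ℝ) : Prop :=
  0 < e ∧ 0 < t ∧ t < 1 ∧ e ≤ 966 / 1000 ∧
    ((e ≤ 77 / 100 ∧ t ≤ 9 / 10) ∨ t ≤ 4 / 10 ∨ (e ≤ 66 / 100 ∧ 9 / 10 ≤ t))

/-- MODULE M6C: the constraint `ln(1+θ) ≤ ℓ - 2 ln 2` -/
def M6C : Prop := ∀ ep, Traj ep → ∀ l t : ℝ, 0 < t → t < 1 → 2 * Real.log 2 ≤ l - Real.log (1 + t) →
  Dom (ep l) t

/-- MODULE M6A (calculus): `σ²(ℓ+x) ≥ σ²(1+2Yx)+wlo x²`, `σ²(ℓ-x) ≤ σ²(1-2Yx)+whi x²`, integrate against `e^{±x}` -/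
def M6A : Prop := ∀ ep, Traj ep → M6W → M6C → (∀ e t, Dom e t → IneqII e t) → Cl1 ep

/-! normalised functions, `x = t²` -/
noncomputable def yh (e : ℝ) : ℝ := ac / gg e * (Bb e - e / (1 + e))
noncomputable def rh (e : ℝ) : ℝ := 4 * wlo / ((1 + e) * (Bb e + Real.log 2 * e)) ^ 2
noncomputable def dr (e : ℝ) : ℝ := 4 * (whi - wlo) / ((1 + e) * (Bb e + Real.log 2 * e)) ^ 2
/-- `λ = -ln(1-x)/x` -/
noncomputable def la (t : ℝ) : ℝ := -Real.log (1 - t ^ 2) / t ^ 2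
/-- `o = artanh(t)/t` -/
noncomputable def oo (t : ℝ) : ℝ := (Real.log (1 + t) - Real.log (1 - t)) / (2 * t)
/-- `P/e`, `P = (Γ-D)/(x(1-x))` -/
noncomputable def Ph (e t : ℝ) : ℝ := (Gam e t - Dn t) / (e * t ^ 2 * (1 - t ^ 2))
noncomputable def kk (t : ℝ) : ℝ := oo t ^ 2 - la t + t ^ 2 * la t ^ 2 / 4
noncomputable def zz (e t : ℝ) : ℝ :=
  yh e * (t ^ 2 * la t + 2 * oo t - 2) +
    e * rh e * (t ^ 2 * kk t + 2 - 2 * oo t + t ^ 2 * oo t * la t)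

def R1star (e t : ℝ) : Prop :=
  Ph e t * (1 + e * zz e t) + e * dr e * (oo t * (1 + t ^ 2) / 12 + e * Ph e t * t ^ 2 / 6) ≤
    yh e * la t * oo t + e * rh e * kk t * oo t

/-- MODULE M6R1a (algebra; uses `2(t-a)-a² ≤ t³/3`, `t ≤ (1+t²)/2`, `Gam e t ≥ Dn t`) -/
def M6R1a : Prop := ∀ e t : ℝ, 0 < e → e ≤ 966 / 1000 → 0 < t → t < 1 → R1star e t → IneqII e t

/-- MODULE M6R1b (power series in `x = t²` with interval coefficients) -/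
def M6R1b : Prop := ∀ e t : ℝ, 0 < e → 0 < t →
  ((e ≤ 77 / 100 ∧ t ≤ 9 / 10) ∨ (e ≤ 966 / 1000 ∧ t ≤ 4 / 10)) → R1star e t

/-- MODULE M6R2 (`L = -ln((1-t)/2) ≥ 3 - …`, polynomials in `L`) -/
def M6R2 : Prop := ∀ e t : ℝ, 0 < e → e ≤ 66 / 100 → 9 / 10 ≤ t → t < 1 → IneqII e t

end Pool.Agent.H58.Tal
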