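import Pool.Agent.H58.Tal.Defs6

/-! Interface between M6R1s (series) and M6R1c (numeric check). -/

set_option autoImplicit false

open Finset Real

namespace Pool.Agent.H58.Tal

/-- coefficients of `λ = -ln(1-x)/x` and of `o = artanh(√x)/√x` (rational) -/
def laC (i : ℕ) : ℚ := 1 / (i + 1)
def oC (i : ℕ) : ℚ := 1 / (2 * i + 1)
def conv (a b : ℕ → ℚ) (n : ℕ) : ℚ := ∑ i ∈ range (n + 1), a i * b (n - i)
/-- `k = o² - λ + x λ²/4` -/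
def kC (n : ℕ) : ℚ := conv oC oC n - laC n + (if n = 0 then 0 else conv laC laC (n - 1) / 4)
def loC (n : ℕ) : ℚ := conv laC oC n
def koC (n : ℕ) : ℚ := conv kC oC n
/-- `x λ + 2 o - 2` -/
def y1C (n : ℕ) : ℚ := if n = 0 then 0 else laC (n - 1) + 2 * oC n
/-- `x k + 2 - 2 o + x o λ` -/
def w1C (n : ℕ) : ℚ := if n = 0 then 0 else kC (n - 1) - 2 * oC n + loC (n - 1)

/-- `(Π_{i+1}, κ_{i+1})`, `Π_j = ∏_{i ≤ 2j-2} (1 - e/i)`, `1 - Π_j = e κ_j` -/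
noncomputable def PK (e : ℝ) : ℕ → ℝ × ℝ
  | 0 => (1, 0)
  | (i + 1) =>
    let a : ℝ := 2 * i + 1
    let b : ℝ := 2 * i + 2
    ((PK e i).1 * ((1 - e / a) * (1 - e / b)),
      (PK e i).2 + (PK e i).1 * (1 / a + 1 / b - e / (a * b)))

/-- `P_0 = (B + (B-1)/e)/2`, `P_i = P_{i-1} - d_{i+1} ((1+e) B κ_{i+1} - 2 P_0)`, `d_j = 1/(2j(2j-1))` -/
noncomputable def PC (e : ℝ) : ℕ → ℝ
  | 0 => (Bb e + (Bb e - 1) / e) / 2
  | (i + 1) => PC e i - 1 / ((2 * (i + 2)) * (2 * (i + 2) - 1)) *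
      ((1 + e) * Bb e * (PK e (i + 1)).2 - (Bb e + (Bb e - 1) / e))

noncomputable def zC (e : ℝ) (i : ℕ) : ℝ := yh e * (y1C i : ℝ) + e * rh e * (w1C i : ℝ)

/-- coefficients of `A = yh λ o + e rh k o` -/
noncomputable def AC (e : ℝ) (i : ℕ) : ℝ := yh e * (loC i : ℝ) + e * rh e * (koC i : ℝ)

/-- coefficients of `G = P̂ (1 + e z) + e dr (o (1+x)/12 + e P̂ x/6)` -/
noncomputable def GC (e : ℝ) (n : ℕ) : ℝ :=
  PC e n + e * (∑ i ∈ range (n + 1), PC e i * zC e (n - i)) +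
    e * dr e * (((oC n : ℝ) + (if n = 0 then 0 else (oC (n - 1) : ℝ))) / 12 +
      (if n = 0 then 0 else e * PC e (n - 1) / 6))

/-- upper bound of `P̂` at `x = t²`: `∑_{i ≤ J} P_i x^i + P_{J+1} x^{J+1}/(1-x)` -/
noncomputable def Pup (e t : ℝ) (J : ℕ) : ℝ :=
  ∑ i ∈ range (J + 1), PC e i * t ^ (2 * i) + PC e (J + 1) * t ^ (2 * (J + 1)) / (1 - t ^ 2)

/-- MODULE M6R1s: Abel criterion (`A ≥ ∑_{i≤J} A_i x^i`, `G(x) ≤ ∑_{i≤J} G_i x^i + (x/x₁)^{J+1}(G(x₁) - ∑_{i≤J} G_i x₁^i)`) -/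
def M6R1s : Prop :=
  ∀ (e t1 : ℝ) (J : ℕ), 0 < e → e ≤ 966 / 1000 → 0 < t1 → t1 < 1 →
    (∀ j ≤ J, 0 ≤ ∑ i ∈ range (j + 1), (AC e i - GC e i) * t1 ^ (2 * i)) →
    Pup e t1 J * (1 + e * zz e t1) +
        e * dr e * (oo t1 * (1 + t1 ^ 2) / 12 + e * Pup e t1 J * t1 ^ 2 / 6) ≤
      ∑ i ∈ range (J + 1), AC e i * t1 ^ (2 * i) →
    ∀ t : ℝ, 0 < t → t ≤ t1 → R1star e t

/-- MODULE M6R1c: the numeric check -/
def M6R1c : Prop :=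
  ∀ e : ℝ, 0 < e →
    (e ≤ 77 / 100 →
      (∀ j ≤ 25, 0 ≤ ∑ i ∈ range (j + 1), (AC e i - GC e i) * (9 / 10 : ℝ) ^ (2 * i)) ∧
      Pup e (9 / 10) 25 * (1 + e * zz e (9 / 10)) +
          e * dr e * (oo (9 / 10) * (1 + (9 / 10) ^ 2) / 12 + e * Pup e (9 / 10) 25 * (9 / 10) ^ 2 / 6) ≤
        ∑ i ∈ range (25 + 1), AC e i * (9 / 10 : ℝ) ^ (2 * i)) ∧
    (77 / 100 ≤ e → e ≤ 966 / 1000 →
      (∀ j ≤ 15, 0 ≤ ∑ i ∈ range (j + 1), (AC e i - GC e i) * (4 / 10 : ℝ) ^ (2 * i)) ∧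
      Pup e (4 / 10) 15 * (1 + e * zz e (4 / 10)) +
          e * dr e * (oo (4 / 10) * (1 + (4 / 10) ^ 2) / 12 + e * Pup e (4 / 10) 15 * (4 / 10) ^ 2 / 6) ≤
        ∑ i ∈ range (15 + 1), AC e i * (4 / 10 : ℝ) ^ (2 * i))

theorem m6r1b_of (hs : M6R1s) (hc : M6R1c) : M6R1b := by
  intro e t he ht h
  obtain ⟨h1, h2⟩ := hc e he
  rcases h with ⟨h77, ht9⟩ | ⟨h966, ht4⟩
  · obtain ⟨ha, hb⟩ := h1 h77
    exact hs e (9 / 10) 25 he (by linarith) (by norm_num) (by norm_num) ha hb t ht ht9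
  · rcases le_total e (77 / 100) with h | h
    · obtain ⟨ha, hb⟩ := h1 h
      exact hs e (9 / 10) 25 he (by linarith) (by norm_num) (by norm_num) ha hb t ht (by linarith)
    · obtain ⟨ha, hb⟩ := h2 h h966
      exact hs e (4 / 10) 15 he (by linarith) (by norm_num) (by norm_num) ha hb t ht ht4

end Pool.Agent.H58.Tal
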