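import Pool.Agent.H58.Tal.Defs

/-! Module M2 (helper60): from the main theorem and the averaging inequality to the one-level
inequality. -/

set_option autoImplicit false

open Finset Real MeasureTheory

namespace Pool.Agent.H58.Tal

namespace M2p

/-! ### integrals -/

lemma int_exp (y : ℝ) (hy : y ≠ 0) :
    ∫ v in (0:ℝ)..1, Real.exp (-v * y) = (1 - Real.exp (-y)) / y := by
  have hderiv : ∀ x ∈ Set.uIcc (0:ℝ) 1,
      HasDerivAt (fun v => -Real.exp (-v * y) / y) (Real.exp (-x * y)) x := by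
    intro x _
    have h1 : HasDerivAt (fun v : ℝ => -v * y) (-1 * y) x := (hasDerivAt_neg x).mul_const y
    have h2 := (h1.exp.neg).div_const y
    refine h2.congr_deriv ?_
    field_simp
  rw [intervalIntegral.integral_eq_sub_of_hasDerivAt hderiv]
  · simp
    ring
  · exact (by fun_prop : Continuous fun v : ℝ => Real.exp (-v * y)).intervalIntegrable _ _

lemma cont_rpow (a : ℝ) : ContinuousOn (fun v : ℝ => a ^ (1 + v)) (Set.uIcc 0 1) := by
  intro v hv
  rw [Set.uIcc_of_le zero_le_one] at hv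
  have h1 : (1 + v) ≠ 0 := by linarith [hv.1]
  have h2 : ContinuousAt (fun x : ℝ => a ^ x) (1 + v) := Real.continuousAt_const_rpow' h1
  have h3 : ContinuousAt (fun v : ℝ => 1 + v) v := by fun_prop
  exact (ContinuousAt.comp (f := fun v : ℝ => 1 + v) (g := fun x : ℝ => a ^ x) h2 h3).continuousWithinAt

lemma integrable_aux (a y : ℝ) :
    IntervalIntegrable (fun v : ℝ => Real.exp (-v * y) * a ^ (1 + v)) volume 0 1 := by
  apply ContinuousOn.intervalIntegrable
  exact ((by fun_prop : Continuous fun v : ℝ => Real.exp (-v * y)).continuousOn).mul (cont_rpow a)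

lemma integrable_exp (y : ℝ) :
    IntervalIntegrable (fun v : ℝ => Real.exp (-v * y)) volume 0 1 :=
  (by fun_prop : Continuous fun v : ℝ => Real.exp (-v * y)).intervalIntegrable _ _

lemma Psi_zero : Psi 0 = 0 := by simp [Psi]

lemma logb_inv (c : ℝ) : Real.logb 2 (1 / c) = -Real.log c / Real.log 2 := by
  rw [Real.logb, one_div, Real.log_inv]

lemma log2_pos : 0 < Real.log 2 := Real.log_pos (by norm_num)

lemma Psi_eq (b l s : ℝ) (hb : b = Real.exp (-l)) (hs : -1 ≤ s) (hlt : b * (1 + s) < 2) :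
    Psi (b * (1 + s)) = 2 * Real.log 2 * b *
      ∫ v in (0:ℝ)..1, Real.exp (-v * (l + Real.log 2)) * (1 + s) ^ (1 + v) := by
  rcases hs.eq_or_lt with rfl | hs
  · have h1 : ∫ v in (0:ℝ)..1, Real.exp (-v * (l + Real.log 2)) * (1 + -1 : ℝ) ^ (1 + v) = 0 := by
      rw [intervalIntegral.integral_congr (g := fun _ => (0:ℝ))]
      · simp
      · intro v hv
        rw [Set.uIcc_of_le zero_le_one] at hv
        have : (1 + -1 : ℝ) = 0 := by norm_num
        simp only [this]
        rw [Real.zero_rpow (by linarith [hv.1]), mul_zero]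
    rw [h1]
    simp [Psi_zero]
  · have hs1 : 0 < 1 + s := by linarith
    have hbpos : 0 < b := by rw [hb]; exact Real.exp_pos _
    set c := b * (1 + s) with hc
    have hcpos : 0 < c := by positivity
    have hlogc : Real.log c = -l + Real.log (1 + s) := by
      rw [hc, Real.log_mul hbpos.ne' hs1.ne', hb, Real.log_exp]
    set y := Real.log 2 - Real.log c with hy
    have hypos : 0 < y := by
      have : Real.log c < Real.log 2 := Real.log_lt_log hcpos hlt
      linarith
    have h1 : ∫ v in (0:ℝ)..1, Real.exp (-v * (l + Real.log 2)) * (1 + s) ^ (1 + v) =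
        (1 + s) * ∫ v in (0:ℝ)..1, Real.exp (-v * y) := by
      rw [← intervalIntegral.integral_const_mul]
      apply intervalIntegral.integral_congr
      intro v _
      simp only
      rw [Real.rpow_add hs1, Real.rpow_one, Real.rpow_def_of_pos hs1, mul_left_comm,
        ← Real.exp_add]
      congr 2
      rw [hy, hlogc]
      ring
    rw [h1, int_exp y hypos.ne']
    have h2 : Real.exp (-y) = c / 2 := by
      rw [hy, neg_sub, Real.exp_sub, Real.exp_log hcpos, Real.exp_log (by norm_num)]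
    rw [h2]
    unfold Psi
    rw [logb_inv]
    have h3 : 1 + -Real.log c / Real.log 2 = y / Real.log 2 := by
      rw [hy]
      have := log2_pos.ne'
      field_simp
      ring
    rw [h3]
    have := log2_pos.ne'
    field_simp
    rw [hc]
    ring

/-- the weight -/
noncomputable def ww (l v : ℝ) : ℝ := Real.exp (-v * l) - Real.exp (-v * (l + Real.log 2))

lemma ww_eq (l v : ℝ) : ww l v = Real.exp (-v * (l + Real.log 2)) * (2 ^ v - 1) := by
  unfold ww
  rw [Real.rpow_def_of_pos (by norm_num : (0:ℝ) < 2), mul_sub, ← Real.exp_add, mul_one]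
  congr 2
  ring

lemma ww_nonneg (l v : ℝ) (hv : 0 ≤ v) : 0 ≤ ww l v := by
  rw [ww_eq]
  apply mul_nonneg (Real.exp_pos _).le
  have : (1:ℝ) ≤ 2 ^ v := Real.one_le_rpow (by norm_num) hv
  linarith

lemma ww_cont (l : ℝ) : Continuous (ww l) := by
  unfold ww
  fun_prop

lemma ww_Gam (l v s : ℝ) (hv : 0 < v) : ww l v * Gam v s =
    Real.exp (-v * (l + Real.log 2)) * (Real.log 2 * (Nv v s - 1)) := by
  rw [ww_eq]
  unfold Gam
  have : (1:ℝ) < 2 ^ v := Real.one_lt_rpow (by norm_num) hv
  have h2 : (2:ℝ) ^ v - 1 ≠ 0 := by linarith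
  field_simp

lemma integrable_core (l s : ℝ) : IntervalIntegrable
    (fun v : ℝ => Real.exp (-v * (l + Real.log 2)) * (Real.log 2 * (Nv v s - 1))) volume 0 1 := by
  apply ContinuousOn.intervalIntegrable
  apply ((by fun_prop : Continuous fun v : ℝ => Real.exp (-v * (l + Real.log 2))).continuousOn).mul
  apply continuousOn_const.mul
  apply ContinuousOn.sub _ continuousOn_const
  unfold Nv
  exact ((cont_rpow (1 + s)).add (cont_rpow (1 - s))).div_const 2

lemma ae_eq (l s : ℝ) : ∀ v ∈ Set.Ioc (0:ℝ) 1, ww l v * Gam v s =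
    Real.exp (-v * (l + Real.log 2)) * (Real.log 2 * (Nv v s - 1)) :=
  fun v hv => ww_Gam l v s hv.1

lemma integrable_wG (l s : ℝ) :
    IntervalIntegrable (fun v => ww l v * Gam v s) volume 0 1 := by
  refine (integrable_core l s).congr ?_
  intro v hv
  rw [Set.uIoc_of_le zero_le_one] at hv
  exact (ae_eq l s v hv).symm

lemma int_wG (l s : ℝ) : ∫ v in (0:ℝ)..1, ww l v * Gam v s =
    ∫ v in (0:ℝ)..1, Real.exp (-v * (l + Real.log 2)) * (Real.log 2 * (Nv v s - 1)) := by
  rw [intervalIntegral.integral_of_le zero_le_one, intervalIntegral.integral_of_le zero_le_one]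
  exact setIntegral_congr_fun measurableSet_Ioc (ae_eq l s)

lemma J_eq (b l t : ℝ) (hb : b = Real.exp (-l)) (hb2 : b < 2) (ht : t ∈ Set.Icc (-1 : ℝ) 1)
    (h1 : b * (1 + t) < 2) (h2 : b * (1 - t) < 2) :
    J b t = 2 * b * ∫ v in (0:ℝ)..1, ww l v * Gam v t := by
  unfold J
  have e1 := Psi_eq b l t hb ht.1 h1
  have e2 := Psi_eq b l (-t) hb (by linarith [ht.2]) (by simpa [← sub_eq_add_neg] using h2)
  have e0 := Psi_eq b l 0 hb (by norm_num) (by simpa using hb2)
  rw [← sub_eq_add_neg] at e2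
  rw [add_zero, mul_one] at e0
  rw [e1, e2, e0, int_wG]
  have hI : ∫ v in (0:ℝ)..1, Real.exp (-v * (l + Real.log 2)) * (Real.log 2 * (Nv v t - 1)) =
      Real.log 2 * (((∫ v in (0:ℝ)..1, Real.exp (-v * (l + Real.log 2)) * (1 + t) ^ (1 + v)) +
        (∫ v in (0:ℝ)..1, Real.exp (-v * (l + Real.log 2)) * (1 - t) ^ (1 + v))) / 2 -
        (∫ v in (0:ℝ)..1, Real.exp (-v * (l + Real.log 2)) * (1 : ℝ) ^ (1 + v))) := by
    rw [← intervalIntegral.integral_add (integrable_aux _ _) (integrable_aux _ _),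
      ← intervalIntegral.integral_div, ← intervalIntegral.integral_sub,
      ← intervalIntegral.integral_const_mul]
    · apply intervalIntegral.integral_congr
      intro v _
      simp only [Nv, Real.one_rpow]
      ring
    · exact ((integrable_aux _ _).add (integrable_aux _ _)).div_const 2
    · exact integrable_aux _ _
  rw [hI]
  ring

lemma int_ww (l : ℝ) (hl : 0 < l) : ∫ v in (0:ℝ)..1, ww l v =
    (1 - Real.exp (-l)) / l - (1 - Real.exp (-(l + Real.log 2))) / (l + Real.log 2) := by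
  unfold ww
  rw [intervalIntegral.integral_sub (integrable_exp _) (integrable_exp _), int_exp _ hl.ne',
    int_exp _ (by have := log2_pos; linarith)]

lemma int_ww_nonneg (l : ℝ) : 0 ≤ ∫ v in (0:ℝ)..1, ww l v :=
  intervalIntegral.integral_nonneg zero_le_one fun v hv => ww_nonneg l v hv.1

lemma Psi_sub (b l : ℝ) (hb : b = Real.exp (-l)) (hl : 0 ≤ l) :
    Psi b - b ^ 2 = 2 * b * ((∫ v in (0:ℝ)..1, ww l v) * l) := by
  rcases hl.eq_or_lt with rfl | hl
  · have : b = 1 := by rw [hb]; simp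
    rw [this]
    simp [Psi]
    norm_num
  · rw [int_ww l hl]
    have hbpos : 0 < b := by rw [hb]; exact Real.exp_pos _
    have h2 : Real.exp (-(l + Real.log 2)) = b / 2 := by
      rw [neg_add, Real.exp_add, ← hb, Real.exp_neg, Real.exp_log (by norm_num)]
      ring
    have hlog : Real.log b = -l := by rw [hb, Real.log_exp]
    rw [h2, ← hb]
    unfold Psi
    rw [logb_inv, hlog]
    have h3 := log2_pos
    have h4 : Real.log 2 ≠ 0 := h3.ne'
    have h5 : l + Real.log 2 ≠ 0 := by linarith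
    have h6 : 1 + - -l / Real.log 2 = (l + Real.log 2) / Real.log 2 := by
      field_simp
      ring
    rw [h6]
    field_simp
    ring

/-! ### the cube -/

variable {n : ℕ}

/-- the `i`-th character -/
def chi (i : Fin n) (x : Fin n → Bool) : ℝ := if x i = true then 1 else -1

/-- flip of coordinate `i` -/
def flip (i : Fin n) : (Fin n → Bool) ≃ (Fin n → Bool) :=
  Function.Involutive.toPerm (fun x => Function.update x i (!(x i))) (by
    intro x
    ext j
    by_cases h : j = i
    · subst h; simp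
    · simp [h])

/-- complement -/
def compl : (Fin n → Bool) ≃ (Fin n → Bool) :=
  Function.Involutive.toPerm (fun x j => !(x j)) (by intro x; ext j; simp)

lemma flip_apply (i : Fin n) (x : Fin n → Bool) : flip i x = Function.update x i (!(x i)) := rfl

lemma chi_flip_same (i : Fin n) (x : Fin n → Bool) : chi i (flip i x) = -chi i x := by
  rw [flip_apply]
  unfold chi
  cases h : x i <;> simp [h]

lemma chi_flip_ne {i j : Fin n} (h : j ≠ i) (x : Fin n → Bool) : chi j (flip i x) = chi j x := by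
  rw [flip_apply]
  unfold chi
  simp [h]

lemma chi_compl (i : Fin n) (x : Fin n → Bool) : chi i (compl x) = -chi i x := by
  change chi i (fun j => !(x j)) = _
  unfold chi
  cases h : x i <;> simp [h]

lemma chi_sq (i : Fin n) (x : Fin n → Bool) : chi i x * chi i x = 1 := by
  unfold chi
  split_ifs <;> norm_num

lemma sum_chi (i : Fin n) : ∑ x, chi i x = 0 := by
  have h := Equiv.sum_comp (flip i) (chi i)
  simp_rw [chi_flip_same] at h
  rw [sum_neg_distrib] at h
  linarith

lemma sum_chi_mul {i j : Fin n} (hij : i ≠ j) : ∑ x, chi i x * chi j x = 0 := by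
  have h := Equiv.sum_comp (flip i) (fun x => chi i x * chi j x)
  simp_rw [chi_flip_same, chi_flip_ne hij.symm, neg_mul] at h
  rw [sum_neg_distrib] at h
  linarith

lemma sum_one : ∑ _x : Fin n → Bool, (1:ℝ) = 2 ^ n := by
  simp [Fintype.card_fun, Fintype.card_bool, Fintype.card_fin]

/-- the first level coefficient -/
noncomputable def co (f : (Fin n → Bool) → ℝ) (i : Fin n) : ℝ := (∑ x, f x * chi i x) / 2 ^ n

lemma hmean_sub (f : (Fin n → Bool) → ℝ) (i : Fin n) :
    hmean f i true - hmean f i false = 2 * co f i := by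
  unfold hmean co
  rw [← mul_sub, ← sub_div, ← sum_sub_distrib]
  congr 2
  refine sum_congr rfl fun x _ => ?_
  unfold chi
  cases h : x i <;> simp

lemma hmean_add (f : (Fin n → Bool) → ℝ) (i : Fin n) :
    hmean f i true + hmean f i false = 2 * mean f := by
  unfold hmean mean
  rw [← mul_add, ← add_div, ← sum_add_distrib]
  congr 2
  refine sum_congr rfl fun x _ => ?_
  cases h : x i <;> simp

lemma hmean_nonneg (f : (Fin n → Bool) → ℝ) (hf : ∀ x, 0 ≤ f x) (i : Fin n) (a : Bool) :
    0 ≤ hmean f i a := by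
  unfold hmean
  have : 0 ≤ ∑ x, (if x i = a then f x else 0) := sum_nonneg fun x _ => by
    split_ifs
    · exact hf x
    · exact le_rfl
  positivity

lemma hmean_one (i : Fin n) (a : Bool) : hmean (fun _ => (1:ℝ)) i a = 1 := by
  have h1 := hmean_sub (fun _ : Fin n → Bool => (1:ℝ)) i
  have h2 := hmean_add (fun _ : Fin n → Bool => (1:ℝ)) i
  have h3 : co (fun _ : Fin n → Bool => (1:ℝ)) i = 0 := by
    unfold co
    simp [sum_chi]
  have h4 : mean (fun _ : Fin n → Bool => (1:ℝ)) = 1 := by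
    unfold mean
    rw [sum_one]
    field_simp
  rw [h3] at h1
  rw [h4] at h2
  cases a <;> linarith

lemma hmean_le_one (f : (Fin n → Bool) → ℝ) (hf : ∀ x, f x ≤ 1) (i : Fin n) (a : Bool) :
    hmean f i a ≤ 1 := by
  rw [← hmean_one i a]
  unfold hmean
  have : ∑ x : Fin n → Bool, (if x i = a then f x else 0) ≤
      ∑ x : Fin n → Bool, (if x i = a then (1:ℝ) else 0) :=
    sum_le_sum fun x _ => by
      split_ifs
      · exact hf x
      · exact le_rfl
  gcongr

/-- the linear part -/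
noncomputable def lin (f : (Fin n → Bool) → ℝ) (x : Fin n → Bool) : ℝ := ∑ i, co f i * chi i x

lemma sum_lin (f : (Fin n → Bool) → ℝ) : ∑ x, lin f x = 0 := by
  unfold lin
  rw [sum_comm]
  refine sum_eq_zero fun i _ => ?_
  rw [← mul_sum, sum_chi, mul_zero]

lemma sum_mul_lin (f : (Fin n → Bool) → ℝ) :
    ∑ x, f x * lin f x = 2 ^ n * ∑ i, co f i ^ 2 := by
  unfold lin
  simp_rw [mul_sum]
  rw [sum_comm]
  refine sum_congr rfl fun i _ => ?_
  have : ∀ x, f x * (co f i * chi i x) = co f i * (f x * chi i x) := fun x => by ring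
  simp_rw [this, ← mul_sum]
  have h2 : ∑ x, f x * chi i x = 2 ^ n * co f i := by
    unfold co
    field_simp
  rw [h2]
  ring

lemma sum_lin_sq (f : (Fin n → Bool) → ℝ) :
    ∑ x, lin f x ^ 2 = 2 ^ n * ∑ i, co f i ^ 2 := by
  have h1 : ∀ x, lin f x ^ 2 = ∑ i, ∑ j, co f i * co f j * (chi i x * chi j x) := by
    intro x
    unfold lin
    rw [sq, sum_mul_sum]
    refine sum_congr rfl fun i _ => sum_congr rfl fun j _ => ?_
    ring
  simp_rw [h1]
  rw [sum_comm]
  rw [mul_sum]
  refine sum_congr rfl fun i _ => ?_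
  rw [sum_comm]
  rw [sum_eq_single i]
  · simp_rw [chi_sq, mul_one]
    rw [sum_const, card_univ, nsmul_eq_mul]
    simp [Fintype.card_fun, Fintype.card_bool, Fintype.card_fin]
    ring
  · intro j _ hj
    rw [← mul_sum, sum_chi_mul hj.symm, mul_zero]
  · intro h
    exact absurd (mem_univ i) h

lemma sum_eq_mean (f : (Fin n → Bool) → ℝ) : ∑ x, f x = 2 ^ n * mean f := by
  unfold mean
  field_simp

lemma sum_sq_le (f : (Fin n → Bool) → ℝ) (hf : ∀ x, 0 ≤ f x ∧ f x ≤ 1) :
    ∑ x, f x ^ 2 ≤ 2 ^ n * mean f := by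
  rw [← sum_eq_mean]
  refine sum_le_sum fun x _ => ?_
  nlinarith [(hf x).1, (hf x).2]

/-- Parseval -/
lemma parseval (f : (Fin n → Bool) → ℝ) (hf : ∀ x, 0 ≤ f x ∧ f x ≤ 1) :
    ∑ i, co f i ^ 2 ≤ mean f - mean f ^ 2 := by
  have h0 : 0 ≤ ∑ x, (f x - mean f - lin f x) ^ 2 := sum_nonneg fun x _ => sq_nonneg _
  have h1 : ∑ x, (f x - mean f - lin f x) ^ 2 =
      ∑ x, f x ^ 2 + ∑ x : Fin n → Bool, mean f ^ 2 + ∑ x, lin f x ^ 2
        - 2 * mean f * ∑ x, f x - 2 * ∑ x, f x * lin f x + 2 * mean f * ∑ x, lin f x := by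
    rw [mul_sum, mul_sum, mul_sum, ← sum_add_distrib, ← sum_add_distrib, ← sum_sub_distrib,
      ← sum_sub_distrib, ← sum_add_distrib]
    refine sum_congr rfl fun x _ => ?_
    ring
  have h2 : ∑ x : Fin n → Bool, mean f ^ 2 = 2 ^ n * mean f ^ 2 := by
    rw [sum_const, card_univ, nsmul_eq_mul]
    simp [Fintype.card_fun, Fintype.card_bool, Fintype.card_fin]
  rw [h1, h2, sum_lin_sq, sum_mul_lin, sum_lin, sum_eq_mean f] at h0
  have h3 := sum_sq_le f hf
  have h4 : (0:ℝ) < 2 ^ n := by positivity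
  have h5 : 2 ^ n * ∑ i, co f i ^ 2 ≤ 2 ^ n * (mean f - mean f ^ 2) := by nlinarith
  exact le_of_mul_le_mul_left h5 h4

/-- the odd part -/
lemma parity (f : (Fin n → Bool) → ℝ) (hf : ∀ x, 0 ≤ f x ∧ f x ≤ 1) :
    ∑ i, co f i ^ 2 ≤ mean f / 2 := by
  have h0 : 0 ≤ ∑ x, ((f x - f (compl x)) / 2 - lin f x) ^ 2 := sum_nonneg fun x _ => sq_nonneg _
  have h1 : ∑ x, ((f x - f (compl x)) / 2 - lin f x) ^ 2 =
      (∑ x, f x ^ 2 + ∑ x, f (compl x) ^ 2 - 2 * ∑ x, f x * f (compl x)) / 4
        + ∑ x, lin f x ^ 2 - ∑ x, f x * lin f x + ∑ x, f (compl x) * lin f x := by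
    rw [mul_sum, ← sum_add_distrib, ← sum_sub_distrib, sum_div, ← sum_add_distrib,
      ← sum_sub_distrib, ← sum_add_distrib]
    refine sum_congr rfl fun x _ => ?_
    ring
  have h2 : ∑ x, f (compl x) ^ 2 = ∑ x, f x ^ 2 :=
    Equiv.sum_comp compl (fun x => f x ^ 2)
  have hlin : ∀ x, lin f (compl x) = -lin f x := by
    intro x
    unfold lin
    rw [← sum_neg_distrib]
    refine sum_congr rfl fun i _ => ?_
    rw [chi_compl]
    ring
  have hcc : ∀ x : Fin n → Bool, compl (compl x) = x := fun x => by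
    change (fun j => !(!(x j))) = x
    ext j; simp
  have h3 : ∑ x, f (compl x) * lin f x = -∑ x, f x * lin f x := by
    have := Equiv.sum_comp compl (fun x => f (compl x) * lin f x)
    rw [← this, ← sum_neg_distrib]
    refine sum_congr rfl fun x _ => ?_
    rw [hcc, hlin]
    ring
  have h4 : 0 ≤ ∑ x, f x * f (compl x) := sum_nonneg fun x _ => mul_nonneg (hf x).1 (hf _).1
  rw [h1, h2, h3, sum_lin_sq, sum_mul_lin] at h0
  have h5 := sum_sq_le f hf
  have h6 : (0:ℝ) < 2 ^ n := by positivity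
  have h7 : 2 ^ n * ∑ i, co f i ^ 2 ≤ 2 ^ n * (mean f / 2) := by linarith
  exact le_of_mul_le_mul_left h7 h6

lemma mean_mul_th (f : (Fin n → Bool) → ℝ) (hm : 0 < mean f) (i : Fin n) :
    mean f * th f i = co f i := by
  unfold th
  rw [hmean_sub]
  field_simp

lemma one_add_th (f : (Fin n → Bool) → ℝ) (hm : 0 < mean f) (i : Fin n) :
    mean f * (1 + th f i) = hmean f i true := by
  have h1 := hmean_sub f i
  have h2 := hmean_add f i
  rw [mul_add, mean_mul_th f hm]
  linarith

lemma one_sub_th (f : (Fin n → Bool) → ℝ) (hm : 0 < mean f) (i : Fin n) :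
    mean f * (1 - th f i) = hmean f i false := by
  have h1 := hmean_sub f i
  have h2 := hmean_add f i
  rw [mul_sub, mean_mul_th f hm]
  linarith

lemma th_mem (f : (Fin n → Bool) → ℝ) (hf : ∀ x, 0 ≤ f x ∧ f x ≤ 1) (hm : 0 < mean f)
    (i : Fin n) : th f i ∈ Set.Icc (-1 : ℝ) 1 := by
  have h1 := one_add_th f hm i
  have h2 := one_sub_th f hm i
  have h3 := hmean_nonneg f (fun x => (hf x).1) i true
  have h4 := hmean_nonneg f (fun x => (hf x).1) i false
  rw [← h1] at h3
  rw [← h2] at h4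
  constructor
  · by_contra hc
    nlinarith
  · by_contra hc
    nlinarith

lemma mean_le_one (f : (Fin n → Bool) → ℝ) (hf : ∀ x, 0 ≤ f x ∧ f x ≤ 1) : mean f ≤ 1 := by
  have h1 : ∑ x, f x ≤ ∑ _x : Fin n → Bool, (1:ℝ) := sum_le_sum fun x _ => (hf x).2
  rw [sum_one] at h1
  unfold mean
  rw [div_le_one (by positivity)]
  exact h1

/-- `2^u ≤ 1 + u` on `[0,1]` -/
lemma two_rpow_le (u : ℝ) (h0 : 0 ≤ u) (h1 : u ≤ 1) : (2:ℝ) ^ u ≤ 1 + u := by
  have h := rpow_one_add_le_one_add_mul_self (s := 1) (by norm_num) h0 h1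
  norm_num at h
  linarith

/-- `∑ θ_i² ≤ log₂ (1/b)` for `log₂ (1/b) ≤ 2` -/
lemma sum_th_sq (f : (Fin n → Bool) → ℝ) (hf : ∀ x, 0 ≤ f x ∧ f x ≤ 1) (l : ℝ) (hl0 : 0 ≤ l)
    (hl : l ≤ 2 * Real.log 2) (hm : mean f = Real.exp (-l)) :
    Real.log 2 * ∑ i, th f i ^ 2 ≤ l := by
  have hmpos : 0 < mean f := by rw [hm]; exact Real.exp_pos _
  have hlog := log2_pos
  have hco : ∑ i, co f i ^ 2 = mean f ^ 2 * ∑ i, th f i ^ 2 := by
    rw [mul_sum]
    refine sum_congr rfl fun i _ => ?_
    rw [← mean_mul_th f hmpos i]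
    ring
  set k := l / Real.log 2 with hk
  have hlk : l = k * Real.log 2 := by rw [hk]; field_simp
  have hk0 : 0 ≤ k := by positivity
  have hk2 : k ≤ 2 := by rw [hk, div_le_iff₀ hlog]; exact hl
  have hmk : mean f = ((2:ℝ) ^ k)⁻¹ := by
    rw [hm, Real.rpow_def_of_pos (by norm_num : (0:ℝ) < 2), ← Real.exp_neg, hlk]
    congr 1
    ring
  have h2k : 0 < (2:ℝ) ^ k := by positivity
  have hS : ∑ i, th f i ^ 2 ≤ k := by
    rcases le_total k 1 with hk1 | hk1
    · have h1 := parseval f hf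
      rw [hco, hmk] at h1
      have h3 := two_rpow_le k hk0 hk1
      have h4 : ∑ i, th f i ^ 2 ≤ 2 ^ k - 1 := by
        have h5 : (((2:ℝ) ^ k)⁻¹) ^ 2 * ∑ i, th f i ^ 2 ≤
            (((2:ℝ) ^ k)⁻¹) ^ 2 * (2 ^ k - 1) := by
          refine h1.trans (le_of_eq ?_)
          field_simp
        exact le_of_mul_le_mul_left h5 (by positivity)
      linarith
    · have h1 := parity f hf
      rw [hco, hmk] at h1
      have h3 := two_rpow_le (k - 1) (by linarith) (by linarith)
      have h4 : ∑ i, th f i ^ 2 ≤ 2 ^ (k - 1) := by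
        have h6 : (2:ℝ) ^ (k - 1) = 2 ^ k / 2 := by
          rw [Real.rpow_sub (by norm_num), Real.rpow_one]
        rw [h6]
        have h5 : (((2:ℝ) ^ k)⁻¹) ^ 2 * ∑ i, th f i ^ 2 ≤
            (((2:ℝ) ^ k)⁻¹) ^ 2 * (2 ^ k / 2) := by
          refine h1.trans (le_of_eq ?_)
          field_simp
        exact le_of_mul_le_mul_left h5 (by positivity)
      linarith
  rw [hlk]
  nlinarith

end M2p

open M2p

theorem m2 : M2 := by
  intro ep htraj h7 hmain havg n f hf hm
  set b := mean f with hb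
  have hb1 : b ≤ 1 := mean_le_one f hf
  set l := -Real.log b with hl
  have hbl : b = Real.exp (-l) := by rw [hl, neg_neg, Real.exp_log hm]
  have hl0 : 0 ≤ l := by
    have := Real.log_nonpos hm.le hb1
    linarith
  have hth : ∀ i, th f i ∈ Set.Icc (-1 : ℝ) 1 := fun i => th_mem f hf hm i
  have hJ : ∀ i, J b (th f i) = 2 * b * ∫ v in (0:ℝ)..1, ww l v * Gam v (th f i) := by
    intro i
    apply J_eq b l (th f i) hbl (by linarith) (hth i)
    · rw [hb, one_add_th f hm i]
      linarith [hmean_le_one f (fun x => (hf x).2) i true]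
    · rw [hb, one_sub_th f hm i]
      linarith [hmean_le_one f (fun x => (hf x).2) i false]
  have hW := int_ww_nonneg l
  rw [Psi_sub b l hbl hl0]
  simp_rw [hJ]
  rw [← mul_sum]
  apply mul_le_mul_of_nonneg_left _ (by positivity)
  rcases le_total (2 * Real.log 2) l with hl2 | hl2
  · have h1 : ∀ i, ∫ v in (0:ℝ)..1, ww l v * Gam v (th f i) ≤
        (∫ v in (0:ℝ)..1, ww l v) * Gam (ep l) (th f i) := by
      intro i
      exact havg l (th f i) hl2 (hth i)
    refine (sum_le_sum fun i _ => h1 i).trans ?_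
    rw [← mul_sum]
    exact mul_le_mul_of_nonneg_left (hmain n f l hf hl2 hbl) hW
  · have h1 : ∀ i, ∫ v in (0:ℝ)..1, ww l v * Gam v (th f i) ≤
        (∫ v in (0:ℝ)..1, ww l v) * (Real.log 2 * th f i ^ 2) := by
      intro i
      rw [← intervalIntegral.integral_mul_const]
      apply intervalIntegral.integral_mono_on_of_le_Ioo zero_le_one (integrable_wG l _)
        (((ww_cont l).mul continuous_const).intervalIntegrable _ _)
      intro v hv
      apply mul_le_mul_of_nonneg_left _ (ww_nonneg l v hv.1.le)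
      refine (h7.1 v 1 (th f i) hv.1 hv.2.le le_rfl (hth i)).trans (le_of_eq ?_)
      unfold Gam Nv
      norm_num
      ring
    refine (sum_le_sum fun i _ => h1 i).trans ?_
    rw [← mul_sum, ← mul_sum]
    exact mul_le_mul_of_nonneg_left (sum_th_sq f hf l hl0 hl2 hbl) hW

end Pool.Agent.H58.Tal
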