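import Mathlib
import Pool.Agent.H58.Tal.Defs

set_option autoImplicit false

open Real

namespace Pool.Agent.H58.Tal.M4

variable {E S : ℝ → ℝ} {l f v : ℝ}

theorem hasDerivAt_pow_e (hE : HasDerivAt E (-f) l) (hS : HasDerivAt S v l) (h1 : 0 < 1 + S l) :
    HasDerivAt (fun x => (1 + S x) ^ (E x))
      ((1 + S l) ^ (E l) * (E l * v / (1 + S l) - f * log (1 + S l))) l := by
  have h := (hS.const_add 1).rpow hE h1
  convert h using 1
  rw [rpow_sub_one h1.ne']
  ring

theorem hasDerivAt_pow_e' (hE : HasDerivAt E (-f) l) (hS : HasDerivAt S v l) (h1 : 0 < 1 - S l) :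
    HasDerivAt (fun x => (1 - S x) ^ (E x))
      ((1 - S l) ^ (E l) * (-(E l * v / (1 - S l)) - f * log (1 - S l))) l := by
  have h := (hS.const_sub 1).rpow hE h1
  convert h using 1
  rw [rpow_sub_one h1.ne']
  ring

theorem hasDerivAt_A (hE : HasDerivAt E (-f) l) (hS : HasDerivAt S v l) (h1 : 0 < 1 + S l) :
    HasDerivAt (fun x => (1 + S x) ^ (1 + E x))
      ((1 + E l) * (1 + S l) ^ (E l) * v - f * ((1 + S l) ^ (1 + E l) * log (1 + S l))) l := by
  have h := (hS.const_add 1).rpow (hE.const_add 1) h1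
  convert h using 1
  rw [show (1 + E l - 1) = E l by ring]
  ring

theorem hasDerivAt_B (hE : HasDerivAt E (-f) l) (hS : HasDerivAt S v l) (h1 : 0 < 1 - S l) :
    HasDerivAt (fun x => (1 - S x) ^ (1 + E x))
      (-((1 + E l) * (1 - S l) ^ (E l) * v) - f * ((1 - S l) ^ (1 + E l) * log (1 - S l))) l := by
  have h := (hS.const_sub 1).rpow (hE.const_add 1) h1
  convert h using 1
  rw [show (1 + E l - 1) = E l by ring]
  ring

theorem hasDerivAt_Nv (hE : HasDerivAt E (-f) l) (hS : HasDerivAt S v l) (h1 : 0 < 1 + S l)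
    (h2 : 0 < 1 - S l) :
    HasDerivAt (fun x => Nv (E x) (S x))
      ((1 + E l) * ((1 + S l) ^ (E l) - (1 - S l) ^ (E l)) / 2 * v - f * nn1 (E l) (S l)) l := by
  have h := ((hasDerivAt_A hE hS h1).add (hasDerivAt_B hE hS h2)).div_const 2
  unfold Nv nn1
  refine h.congr_deriv ?_
  ring

theorem hasDerivAt_nn1 (hE : HasDerivAt E (-f) l) (hS : HasDerivAt S v l) (h1 : 0 < 1 + S l)
    (h2 : 0 < 1 - S l) :
    HasDerivAt (fun x => nn1 (E x) (S x))
      (((1 + E l) * ((1 + S l) ^ (E l) * log (1 + S l) - (1 - S l) ^ (E l) * log (1 - S l))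
        + ((1 + S l) ^ (E l) - (1 - S l) ^ (E l))) / 2 * v - f * nn2 (E l) (S l)) l := by
  have hla : HasDerivAt (fun x => log (1 + S x)) (v / (1 + S l)) l :=
    (hS.const_add 1).log h1.ne'
  have hlb : HasDerivAt (fun x => log (1 - S x)) (-v / (1 - S l)) l :=
    (hS.const_sub 1).log h2.ne'
  have h := (((hasDerivAt_A hE hS h1).mul hla).add ((hasDerivAt_B hE hS h2).mul hlb)).div_const 2
  unfold nn1 nn2
  refine h.congr_deriv ?_
  rw [show (1 + S l) ^ (1 + E l) = (1 + S l) * (1 + S l) ^ (E l) by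
      rw [rpow_add h1, rpow_one],
    show (1 - S l) ^ (1 + E l) = (1 - S l) * (1 - S l) ^ (E l) by
      rw [rpow_add h2, rpow_one]]
  field_simp
  ring

/-- `R = 2^ε` -/
theorem hasDerivAt_R (hE : HasDerivAt E (-f) l) :
    HasDerivAt (fun x => (2 : ℝ) ^ (E x)) (-(log 2 * f * 2 ^ (E l))) l := by
  have h := hE.const_rpow (a := 2) (by norm_num)
  convert h using 1
  ring

noncomputable def KK (e : ℝ) : ℝ := ((2 : ℝ) ^ e - 1) / (((2 : ℝ) ^ e) ^ 2 * (1 + e))

noncomputable def YY (e s : ℝ) : ℝ :=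
  ((Nv e s - 1) * (log 2 * 2 ^ e) - (2 ^ e - 1) * nn1 e s) / ((2 ^ e) ^ 2 * (1 + e) ^ 2)

theorem hasDerivAt_KK (hE : HasDerivAt E (-f) l) (he : 0 < E l) :
    HasDerivAt (fun x => KK (E x))
      (-f * (log 2 / (2 ^ (E l) * (1 + E l)) - (2 * log 2 + 1 / (1 + E l)) * KK (E l))) l := by
  have hR := hasDerivAt_R hE
  have hRpos : (0 : ℝ) < 2 ^ (E l) := by positivity
  have he1 : 1 + E l ≠ 0 := by linarith
  have h := (hR.sub_const 1).div ((hR.pow 2).mul (hE.const_add 1))
    (mul_ne_zero (pow_ne_zero 2 hRpos.ne') he1)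
  unfold KK
  refine h.congr_deriv ?_
  simp only [Pi.mul_apply, Pi.pow_apply, Nat.cast_ofNat, Nat.add_one_sub_one, pow_one]
  field_simp
  ring

theorem hasDerivAt_YY (hE : HasDerivAt E (-f) l) (hS : HasDerivAt S v l) (h1 : 0 < 1 + S l)
    (h2 : 0 < 1 - S l) (he : 0 < E l) :
    HasDerivAt (fun x => YY (E x) (S x))
      (-f * (((Nv (E l) (S l) - 1) * log 2 ^ 2 * 2 ^ (E l) - (2 ^ (E l) - 1) * nn2 (E l) (S l))
          / ((2 ^ (E l)) ^ 2 * (1 + E l) ^ 2) - (2 * log 2 + 2 / (1 + E l)) * YY (E l) (S l))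
        + v * (log 2 * ((1 + S l) ^ (E l) - (1 - S l) ^ (E l)) / (2 * 2 ^ (E l) * (1 + E l))
          - KK (E l) * ((1 + S l) ^ (E l) * log (1 + S l) - (1 - S l) ^ (E l) * log (1 - S l)) / 2
          - KK (E l) * ((1 + S l) ^ (E l) - (1 - S l) ^ (E l)) / (2 * (1 + E l)))) l := by
  have hR := hasDerivAt_R hE
  have hRpos : (0 : ℝ) < 2 ^ (E l) := by positivity
  have hN := hasDerivAt_Nv hE hS h1 h2
  have hn := hasDerivAt_nn1 hE hS h1 h2
  have h := (((hN.sub_const 1).mul (hR.const_mul (log 2))).sub ((hR.sub_const 1).mul hn)).div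
    ((hR.pow 2).mul ((hE.const_add 1).pow 2))
    (mul_ne_zero (pow_ne_zero 2 hRpos.ne') (pow_ne_zero 2 (by linarith)))
  unfold YY KK
  refine h.congr_deriv ?_
  simp only [Pi.pow_apply, Pi.sub_apply, Pi.mul_apply, Nat.cast_ofNat, Nat.add_one_sub_one, pow_one]
  generalize (1 + S l) ^ (E l) = α
  generalize (1 - S l) ^ (E l) = β
  generalize log (1 + S l) = la
  generalize log (1 - S l) = lb
  generalize nn1 (E l) (S l) = n1
  generalize nn2 (E l) (S l) = n2
  generalize Nv (E l) (S l) = n0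
  generalize log 2 = τ
  have hRne : (2 : ℝ) ^ (E l) ≠ 0 := hRpos.ne'
  generalize (2 : ℝ) ^ (E l) = R at *
  have he1 : 1 + E l ≠ 0 := by linarith
  field_simp
  ring

/-- the function `F'/(τ Z')` -/
noncomputable def HH (w : ℝ) (E S φ : ℝ → ℝ) (x : ℝ) : ℝ :=
  w * KK (E x) * (((1 + S x) ^ (E x) - (1 - S x) ^ (E x)) / 2) + exp (-x) * φ x * YY (E x) (S x)

theorem hasDerivAt_HH {w c1 c2 : ℝ} {φ : ℝ → ℝ} (hE : HasDerivAt E (-f) l) (hS : HasDerivAt S v l)
    (h1 : 0 < 1 + S l) (h2 : 0 < 1 - S l) (he : 0 < E l) (hf : φ l = f) (hw : v = w * exp l)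
    (hφ : HasDerivAt φ (-f * (f * (c1 + 2 * E l / (1 + E l)) / E l - 1)) l)
    (hc2 : c2 * (2 ^ (E l) - 1) = c1 * log 2 - E l * log 2 ^ 2) :
    HasDerivAt (HH w E S φ)
      (exp (-l) *
        ((KK (E l) * E l * ((1 + S l) ^ (E l) / (1 + S l) + (1 - S l) ^ (E l) / (1 - S l)) / 2) * v ^ 2
          + KK (E l) * ((1 + S l) ^ (E l) * (log 2 - log (1 + S l))
              - (1 - S l) ^ (E l) * (log 2 - log (1 - S l))) * v * f
          + (KK (E l) * (E l * nn2 (E l) (S l) + (c1 - 2 * E l * log 2) * nn1 (E l) (S l)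
              - 2 ^ (E l) * c2 * (Nv (E l) (S l) - 1)) / (E l * (1 + E l))) * f ^ 2)) l := by
  have hRpos : (0 : ℝ) < 2 ^ (E l) := by positivity
  have hR1 : (1 : ℝ) < 2 ^ (E l) := Real.one_lt_rpow (by norm_num) he
  have hK := hasDerivAt_KK hE he
  have hY := hasDerivAt_YY hE hS h1 h2 he
  have ha := hasDerivAt_pow_e hE hS h1
  have hb := hasDerivAt_pow_e' hE hS h2
  have hexp : HasDerivAt (fun x : ℝ => exp (-x)) (-exp (-l)) l := by
    have := (hasDerivAt_neg l).exp
    refine this.congr_deriv ?_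
    ring
  have h := ((hK.const_mul w).mul ((ha.sub hb).div_const 2)).add ((hexp.mul hφ).mul hY)
  have hw' : w = v * exp (-l) := by
    rw [hw, mul_assoc, ← exp_add]
    simp
  unfold HH
  refine h.congr_deriv ?_
  simp only [Pi.mul_apply, Pi.sub_apply]
  rw [hf]
  have hc2' : c2 = (c1 * log 2 - E l * log 2 ^ 2) / (2 ^ (E l) - 1) := by
    rw [eq_div_iff (by linarith), hc2]
  rw [hc2', hw']
  unfold YY KK
  generalize (1 + S l) ^ (E l) = α
  generalize (1 - S l) ^ (E l) = β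
  generalize log (1 + S l) = la
  generalize log (1 - S l) = lb
  generalize nn1 (E l) (S l) = n1
  generalize nn2 (E l) (S l) = n2
  generalize Nv (E l) (S l) = n0
  generalize log 2 = τ
  generalize exp (-l) = m
  have hRne : (2 : ℝ) ^ (E l) ≠ 0 := hRpos.ne'
  have hR1' : (2 : ℝ) ^ (E l) - 1 ≠ 0 := by linarith
  generalize (2 : ℝ) ^ (E l) = R at *
  have he0 : E l ≠ 0 := he.ne'
  have he1 : 1 + E l ≠ 0 := by linarith
  generalize E l = e at *
  have h1' : 1 + S l ≠ 0 := h1.ne'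
  have h2' : 1 - S l ≠ 0 := h2.ne'
  generalize S l = s at *
  clear h hK hY ha hb hexp hφ
  field_simp
  ring

/-! ### algebra -/

theorem alg1 (s α β la lb τ : ℝ) (hα : α ≠ 0) (hβ : β ≠ 0) :
    ((1 + s) / α + (1 - s) / β) / 2 *
      (τ ^ 2 * ((α * (1 + s) + β * (1 - s)) / 2) - 2 * τ * ((α * (1 + s) * la + β * (1 - s) * lb) / 2)
        + (α * (1 + s) * la ^ 2 + β * (1 - s) * lb ^ 2) / 2) =
    (τ - ((1 + s) * la + (1 - s) * lb) / 2) ^ 2
      + (1 - s ^ 2) * (α * (τ - la) - β * (τ - lb)) ^ 2 / (4 * α * β) := by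
  field_simp
  ring

theorem alg2 (e s α β la lb τ R c1 c2 : ℝ) (hα : α ≠ 0) (hβ : β ≠ 0)
    (hc2 : c2 * (R - 1) = c1 * τ - e * τ ^ 2) :
    (1 + e) * (τ - ((1 + s) * la + (1 - s) * lb) / 2) ^ 2 -
      ((1 + s) / α + (1 - s) / β) / 2 *
      ((1 + e) * τ ^ 2 + (τ ^ 2 + c1 * τ + c2) * ((α * (1 + s) + β * (1 - s)) / 2 - 1)
        - (2 * τ + c1) * ((α * (1 + s) * la + β * (1 - s) * lb) / 2)
        + (α * (1 + s) * la ^ 2 + β * (1 - s) * lb ^ 2) / 2) =
    ((1 + s) / α + (1 - s) / β) / 2 *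
      (e * ((α * (1 + s) * la ^ 2 + β * (1 - s) * lb ^ 2) / 2)
        + (c1 - 2 * e * τ) * ((α * (1 + s) * la + β * (1 - s) * lb) / 2)
        - R * c2 * ((α * (1 + s) + β * (1 - s)) / 2 - 1))
      - (1 + e) * ((1 - s ^ 2) * (α * (τ - la) - β * (τ - lb)) ^ 2 / (4 * α * β)) := by
  have h := alg1 s α β la lb τ hα hβ
  linear_combination (-(1 + e)) * h + (((1 + s) / α + (1 - s) / β) / 2) *
    ((α * (1 + s) + β * (1 - s)) / 2 - 1) * hc2

theorem quad_nonneg {a b c u z : ℝ} (ha : 0 < a) (hd : b ^ 2 ≤ 4 * a * c) :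
    0 ≤ a * u ^ 2 + b * u * z + c * z ^ 2 := by
  have h : 0 ≤ 4 * a * (a * u ^ 2 + b * u * z + c * z ^ 2) := by
    have : 4 * a * (a * u ^ 2 + b * u * z + c * z ^ 2) = (2 * a * u + b * z) ^ 2 + z ^ 2 * (4 * a * c - b ^ 2) := by
      ring
    rw [this]
    have h1 : 0 ≤ z ^ 2 * (4 * a * c - b ^ 2) := mul_nonneg (sq_nonneg z) (by linarith)
    have h2 : 0 ≤ (2 * a * u + b * z) ^ 2 := sq_nonneg _
    linarith
  by_contra hcon
  push Not at hcon
  have : 4 * a * (a * u ^ 2 + b * u * z + c * z ^ 2) < 0 := mul_neg_of_pos_of_neg (by linarith) hcon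
  linarith

/-! ### `Star` for negative `s` too -/

theorem mm_neg (e s : ℝ) : mm e (-s) = mm e s := by
  unfold mm
  rw [show (1 + -s) = 1 - s by ring, show (1 - -s) = 1 + s by ring]
  ring

theorem Nv_neg (e s : ℝ) : Nv e (-s) = Nv e s := by
  unfold Nv
  rw [show (1 + -s) = 1 - s by ring, show (1 - -s) = 1 + s by ring]
  ring

theorem nn1_neg (e s : ℝ) : nn1 e (-s) = nn1 e s := by
  unfold nn1
  rw [show (1 + -s) = 1 - s by ring, show (1 - -s) = 1 + s by ring]
  ring

theorem nn2_neg (e s : ℝ) : nn2 e (-s) = nn2 e s := by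
  unfold nn2
  rw [show (1 + -s) = 1 - s by ring, show (1 - -s) = 1 + s by ring]
  ring

theorem Dn_neg (s : ℝ) : Dn (-s) = Dn s := by
  unfold Dn
  rw [show (1 + -s) = 1 - s by ring, show (1 - -s) = 1 + s by ring]
  ring

theorem star_all (hstar : Star) {e s : ℝ} (he : 0 < e) (he1 : e ≤ 966 / 1000) (h1 : -1 < s)
    (h2 : s < 1) : mm e s * TT e s ≤ (1 + e) * (Real.log 2 - Dn s) ^ 2 := by
  rcases le_total 0 s with h | h
  · exact hstar e s he he1 h h2
  · have := hstar e (-s) he he1 (by linarith) (by linarith)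
    rw [mm_neg, Dn_neg] at this
    unfold TT at this ⊢
    rwa [Nv_neg, nn1_neg, nn2_neg] at this

/-- positivity of the discriminant form -/
theorem disc (hstar : Star) {e s : ℝ} (he : 0 < e) (he1 : e ≤ 966 / 1000) (h1 : 0 < 1 + s)
    (h2 : 0 < 1 - s) :
    (KK e * ((1 + s) ^ e * (log 2 - log (1 + s)) - (1 - s) ^ e * (log 2 - log (1 - s)))) ^ 2 ≤
      4 * (KK e * e * ((1 + s) ^ e / (1 + s) + (1 - s) ^ e / (1 - s)) / 2) *
        (KK e * (e * nn2 e s + (c1 e - 2 * e * log 2) * nn1 e s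
              - 2 ^ e * c2 e * (Nv e s - 1)) / (e * (1 + e))) := by
  have hst := star_all hstar he he1 (by linarith) (by linarith)
  have hR1 : (1 : ℝ) < 2 ^ e := Real.one_lt_rpow (by norm_num) he
  have hα : 0 < (1 + s) ^ e := by positivity
  have hβ : 0 < (1 - s) ^ e := by positivity
  have e1 : (1 + s) ^ (1 + e) = (1 + s) ^ e * (1 + s) := by
    rw [rpow_add h1, rpow_one, mul_comm]
  have e2 : (1 - s) ^ (1 + e) = (1 - s) ^ e * (1 - s) := by
    rw [rpow_add h2, rpow_one, mul_comm]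
  have e3 : (1 + s) ^ (1 - e) = (1 + s) / (1 + s) ^ e := by
    rw [rpow_sub h1, rpow_one]
  have e4 : (1 - s) ^ (1 - e) = (1 - s) / (1 - s) ^ e := by
    rw [rpow_sub h2, rpow_one]
  have hc2 : c2 e * (2 ^ e - 1) = c1 e * log 2 - e * log 2 ^ 2 := by
    unfold c2
    rw [div_mul_cancel₀]
    linarith
  have hid := alg2 e s ((1 + s) ^ e) ((1 - s) ^ e) (log (1 + s)) (log (1 - s)) (log 2) (2 ^ e)
    (c1 e) (c2 e) hα.ne' hβ.ne' hc2
  unfold mm TT Dn nn1 nn2 Nv at hst
  rw [e1, e2, e3, e4] at hst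
  unfold nn1 nn2 Nv
  rw [e1, e2]
  set α := (1 + s) ^ e
  set β := (1 - s) ^ e
  set la := log (1 + s)
  set lb := log (1 - s)
  set τ := log 2
  set R := (2 : ℝ) ^ e
  set C3 := e * ((α * (1 + s) * la ^ 2 + β * (1 - s) * lb ^ 2) / 2)
        + (c1 e - 2 * e * τ) * ((α * (1 + s) * la + β * (1 - s) * lb) / 2)
        - R * c2 e * ((α * (1 + s) + β * (1 - s)) / 2 - 1) with hC3
  have hkey : (1 + e) * ((1 - s ^ 2) * (α * (τ - la) - β * (τ - lb)) ^ 2 / (4 * α * β)) ≤
      ((1 + s) / α + (1 - s) / β) / 2 * C3 := by linarith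
  have hK : 0 < KK e := by
    unfold KK
    have : 0 < (2 : ℝ) ^ e - 1 := by linarith
    positivity
  have hs2 : 0 < 1 - s ^ 2 := by
    have h9 : (1 + s) * (1 - s) = 1 - s ^ 2 := by ring
    rw [← h9]
    exact mul_pos h1 h2
  have hfac : 0 < KK e ^ 2 * (4 * α * β) / ((1 + e) * (1 - s ^ 2)) := by
    positivity
  have := mul_le_mul_of_nonneg_left hkey hfac.le
  have h3 : 1 - s ^ 2 ≠ 0 := hs2.ne'
  have h4 : (1 + s) ≠ 0 := h1.ne'
  have h5 : (1 - s) ≠ 0 := h2.ne'
  have l1 : KK e ^ 2 * (4 * α * β) / ((1 + e) * (1 - s ^ 2)) *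
      ((1 + e) * ((1 - s ^ 2) * (α * (τ - la) - β * (τ - lb)) ^ 2 / (4 * α * β))) =
      (KK e * (α * (τ - la) - β * (τ - lb))) ^ 2 := by
    field_simp
  have l2 : KK e ^ 2 * (4 * α * β) / ((1 + e) * (1 - s ^ 2)) *
      (((1 + s) / α + (1 - s) / β) / 2 * C3) =
      4 * (KK e * e * (α / (1 + s) + β / (1 - s)) / 2) * (KK e * C3 / (e * (1 + e))) := by
    rw [show 1 - s ^ 2 = (1 + s) * (1 - s) by ring]
    field_simp
    ring
  rw [l1, l2] at this
  exact this

/-! ### the trajectory -/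

theorem ac_pos : 0 < ac := by
  unfold ac
  have := Real.log_two_lt_d9
  linarith

theorem gg_pos {e : ℝ} (he : 0 < e) (he1 : e < 1) : 0 < gg e := by
  unfold gg
  have h1 : e ^ 3 ≤ e ^ 2 := pow_le_pow_of_le_one he.le he1.le (by norm_num)
  nlinarith [sq_nonneg (e - 105 / 74)]

theorem hasDerivAt_ff {e : ℝ} (he : 0 < e) (hlt : e < 1) :
    HasDerivAt ff (ff e * (c1 e + 2 * e / (1 + e)) / e - 1) e := by
  have hg : HasDerivAt gg (gg' e) e := by
    unfold gg
    have h := ((((hasDerivAt_id e).const_mul (21 / 20 : ℝ)).const_sub 1).add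
      (((hasDerivAt_id e).pow 2).const_mul (59 / 100 : ℝ))).sub
      (((hasDerivAt_id e).pow 3).const_mul (11 / 50 : ℝ))
    refine h.congr_deriv ?_
    unfold gg'
    simp
    ring
  have hn : HasDerivAt (fun x : ℝ => ac * x ^ 2) (ac * (2 * e)) e := by
    have h := (((hasDerivAt_id e).pow 2).const_mul ac)
    refine h.congr_deriv ?_
    simp
  have h := hn.div hg (gg_pos he hlt).ne'
  unfold ff
  refine h.congr_deriv ?_
  unfold c1
  have h1 := ac_pos.ne'
  have h2 := (gg_pos he hlt).ne'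
  have h3 : e ≠ 0 := he.ne'
  have h4 : 1 + e ≠ 0 := by linarith
  generalize gg e = g at *
  field_simp
  ring

variable {ep : ℝ → ℝ}

theorem Traj.l_gt {l : ℝ} (hl : 2 * Real.log 2 ≤ l) : 27 / 20 < l := by
  have := Real.log_two_gt_d9
  linarith

theorem continuousOn_Zp (hT : Traj ep) : ContinuousOn (Zp ep) (Set.Ioi (27 / 20)) := by
  have hc : ContinuousOn ep (Set.Ioi (27 / 20)) := fun x hx =>
    ((hT.deriv x hx).continuousAt).continuousWithinAt
  unfold Zp g0
  refine Real.continuous_exp.continuousOn.div ?_ ?_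
  · refine ContinuousOn.pow ?_ 2
    refine ContinuousOn.div ?_ (continuousOn_const.add hc) ?_
    · refine continuousOn_const.sub ?_
      exact ContinuousOn.rpow continuousOn_const hc.neg (fun x _ => Or.inl (by norm_num))
    · intro x hx
      have := hT.pos x hx
      linarith
  · intro x hx
    have h1 := hT.pos x hx
    have h2 : (2 : ℝ) ^ (-ep x) < 1 := Real.rpow_lt_one_of_one_lt_of_neg (by norm_num) (by linarith)
    have h3 : 0 < (1 - (2 : ℝ) ^ (-ep x)) / (1 + ep x) := div_pos (by linarith) (by linarith)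
    positivity

theorem Zp_pos (hT : Traj ep) {x : ℝ} (hx : 27 / 20 < x) : 0 < Zp ep x := by
  have h1 := hT.pos x hx
  have h2 : (2 : ℝ) ^ (-ep x) < 1 := Real.rpow_lt_one_of_one_lt_of_neg (by norm_num) (by linarith)
  have h3 : 0 < (1 - (2 : ℝ) ^ (-ep x)) / (1 + ep x) := div_pos (by linarith) (by linarith)
  unfold Zp g0
  positivity

theorem hasDerivAt_int (hT : Traj ep) {l x : ℝ} (hl : 27 / 20 < l) (hx : 27 / 20 < x) :
    HasDerivAt (fun y => ∫ z in l..y, Zp ep z) (Zp ep x) x := by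
  have hc := continuousOn_Zp hT
  refine intervalIntegral.integral_hasDerivAt_right ?_ ?_ ?_
  · refine (hc.mono ?_).intervalIntegrable
    intro z hz
    have h1 := hz.1
    exact lt_of_lt_of_le (lt_min hl hx) h1
  · exact hc.stronglyMeasurableAtFilter isOpen_Ioi x hx
  · exact hc.continuousAt (isOpen_Ioi.mem_nhds hx)

theorem hasDerivAt_F (hT : Traj ep) {S : ℝ → ℝ} {w v x : ℝ} (hx : 27 / 20 < x)
    (hS : HasDerivAt S v x) (h1 : 0 < 1 + S x) (h2 : 0 < 1 - S x) (hw : v = w * exp x) :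
    HasDerivAt (fun y => Gam (ep y) (S y))
      (Real.log 2 * HH w ep S (fun z => ff (ep z)) x * Zp ep x) x := by
  have hE := hT.deriv x hx
  have he := hT.pos x hx
  have hR := hasDerivAt_R hE
  have hN := hasDerivAt_Nv hE hS h1 h2
  have hR1 : (1 : ℝ) < 2 ^ (ep x) := Real.one_lt_rpow (by norm_num) he
  have h := ((hN.sub_const 1).const_mul (Real.log 2)).div (hR.sub_const 1) (by linarith)
  unfold Gam
  refine h.congr_deriv ?_
  have hneg : (2 : ℝ) ^ (-ep x) = 1 / 2 ^ (ep x) := by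
    rw [Real.rpow_neg (by norm_num), one_div]
  unfold HH Zp g0 KK YY
  beta_reduce
  rw [hneg]
  have hem : exp (-x) = 1 / exp x := by rw [Real.exp_neg, one_div]
  rw [hem]
  have hw' : w = v / exp x := by rw [hw]; field_simp
  rw [hw']
  have hex := (Real.exp_pos x).ne'
  generalize exp x = X at *
  generalize (1 + S x) ^ (ep x) = α
  generalize (1 - S x) ^ (ep x) = β
  generalize nn1 (ep x) (S x) = n1
  generalize Nv (ep x) (S x) = n0
  generalize Real.log 2 = τ
  have hRpos : (0 : ℝ) < 2 ^ (ep x) := by positivity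
  have hRne : (2 : ℝ) ^ (ep x) ≠ 0 := hRpos.ne'
  have hR1' : (2 : ℝ) ^ (ep x) - 1 ≠ 0 := by linarith
  generalize (2 : ℝ) ^ (ep x) = R at *
  have he1 : 1 + ep x ≠ 0 := by linarith
  generalize ff (ep x) = f at *
  have h5 : 1 - 1 / R ≠ 0 := by
    have : 1 - 1 / R = (R - 1) / R := by field_simp
    rw [this]
    exact div_ne_zero hR1' hRne
  have h6 : 1 - 1 / R = (R - 1) / R := by field_simp
  rw [h6]
  field_simp
  ring

theorem hasDerivAt_H (hT : Traj ep) (hstar : Star) {S : ℝ → ℝ} {w v x : ℝ}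
    (hx : 2 * Real.log 2 ≤ x)
    (hS : HasDerivAt S v x) (h1 : 0 < 1 + S x) (h2 : 0 < 1 - S x) (hw : v = w * exp x) :
    ∃ D, 0 ≤ D ∧ HasDerivAt (HH w ep S (fun z => ff (ep z))) D x := by
  have hx' := Traj.l_gt hx
  have hE := hT.deriv x hx'
  have he := hT.pos x hx'
  have hR1 : (1 : ℝ) < 2 ^ (ep x) := Real.one_lt_rpow (by norm_num) he
  have hφ : HasDerivAt (fun z => ff (ep z))
      (-ff (ep x) * (ff (ep x) * (c1 (ep x) + 2 * ep x / (1 + ep x)) / ep x - 1)) x := by
    have h := (hasDerivAt_ff he (hT.lt_one x hx')).comp x hE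
    refine h.congr_deriv ?_
    ring
  have hc2 : c2 (ep x) * (2 ^ (ep x) - 1) = c1 (ep x) * log 2 - ep x * log 2 ^ 2 := by
    unfold c2
    rw [div_mul_cancel₀]
    linarith
  refine ⟨_, ?_, hasDerivAt_HH hE hS h1 h2 he rfl hw hφ hc2⟩
  refine mul_nonneg (Real.exp_pos _).le ?_
  have hK : 0 < KK (ep x) := by
    unfold KK
    have : 0 < (2 : ℝ) ^ (ep x) - 1 := by linarith
    positivity
  have hα : 0 < (1 + S x) ^ (ep x) := by positivity
  have hβ : 0 < (1 - S x) ^ (ep x) := by positivity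
  exact quad_nonneg (by positivity) (disc hstar he (hT.le x hx) h1 h2)

/-- the inequality for interior points -/
theorem cl2_interior (hT : Traj ep) (hstar : Star) {l t x y : ℝ} (ht0 : 0 < t) (ht1 : t < 1)
    (hl : 2 * Real.log 2 ≤ l - Real.log (1 + t)) (hx : x ∈ Set.Ioo (-1 : ℝ) 1)
    (hy : y ∈ Set.Ioo (-1 : ℝ) 1) :
    Gam (ep l) ((1 + t) / 2 * x + (1 - t) / 2 * y) ≤
        gam0 ep l t * Gam (ep (l - Real.log (1 + t))) x +
          (1 - gam0 ep l t) * Gam (ep (l - Real.log (1 - t))) y := by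
  set l0 := l - Real.log (1 + t) with hl0
  set l1 := l - Real.log (1 - t) with hl1
  have hlog1 : 0 < Real.log (1 + t) := Real.log_pos (by linarith)
  have hlog2 : Real.log (1 - t) < 0 := Real.log_neg (by linarith) (by linarith)
  have h01 : l0 < l := by linarith
  have h12 : l < l1 := by linarith
  have hl0' : 27 / 20 < l0 := Traj.l_gt hl
  have ee0 : exp l0 = exp l / (1 + t) := by
    rw [hl0, Real.exp_sub, Real.exp_log (by linarith)]
  have ee1 : exp l1 = exp l / (1 - t) := by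
    rw [hl1, Real.exp_sub, Real.exp_log (by linarith)]
  have hepos := Real.exp_pos l
  have hlt : exp l0 < exp l1 := Real.exp_lt_exp.2 (by linarith)
  set w : ℝ := (y - x) / (exp l1 - exp l0) with hw
  set S : ℝ → ℝ := fun z => w * exp z + (x - w * exp l0) with hSdef
  have hwmul : w * (exp l1 - exp l0) = y - x := by
    rw [hw]
    field_simp [(by linarith : exp l1 - exp l0 ≠ 0)]
  have hS0 : S l0 = x := by simp [hSdef]
  have hS1 : S l1 = y := by
    simp only [hSdef]
    linarith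
  have hSl : S l = (1 + t) / 2 * x + (1 - t) / 2 * y := by
    have h1 : (1 + t) / 2 * exp l0 + (1 - t) / 2 * exp l1 = exp l := by
      rw [ee0, ee1]
      have : 1 + t ≠ 0 := by linarith
      have : 1 - t ≠ 0 := by linarith
      field_simp
      ring
    rw [← hS0, ← hS1]
    simp only [hSdef]
    rw [← h1]
    ring
  have hSd : ∀ z, HasDerivAt S (w * exp z) z := by
    intro z
    exact ((Real.hasDerivAt_exp z).const_mul w).add_const _
  have hSin : ∀ z ∈ Set.Icc l0 l1, 0 < 1 + S z ∧ 0 < 1 - S z := by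
    intro z hz
    have e1 : exp l0 ≤ exp z := Real.exp_le_exp.2 hz.1
    have e2 : exp z ≤ exp l1 := Real.exp_le_exp.2 hz.2
    set r : ℝ := (exp z - exp l0) / (exp l1 - exp l0) with hr
    have hr0 : 0 ≤ r := div_nonneg (by linarith) (by linarith)
    have hr1 : r ≤ 1 := (div_le_one (by linarith)).2 (by linarith)
    have hSz : S z = x + (y - x) * r := by
      simp only [hSdef, hw, hr]
      ring
    rw [hSz]
    constructor
    · have q1 : 1 + (x + (y - x) * r) = (1 - r) * (1 + x) + r * (1 + y) := by ring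
      have q2 : 0 < min (1 + x) (1 + y) := lt_min (by linarith [hx.1]) (by linarith [hy.1])
      have q3 := mul_le_mul_of_nonneg_left (min_le_left (1 + x) (1 + y)) (by linarith : 0 ≤ 1 - r)
      have q4 := mul_le_mul_of_nonneg_left (min_le_right (1 + x) (1 + y)) hr0
      rw [q1]
      linarith
    · have q1 : 1 - (x + (y - x) * r) = (1 - r) * (1 - x) + r * (1 - y) := by ring
      have q2 : 0 < min (1 - x) (1 - y) := lt_min (by linarith [hx.2]) (by linarith [hy.2])
      have q3 := mul_le_mul_of_nonneg_left (min_le_left (1 - x) (1 - y)) (by linarith : 0 ≤ 1 - r)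
      have q4 := mul_le_mul_of_nonneg_left (min_le_right (1 - x) (1 - y)) hr0
      rw [q1]
      linarith
  set F : ℝ → ℝ := fun z => Gam (ep z) (S z) with hF
  set H : ℝ → ℝ := HH w ep S (fun z => ff (ep z)) with hH
  have hFd : ∀ z ∈ Set.Icc l0 l1, HasDerivAt F (Real.log 2 * H z * Zp ep z) z := fun z hz =>
    hasDerivAt_F hT (lt_of_lt_of_le hl0' hz.1) (hSd z) (hSin z hz).1 (hSin z hz).2 rfl
  have hHd : ∀ z ∈ Set.Icc l0 l1, ∃ D, 0 ≤ D ∧ HasDerivAt H D z := fun z hz =>
    hasDerivAt_H hT hstar (hl.trans hz.1) (hSd z) (hSin z hz).1 (hSin z hz).2 rfl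
  have hHmono : MonotoneOn H (Set.Icc l0 l1) := by
    refine monotoneOn_of_deriv_nonneg (convex_Icc _ _) ?_ ?_ ?_
    · intro z hz
      obtain ⟨D, -, hD⟩ := hHd z hz
      exact hD.continuousAt.continuousWithinAt
    · intro z hz
      rw [interior_Icc] at hz
      obtain ⟨D, -, hD⟩ := hHd z (Set.Ioo_subset_Icc_self hz)
      exact hD.differentiableAt.differentiableWithinAt
    · intro z hz
      rw [interior_Icc] at hz
      obtain ⟨D, hD0, hD⟩ := hHd z (Set.Ioo_subset_Icc_self hz)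
      rw [hD.deriv]
      exact hD0
  have hlog : 0 < Real.log 2 := Real.log_pos (by norm_num)
  set Ps : ℝ → ℝ := fun z => F z - Real.log 2 * H l * ∫ u in l..z, Zp ep u with hPs
  have hPsd : ∀ z ∈ Set.Icc l0 l1, HasDerivAt Ps (Real.log 2 * (H z - H l) * Zp ep z) z := by
    intro z hz
    have h := (hFd z hz).sub ((hasDerivAt_int hT (by linarith : 27 / 20 < l)
      (lt_of_lt_of_le hl0' hz.1)).const_mul (Real.log 2 * H l))
    refine h.congr_deriv ?_
    ring
  have hlmem : l ∈ Set.Icc l0 l1 := ⟨h01.le, h12.le⟩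
  have hsub1 : Set.Icc l0 l ⊆ Set.Icc l0 l1 := Set.Icc_subset_Icc_right h12.le
  have hsub2 : Set.Icc l l1 ⊆ Set.Icc l0 l1 := Set.Icc_subset_Icc_left h01.le
  have hanti : AntitoneOn Ps (Set.Icc l0 l) := by
    refine antitoneOn_of_deriv_nonpos (convex_Icc _ _) ?_ ?_ ?_
    · intro z hz
      exact (hPsd z (hsub1 hz)).continuousAt.continuousWithinAt
    · intro z hz
      rw [interior_Icc] at hz
      exact (hPsd z (hsub1 (Set.Ioo_subset_Icc_self hz))).differentiableAt.differentiableWithinAt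
    · intro z hz
      rw [interior_Icc] at hz
      have hz' := hsub1 (Set.Ioo_subset_Icc_self hz)
      rw [(hPsd z hz').deriv]
      have h1 : H z ≤ H l := hHmono hz' hlmem hz.2.le
      have h2 := Zp_pos hT (lt_of_lt_of_le hl0' hz'.1)
      have h3 : Real.log 2 * (H z - H l) ≤ 0 :=
        mul_nonpos_of_nonneg_of_nonpos hlog.le (by linarith)
      exact mul_nonpos_of_nonpos_of_nonneg h3 h2.le
  have hmono : MonotoneOn Ps (Set.Icc l l1) := by
    refine monotoneOn_of_deriv_nonneg (convex_Icc _ _) ?_ ?_ ?_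
    · intro z hz
      exact (hPsd z (hsub2 hz)).continuousAt.continuousWithinAt
    · intro z hz
      rw [interior_Icc] at hz
      exact (hPsd z (hsub2 (Set.Ioo_subset_Icc_self hz))).differentiableAt.differentiableWithinAt
    · intro z hz
      rw [interior_Icc] at hz
      have hz' := hsub2 (Set.Ioo_subset_Icc_self hz)
      rw [(hPsd z hz').deriv]
      have h1 : H l ≤ H z := hHmono hlmem hz' hz.1.le
      have h2 := Zp_pos hT (lt_of_lt_of_le hl0' hz'.1)
      have h3 : 0 ≤ Real.log 2 * (H z - H l) := mul_nonneg hlog.le (by linarith)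
      exact mul_nonneg h3 h2.le
  have hP0 : Ps l ≤ Ps l0 := hanti ⟨le_refl _, h01.le⟩ ⟨h01.le, le_refl _⟩ h01.le
  have hP1 : Ps l ≤ Ps l1 := hmono ⟨le_refl _, h12.le⟩ ⟨h12.le, le_refl _⟩ h12.le
  have hint : ∀ a b : ℝ, 27 / 20 < a → 27 / 20 < b →
      IntervalIntegrable (Zp ep) MeasureTheory.volume a b := by
    intro a b ha hb
    refine ((continuousOn_Zp hT).mono ?_).intervalIntegrable
    intro z hz
    exact lt_of_lt_of_le (lt_min ha hb) hz.1
  set I0 := ∫ u in l0..l, Zp ep u with hI0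
  set I1 := ∫ u in l..l1, Zp ep u with hI1
  have hI0pos : 0 ≤ I0 := intervalIntegral.integral_nonneg h01.le fun u hu =>
    (Zp_pos hT (lt_of_lt_of_le hl0' hu.1)).le
  have hI1pos : 0 < I1 := by
    refine intervalIntegral.intervalIntegral_pos_of_pos_on (hint l l1 (by linarith) (by linarith))
      (fun u hu => Zp_pos hT (by linarith [hu.1])) h12
  have hsum : ∫ u in l0..l1, Zp ep u = I0 + I1 :=
    (intervalIntegral.integral_add_adjacent_intervals (hint l0 l hl0' (by linarith))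
      (hint l l1 (by linarith) (by linarith))).symm
  have hPl : Ps l = F l := by simp [hPs]
  have hPl0 : Ps l0 = F l0 + Real.log 2 * H l * I0 := by
    simp only [hPs]
    rw [intervalIntegral.integral_symm]
    ring
  have hPl1 : Ps l1 = F l1 - Real.log 2 * H l * I1 := rfl
  rw [hPl, hPl0] at hP0
  rw [hPl, hPl1] at hP1
  have hg : gam0 ep l t = I1 / (I0 + I1) := by
    unfold gam0
    rw [← hl0, ← hl1, hsum]
  have hF0 : F l0 = Gam (ep l0) x := by simp only [hF, hS0]
  have hF1 : F l1 = Gam (ep l1) y := by simp only [hF, hS1]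
  have hFl : F l = Gam (ep l) ((1 + t) / 2 * x + (1 - t) / 2 * y) := by simp only [hF, hSl]
  rw [← hF0, ← hF1, ← hFl, hg]
  have hsumpos : 0 < I0 + I1 := by linarith
  have h1g : 1 - I1 / (I0 + I1) = I0 / (I0 + I1) := by
    field_simp
    ring
  rw [h1g]
  have e1 : F l = (I1 / (I0 + I1)) * F l + (I0 / (I0 + I1)) * F l := by
    field_simp
    ring
  have e2 := mul_le_mul_of_nonneg_left hP0 (div_nonneg hI1pos.le hsumpos.le)
  have e3 := mul_le_mul_of_nonneg_left hP1 (div_nonneg hI0pos hsumpos.le)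
  have e4 : I1 / (I0 + I1) * (Real.log 2 * H l * I0) = I0 / (I0 + I1) * (Real.log 2 * H l * I1) := by
    ring
  calc F l = (I1 / (I0 + I1)) * F l + (I0 / (I0 + I1)) * F l := e1
    _ ≤ (I1 / (I0 + I1)) * (F l0 + Real.log 2 * H l * I0) +
        (I0 / (I0 + I1)) * (F l1 - Real.log 2 * H l * I1) := add_le_add e2 e3
    _ = I1 / (I0 + I1) * F l0 + I0 / (I0 + I1) * F l1 := by
      rw [mul_add, mul_sub, e4]
      ring

theorem continuous_Gam {v : ℝ} (hv : 0 ≤ 1 + v) : Continuous (Gam v) := by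
  unfold Gam Nv
  have h1 : Continuous (fun s : ℝ => (1 + s) ^ (1 + v)) :=
    (Real.continuous_rpow_const hv).comp (continuous_const.add continuous_id)
  have h2 : Continuous (fun s : ℝ => (1 - s) ^ (1 + v)) :=
    (Real.continuous_rpow_const hv).comp (continuous_const.sub continuous_id)
  fun_prop

end Pool.Agent.H58.Tal.M4

namespace Pool.Agent.H58.Tal

theorem m4 : M4 := by
  intro ep hT hstar l t ht0 ht1 hl x y hx hy
  have hl0 : 27 / 20 < l - Real.log (1 + t) := M4.Traj.l_gt hl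
  have hlog1 : 0 < Real.log (1 + t) := Real.log_pos (by linarith)
  have hlog2 : Real.log (1 - t) < 0 := Real.log_neg (by linarith) (by linarith)
  have hp0 := hT.pos l (by linarith)
  have hp1 := hT.pos _ hl0
  have hp2 := hT.pos (l - Real.log (1 - t)) (by linarith)
  have hc0 := M4.continuous_Gam (v := ep l) (by linarith)
  have hc1 := M4.continuous_Gam (v := ep (l - Real.log (1 + t))) (by linarith)
  have hc2 := M4.continuous_Gam (v := ep (l - Real.log (1 - t))) (by linarith)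
  have hL : Continuous (fun r : ℝ => Gam (ep l) ((1 + t) / 2 * (r * x) + (1 - t) / 2 * (r * y))) := by
    fun_prop
  have hR : Continuous (fun r : ℝ => gam0 ep l t * Gam (ep (l - Real.log (1 + t))) (r * x) +
          (1 - gam0 ep l t) * Gam (ep (l - Real.log (1 - t))) (r * y)) := by
    fun_prop
  have hmem : (1 : ℝ) ∈ closure (Set.Ioo (0 : ℝ) 1) := by
    rw [closure_Ioo (by norm_num)]
    exact ⟨by norm_num, le_refl _⟩
  have key : Set.Ioo (0 : ℝ) 1 ⊆ {r | Gam (ep l) ((1 + t) / 2 * (r * x) + (1 - t) / 2 * (r * y)) ≤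
      gam0 ep l t * Gam (ep (l - Real.log (1 + t))) (r * x) +
          (1 - gam0 ep l t) * Gam (ep (l - Real.log (1 - t))) (r * y)} := by
    intro r hr
    have hmul : ∀ z ∈ Set.Icc (-1 : ℝ) 1, r * z ∈ Set.Ioo (-1 : ℝ) 1 := by
      intro z hz
      constructor
      · nlinarith [hz.1, hr.1, hr.2]
      · nlinarith [hz.2, hr.1, hr.2]
    exact M4.cl2_interior hT hstar ht0 ht1 hl (hmul x hx) (hmul y hy)
  have := closure_minimal key (isClosed_le hL hR) hmem
  simpa using this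

end Pool.Agent.H58.Tal
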