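import Pool.Agent.H58.Tal.M7a

/-! Module M7b: the averaging inequality from the inequality of the first coefficients. -/

set_option autoImplicit false

open Finset Real Filter Topology MeasureTheory

namespace Pool.Agent.H58.Tal

lemma cc_cont (j : ℕ) : Continuous (fun v => cc v j) := by
  induction j with
  | zero => simp only [cc_zero]; exact continuous_const
  | succ j ih =>
    rcases Nat.eq_zero_or_pos j with rfl | hj
    · simp only [zero_add, cc_one]; fun_prop
    · have e : (fun v => cc v (j + 1))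
          = fun v => (2 * (j : ℝ) - 1 - v) * (2 * j - v) * cc v j
            / ((2 * (j : ℝ) + 1) * (2 * j + 2)) := by
        funext v
        have h := cc_succ v j hj
        have h4 : (2 * (j : ℝ) + 1) * (2 * j + 2) ≠ 0 := by positivity
        rw [eq_div_iff h4]
        linarith
      rw [e]
      fun_prop

lemma cc_le_one (v : ℝ) (h0 : 0 ≤ v) (h1 : v ≤ 1) (j : ℕ) : cc v j ≤ 1 := by
  induction j with
  | zero => simp [cc_zero]
  | succ j ih =>
    rcases Nat.eq_zero_or_pos j with rfl | hj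
    · rw [zero_add, cc_one]; nlinarith
    · have h := cc_succ v j hj
      have hj1 : (1 : ℝ) ≤ j := by exact_mod_cast hj
      have hc := cc_nonneg v h0 h1 j
      have h4 : 0 < (2 * (j : ℝ) + 1) * (2 * j + 2) := by positivity
      have h5 : (2 * (j : ℝ) - 1 - v) * (2 * j - v) ≤ (2 * (j : ℝ) + 1) * (2 * j + 2) :=
        mul_le_mul (by linarith) (by linarith) (by linarith) (by linarith)
      have h6 : (2 * (j : ℝ) + 1) * (2 * j + 2) * cc v (j + 1)
          ≤ (2 * (j : ℝ) + 1) * (2 * j + 2) * 1 := by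
        rw [h]
        calc (2 * (j : ℝ) - 1 - v) * (2 * j - v) * cc v j
            ≤ (2 * (j : ℝ) + 1) * (2 * j + 2) * cc v j := mul_le_mul_of_nonneg_right h5 hc
          _ ≤ (2 * (j : ℝ) + 1) * (2 * j + 2) * 1 := mul_le_mul_of_nonneg_left ih h4.le
      exact le_of_mul_le_mul_left h6 h4

/-- weight -/
noncomputable def Kw (l v : ℝ) : ℝ := Real.log 2 * Real.exp (-v * (l + Real.log 2))

lemma Kw_cont (l : ℝ) : Continuous (Kw l) := by unfold Kw; fun_prop

lemma log2_pos : 0 < Real.log 2 := Real.log_pos (by norm_num)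

lemma Kw_nonneg (l v : ℝ) : 0 ≤ Kw l v := by
  have := log2_pos
  unfold Kw; positivity

lemma Kw_le (l v : ℝ) (hl : 0 ≤ l) (hv : 0 ≤ v) : Kw l v ≤ Real.log 2 := by
  have h := log2_pos
  unfold Kw
  have : Real.exp (-v * (l + Real.log 2)) ≤ 1 := Real.exp_le_one_iff.2 (by nlinarith)
  nlinarith

/-- weight `w` -/
noncomputable def ww (l v : ℝ) : ℝ := Real.exp (-v * l) - Real.exp (-v * (l + Real.log 2))

lemma ww_cont (l : ℝ) : Continuous (ww l) := by unfold ww; fun_prop

lemma ww_eq (l v : ℝ) : ww l v = Real.exp (-v * (l + Real.log 2)) * (2 ^ v - 1) := by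
  have e1 : (2 : ℝ) ^ v = Real.exp (v * Real.log 2) := by
    rw [Real.rpow_def_of_pos (by norm_num), mul_comm]
  rw [ww, e1, mul_sub, ← Real.exp_add]
  congr 2
  · ring
  · ring

lemma ww_nonneg (l v : ℝ) (hv : 0 ≤ v) : 0 ≤ ww l v := by
  rw [ww_eq]
  have : (1 : ℝ) ≤ 2 ^ v := Real.one_le_rpow (by norm_num) hv
  have h2 := Real.exp_pos (-v * (l + Real.log 2))
  nlinarith

lemma Nv_zero (s : ℝ) : Nv 0 s = 1 := by
  rw [Nv]; simp

lemma ww_mul_Gam (l v s : ℝ) (hv : 0 ≤ v) : ww l v * Gam v s = Kw l v * (Nv v s - 1) := by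
  rcases hv.eq_or_lt with rfl | hv
  · rw [Nv_zero, sub_self, mul_zero, ww_eq]; simp
  · have h := two_rpow_sub_pos v hv
    rw [ww_eq, Gam, Kw]
    field_simp

lemma Kw_mul (l v : ℝ) : Kw l v * (2 ^ v - 1) = Real.log 2 * ww l v := by
  rw [ww_eq, Kw]; ring

/-- total weight -/
noncomputable def WW (l : ℝ) : ℝ := ∫ v in (0:ℝ)..1, ww l v

lemma WW_nonneg (l : ℝ) : 0 ≤ WW l :=
  intervalIntegral.integral_nonneg (by norm_num) (fun v hv => ww_nonneg l v hv.1)

/-- coefficients of the average -/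
noncomputable def gj (l : ℝ) (j : ℕ) : ℝ := ∫ v in (0:ℝ)..1, Kw l v * cc v j

/-- the average -/
noncomputable def Phi (l s : ℝ) : ℝ := ∫ v in (0:ℝ)..1, Kw l v * (Nv v s - 1)

lemma Phi_eq (l s : ℝ) : ∫ v in (0:ℝ)..1, ww l v * Gam v s = Phi l s := by
  apply intervalIntegral.integral_congr
  intro v hv
  rw [Set.uIcc_of_le (by norm_num)] at hv
  exact ww_mul_Gam l v s hv.1

lemma hasSum_Phi (l s : ℝ) (hl : 0 ≤ l) (hs : |s| < 1) :
    HasSum (fun j => gj l j * (s ^ 2) ^ j) (Phi l s) := by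
  have hs2 : s ^ 2 < 1 := by rwa [sq_lt_one_iff_abs_lt_one]
  have hs0 : 0 ≤ s ^ 2 := by positivity
  have h := intervalIntegral.hasSum_integral_of_dominated_convergence (μ := volume)
    (a := (0 : ℝ)) (b := 1) (F := fun (j : ℕ) v => Kw l v * (cc v j * (s ^ 2) ^ j))
    (f := fun v => Kw l v * (Nv v s - 1))
    (bound := fun j _ => Real.log 2 * (s ^ 2) ^ j) ?_ ?_ ?_ ?_ ?_
  · have e : (fun j => gj l j * (s ^ 2) ^ j)
        = fun j => ∫ v in (0:ℝ)..1, Kw l v * (cc v j * (s ^ 2) ^ j) := by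
      funext j
      rw [gj, ← intervalIntegral.integral_mul_const]
      congr 1
      funext v
      ring
    rw [e]
    exact h
  · intro j
    exact ((Kw_cont l).mul ((cc_cont j).mul continuous_const)).aestronglyMeasurable
  · intro j
    refine Filter.Eventually.of_forall (fun v hv => ?_)
    rw [Set.uIoc_of_le (by norm_num)] at hv
    have h1 := Kw_nonneg l v
    have h2 := Kw_le l v hl hv.1.le
    have h3 := cc_nonneg v hv.1.le hv.2 j
    have h4 := cc_le_one v hv.1.le hv.2 j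
    have h5 : 0 ≤ (s ^ 2) ^ j := by positivity
    rw [Real.norm_eq_abs, abs_of_nonneg (by positivity)]
    have h6 : Kw l v * cc v j ≤ Real.log 2 * 1 := mul_le_mul h2 h4 h3 log2_pos.le
    nlinarith
  · refine Filter.Eventually.of_forall (fun v _ => ?_)
    exact (summable_geometric_of_lt_one hs0 hs2).mul_left _
  · exact intervalIntegrable_const
  · refine Filter.Eventually.of_forall (fun v hv => ?_)
    rw [Set.uIoc_of_le (by norm_num)] at hv
    exact (hasSum_Nv v s hs).mul_left _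

/-- `f_j(v)` -/
noncomputable def fj (j : ℕ) (v : ℝ) : ℝ := (2 * (j : ℝ) - 1 - v) * (2 * j - v)

lemma fj_cont (j : ℕ) : Continuous (fj j) := by unfold fj; fun_prop

lemma fj_nonneg (j : ℕ) (hj : 1 ≤ j) (v : ℝ) (hv : v ≤ 1) : 0 ≤ fj j v := by
  have hj1 : (1 : ℝ) ≤ j := by exact_mod_cast hj
  unfold fj
  exact mul_nonneg (by linarith) (by linarith)

/-- `I_j` -/
noncomputable def Ij (l e : ℝ) (j : ℕ) : ℝ :=
  ∫ v in (0:ℝ)..1, Kw l v * cc v j * (fj j v - fj j e)

lemma gj_succ (l e : ℝ) (j : ℕ) (hj : 1 ≤ j) :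
    (2 * (j : ℝ) + 1) * (2 * j + 2) * gj l (j + 1) = Ij l e j + fj j e * gj l j := by
  have c1 := (Kw_cont l).mul (cc_cont j)
  have h1 : IntervalIntegrable (fun v => Kw l v * cc v j * (fj j v - fj j e)) volume 0 1 :=
    (c1.mul ((fj_cont j).sub continuous_const)).intervalIntegrable _ _
  have h2 : IntervalIntegrable (fun v => fj j e * (Kw l v * cc v j)) volume 0 1 :=
    (continuous_const.mul c1).intervalIntegrable _ _
  rw [gj, gj, Ij, ← intervalIntegral.integral_const_mul, ← intervalIntegral.integral_const_mul,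
    ← intervalIntegral.integral_add h1 h2]
  congr 1
  funext v
  have h := cc_succ v j hj
  have h' : (2 * (j : ℝ) + 1) * (2 * j + 2) * cc v (j + 1) = fj j v * cc v j := by
    rw [h, fj]
  linear_combination (Kw l v) * h'

/-- pointwise inequality behind `I_j ≥ 0 → I_{j+1} ≥ 0` -/
lemma kappa_ineq (j : ℕ) (hj : 1 ≤ j) (e v : ℝ) (_he0 : 0 ≤ e) (he : e < 1) (_hv0 : 0 ≤ v)
    (hv : v ≤ 1) :
    fj j e * (4 * j + 3 - 2 * e) * ((e - v) * (4 * j - 1 - e - v)) ≤
      (4 * j - 1 - 2 * e) * (fj j v * ((e - v) * (4 * j + 3 - e - v))) := by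
  have hj1 : (1 : ℝ) ≤ j := by exact_mod_cast hj
  set A : ℝ := 2 * (j : ℝ) - 1 with hA
  have hA1 : 1 ≤ A := by rw [hA]; linarith
  have e1 : ∀ x, fj j x = (A - x) * (A + 1 - x) := by intro x; rw [fj, hA]; ring
  have e2 : (4 : ℝ) * j = 2 * A + 2 := by rw [hA]; ring
  rw [e1, e1, e2]
  rcases le_total v e with hve | hve
  · have h1 : A - e ≤ A - v := by linarith
    have h2 : 2 * A + 5 - 2 * e ≤ 2 * A + 5 - e - v := by linarith
    have h3 : (A + 1 - e) * (2 * A + 1 - e - v) ≤ (A + 1 - v) * (2 * A + 1 - 2 * e) := by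
      nlinarith [mul_nonneg (sub_nonneg.2 hve) (show 0 ≤ A - e by linarith)]
    have h4 : (A - e) * (2 * A + 5 - 2 * e) ≤ (A - v) * (2 * A + 5 - e - v) :=
      mul_le_mul h1 h2 (by linarith) (by linarith)
    have h5 : (A - e) * (2 * A + 5 - 2 * e) * ((A + 1 - e) * (2 * A + 1 - e - v))
        ≤ (A - v) * (2 * A + 5 - e - v) * ((A + 1 - v) * (2 * A + 1 - 2 * e)) :=
      mul_le_mul h4 h3 (mul_nonneg (by linarith) (by linarith))
        (mul_nonneg (by linarith) (by linarith))
    have h6 := mul_le_mul_of_nonneg_left h5 (sub_nonneg.2 hve)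
    nlinarith
  · have h1 : A - v ≤ A - e := by linarith
    have h2 : 2 * A + 5 - e - v ≤ 2 * A + 5 - 2 * e := by linarith
    have h3 : (A + 1 - v) * (2 * A + 1 - 2 * e) ≤ (A + 1 - e) * (2 * A + 1 - e - v) := by
      nlinarith [mul_nonneg (sub_nonneg.2 hve) (show 0 ≤ A - e by linarith)]
    have h4 : (A - v) * (2 * A + 5 - e - v) ≤ (A - e) * (2 * A + 5 - 2 * e) :=
      mul_le_mul h1 h2 (by linarith) (by linarith)
    have h5 : (A - v) * (2 * A + 5 - e - v) * ((A + 1 - v) * (2 * A + 1 - 2 * e))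
        ≤ (A - e) * (2 * A + 5 - 2 * e) * ((A + 1 - e) * (2 * A + 1 - e - v)) :=
      mul_le_mul h4 h3 (mul_nonneg (by linarith) (by linarith))
        (mul_nonneg (by linarith) (by linarith))
    have h6 := mul_le_mul_of_nonneg_left h5 (sub_nonneg.2 hve)
    nlinarith

lemma Ij_succ (l e : ℝ) (j : ℕ) (hj : 1 ≤ j) (he0 : 0 ≤ e) (he : e < 1) (h : 0 ≤ Ij l e j) :
    0 ≤ Ij l e (j + 1) := by
  have hj1 : (1 : ℝ) ≤ j := by exact_mod_cast hj
  have n1 : 0 < (2 * (j : ℝ) + 1) * (2 * j + 2) := by positivity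
  have n2 : 0 < (4 * (j : ℝ) - 1 - 2 * e) := by linarith
  have c1 := (Kw_cont l).mul (cc_cont j)
  have c2 := (Kw_cont l).mul (cc_cont (j + 1))
  have k0 : 0 ≤ fj j e * (4 * j + 3 - 2 * e) :=
    mul_nonneg (fj_nonneg j hj e he.le) (by linarith)
  have key : fj j e * (4 * j + 3 - 2 * e) * Ij l e j ≤
      (4 * j - 1 - 2 * e) * ((2 * (j : ℝ) + 1) * (2 * j + 2)) * Ij l e (j + 1) := by
    rw [Ij, Ij, ← intervalIntegral.integral_const_mul, ← intervalIntegral.integral_const_mul]
    refine intervalIntegral.integral_mono_on (by norm_num) ?_ ?_ ?_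
    · exact (continuous_const.mul (c1.mul ((fj_cont j).sub continuous_const))).intervalIntegrable _ _
    · exact (continuous_const.mul
        (c2.mul ((fj_cont (j + 1)).sub continuous_const))).intervalIntegrable _ _
    · intro v hv
      have h1 := kappa_ineq j hj e v he0 he hv.1 hv.2
      have h2 : 0 ≤ Kw l v * cc v j := mul_nonneg (Kw_nonneg l v) (cc_nonneg v hv.1 hv.2 j)
      have h3 := mul_le_mul_of_nonneg_left h1 h2
      have h4 : (2 * (j : ℝ) + 1) * (2 * j + 2) * cc v (j + 1) = fj j v * cc v j := by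
        rw [cc_succ v j hj, fj]
      have h5 : fj j v - fj j e = (e - v) * (4 * j - 1 - e - v) := by
        rw [fj, fj]; ring
      have h6 : fj (j + 1) v - fj (j + 1) e = (e - v) * (4 * j + 3 - e - v) := by
        rw [fj, fj]; push_cast; ring
      have e1 : fj j e * (4 * j + 3 - 2 * e) * (Kw l v * cc v j * (fj j v - fj j e))
          = Kw l v * cc v j * (fj j e * (4 * j + 3 - 2 * e) * ((e - v) * (4 * j - 1 - e - v))) := by
        rw [h5]; ring
      have e2 : (4 * j - 1 - 2 * e) * ((2 * (j : ℝ) + 1) * (2 * j + 2)) *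
          (Kw l v * cc v (j + 1) * (fj (j + 1) v - fj (j + 1) e))
          = Kw l v * cc v j * ((4 * j - 1 - 2 * e) *
            (fj j v * ((e - v) * (4 * j + 3 - e - v)))) := by
        rw [h6]
        linear_combination ((4 * j - 1 - 2 * e) * Kw l v * ((e - v) * (4 * j + 3 - e - v))) * h4
      rw [e1, e2]
      exact h3
  have h7 : 0 ≤ (4 * j - 1 - 2 * e) * ((2 * (j : ℝ) + 1) * (2 * j + 2)) * Ij l e (j + 1) :=
    (mul_nonneg k0 h).trans key
  by_contra hc
  push Not at hc
  have : 0 < (4 * j - 1 - 2 * e) * ((2 * (j : ℝ) + 1) * (2 * j + 2)) := mul_pos n2 n1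
  nlinarith

/-- difference of coefficients -/
noncomputable def Dj (l e : ℝ) (j : ℕ) : ℝ := WW l * Gc e j - gj l j

lemma Dj_zero (l e : ℝ) : Dj l e 0 = 0 := by
  rw [Dj, Gc_zero, gj]
  simp [cc_zero]

lemma Dj_succ (l e : ℝ) (j : ℕ) (hj : 1 ≤ j) :
    (2 * (j : ℝ) + 1) * (2 * j + 2) * Dj l e (j + 1) = fj j e * Dj l e j - Ij l e j := by
  have h1 := gj_succ l e j hj
  have h2 := Gc_succ e j hj
  rw [Dj, Dj, fj] at *
  linear_combination (WW l) * h2 - h1

lemma Dj_cross (l e : ℝ) (he0 : 0 < e) (he : e < 1) (h1 : 0 ≤ Dj l e 1) :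
    ∀ j k, j ≤ k → Dj l e j < 0 → Dj l e k ≤ 0 := by
  intro j k hjk hneg
  classical
  have hex : ∃ m, Dj l e m < 0 := ⟨j, hneg⟩
  obtain ⟨m, hm, hmin⟩ : ∃ m, Dj l e m < 0 ∧ ∀ i < m, 0 ≤ Dj l e i :=
    ⟨Nat.find hex, Nat.find_spec hex, fun i hi => not_lt.1 (Nat.find_min hex hi)⟩
  have hmj : m ≤ j := by
    by_contra hc
    exact absurd hneg (not_lt.2 (hmin j (by omega)))
  have hm2 : 2 ≤ m := by
    by_contra hc
    have : m = 0 ∨ m = 1 := by omega
    rcases this with rfl | rfl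
    · rw [Dj_zero] at hm; exact lt_irrefl _ hm
    · exact absurd hm (not_lt.2 h1)
  obtain ⟨i, rfl⟩ : ∃ i, m = i + 1 := ⟨m - 1, by omega⟩
  have hi : 1 ≤ i := by omega
  have hI : 0 ≤ Ij l e i := by
    have h2 := Dj_succ l e i hi
    have h3 := hmin i (by omega)
    have h4 := fj_nonneg i hi e he.le
    have h5 : 0 < (2 * (i : ℝ) + 1) * (2 * i + 2) := by positivity
    have h6 : 0 ≤ fj i e * Dj l e i := mul_nonneg h4 h3
    nlinarith
  have hall : ∀ n, 0 ≤ Ij l e (i + n) ∧ Dj l e (i + 1 + n) ≤ 0 := by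
    intro n
    induction n with
    | zero => exact ⟨hI, hm.le⟩
    | succ n ih =>
      have hin : 1 ≤ i + n := by omega
      have h7 := Ij_succ l e (i + n) hin he0.le he ih.1
      have h8 := Dj_succ l e (i + 1 + n) (by omega)
      have e1 : i + 1 + n = i + n + 1 := by ring
      have h9 : 0 ≤ Ij l e (i + 1 + n) := by rw [e1]; exact h7
      have h10 := fj_nonneg (i + 1 + n) (by omega) e he.le
      refine ⟨h7, ?_⟩
      have h11 : 0 < (2 * ((i + 1 + n : ℕ) : ℝ) + 1) * (2 * ((i + 1 + n : ℕ) : ℝ) + 2) := by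
        positivity
      have h12 : fj (i + 1 + n) e * Dj l e (i + 1 + n) ≤ 0 :=
        mul_nonpos_of_nonneg_of_nonpos h10 ih.2
      have h13 : (2 * ((i + 1 + n : ℕ) : ℝ) + 1) * (2 * ((i + 1 + n : ℕ) : ℝ) + 2)
          * Dj l e (i + 1 + n + 1) ≤ 0 := by
        rw [h8]; linarith
      rw [← add_assoc]
      by_contra hc
      push Not at hc
      nlinarith
  obtain ⟨n, rfl⟩ := Nat.exists_eq_add_of_le (hmj.trans hjk)
  exact (hall n).2

theorem m7b : M7b := by
  intro ep hT hI l s hl hs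
  have hlog := log2_pos
  have hl' : 27 / 20 < l := by
    have := Real.log_two_gt_d9
    linarith
  have hl0 : 0 ≤ l := by linarith
  set e := ep l with he_def
  have he0 : 0 < e := hT.pos l hl'
  have he1 : e < 1 := hT.lt_one l hl'
  have hD1 : 0 ≤ Dj l e 1 := by
    have h := hI l hl
    rw [← he_def] at h
    have e1 : gj l 1 = Real.log 2 / 2 *
        (∫ v in (0:ℝ)..1, v * (1 + v) * Real.exp (-v * (l + Real.log 2))) := by
      rw [gj, ← intervalIntegral.integral_const_mul]
      congr 1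
      funext v
      rw [cc_one, Kw]; ring
    have e2 : WW l * Gc e 1 = ((1 + e) / 2 * (Real.log 2 * e / (2 ^ e - 1))) *
      ∫ v in (0:ℝ)..1, (Real.exp (-v * l) - Real.exp (-v * (l + Real.log 2))) := by
      rw [Gc, cc_one, WW]
      simp only [ww]
      ring
    rw [Dj, e1, e2]
    linarith
  change ∫ v in (0:ℝ)..1, ww l v * Gam v s ≤ WW l * Gam e s
  rw [Phi_eq]
  have hPhi_le : ∀ s ∈ Set.Icc (-1 : ℝ) 1, Phi l s ≤ WW l * Real.log 2 := by
    intro s hs
    have e1 : WW l * Real.log 2 = ∫ v in (0:ℝ)..1, Kw l v * (2 ^ v - 1) := by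
      rw [WW, ← intervalIntegral.integral_mul_const]
      congr 1
      funext v
      rw [Kw_mul]; ring
    rw [e1, Phi]
    have hc2 : Continuous fun v : ℝ => Kw l v * ((2 : ℝ) ^ v - 1) := by
      have : Continuous fun v : ℝ => (2 : ℝ) ^ v :=
        Continuous.rpow continuous_const continuous_id (fun _ => Or.inl (by norm_num))
      exact (Kw_cont l).mul (this.sub continuous_const)
    by_cases hint : IntervalIntegrable (fun v => Kw l v * (Nv v s - 1)) volume 0 1
    · refine intervalIntegral.integral_mono_on (by norm_num) hint (hc2.intervalIntegrable _ _) ?_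
      intro v hv
      exact mul_le_mul_of_nonneg_left (by linarith [Nv_le v s hv.1 hs]) (Kw_nonneg l v)
    · rw [intervalIntegral.integral_undef hint]
      refine intervalIntegral.integral_nonneg (by norm_num) (fun v hv => ?_)
      have : (1 : ℝ) ≤ 2 ^ v := Real.one_le_rpow (by norm_num) hv.1
      exact mul_nonneg (Kw_nonneg l v) (by linarith)
  have hPabs : Phi l |s| = Phi l s := by
    rw [Phi, Phi]; simp only [Nv_abs]
  rcases lt_or_eq_of_le (abs_le.2 ⟨hs.1, hs.2⟩) with h | h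
  swap
  · rw [← Gam_abs e s, h, Gam_one e he0]
    exact hPhi_le s hs
  have hx1 : s ^ 2 < 1 := by rwa [sq_lt_one_iff_abs_lt_one]
  have := single_cross (Dj l e)
    (fun x => WW l * Gam e (Real.sqrt x) - Phi l (Real.sqrt x)) (by
      intro x hx0 hx1
      have hs : |Real.sqrt x| < 1 := by
        rw [abs_of_nonneg (Real.sqrt_nonneg x)]
        rw [Real.sqrt_lt' one_pos]; simpa using hx1
      have h1 := ((hasSum_Gam e (Real.sqrt x) hs).mul_left (WW l)).sub
        (hasSum_Phi l (Real.sqrt x) hl0 hs)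
      rw [Real.sq_sqrt hx0] at h1
      have e : (fun j => Dj l e j * x ^ j)
          = fun j => WW l * (Gc e j * x ^ j) - gj l j * x ^ j := by
        funext j; rw [Dj]; ring
      rw [e]
      exact h1) (Dj_cross l e he0 he1 hD1) (WW l * (Real.log 2 * 2 / (2 ^ e - 1))) (by
      intro x hx0 hx1
      have hs : Real.sqrt x ∈ Set.Icc (0 : ℝ) 1 :=
        ⟨Real.sqrt_nonneg x, Real.sqrt_le_one.2 hx1.le⟩
      have h1 := Gam_ge e (Real.sqrt x) he0 he1.le hs
      have h2 := hPhi_le (Real.sqrt x) ⟨by linarith [hs.1], hs.2⟩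
      have h3 : x ≤ Real.sqrt x := by
        calc x = Real.sqrt x * Real.sqrt x := (Real.mul_self_sqrt hx0).symm
          _ ≤ Real.sqrt x * 1 := mul_le_mul_of_nonneg_left hs.2 hs.1
          _ = Real.sqrt x := mul_one _
      have h4 := two_rpow_sub_pos e he0
      have h5 : (0 : ℝ) ≤ Real.log 2 * 2 / (2 ^ e - 1) := by
        have : (0 : ℝ) ≤ Real.log 2 := Real.log_nonneg (by norm_num)
        positivity
      have hW := WW_nonneg l
      have h6 := mul_le_mul_of_nonneg_left h1 hW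
      have h7 : Real.log 2 * 2 / (2 ^ e - 1) * (1 - Real.sqrt x)
          ≤ Real.log 2 * 2 / (2 ^ e - 1) * (1 - x) := mul_le_mul_of_nonneg_left (by linarith) h5
      have h8 := mul_le_mul_of_nonneg_left h7 hW
      linarith) (s ^ 2) (by positivity) hx1
  simp only [Real.sqrt_sq_eq_abs, Gam_abs, hPabs] at this
  linarith

end Pool.Agent.H58.Tal
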