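import Pool.Agent.H58.Tal.M1
import Pool.Agent.H58.Tal.M2
import Pool.Agent.H58.Tal.M4
import Pool.Agent.H58.Tal.M7b
import Pool.Agent.H59.Tal.Induct

/-! Assembly: the remaining inputs are M0 (trajectory), Star (M5), M6 (Cl1) and M7c (Ineq1D). -/

set_option autoImplicit false

open Finset Real

namespace Pool.Agent.H58.Tal

lemma g0_pos {e : ℝ} (he : 0 < e) : 0 < g0 e := by
  unfold g0
  apply div_pos _ (by linarith)
  have : (2:ℝ) ^ (-e) < 1 := Real.rpow_lt_one_of_one_lt_of_neg (by norm_num) (by linarith)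
  linarith

lemma Zp_pos {ep : ℝ → ℝ} (hep : Traj ep) {x : ℝ} (hx : 27 / 20 < x) : 0 < Zp ep x := by
  unfold Zp
  have := g0_pos (hep.pos x hx)
  positivity

lemma log2_ge : (27:ℝ) / 20 < 2 * Real.log 2 := by
  have := Real.log_two_gt_d9; norm_num at this ⊢; linarith

lemma gam0_mem {ep : ℝ → ℝ} (hep : Traj ep) (l t : ℝ) (ht0 : 0 < t) (ht1 : t < 1)
    (hl : 2 * Real.log 2 ≤ l - Real.log (1 + t)) : 0 ≤ gam0 ep l t ∧ gam0 ep l t ≤ 1 := by
  have ha : 0 < Real.log (1 + t) := Real.log_pos (by linarith)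
  have hc : Real.log (1 - t) < 0 := Real.log_neg (by linarith) (by linarith)
  have h2 := log2_ge
  have hcont : ∀ a b : ℝ, 27 / 20 < a → 27 / 20 < b → IntervalIntegrable (Zp ep) MeasureTheory.volume a b := by
    intro a b h1 h2
    apply ContinuousOn.intervalIntegrable
    intro x hx
    have hx' : 27 / 20 < x := lt_of_lt_of_le (lt_min h1 h2) hx.1
    apply ContinuousAt.continuousWithinAt
    have hc1 : ContinuousAt ep x := (hep.deriv x hx').continuousAt
    have hp := hep.pos x hx'
    unfold Zp g0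
    have h3 : (1 - (2:ℝ) ^ (-(ep x))) / (1 + ep x) ≠ 0 := (g0_pos hp).ne'
    refine ContinuousAt.div Real.continuous_exp.continuousAt ?_ (pow_ne_zero 2 h3)
    refine ContinuousAt.pow ?_ 2
    refine ContinuousAt.div ?_ (by fun_prop) (by linarith)
    refine continuousAt_const.sub ?_
    exact ContinuousAt.rpow continuousAt_const hc1.neg (Or.inl (by norm_num))
  have hI : ∫ x in (l - Real.log (1 + t))..(l - Real.log (1 - t)), Zp ep x =
      (∫ x in (l - Real.log (1 + t))..l, Zp ep x) + ∫ x in l..(l - Real.log (1 - t)), Zp ep x := by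
    rw [intervalIntegral.integral_add_adjacent_intervals]
    · exact hcont _ _ (by linarith) (by linarith)
    · exact hcont _ _ (by linarith) (by linarith)
  have h0 : 0 ≤ ∫ x in (l - Real.log (1 + t))..l, Zp ep x := by
    apply intervalIntegral.integral_nonneg (by linarith)
    intro u hu; exact (Zp_pos hep (by linarith [hu.1])).le
  have h1 : 0 < ∫ x in l..(l - Real.log (1 - t)), Zp ep x := by
    apply intervalIntegral.intervalIntegral_pos_of_pos_on (hcont _ _ (by linarith) (by linarith))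
    · intro u hu; exact Zp_pos hep (by linarith [hu.1])
    · linarith
  unfold gam0
  rw [hI]
  constructor
  · positivity
  · rw [div_le_one (by positivity)]; linarith

theorem closure_of {ep : ℝ → ℝ} (hep : Traj ep) (h1 : Cl1 ep) (h2 : Cl2 ep) : Closure ep := by
  intro l t ht0 ht1 hl
  obtain ⟨h3, h4⟩ := gam0_mem hep l t ht0 ht1 hl
  exact ⟨gam0 ep l t, h3, h4, fun x y hx hy => h2 l t ht0 ht1 hl x y hx hy, h1 l t ht0 ht1 hl⟩

theorem frozen_of (h0 : M0) (h5 : Star) (h6 : M6) (h7 : M7c) : Frozen := by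
  obtain ⟨ep, hep⟩ := h0
  have hc : Closure ep := closure_of hep (h6 ep hep) (m4 ep hep h5)
  have hm : MainThm ep := Pool.Agent.H59.Tal.m3 ep hep m7a hc
  have ha : AvgIneq ep := m7b ep hep (h7 ep hep)
  exact m1 (m2 ep hep m7a hm ha)

end Pool.Agent.H58.Tal
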