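import Mathlib
import Pool.Agent.H58.Tal.Defs
set_option autoImplicit false

open Real Set Filter Topology

namespace Pool.Agent.H58.Tal

lemma ac_pos : 0 < ac := by
  unfold ac
  have := Real.log_two_lt_d9
  linarith

lemma gg_lower {e : ℝ} (he : e ≤ 1) : 8 / 25 ≤ gg e := by
  have h1 : gg e - 8 / 25 = (1 - e) * (17 / 25 - (37 / 100) * e + (11 / 50) * e ^ 2) := by
    unfold gg; ring
  have h2 : 0 ≤ 17 / 25 - (37 / 100) * e + (11 / 50) * e ^ 2 := by nlinarith [sq_nonneg (e - 37 / 44)]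
  have h3 : 0 ≤ (1 - e) * (17 / 25 - (37 / 100) * e + (11 / 50) * e ^ 2) := mul_nonneg (by linarith) h2
  linarith

lemma gg_pos {e : ℝ} (he : e ≤ 1) : 0 < gg e := lt_of_lt_of_le (by norm_num) (gg_lower he)

lemma LL_hasDeriv {e : ℝ} (he : 0 < e) (he1 : e ≤ 1) : HasDerivAt LL (-(ff e)⁻¹) e := by
  have h1 : HasDerivAt (fun x : ℝ => 1 / x) (-(e ^ 2)⁻¹) e := by
    simpa [one_div] using hasDerivAt_inv he.ne'
  have h2 : HasDerivAt Real.log (e⁻¹) e := Real.hasDerivAt_log he.ne'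
  have h2' : HasDerivAt (fun x : ℝ => (11 / 100) * x ^ 2) ((11 / 100) * (2 * e)) e := by
    simpa using (hasDerivAt_pow 2 e).const_mul (11 / 100 : ℝ)
  have h2'' : HasDerivAt (fun x : ℝ => (59 / 100) * x) (59 / 100) e := by
    simpa using (hasDerivAt_id e).const_mul (59 / 100 : ℝ)
  have h3 : HasDerivAt LL ((-(e ^ 2)⁻¹ + (21 / 20) * e⁻¹ - 59 / 100 + (11 / 100) * (2 * e)) / ac) e := by
    have h4 := ((((h1.add (h2.const_mul (21 / 20))).sub h2'').add h2').sub_const (13 / 25)).div_const ac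
    have h5 := h4.add_const (27 / 20)
    exact h5
  convert h3 using 1
  have := ac_pos
  have := gg_pos he1
  unfold ff
  unfold gg at *
  field_simp
  ring

lemma ff_pos {e : ℝ} (he : 0 < e) (he1 : e ≤ 1) : 0 < ff e := by
  unfold ff
  exact div_pos (mul_pos ac_pos (by positivity)) (gg_pos he1)

lemma LL_anti : StrictAntiOn LL (Ioc 0 1) := by
  apply strictAntiOn_of_deriv_neg (convex_Ioc 0 1)
  · intro e he
    exact (LL_hasDeriv he.1 he.2).continuousAt.continuousWithinAt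
  · intro e he
    rw [interior_Ioc] at he
    rw [(LL_hasDeriv he.1 he.2.le).deriv]
    have := ff_pos he.1 he.2.le
    simpa using this

lemma LL_one : LL 1 = 27 / 20 := by
  unfold LL
  norm_num

lemma LL_lower {e : ℝ} (he : 0 < e) (he1 : e ≤ 1) : ((19 / 40) / e - 4 / 5) / ac + 27 / 20 ≤ LL e := by
  have h1 : Real.log (1 / (2 * e)) ≤ 1 / (2 * e) - 1 := Real.log_le_sub_one_of_pos (by positivity)
  rw [one_div, Real.log_inv, Real.log_mul two_ne_zero he.ne', mul_inv] at h1
  unfold LL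
  have hac := ac_pos
  have h2 : (19 / 40) / e = (19 / 40) * e⁻¹ := by rw [div_eq_mul_inv]
  have h3 := Real.log_two_lt_d9
  rw [add_le_add_iff_right, div_le_div_iff_of_pos_right hac, h2, one_div]
  nlinarith [sq_nonneg e]

lemma LL_surj {l : ℝ} (hl : 27 / 20 < l) : ∃ e, 0 < e ∧ e < 1 ∧ LL e = l := by
  have hac := ac_pos
  have hpos : 0 < ac * (l - 27 / 20) := mul_pos hac (by linarith)
  obtain ⟨e1, he1⟩ : ∃ e1, e1 = (19 / 40) / (ac * (l - 27 / 20) + 4 / 5) := ⟨_, rfl⟩
  have h0 : 0 < e1 := by rw [he1]; positivity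
  have h1 : e1 < 1 := by
    rw [he1, div_lt_one (by positivity)]
    linarith
  have h2 : l ≤ LL e1 := by
    refine le_trans ?_ (LL_lower h0 h1.le)
    have h3 : (19 / 40) / e1 = ac * (l - 27 / 20) + 4 / 5 := by
      rw [he1]; field_simp
    rw [h3]
    have : (ac * (l - 27 / 20) + 4 / 5 - 4 / 5) / ac = l - 27 / 20 := by
      field_simp
      ring
    rw [this]
    linarith
  have hc : ContinuousOn LL (Icc e1 1) := by
    intro e he
    exact (LL_hasDeriv (lt_of_lt_of_le h0 he.1) he.2).continuousAt.continuousWithinAt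
  obtain ⟨e, he, hel⟩ := intermediate_value_Icc' h1.le hc ⟨by rw [LL_one]; exact hl.le, h2⟩
  refine ⟨e, lt_of_lt_of_le h0 he.1, lt_of_le_of_ne he.2 ?_, hel⟩
  rintro rfl
  rw [LL_one] at hel
  linarith

lemma LL_966 : LL (966 / 1000) ≤ 2 * Real.log 2 := by
  have h1 : Real.log (966 / 1000) ≤ -(43 / 1250) := by
    rw [Real.log_le_iff_le_exp (by norm_num)]
    have h2 : Real.exp (-(43 / 1250)) = Real.exp (-(43 / 5000)) ^ 4 := by
      rw [← Real.exp_nat_mul]
      congr 1
      norm_num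
    rw [h2]
    have h3 : (1 : ℝ) - 43 / 5000 ≤ Real.exp (-(43 / 5000)) := by
      have := Real.add_one_le_exp (-(43 / 5000) : ℝ)
      linarith
    calc (966 / 1000 : ℝ) ≤ (1 - 43 / 5000) ^ 4 := by norm_num
      _ ≤ _ := pow_le_pow_left₀ (by norm_num) h3 4
  have h4 := Real.log_two_gt_d9
  have h5 := Real.log_two_lt_d9
  have hac := ac_pos
  unfold LL
  have h6 : (1 / (966 / 1000) + 21 / 20 * Real.log (966 / 1000) - 59 / 100 * (966 / 1000) +
      11 / 100 * (966 / 1000) ^ 2 - 13 / 25) ≤ (2 * Real.log 2 - 27 / 20) * ac := by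
    have h7 : (1 / (966 / 1000) + 21 / 20 * Real.log (966 / 1000) - 59 / 100 * (966 / 1000) +
      11 / 100 * (966 / 1000) ^ 2 - 13 / 25) ≤ 0.0118 := by
      norm_num
      linarith
    refine le_trans h7 ?_
    unfold ac
    nlinarith
  have h8 : (1 / (966 / 1000) + 21 / 20 * Real.log (966 / 1000) - 59 / 100 * (966 / 1000) +
      11 / 100 * (966 / 1000) ^ 2 - 13 / 25) / ac ≤ 2 * Real.log 2 - 27 / 20 := by
    rw [div_le_iff₀ hac]
    exact h6
  linarith

theorem m0 : M0 := by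
  classical
  have hex : ∀ l : ℝ, ∃ e : ℝ, 27 / 20 < l → (0 < e ∧ e < 1 ∧ LL e = l) := by
    intro l
    by_cases hl : 27 / 20 < l
    · obtain ⟨e, he⟩ := LL_surj hl
      exact ⟨e, fun _ => he⟩
    · exact ⟨0, fun h => absurd h hl⟩
  choose ep hep using hex
  have hlt : ∀ e, 0 < e → e < 1 → 27 / 20 < LL e := by
    intro e h0 h1
    rw [← LL_one]
    exact LL_anti ⟨h0, h1.le⟩ ⟨one_pos, le_rfl⟩ h1
  have hanti : ∀ l m, 27 / 20 < l → l < m → ep m < ep l := by
    intro l m hl hlm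
    obtain ⟨a1, a2, a3⟩ := hep l hl
    obtain ⟨b1, b2, b3⟩ := hep m (hl.trans hlm)
    by_contra h
    push Not at h
    have := LL_anti.antitoneOn ⟨a1, a2.le⟩ ⟨b1, b2.le⟩ h
    rw [a3, b3] at this
    linarith
  refine ⟨ep, ⟨fun l hl => (hep l hl).1, fun l hl => (hep l hl).2.1, ?_, fun l hl => (hep l hl).2.2, ?_, ?_, ?_⟩⟩
  · intro l hl
    have h2 := Real.log_two_gt_d9
    obtain ⟨a1, a2, a3⟩ := hep l (by linarith)
    by_contra h
    push Not at h
    have h3 := LL_anti (show (966 / 1000 : ℝ) ∈ Ioc 0 1 by norm_num) ⟨a1, a2.le⟩ h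
    have := LL_966
    rw [a3] at h3
    linarith
  · intro e h0 h1
    obtain ⟨a1, a2, a3⟩ := hep (LL e) (hlt e h0 h1)
    exact LL_anti.injOn ⟨a1, a2.le⟩ ⟨h0, h1.le⟩ a3
  · intro l hl
    obtain ⟨a1, a2, a3⟩ := hep l hl
    have hc : ContinuousAt ep l := by
      rw [Metric.continuousAt_iff']
      intro ε hε
      obtain ⟨δ, hδ0, hδ1, hδ2, hδ3⟩ : ∃ δ : ℝ, 0 < δ ∧ δ ≤ ε ∧ δ < ep l ∧ δ < 1 - ep l := by
        refine ⟨min ε (min (ep l / 2) ((1 - ep l) / 2)), ?_, min_le_left _ _, ?_, ?_⟩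
        · refine lt_min hε (lt_min (by linarith) (by linarith))
        · exact lt_of_le_of_lt ((min_le_right _ _).trans (min_le_left _ _)) (by linarith)
        · exact lt_of_le_of_lt ((min_le_right _ _).trans (min_le_right _ _)) (by linarith)
      have m1 : ep l + δ ∈ Ioc (0 : ℝ) 1 := ⟨by linarith, by linarith⟩
      have m2 : ep l - δ ∈ Ioc (0 : ℝ) 1 := ⟨by linarith, by linarith⟩
      have e1 : LL (ep l + δ) < l := by
        conv_rhs => rw [← a3]
        exact LL_anti ⟨a1, a2.le⟩ m1 (by linarith)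
      have e2 : l < LL (ep l - δ) := by
        conv_lhs => rw [← a3]
        exact LL_anti m2 ⟨a1, a2.le⟩ (by linarith)
      have e3 : 27 / 20 < LL (ep l + δ) := hlt _ (by linarith) (by linarith)
      filter_upwards [Ioo_mem_nhds e1 e2] with y hy
      obtain ⟨b1, b2, b3⟩ := hep y (e3.trans hy.1)
      have c1 : ep y < ep l + δ := by
        by_contra h
        push Not at h
        have := LL_anti.antitoneOn m1 ⟨b1, b2.le⟩ h
        rw [b3] at this
        linarith [hy.1]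
      have c2 : ep l - δ < ep y := by
        by_contra h
        push Not at h
        have := LL_anti.antitoneOn ⟨b1, b2.le⟩ m2 h
        rw [b3] at this
        linarith [hy.2]
      rw [Real.dist_eq, abs_lt]
      constructor <;> linarith
    have h1 := HasDerivAt.of_local_left_inverse hc (LL_hasDeriv a1 a2.le) (neg_ne_zero.mpr (inv_ne_zero (ff_pos a1 a2.le).ne'))
      (by
        filter_upwards [Ioi_mem_nhds hl] with y hy
        exact (hep y hy).2.2)
    have h2 : (-(ff (ep l))⁻¹)⁻¹ = -ff (ep l) := by rw [neg_inv, inv_inv]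
    rw [h2] at h1
    exact h1
  · intro l m hl hlm
    rcases hlm.eq_or_lt with rfl | h
    · exact le_rfl
    · exact (hanti l m hl h).le

end Pool.Agent.H58.Tal
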