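import Pool.Agent.H58.Tal.Defs6
import Pool.Agent.H58.Tal.M4

set_option autoImplicit false

open Real

namespace Pool.Agent.H58.Tal.M6A

open Pool.Agent.H58.Tal.M4

theorem two_rpow_gt {e : ℝ} (he : 0 < e) : 0 < (2 : ℝ) ^ e - 1 := by
  have : (1 : ℝ) < 2 ^ e := Real.one_lt_rpow (by norm_num) he
  linarith

theorem Bb_pos {e : ℝ} (he : 0 < e) : 0 < Bb e := by
  unfold Bb
  have h1 := two_rpow_gt he
  have h2 : 0 < Real.log 2 := Real.log_pos (by norm_num)
  positivity

theorem hasDerivAt_two_rpow (e : ℝ) :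
    HasDerivAt (fun x : ℝ => (2 : ℝ) ^ x) (Real.log 2 * 2 ^ e) e := by
  have h := (hasDerivAt_id e).const_rpow (a := 2) (by norm_num)
  refine h.congr_deriv ?_
  simp

theorem hasDerivAt_Bb {e : ℝ} (he : 0 < e) : HasDerivAt Bb (Bb' e) e := by
  have h1 := two_rpow_gt he
  have h := ((hasDerivAt_id e).const_mul (Real.log 2)).div ((hasDerivAt_two_rpow e).sub_const 1)
    h1.ne'
  unfold Bb
  refine h.congr_deriv ?_
  unfold Bb' Bb
  have he' : e ≠ 0 := he.ne'
  simp only [id]
  generalize (2 : ℝ) ^ e = R at *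
  have h1' : R - 1 ≠ 0 := h1.ne'
  field_simp
  ring

theorem hasDerivAt_gg (e : ℝ) : HasDerivAt gg (gg' e) e := by
  unfold gg
  have h := ((((hasDerivAt_id e).const_mul (21 / 20 : ℝ)).const_sub 1).add
    (((hasDerivAt_id e).pow 2).const_mul (59 / 100 : ℝ))).sub
    (((hasDerivAt_id e).pow 3).const_mul (11 / 50 : ℝ))
  refine h.congr_deriv ?_
  unfold gg'
  simp
  ring

theorem hasDerivAt_YY {e : ℝ} (he : 0 < e) (he1 : e < 1) : HasDerivAt YY (YY' e) e := by
  have hg := gg_pos he he1
  have h1 := (((hasDerivAt_id e).const_mul ac).div (hasDerivAt_gg e) hg.ne').mul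
    ((hasDerivAt_Bb he).sub ((hasDerivAt_id e).div ((hasDerivAt_id e).const_add 1)
      (by simp; linarith)))
  unfold YY
  refine h1.congr_deriv ?_
  unfold YY'
  simp only [id, Pi.div_apply, Pi.sub_apply]
  have h2 : 1 + e ≠ 0 := by linarith
  have h3 := hg.ne'
  generalize gg e = g at *
  generalize Bb e = b at *
  field_simp
  ring

theorem hasDerivAt_sq {e : ℝ} (he : 0 < e) (he1 : e < 1) :
    HasDerivAt sq (-(2 * YY e * sq e / ff e)) e := by
  have hg := gg_pos he he1
  have h1 := (((((hasDerivAt_id e).const_add 1).mul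
    ((hasDerivAt_Bb he).add ((hasDerivAt_id e).const_mul (Real.log 2)))).div
    ((hasDerivAt_id e).const_mul 2) (by simp; linarith)).pow 2)
  unfold sq
  refine h1.congr_deriv ?_
  unfold YY ff Bb'
  simp only [id, Pi.div_apply, Pi.mul_apply, Pi.add_apply, Nat.cast_ofNat,
    Nat.add_one_sub_one, pow_one]
  have h2 : 1 + e ≠ 0 := by linarith
  have h3 := hg.ne'
  have h4 := ac_pos.ne'
  have h5 : e ≠ 0 := he.ne'
  generalize gg e = g at *
  generalize Bb e = b at *
  generalize ac = A at *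
  field_simp
  ring

theorem ff_pos {e : ℝ} (he : 0 < e) (he1 : e < 1) : 0 < ff e := by
  unfold ff
  have := gg_pos he he1
  have := ac_pos
  positivity

theorem sq_pos {e : ℝ} (he : 0 < e) : 0 < sq e := by
  unfold sq
  have h1 := Bb_pos he
  have h2 : 0 < Real.log 2 := Real.log_pos (by norm_num)
  positivity

theorem Zp_eq {ep : ℝ → ℝ} {x : ℝ} (he : 0 < ep x) :
    Zp ep x = 4 / Real.log 2 ^ 2 * (exp x * sq (ep x)) := by
  unfold Zp g0 sq Bb
  have h1 := two_rpow_gt he
  have hneg : (2 : ℝ) ^ (-ep x) = 1 / 2 ^ (ep x) := by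
    rw [Real.rpow_neg (by norm_num), one_div]
  rw [hneg]
  have hRpos : (0 : ℝ) < 2 ^ (ep x) := by positivity
  have hlog : Real.log 2 ≠ 0 := (Real.log_pos (by norm_num)).ne'
  generalize (2 : ℝ) ^ (ep x) = R at *
  have h6 : 1 - 1 / R = (R - 1) / R := by field_simp
  rw [h6]
  have h1' : R - 1 ≠ 0 := h1.ne'
  have he' : ep x ≠ 0 := he.ne'
  have he1 : 1 + ep x ≠ 0 := by linarith
  generalize ep x = e at *
  generalize Real.log 2 = τ at *
  have e1 : τ * e / (R - 1) + τ * e = τ * e * R / (R - 1) := by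
    field_simp
    ring
  rw [e1]
  field_simp
  norm_num

/-! ### Taylor bounds for `σ²` along the trajectory -/

variable {ep : ℝ → ℝ}

/-- `S(l) = σ²(ε(l))` -/
theorem hasDerivAt_S (hT : Traj ep) {l : ℝ} (hl : 27 / 20 < l) :
    HasDerivAt (fun x => sq (ep x)) (2 * (YY (ep l) * sq (ep l))) l := by
  have he := hT.pos l hl
  have he1 := hT.lt_one l hl
  have h := (hasDerivAt_sq he he1).comp l (hT.deriv l hl)
  refine h.congr_deriv ?_
  have := (ff_pos he he1).ne'
  field_simp

theorem hasDerivAt_T (hT : Traj ep) {l : ℝ} (hl : 27 / 20 < l) :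
    HasDerivAt (fun x => YY (ep x) * sq (ep x)) (W2 (ep l)) l := by
  have he := hT.pos l hl
  have he1 := hT.lt_one l hl
  have h := ((hasDerivAt_YY he he1).comp l (hT.deriv l hl)).mul (hasDerivAt_S hT hl)
  refine h.congr_deriv ?_
  unfold W2
  simp only [Function.comp_apply]
  ring

theorem T_lower (hT : Traj ep) (hW : M6W) {l x : ℝ} (hl : 2 * Real.log 2 ≤ l) (hx : l ≤ x) :
    YY (ep l) * sq (ep l) + wlo * (x - l) ≤ YY (ep x) * sq (ep x) := by
  have hd : ∀ z ∈ Set.Icc l x, HasDerivAt (fun z => YY (ep z) * sq (ep z) - wlo * (z - l))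
      (W2 (ep z) - wlo) z := by
    intro z hz
    have h1 := (hasDerivAt_T hT (Traj.l_gt (hl.trans hz.1))).sub
      (((hasDerivAt_id z).sub_const l).const_mul wlo)
    refine h1.congr_deriv ?_
    simp
  have hmono : MonotoneOn (fun z => YY (ep z) * sq (ep z) - wlo * (z - l)) (Set.Icc l x) := by
    refine monotoneOn_of_deriv_nonneg (convex_Icc _ _) ?_ ?_ ?_
    · intro z hz
      exact (hd z hz).continuousAt.continuousWithinAt
    · intro z hz
      rw [interior_Icc] at hz
      exact (hd z (Set.Ioo_subset_Icc_self hz)).differentiableAt.differentiableWithinAt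
    · intro z hz
      rw [interior_Icc] at hz
      have hz' := Set.Ioo_subset_Icc_self hz
      rw [(hd z hz').deriv]
      have h2l := hl.trans hz'.1
      have := (hW (ep z) (hT.pos z (Traj.l_gt h2l)) (hT.le z h2l)).1
      linarith
  have := hmono ⟨le_refl _, hx⟩ ⟨hx, le_refl _⟩ hx
  simp only [sub_self, mul_zero, sub_zero] at this
  linarith

theorem T_upper (hT : Traj ep) (hW : M6W) {l x : ℝ} (hx0 : 2 * Real.log 2 ≤ x) (hx : x ≤ l) :
    YY (ep l) * sq (ep l) - whi * (l - x) ≤ YY (ep x) * sq (ep x) := by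
  have hd : ∀ z ∈ Set.Icc x l, HasDerivAt (fun z => whi * (z - l) - YY (ep z) * sq (ep z))
      (whi - W2 (ep z)) z := by
    intro z hz
    have h1 := (((hasDerivAt_id z).sub_const l).const_mul whi).sub
      (hasDerivAt_T hT (Traj.l_gt (hx0.trans hz.1)))
    refine h1.congr_deriv ?_
    simp
  have hmono : MonotoneOn (fun z => whi * (z - l) - YY (ep z) * sq (ep z)) (Set.Icc x l) := by
    refine monotoneOn_of_deriv_nonneg (convex_Icc _ _) ?_ ?_ ?_
    · intro z hz
      exact (hd z hz).continuousAt.continuousWithinAt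
    · intro z hz
      rw [interior_Icc] at hz
      exact (hd z (Set.Ioo_subset_Icc_self hz)).differentiableAt.differentiableWithinAt
    · intro z hz
      rw [interior_Icc] at hz
      have hz' := Set.Ioo_subset_Icc_self hz
      rw [(hd z hz').deriv]
      have h2l := hx0.trans hz'.1
      have := (hW (ep z) (hT.pos z (Traj.l_gt h2l)) (hT.le z h2l)).2
      linarith
  have := hmono ⟨le_refl _, hx⟩ ⟨hx, le_refl _⟩ hx
  simp only [sub_self, mul_zero, zero_sub] at this
  linarith

theorem S_lower (hT : Traj ep) (hW : M6W) {l x : ℝ} (hl : 2 * Real.log 2 ≤ l) (hx : l ≤ x) :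
    sq (ep l) + 2 * (YY (ep l) * sq (ep l)) * (x - l) + wlo * (x - l) ^ 2 ≤ sq (ep x) := by
  have hd : ∀ z ∈ Set.Icc l x, HasDerivAt
      (fun z => sq (ep z) - 2 * (YY (ep l) * sq (ep l)) * (z - l) - wlo * (z - l) ^ 2)
      (2 * (YY (ep z) * sq (ep z)) - 2 * (YY (ep l) * sq (ep l)) - wlo * (2 * (z - l))) z := by
    intro z hz
    have h1 := ((hasDerivAt_S hT (Traj.l_gt (hl.trans hz.1))).sub
      (((hasDerivAt_id z).sub_const l).const_mul (2 * (YY (ep l) * sq (ep l))))).sub
      ((((hasDerivAt_id z).sub_const l).pow 2).const_mul wlo)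
    refine h1.congr_deriv ?_
    simp
  have hmono : MonotoneOn
      (fun z => sq (ep z) - 2 * (YY (ep l) * sq (ep l)) * (z - l) - wlo * (z - l) ^ 2)
      (Set.Icc l x) := by
    refine monotoneOn_of_deriv_nonneg (convex_Icc _ _) ?_ ?_ ?_
    · intro z hz
      exact (hd z hz).continuousAt.continuousWithinAt
    · intro z hz
      rw [interior_Icc] at hz
      exact (hd z (Set.Ioo_subset_Icc_self hz)).differentiableAt.differentiableWithinAt
    · intro z hz
      rw [interior_Icc] at hz
      have hz' := Set.Ioo_subset_Icc_self hz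
      rw [(hd z hz').deriv]
      have := T_lower hT hW hl hz'.1
      linarith
  have := hmono ⟨le_refl _, hx⟩ ⟨hx, le_refl _⟩ hx
  simp only [sub_self, mul_zero, sub_zero, ne_eq, OfNat.ofNat_ne_zero, not_false_eq_true,
    zero_pow] at this
  linarith

theorem S_upper (hT : Traj ep) (hW : M6W) {l x : ℝ} (hx0 : 2 * Real.log 2 ≤ x) (hx : x ≤ l) :
    sq (ep x) ≤ sq (ep l) + 2 * (YY (ep l) * sq (ep l)) * (x - l) + whi * (x - l) ^ 2 := by
  have hd : ∀ z ∈ Set.Icc x l, HasDerivAt
      (fun z => sq (ep z) - 2 * (YY (ep l) * sq (ep l)) * (z - l) - whi * (z - l) ^ 2)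
      (2 * (YY (ep z) * sq (ep z)) - 2 * (YY (ep l) * sq (ep l)) - whi * (2 * (z - l))) z := by
    intro z hz
    have h1 := ((hasDerivAt_S hT (Traj.l_gt (hx0.trans hz.1))).sub
      (((hasDerivAt_id z).sub_const l).const_mul (2 * (YY (ep l) * sq (ep l))))).sub
      ((((hasDerivAt_id z).sub_const l).pow 2).const_mul whi)
    refine h1.congr_deriv ?_
    simp
  have hmono : MonotoneOn
      (fun z => sq (ep z) - 2 * (YY (ep l) * sq (ep l)) * (z - l) - whi * (z - l) ^ 2)
      (Set.Icc x l) := by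
    refine monotoneOn_of_deriv_nonneg (convex_Icc _ _) ?_ ?_ ?_
    · intro z hz
      exact (hd z hz).continuousAt.continuousWithinAt
    · intro z hz
      rw [interior_Icc] at hz
      exact (hd z (Set.Ioo_subset_Icc_self hz)).differentiableAt.differentiableWithinAt
    · intro z hz
      rw [interior_Icc] at hz
      have hz' := Set.Ioo_subset_Icc_self hz
      rw [(hd z hz').deriv]
      have := T_upper hT hW (hx0.trans hz'.1) hz'.2
      linarith
  have := hmono ⟨le_refl _, hx⟩ ⟨hx, le_refl _⟩ hx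
  simp only [sub_self, mul_zero, sub_zero, ne_eq, OfNat.ofNat_ne_zero, not_false_eq_true,
    zero_pow] at this
  linarith

/-! ### integration -/

/-- antiderivative of `e^x (S + 2T(x-l) + w(x-l)²)` -/
noncomputable def anti (S T w l x : ℝ) : ℝ :=
  exp x * (S + 2 * T * ((x - l) - 1) + w * ((x - l) ^ 2 - 2 * (x - l) + 2))

theorem hasDerivAt_anti (S T w l x : ℝ) :
    HasDerivAt (anti S T w l) (exp x * (S + 2 * T * (x - l) + w * (x - l) ^ 2)) x := by
  have h1 : HasDerivAt (fun x => x - l) 1 x := (hasDerivAt_id x).sub_const l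
  have h := (Real.hasDerivAt_exp x).mul ((((h1.sub_const 1).const_mul (2 * T)).const_add S).add
    ((((h1.pow 2).sub (h1.const_mul 2)).add_const 2).const_mul w))
  unfold anti
  refine h.congr_deriv ?_
  simp
  ring

theorem int_lower (hT : Traj ep) (hW : M6W) {l x : ℝ} (hl : 2 * Real.log 2 ≤ l) (hx : l ≤ x) :
    4 / Real.log 2 ^ 2 * (anti (sq (ep l)) (YY (ep l) * sq (ep l)) wlo l x -
      anti (sq (ep l)) (YY (ep l) * sq (ep l)) wlo l l) ≤ ∫ z in l..x, Zp ep z := by
  have hl' := Traj.l_gt hl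
  have hd : ∀ z ∈ Set.Icc l x, HasDerivAt
      (fun z => (∫ u in l..z, Zp ep u) -
        4 / Real.log 2 ^ 2 * anti (sq (ep l)) (YY (ep l) * sq (ep l)) wlo l z)
      (Zp ep z - 4 / Real.log 2 ^ 2 * (exp z * (sq (ep l) + 2 * (YY (ep l) * sq (ep l)) * (z - l)
        + wlo * (z - l) ^ 2))) z := by
    intro z hz
    exact (hasDerivAt_int hT hl' (lt_of_lt_of_le hl' hz.1)).sub
      ((hasDerivAt_anti _ _ _ _ z).const_mul _)
  have hmono : MonotoneOn (fun z => (∫ u in l..z, Zp ep u) -
        4 / Real.log 2 ^ 2 * anti (sq (ep l)) (YY (ep l) * sq (ep l)) wlo l z) (Set.Icc l x) := by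
    refine monotoneOn_of_deriv_nonneg (convex_Icc _ _) ?_ ?_ ?_
    · intro z hz
      exact (hd z hz).continuousAt.continuousWithinAt
    · intro z hz
      rw [interior_Icc] at hz
      exact (hd z (Set.Ioo_subset_Icc_self hz)).differentiableAt.differentiableWithinAt
    · intro z hz
      rw [interior_Icc] at hz
      have hz' := Set.Ioo_subset_Icc_self hz
      rw [(hd z hz').deriv, Zp_eq (hT.pos z (lt_of_lt_of_le hl' hz'.1)), ← mul_sub, ← mul_sub]
      have := S_lower hT hW hl hz'.1
      have h2 := Real.exp_pos z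
      have h3 : (0 : ℝ) ≤ 4 / Real.log 2 ^ 2 := by positivity
      exact mul_nonneg h3 (mul_nonneg h2.le (by linarith))
  have := hmono ⟨le_refl _, hx⟩ ⟨hx, le_refl _⟩ hx
  simp only [intervalIntegral.integral_same] at this
  linarith

theorem int_upper (hT : Traj ep) (hW : M6W) {l x : ℝ} (hx0 : 2 * Real.log 2 ≤ x) (hx : x ≤ l) :
    ∫ z in x..l, Zp ep z ≤ 4 / Real.log 2 ^ 2 * (anti (sq (ep l)) (YY (ep l) * sq (ep l)) whi l l -
      anti (sq (ep l)) (YY (ep l) * sq (ep l)) whi l x) := by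
  have hx' := Traj.l_gt hx0
  have hd : ∀ z ∈ Set.Icc x l, HasDerivAt
      (fun z => 4 / Real.log 2 ^ 2 * anti (sq (ep l)) (YY (ep l) * sq (ep l)) whi l z -
        (∫ u in x..z, Zp ep u))
      (4 / Real.log 2 ^ 2 * (exp z * (sq (ep l) + 2 * (YY (ep l) * sq (ep l)) * (z - l)
        + whi * (z - l) ^ 2)) - Zp ep z) z := by
    intro z hz
    exact ((hasDerivAt_anti _ _ _ _ z).const_mul _).sub
      (hasDerivAt_int hT hx' (lt_of_lt_of_le hx' hz.1))
  have hmono : MonotoneOn (fun z => 4 / Real.log 2 ^ 2 *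
      anti (sq (ep l)) (YY (ep l) * sq (ep l)) whi l z - (∫ u in x..z, Zp ep u)) (Set.Icc x l) := by
    refine monotoneOn_of_deriv_nonneg (convex_Icc _ _) ?_ ?_ ?_
    · intro z hz
      exact (hd z hz).continuousAt.continuousWithinAt
    · intro z hz
      rw [interior_Icc] at hz
      exact (hd z (Set.Ioo_subset_Icc_self hz)).differentiableAt.differentiableWithinAt
    · intro z hz
      rw [interior_Icc] at hz
      have hz' := Set.Ioo_subset_Icc_self hz
      rw [(hd z hz').deriv, Zp_eq (hT.pos z (lt_of_lt_of_le hx' hz'.1)), ← mul_sub, ← mul_sub]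
      have := S_upper hT hW (hx0.trans hz'.1) hz'.2
      have h2 := Real.exp_pos z
      have h3 : (0 : ℝ) ≤ 4 / Real.log 2 ^ 2 := by positivity
      exact mul_nonneg h3 (mul_nonneg h2.le (by linarith))
  have := hmono ⟨le_refl _, hx⟩ ⟨hx, le_refl _⟩ hx
  simp only [intervalIntegral.integral_same] at this
  linarith

/-! ### bounds for `Gam` -/

theorem Gam_nonneg {e t : ℝ} (he : 0 < e) (ht0 : 0 < t) (ht1 : t < 1) : 0 ≤ Gam e t := by
  unfold Gam Nv
  have h1 := two_rpow_gt he
  have h2 : 0 < Real.log 2 := Real.log_pos (by norm_num)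
  have h3 : 1 + (1 + e) * t ≤ (1 + t) ^ (1 + e) :=
    one_add_mul_self_le_rpow_one_add (by linarith) (by linarith)
  have h4 : 1 + (1 + e) * (-t) ≤ (1 + -t) ^ (1 + e) :=
    one_add_mul_self_le_rpow_one_add (by linarith) (by linarith)
  rw [show (1 + -t) = 1 - t by ring] at h4
  have h5 : 0 ≤ ((1 + t) ^ (1 + e) + (1 - t) ^ (1 + e)) / 2 - 1 := by linarith
  positivity

theorem Gam_le {e t : ℝ} (he : 0 < e) (ht0 : 0 < t) (ht1 : t < 1) : Gam e t ≤ Real.log (1 + t) := by
  have h1 := two_rpow_gt he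
  have hτ : 0 < Real.log 2 := Real.log_pos (by norm_num)
  have ha0 : 0 < Real.log (1 + t) := Real.log_pos (by linarith)
  have ha1 : Real.log (1 + t) < Real.log 2 := Real.log_lt_log (by linarith) (by linarith)
  -- (1+t)^e ≤ 1 + (a/τ)(2^e - 1)
  have hconv : (1 + t) ^ e ≤ 1 + Real.log (1 + t) / Real.log 2 * (2 ^ e - 1) := by
    have hq1 : 0 ≤ 1 - Real.log (1 + t) / Real.log 2 := by
      have : Real.log (1 + t) / Real.log 2 ≤ 1 := (div_le_one hτ).2 ha1.le
      linarith
    have hq2 : 0 ≤ Real.log (1 + t) / Real.log 2 := by positivity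
    have hc := convexOn_exp.2 (Set.mem_univ (0 : ℝ)) (Set.mem_univ (e * Real.log 2))
      hq1 hq2 (by ring)
    simp only [smul_eq_mul, mul_zero, zero_add, Real.exp_zero, mul_one] at hc
    have e1 : Real.log (1 + t) / Real.log 2 * (e * Real.log 2) = Real.log (1 + t) * e := by
      field_simp
    have e2 : exp (e * Real.log 2) = (2 : ℝ) ^ e := by
      rw [Real.rpow_def_of_pos (by norm_num), mul_comm]
    have e3 : exp (Real.log (1 + t) * e) = (1 + t) ^ e := by
      rw [Real.rpow_def_of_pos (by linarith)]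
    rw [e1, e2, e3] at hc
    linarith
  have h2 : (1 + t) ^ (1 + e) = (1 + t) * (1 + t) ^ e := by
    rw [rpow_add (by linarith), rpow_one]
  have h3 : (1 - t) ^ (1 + e) ≤ 1 - t := by
    have := Real.rpow_le_rpow_of_exponent_ge (x := 1 - t) (y := 1 + e) (z := 1) (by linarith)
      (by linarith) (by linarith)
    simpa using this
  unfold Gam Nv
  rw [h2]
  rw [div_le_iff₀ h1]
  have h4 : (1 + t) * (1 + t) ^ e ≤ (1 + t) * (1 + Real.log (1 + t) / Real.log 2 * (2 ^ e - 1)) :=
    mul_le_mul_of_nonneg_left hconv (by linarith)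
  have h5 : ((1 + t) * (1 + t) ^ e + (1 - t) ^ (1 + e)) / 2 - 1 ≤
      (1 + t) / 2 * (Real.log (1 + t) / Real.log 2 * (2 ^ e - 1)) := by linarith
  have h6 : 0 ≤ Real.log (1 + t) / Real.log 2 * (2 ^ e - 1) := by positivity
  have h7 : (1 + t) / 2 * (Real.log (1 + t) / Real.log 2 * (2 ^ e - 1)) ≤
      Real.log (1 + t) / Real.log 2 * (2 ^ e - 1) := by nlinarith
  calc Real.log 2 * (((1 + t) * (1 + t) ^ e + (1 - t) ^ (1 + e)) / 2 - 1)
      ≤ Real.log 2 * (Real.log (1 + t) / Real.log 2 * (2 ^ e - 1)) :=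
        mul_le_mul_of_nonneg_left (h5.trans h7) hτ.le
    _ = Real.log (1 + t) * (2 ^ e - 1) := by field_simp

end Pool.Agent.H58.Tal.M6A

namespace Pool.Agent.H58.Tal

open M6A M4 in
theorem m6a : M6A := by
  intro ep hT hW hC hII l t ht0 ht1 hl
  have hlog1 : 0 < Real.log (1 + t) := Real.log_pos (by linarith)
  have hlog2 : Real.log (1 - t) < 0 := Real.log_neg (by linarith) (by linarith)
  have hl2 : 2 * Real.log 2 ≤ l := by linarith
  have he := hT.pos l (Traj.l_gt hl2)
  have hii := hII _ _ (hC ep hT l t ht0 ht1 hl)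
  have hA := int_lower hT hW hl2 (by linarith : l ≤ l - Real.log (1 - t))
  have hA' := int_upper hT hW hl (by linarith : l - Real.log (1 + t) ≤ l)
  have hsum : ∫ z in (l - Real.log (1 + t))..(l - Real.log (1 - t)), Zp ep z =
      (∫ z in (l - Real.log (1 + t))..l, Zp ep z) + ∫ z in l..(l - Real.log (1 - t)), Zp ep z := by
    have hint : ∀ a b : ℝ, 27 / 20 < a → 27 / 20 < b →
        IntervalIntegrable (Zp ep) MeasureTheory.volume a b := by
      intro a b ha hb
      refine ((continuousOn_Zp hT).mono ?_).intervalIntegrable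
      intro z hz
      exact lt_of_lt_of_le (lt_min ha hb) hz.1
    exact (intervalIntegral.integral_add_adjacent_intervals
      (hint _ _ (Traj.l_gt hl) (Traj.l_gt hl2)) (hint _ _ (Traj.l_gt hl2)
        (by linarith [Traj.l_gt hl2]))).symm
  have hApos : 0 < ∫ z in l..(l - Real.log (1 - t)), Zp ep z := by
    refine intervalIntegral.intervalIntegral_pos_of_pos_on ?_
      (fun u hu => Zp_pos hT (by linarith [hu.1, Traj.l_gt hl2])) (by linarith)
    refine ((continuousOn_Zp hT).mono ?_).intervalIntegrable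
    intro z hz
    exact lt_of_lt_of_le (lt_min (Traj.l_gt hl2) (by linarith [Traj.l_gt hl2])) hz.1
  have hA'nn : 0 ≤ ∫ z in (l - Real.log (1 + t))..l, Zp ep z :=
    intervalIntegral.integral_nonneg (by linarith) fun u hu =>
      (Zp_pos hT (by linarith [hu.1, Traj.l_gt hl])).le
  unfold gam0
  rw [hsum]
  set A := ∫ z in l..(l - Real.log (1 - t)), Zp ep z with hAdef
  set A' := ∫ z in (l - Real.log (1 + t))..l, Zp ep z with hA'def
  -- reduce to A (a - G) ≥ A' (c + G)
  set G := Gam (ep l) t with hG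
  have hGle : G ≤ Real.log (1 + t) := Gam_le he ht0 ht1
  have hG0 : 0 ≤ G := Gam_nonneg he ht0 ht1
  set a := Real.log (1 + t) with ha
  set c := -Real.log (1 - t) with hc
  have hcpos : 0 < c := by linarith
  have hlc : Real.log (1 - t) = -c := by rw [hc]; ring
  -- explicit values of the antiderivatives
  set S := sq (ep l) with hS
  set Y := YY (ep l) with hY
  have hSpos : 0 < S := sq_pos he
  have eA : anti S (Y * S) wlo l (l - Real.log (1 - t)) - anti S (Y * S) wlo l l =
      exp l * S / (1 - t) * (t + uu (ep l) t) := by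
    unfold anti uu
    rw [← hY, ← hS, hlc]
    have h1 : exp (l - -c) = exp l / (1 - t) := by
      rw [← hlc, Real.exp_sub, Real.exp_log (by linarith)]
    rw [h1]
    have h2 : (1 - t) ≠ 0 := by linarith
    have h3 := hSpos.ne'
    field_simp
    ring
  have eA' : anti S (Y * S) whi l l - anti S (Y * S) whi l (l - a) =
      exp l * S / (1 + t) * (t - vv (ep l) t) := by
    unfold anti vv
    rw [← hY, ← hS, ← ha]
    have h1 : exp (l - a) = exp l / (1 + t) := by
      rw [ha, Real.exp_sub, Real.exp_log (by linarith)]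
    rw [h1]
    have h2 : (1 + t) ≠ 0 := by linarith
    have h3 := hSpos.ne'
    field_simp
    ring
  rw [eA] at hA
  rw [eA'] at hA'
  set u := uu (ep l) t with hu
  set v' := vv (ep l) t with hv
  have hkey : (1 - t) * (t - v') * (c + G) ≤ (1 + t) * (t + u) * (a - G) := by
    unfold IneqII Dn at hii
    rw [← ha, hlc, ← hG, ← hu, ← hv] at hii
    nlinarith [hii]
  have hex := Real.exp_pos l
  have hk : 0 < 4 / Real.log 2 ^ 2 * (exp l * S) := by
    have : 0 < Real.log 2 := Real.log_pos (by norm_num)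
    positivity
  have hmain : A' * (c + G) ≤ A * (a - G) := by
    calc A' * (c + G) ≤ 4 / Real.log 2 ^ 2 * (exp l * S / (1 + t) * (t - v')) * (c + G) :=
          mul_le_mul_of_nonneg_right hA' (by linarith)
      _ = 4 / Real.log 2 ^ 2 * (exp l * S) / ((1 + t) * (1 - t)) * ((1 - t) * (t - v') * (c + G)) := by
          have h2 : (1 - t) ≠ 0 := by linarith
          have h3 : (1 + t) ≠ 0 := by linarith
          field_simp
      _ ≤ 4 / Real.log 2 ^ 2 * (exp l * S) / ((1 + t) * (1 - t)) * ((1 + t) * (t + u) * (a - G)) := by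
          apply mul_le_mul_of_nonneg_left hkey
          have : 0 < (1 + t) * (1 - t) := mul_pos (by linarith) (by linarith)
          positivity
      _ = 4 / Real.log 2 ^ 2 * (exp l * S / (1 - t) * (t + u)) * (a - G) := by
          have h2 : (1 - t) ≠ 0 := by linarith
          have h3 : (1 + t) ≠ 0 := by linarith
          field_simp
      _ ≤ A * (a - G) := mul_le_mul_of_nonneg_right hA (by linarith)
  have hpos : 0 < A' + A := by linarith
  rw [hlc]
  have e1 : A / (A' + A) * a + (1 - A / (A' + A)) * (-c) = (A * a - A' * c) / (A' + A) := by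
    field_simp
    ring
  rw [e1, le_div_iff₀ hpos]
  nlinarith [hmain]

end Pool.Agent.H58.Tal
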