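import Pool.Agent.H58.Tal.Defs6

set_option autoImplicit false

open Finset Real

namespace Pool.Agent.H58.Tal

lemma bern_aux (y : ℝ) (h0 : 0 < y) (h1 : y ≤ 7 / 10) :
    (1 - y / 2 + y ^ 2 / 12 - y ^ 4 / 720) * (Real.exp y - 1) ≤ y ∧
    y ≤ (1 - y / 2 + y ^ 2 / 12 - y ^ 4 / 720 + y ^ 6 / 30240) * (Real.exp y - 1) := by
  have hy2 : y ^ 2 ≤ 1 / 2 := by nlinarith
  constructor
  · have hu := Real.exp_bound' h0.le (by linarith : y ≤ 1) (n := 9) (by norm_num)
    simp only [Finset.sum_range_succ, Finset.sum_range_zero, Nat.factorial] at hu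
    norm_num at hu
    have hP : 0 ≤ 1 - y / 2 + y ^ 2 / 12 - y ^ 4 / 720 := by nlinarith [sq_nonneg (y^2)]
    refine (mul_le_mul_of_nonneg_left (sub_le_sub_right hu 1) hP).trans ?_
    have key : 0 ≤ y ^ 7 * (1 / 30240 + y / 60480 + 143 / 32659200 * y ^ 2 + 13 / 9331200 * y ^ 3
      + y ^ 4 / 48988800 + y ^ 5 / 29030400 + y ^ 6 / 235146240) := by positivity
    linarith
  · have hl := Real.sum_le_exp_of_nonneg h0.le 12
    simp only [Finset.sum_range_succ, Finset.sum_range_zero, Nat.factorial] at hl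
    norm_num at hl
    have hP : 0 ≤ 1 - y / 2 + y ^ 2 / 12 - y ^ 4 / 720 + y ^ 6 / 30240 := by
      nlinarith [sq_nonneg (y^2), sq_nonneg (y^3)]
    refine le_trans ?_ (mul_le_mul_of_nonneg_left (sub_le_sub_right hl 1) hP)
    have key : 0 ≤ y ^ 9 * (1 / 1209600 + y / 2419200 + y ^ 2 / 8553600 + y ^ 3 / 45619200
      + 97 / 20118067200 * y ^ 4 + y ^ 5 / 2286144000 + 17 / 301771008000 * y ^ 6
      + y ^ 7 / 109734912000 + y ^ 8 / 1207084032000) := by positivity
    linarith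

theorem m6b : M6B := by
  intro e he he1
  have hl2 := Real.log_two_lt_d9
  have hl2' := Real.log_two_gt_d9
  have hlp : 0 < Real.log 2 := Real.log_pos (by norm_num)
  have hy : 0 < Real.log 2 * e := by positivity
  have hy1 : Real.log 2 * e ≤ 7 / 10 := by nlinarith
  obtain ⟨h1, h2⟩ := bern_aux _ hy hy1
  have hexp : (2:ℝ) ^ e = Real.exp (Real.log 2 * e) := by
    rw [Real.rpow_def_of_pos (by norm_num)]
  have hpos : 0 < Real.exp (Real.log 2 * e) - 1 := by
    have := Real.add_one_lt_exp hy.ne'; linarith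
  unfold Bb
  rw [hexp]
  constructor
  · rw [le_div_iff₀ hpos]; exact h1
  · rw [div_le_iff₀ hpos]; exact h2

end Pool.Agent.H58.Tal
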