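import Mathlib
import Pool.Agent.H58.Tal.Defs6
import Pool.Agent.H58.Tal.M0
set_option autoImplicit false

open Real Set

namespace Pool.Agent.H58.Tal

/-- lower bound for the exponential of a negative number -/
lemma exp_neg_ge (y : ℝ) (n : ℕ) (hn : 0 < n) (h : y / n ≤ 1) : (1 - y / n) ^ n ≤ Real.exp (-y) := by
  have h1 : Real.exp (-y) = Real.exp (-(y / n)) ^ n := by
    rw [← Real.exp_nat_mul]
    congr 1
    have : (n : ℝ) ≠ 0 := by exact_mod_cast hn.ne'
    field_simp
  rw [h1]
  have h2 : 1 - y / n ≤ Real.exp (-(y / n)) := by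
    have := Real.add_one_le_exp (-(y / n) : ℝ)
    linarith
  exact pow_le_pow_left₀ (by linarith) h2 n

lemma log_77 : Real.log (77 / 100) ≤ -(26 / 100) := by
  rw [Real.log_le_iff_le_exp (by norm_num)]
  refine le_trans ?_ (exp_neg_ge (26 / 100) 32 (by norm_num) (by norm_num))
  norm_num

lemma log_66 : Real.log (66 / 100) ≤ -(4145 / 10000) := by
  rw [Real.log_le_iff_le_exp (by norm_num)]
  refine le_trans ?_ (exp_neg_ge (4145 / 10000) 128 (by norm_num) (by norm_num))
  norm_num

lemma log_14 : 325 / 1000 ≤ Real.log (14 / 10) := by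
  have h : Real.log (14 / 10)⁻¹ ≤ -(325 / 1000) := by
    rw [Real.log_le_iff_le_exp (by norm_num)]
    refine le_trans ?_ (exp_neg_ge (325 / 1000) 8 (by norm_num) (by norm_num))
    norm_num
  rw [Real.log_inv] at h
  linarith

lemma log_19 : 6335 / 10000 ≤ Real.log (19 / 10) := by
  have h : Real.log (19 / 10)⁻¹ ≤ -(6335 / 10000) := by
    rw [Real.log_le_iff_le_exp (by norm_num)]
    refine le_trans ?_ (exp_neg_ge (6335 / 10000) 32 (by norm_num) (by norm_num))
    norm_num
  rw [Real.log_inv] at h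
  linarith

lemma LL_77 : LL (77 / 100) ≤ 2 * Real.log 2 + Real.log (14 / 10) := by
  have h1 := log_77
  have h2 := log_14
  have h4 := Real.log_two_gt_d9
  have h5 := Real.log_two_lt_d9
  have hac := ac_pos
  unfold LL
  have h6 : (1 / (77 / 100) + 21 / 20 * Real.log (77 / 100) - 59 / 100 * (77 / 100) +
      11 / 100 * (77 / 100) ^ 2 - 13 / 25) ≤ (2 * Real.log 2 + Real.log (14 / 10) - 27 / 20) * ac := by
    have h7 : (1 / (77 / 100) + 21 / 20 * Real.log (77 / 100) - 59 / 100 * (77 / 100) +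
      11 / 100 * (77 / 100) ^ 2 - 13 / 25) ≤ 0.1167 := by
      norm_num
      linarith
    have h8 : (0.1167 : ℝ) ≤ (0.36) * ac := by unfold ac; linarith
    have h9 : (0.36 : ℝ) * ac ≤ (2 * Real.log 2 + Real.log (14 / 10) - 27 / 20) * ac := by
      apply mul_le_mul_of_nonneg_right _ hac.le
      linarith
    linarith
  have h8 : (1 / (77 / 100) + 21 / 20 * Real.log (77 / 100) - 59 / 100 * (77 / 100) +
      11 / 100 * (77 / 100) ^ 2 - 13 / 25) / ac ≤ 2 * Real.log 2 + Real.log (14 / 10) - 27 / 20 := by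
    rw [div_le_iff₀ hac]
    exact h6
  linarith

lemma LL_66 : LL (66 / 100) ≤ 2 * Real.log 2 + Real.log (19 / 10) := by
  have h1 := log_66
  have h2 := log_19
  have h4 := Real.log_two_gt_d9
  have h5 := Real.log_two_lt_d9
  have hac := ac_pos
  unfold LL
  have h6 : (1 / (66 / 100) + 21 / 20 * Real.log (66 / 100) - 59 / 100 * (66 / 100) +
      11 / 100 * (66 / 100) ^ 2 - 13 / 25) ≤ (2 * Real.log 2 + Real.log (19 / 10) - 27 / 20) * ac := by
    have h7 : (1 / (66 / 100) + 21 / 20 * Real.log (66 / 100) - 59 / 100 * (66 / 100) +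
      11 / 100 * (66 / 100) ^ 2 - 13 / 25) ≤ 0.2185 := by
      norm_num
      linarith
    have h8 : (0.2185 : ℝ) ≤ (0.6695) * ac := by unfold ac; linarith
    have h9 : (0.6695 : ℝ) * ac ≤ (2 * Real.log 2 + Real.log (19 / 10) - 27 / 20) * ac := by
      apply mul_le_mul_of_nonneg_right _ hac.le
      linarith
    linarith
  have h8 : (1 / (66 / 100) + 21 / 20 * Real.log (66 / 100) - 59 / 100 * (66 / 100) +
      11 / 100 * (66 / 100) ^ 2 - 13 / 25) / ac ≤ 2 * Real.log 2 + Real.log (19 / 10) - 27 / 20 := by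
    rw [div_le_iff₀ hac]
    exact h6
  linarith

theorem m6C : M6C := by
  intro ep h l t ht0 ht1 hl
  have hlog : 0 < Real.log (1 + t) := Real.log_pos (by linarith)
  have h2 := Real.log_two_gt_d9
  have hl' : 27 / 20 < l := by linarith
  have hpos := h.pos l hl'
  have hlt := h.lt_one l hl'
  have hLL := h.LL_ep l hl'
  refine ⟨hpos, ht0, ht1, h.le l (by linarith), ?_⟩
  rcases le_or_gt t (4 / 10) with h4 | h4
  · exact Or.inr (Or.inl h4)
  · rcases le_or_gt t (9 / 10) with h9 | h9
    · refine Or.inl ⟨?_, h9⟩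
      by_contra hc
      push Not at hc
      have h5 := LL_anti (show (77 / 100 : ℝ) ∈ Ioc 0 1 by norm_num) ⟨hpos, hlt.le⟩ hc
      rw [hLL] at h5
      have h6 : Real.log (14 / 10) ≤ Real.log (1 + t) := Real.log_le_log (by norm_num) (by linarith)
      have := LL_77
      linarith
    · refine Or.inr (Or.inr ⟨?_, h9.le⟩)
      by_contra hc
      push Not at hc
      have h5 := LL_anti (show (66 / 100 : ℝ) ∈ Ioc 0 1 by norm_num) ⟨hpos, hlt.le⟩ hc
      rw [hLL] at h5
      have h6 : Real.log (19 / 10) ≤ Real.log (1 + t) := Real.log_le_log (by norm_num) (by linarith)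
      have := LL_66
      linarith

end Pool.Agent.H58.Tal
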