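
import Pool.Agent.H58.Tal.Defs

/-! Even part of the binomial series, single crossing lemma (modules M7a, M7b). -/

set_option autoImplicit false

open Finset Real Filter Topology

namespace Pool.Agent.H58.Tal

/-- coefficient of `s^{2j}` in `N_v(s) - 1` -/
noncomputable def cc (v : ℝ) (j : ℕ) : ℝ := if j = 0 then 0 else Ring.choose (1 + v) (2 * j)

lemma rc_succ (a : ℝ) (n : ℕ) :
    ((n : ℝ) + 1) * Ring.choose a (n + 1) = (a - n) * Ring.choose a n := by
  have h1 := Ring.descPochhammer_eq_factorial_smul_choose a (n + 1)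
  have h2 := Ring.descPochhammer_eq_factorial_smul_choose a n
  rw [descPochhammer_succ_right, Polynomial.smeval_mul, h2] at h1
  simp only [Polynomial.smeval_sub, Polynomial.smeval_X, Polynomial.smeval_natCast, nsmul_eq_mul,
    pow_one, pow_zero, mul_one, Nat.factorial_succ, Nat.cast_mul, Nat.cast_add, Nat.cast_one] at h1
  have hf : ((n.factorial : ℕ) : ℝ) ≠ 0 := by positivity
  have : ((n.factorial : ℕ) : ℝ) * (((n : ℝ) + 1) * Ring.choose a (n + 1))
      = ((n.factorial : ℕ) : ℝ) * ((a - n) * Ring.choose a n) := by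
    linear_combination -h1
  exact mul_left_cancel₀ hf this

lemma cc_zero (v : ℝ) : cc v 0 = 0 := by simp [cc]

lemma cc_one (v : ℝ) : cc v 1 = (1 + v) * v / 2 := by
  have h1 := rc_succ (1 + v) 1
  have h0 := rc_succ (1 + v) 0
  simp only [Nat.cast_zero, Nat.cast_one, Ring.choose_zero_right, zero_add, one_mul, sub_zero,
    mul_one] at h0 h1
  have : cc v 1 = Ring.choose (1 + v) (1 + 1) := by simp [cc]
  rw [this]
  rw [h0] at h1
  linarith

lemma cc_succ (v : ℝ) (j : ℕ) (hj : 1 ≤ j) :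
    (2 * (j : ℝ) + 1) * (2 * j + 2) * cc v (j + 1) = (2 * j - 1 - v) * (2 * j - v) * cc v j := by
  have h1 := rc_succ (1 + v) (2 * j)
  have h2 := rc_succ (1 + v) (2 * j + 1)
  have e1 : cc v (j + 1) = Ring.choose (1 + v) (2 * j + 1 + 1) := by
    have : 2 * (j + 1) = 2 * j + 1 + 1 := by ring
    simp [cc, this]
  have e2 : cc v j = Ring.choose (1 + v) (2 * j) := by
    have : j ≠ 0 := by omega
    simp [cc, this]
  rw [e1, e2]
  push_cast at h1 h2
  linear_combination (2 * (j : ℝ) + 1) * h2 + (1 + v - (2 * (j : ℝ) + 1)) * h1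

lemma cc_nonneg (v : ℝ) (h0 : 0 ≤ v) (h1 : v ≤ 1) (j : ℕ) : 0 ≤ cc v j := by
  induction j with
  | zero => simp [cc_zero]
  | succ j ih =>
    rcases Nat.eq_zero_or_pos j with rfl | hj
    · rw [zero_add, cc_one]; positivity
    · have h := cc_succ v j hj
      have hj1 : (1 : ℝ) ≤ j := by exact_mod_cast hj
      have h3 : 0 ≤ (2 * j - 1 - v) * (2 * j - v) * cc v j := by
        have : 0 ≤ 2 * (j : ℝ) - 1 - v := by linarith
        have : 0 ≤ 2 * (j : ℝ) - v := by linarith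
        positivity
      have h4 : 0 < (2 * (j : ℝ) + 1) * (2 * j + 2) := by positivity
      by_contra hc
      push Not at hc
      nlinarith

lemma hasSum_rpow (a x : ℝ) (hx : |x| < 1) :
    HasSum (fun n => Ring.choose a n * x ^ n) ((1 + x) ^ a) := by
  have h := (Real.one_add_rpow_hasFPowerSeriesOnBall_zero (a := a)).hasSum
    (y := x) (by simpa [enorm_eq_nnnorm, ← NNReal.coe_lt_coe] using hx)
  rw [zero_add] at h
  have e : (fun n => Ring.choose a n * x ^ n) = fun n => binomialSeries ℝ a n fun _ => x := by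
    funext n
    rw [binomialSeries_apply, List.ofFn_const, List.prod_replicate, smul_eq_mul]
  rw [e]
  exact h

lemma hasSum_Nv (v s : ℝ) (hs : |s| < 1) :
    HasSum (fun j => cc v j * (s ^ 2) ^ j) (Nv v s - 1) := by
  have h1 := hasSum_rpow (1 + v) s hs
  have h2 := hasSum_rpow (1 + v) (-s) (by simpa using hs)
  have h3 := (h1.add h2).div_const 2
  have hinj : Function.Injective (fun j : ℕ => 2 * j) := by
    intro a b hab
    simpa using hab
  have h5 := (hinj.hasSum_iff (f := fun n => (Ring.choose (1 + v) n * s ^ n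
    + Ring.choose (1 + v) n * (-s) ^ n) / 2) (a := Nv v s) (by
      intro n hn
      have hodd : Odd n := by
        rcases Nat.even_or_odd n with he | ho
        · exfalso
          obtain ⟨m, hm⟩ := he
          exact hn ⟨m, by simp; omega⟩
        · exact ho
      rw [hodd.neg_pow]; ring)).2 (by
      have : Nv v s = ((1 + s) ^ (1 + v) + (1 + -s) ^ (1 + v)) / 2 := by
        rw [Nv, ← sub_eq_add_neg]
      rw [this]
      exact h3)
  have h6 : HasSum (fun j => Ring.choose (1 + v) (2 * j) * (s ^ 2) ^ j) (Nv v s) := by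
    have e : (fun j => Ring.choose (1 + v) (2 * j) * (s ^ 2) ^ j)
        = (fun n => (Ring.choose (1 + v) n * s ^ n + Ring.choose (1 + v) n * (-s) ^ n) / 2)
          ∘ (fun j : ℕ => 2 * j) := by
      funext j
      simp only [Function.comp_apply]
      rw [(even_two_mul j).neg_pow, pow_mul]; ring
    rw [e]; exact h5
  have h7 := h6.sub (hasSum_ite_eq (0 : ℕ) (1 : ℝ))
  have e : (fun j => cc v j * (s ^ 2) ^ j)
      = fun j => Ring.choose (1 + v) (2 * j) * (s ^ 2) ^ j - if j = 0 then 1 else 0 := by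
    funext j
    rcases Nat.eq_zero_or_pos j with rfl | hj
    · simp [cc]
    · have : j ≠ 0 := by omega
      simp [cc, this]
  rw [e]
  exact h7

/-! ### Bounds of `N_v` -/

lemma Nv_le (v s : ℝ) (hv : 0 ≤ v) (hs : s ∈ Set.Icc (-1) 1) : Nv v s ≤ 2 ^ v := by
  have h := NNReal.add_rpow_le_rpow_add (p := 1 + v) (Real.toNNReal (1 + s))
    (Real.toNNReal (1 - s)) (by linarith)
  have h' : ((Real.toNNReal (1 + s) : ℝ)) ^ (1 + v) + ((Real.toNNReal (1 - s) : ℝ)) ^ (1 + v)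
      ≤ ((Real.toNNReal (1 + s) : ℝ) + (Real.toNNReal (1 - s) : ℝ)) ^ (1 + v) := by
    exact_mod_cast h
  rw [Real.coe_toNNReal _ (by linarith [hs.1]), Real.coe_toNNReal _ (by linarith [hs.2])] at h'
  have e1 : (1 + s) + (1 - s) = (2 : ℝ) := by ring
  have e2 : (2 : ℝ) ^ (1 + v) = 2 * 2 ^ v := by rw [Real.rpow_add (by norm_num), Real.rpow_one]
  rw [e1, e2] at h'
  rw [Nv]
  linarith

lemma Nv_ge (v s : ℝ) (hv : 0 ≤ v) (hv1 : v ≤ 1) (hs : s ∈ Set.Icc 0 1) :
    2 ^ v - 2 * (1 - s) ≤ Nv v s := by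
  have h := one_add_mul_self_le_rpow_one_add (s := -((1 - s) / 2)) (by linarith [hs.1, hs.2])
    (p := 1 + v) (by linarith)
  have e1 : (1 + s) ^ (1 + v) = 2 ^ (1 + v) * (1 + -((1 - s) / 2)) ^ (1 + v) := by
    rw [← Real.mul_rpow (by norm_num) (by linarith [hs.1, hs.2])]
    congr 1; ring
  have h2 : (0 : ℝ) ≤ (1 - s) ^ (1 + v) := Real.rpow_nonneg (by linarith [hs.2]) _
  have h3 : (2 : ℝ) ^ (1 + v) = 2 * 2 ^ v := by rw [Real.rpow_add (by norm_num), Real.rpow_one]
  have h4 : (2 : ℝ) ^ v ≤ 2 := by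
    calc (2 : ℝ) ^ v ≤ 2 ^ (1 : ℝ) := Real.rpow_le_rpow_of_exponent_le (by norm_num) hv1
      _ = 2 := Real.rpow_one 2
  have h5 : (0 : ℝ) < 2 ^ v := Real.rpow_pos_of_pos (by norm_num) _
  rw [Nv, e1, h3]
  have h6 : 2 * (2 : ℝ) ^ v * (1 + (1 + v) * -((1 - s) / 2))
      ≤ 2 * 2 ^ v * (1 + -((1 - s) / 2)) ^ (1 + v) :=
    mul_le_mul_of_nonneg_left h (by positivity)
  have h7 : (2 : ℝ) ^ v * ((1 + v) * ((1 - s) / 2)) ≤ 2 * (1 - s) := by
    have h8 : (1 + v) * ((1 - s) / 2) ≤ 1 - s := by nlinarith [hs.2]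
    have h9 : 0 ≤ 1 - s := by linarith [hs.2]
    nlinarith
  linarith

lemma Nv_neg (v s : ℝ) : Nv v (-s) = Nv v s := by
  rw [Nv, Nv]
  rw [sub_neg_eq_add, ← sub_eq_add_neg, add_comm]

lemma Nv_one (v : ℝ) (hv : 0 ≤ v) : Nv v 1 = 2 ^ v := by
  rw [Nv, sub_self, Real.zero_rpow (by linarith)]
  have : (1 : ℝ) + 1 = 2 := by norm_num
  rw [this, Real.rpow_add (by norm_num), Real.rpow_one]
  ring

lemma Nv_abs (v s : ℝ) : Nv v |s| = Nv v s := by
  rcases abs_cases s with ⟨h, _⟩ | ⟨h, _⟩ <;> rw [h]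
  exact Nv_neg v s

lemma Gam_abs (v s : ℝ) : Gam v |s| = Gam v s := by rw [Gam, Gam, Nv_abs]

lemma two_rpow_sub_pos (v : ℝ) (hv : 0 < v) : (0 : ℝ) < 2 ^ v - 1 := by
  have := Real.one_lt_rpow (x := 2) (z := v) (by norm_num) hv
  linarith

lemma Gam_one (v : ℝ) (hv : 0 < v) : Gam v 1 = Real.log 2 := by
  rw [Gam, Nv_one v hv.le]
  have := two_rpow_sub_pos v hv
  field_simp

lemma Gam_le (v s : ℝ) (hv : 0 < v) (hs : s ∈ Set.Icc (-1) 1) : Gam v s ≤ Real.log 2 := by
  rw [Gam, div_le_iff₀ (two_rpow_sub_pos v hv)]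
  exact mul_le_mul_of_nonneg_left (by linarith [Nv_le v s hv.le hs]) (Real.log_nonneg (by norm_num))

lemma Gam_ge (v s : ℝ) (hv : 0 < v) (hv1 : v ≤ 1) (hs : s ∈ Set.Icc 0 1) :
    Real.log 2 - Real.log 2 * 2 / (2 ^ v - 1) * (1 - s) ≤ Gam v s := by
  have h1 := two_rpow_sub_pos v hv
  have h2 := Nv_ge v s hv.le hv1 hs
  have h3 : (0 : ℝ) ≤ Real.log 2 := Real.log_nonneg (by norm_num)
  rw [Gam, le_div_iff₀ h1]
  have e : (Real.log 2 - Real.log 2 * 2 / (2 ^ v - 1) * (1 - s)) * (2 ^ v - 1)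
      = Real.log 2 * (2 ^ v - 2 * (1 - s) - 1) := by
    field_simp
    ring
  rw [e]
  exact mul_le_mul_of_nonneg_left (by linarith) h3

/-! ### Single crossing -/

/-- If the coefficients of `F` are first nonnegative, then nonpositive, and `F(1-) ≥ 0`, then
`F ≥ 0` on `[0,1)`. -/
lemma single_cross (d : ℕ → ℝ) (F : ℝ → ℝ)
    (hF : ∀ x, 0 ≤ x → x < 1 → HasSum (fun j => d j * x ^ j) (F x))
    (hd : ∀ j k, j ≤ k → d j < 0 → d k ≤ 0) (C : ℝ)
    (h1 : ∀ x, 0 ≤ x → x < 1 → -C * (1 - x) ≤ F x) (x : ℝ) (hx0 : 0 ≤ x) (hx1 : x < 1) :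
    0 ≤ F x := by
  by_cases hneg : ∃ j, d j < 0
  · classical
    obtain ⟨J, hJ, hJmin⟩ : ∃ J, d J < 0 ∧ ∀ j < J, 0 ≤ d j :=
      ⟨Nat.find hneg, Nat.find_spec hneg, fun j hj => not_lt.1 (Nat.find_min hneg hj)⟩
    have key : ∀ t, x ≤ t → t < 1 → x ^ J * F t ≤ t ^ J * F x := by
      intro t hxt ht
      have ht0 : 0 ≤ t := hx0.trans hxt
      refine hasSum_le ?_ ((hF t ht0 ht).mul_left (x ^ J)) ((hF x hx0 hx1).mul_left (t ^ J))
      intro j
      rcases lt_or_ge j J with hj | hj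
      · have hdj := hJmin j hj
        obtain ⟨m, rfl⟩ := Nat.exists_eq_add_of_le hj.le
        have h2 : x ^ m ≤ t ^ m := pow_le_pow_left₀ hx0 hxt m
        have h3 : 0 ≤ x ^ j * t ^ j := by positivity
        rw [pow_add, pow_add]
        have : 0 ≤ d j * (x ^ j * t ^ j) * (t ^ m - x ^ m) :=
          mul_nonneg (mul_nonneg hdj h3) (by linarith)
        nlinarith
      · have hdj := hd J j hj hJ
        obtain ⟨m, rfl⟩ := Nat.exists_eq_add_of_le hj
        have h2 : x ^ m ≤ t ^ m := pow_le_pow_left₀ hx0 hxt m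
        have h3 : 0 ≤ x ^ J * t ^ J := by positivity
        rw [pow_add, pow_add]
        have : 0 ≤ (- d (J + m)) * (x ^ J * t ^ J) * (t ^ m - x ^ m) :=
          mul_nonneg (mul_nonneg (by linarith) h3) (by linarith)
        nlinarith
    have key2 : ∀ t, x ≤ t → t < 1 → x ^ J * (-C * (1 - t)) ≤ t ^ J * F x := by
      intro t hxt ht
      refine le_trans ?_ (key t hxt ht)
      exact mul_le_mul_of_nonneg_left (h1 t (hx0.trans hxt) ht) (by positivity)
    have hlim1 : Tendsto (fun t : ℝ => x ^ J * (-C * (1 - t))) (𝓝[<] 1)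
        (𝓝 (x ^ J * (-C * (1 - 1)))) := by
      apply Tendsto.mono_left _ nhdsWithin_le_nhds
      exact (Continuous.tendsto (by fun_prop) 1)
    have hlim2 : Tendsto (fun t : ℝ => t ^ J * F x) (𝓝[<] 1) (𝓝 (1 ^ J * F x)) := by
      apply Tendsto.mono_left _ nhdsWithin_le_nhds
      exact (Continuous.tendsto (by fun_prop) 1)
    have := le_of_tendsto_of_tendsto hlim1 hlim2 (by
      filter_upwards [Ioo_mem_nhdsLT hx1] with t ht
      exact key2 t ht.1.le ht.2)
    simpa using this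
  · push Not at hneg
    exact (hF x hx0 hx1).nonneg (fun j => mul_nonneg (hneg j) (by positivity))

/-! ### Module M7a -/

/-- coefficients of `Γ_v` -/
noncomputable def Gc (v : ℝ) (j : ℕ) : ℝ := Real.log 2 / (2 ^ v - 1) * cc v j

lemma Gc_nonneg (v : ℝ) (h0 : 0 < v) (h1 : v ≤ 1) (j : ℕ) : 0 ≤ Gc v j := by
  have h2 := two_rpow_sub_pos v h0
  have h3 : (0 : ℝ) ≤ Real.log 2 := Real.log_nonneg (by norm_num)
  have h4 := cc_nonneg v h0.le h1 j
  rw [Gc]; positivity

lemma hasSum_Gam (v s : ℝ) (hs : |s| < 1) :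
    HasSum (fun j => Gc v j * (s ^ 2) ^ j) (Gam v s) := by
  have h := (hasSum_Nv v s hs).mul_left (Real.log 2 / (2 ^ v - 1))
  have e : (fun j => Gc v j * (s ^ 2) ^ j)
      = fun j => Real.log 2 / (2 ^ v - 1) * (cc v j * (s ^ 2) ^ j) := by
    funext j
    rw [Gc]; ring
  have e2 : Gam v s = Real.log 2 / (2 ^ v - 1) * (Nv v s - 1) := by
    rw [Gam]; ring
  rw [e, e2]
  exact h

lemma Gc_succ (v : ℝ) (j : ℕ) (hj : 1 ≤ j) :
    (2 * (j : ℝ) + 1) * (2 * j + 2) * Gc v (j + 1) = (2 * j - 1 - v) * (2 * j - v) * Gc v j := by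
  have h := cc_succ v j hj
  rw [Gc, Gc]
  linear_combination (Real.log 2 / (2 ^ v - 1)) * h

lemma Gc_zero (v : ℝ) : Gc v 0 = 0 := by rw [Gc, cc_zero, mul_zero]

lemma Gam_nonneg (v s : ℝ) (h0 : 0 < v) (h1 : v ≤ 1) (hs : s ∈ Set.Icc (-1) 1) : 0 ≤ Gam v s := by
  rcases lt_or_eq_of_le (abs_le.2 ⟨hs.1, hs.2⟩) with h | h
  · refine (hasSum_Gam v s h).nonneg (fun j => mul_nonneg (Gc_nonneg v h0 h1 j) (by positivity))
  · rw [← Gam_abs, h, Gam_one v h0]
    exact Real.log_nonneg (by norm_num)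

lemma Gc_cross (v w : ℝ) (hv : 0 < v) (hvw : v ≤ w) (hw : w ≤ 1) (j : ℕ) (hj : 1 ≤ j)
    (h : Gc w j ≤ Gc v j) : Gc w (j + 1) ≤ Gc v (j + 1) := by
    have h1 := Gc_succ v j hj
    have h2 := Gc_succ w j hj
    have hj1 : (1 : ℝ) ≤ j := by exact_mod_cast hj
    have h3 : 0 < (2 * (j : ℝ) + 1) * (2 * j + 2) := by positivity
    have hw0 := Gc_nonneg w (hv.trans_le hvw) hw j
    have hm : (2 * (j : ℝ) - 1 - w) * (2 * j - w) ≤ (2 * j - 1 - v) * (2 * j - v) :=
      mul_le_mul (by linarith) (by linarith) (by linarith) (by linarith)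
    have hm0 : 0 ≤ (2 * (j : ℝ) - 1 - v) * (2 * j - v) :=
      mul_nonneg (by linarith) (by linarith)
    have h4 : (2 * (j : ℝ) + 1) * (2 * j + 2) * Gc w (j + 1)
        ≤ (2 * (j : ℝ) + 1) * (2 * j + 2) * Gc v (j + 1) := by
      rw [h1, h2]
      calc (2 * (j : ℝ) - 1 - w) * (2 * j - w) * Gc w j
          ≤ (2 * j - 1 - v) * (2 * j - v) * Gc w j := mul_le_mul_of_nonneg_right hm hw0
        _ ≤ (2 * j - 1 - v) * (2 * j - v) * Gc v j := mul_le_mul_of_nonneg_left h hm0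
    exact le_of_mul_le_mul_left h4 h3

theorem m7a : M7a := by
  refine ⟨?_, fun v s h0 h1 hs => Gam_nonneg v s h0 h1 hs⟩
  intro v w s hv hvw hw hs
  have hw0 : 0 < w := hv.trans_le hvw
  rcases lt_or_eq_of_le (abs_le.2 ⟨hs.1, hs.2⟩) with h | h
  swap
  · rw [← Gam_abs v, ← Gam_abs w, h, Gam_one v hv, Gam_one w hw0]
  have hx1 : s ^ 2 < 1 := by rwa [sq_lt_one_iff_abs_lt_one]
  have := single_cross (fun j => Gc w j - Gc v j)
    (fun x => Gam w (Real.sqrt x) - Gam v (Real.sqrt x)) (by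
      intro x hx0 hx1
      have hs : |Real.sqrt x| < 1 := by
        rw [abs_of_nonneg (Real.sqrt_nonneg x)]
        rw [Real.sqrt_lt' one_pos]; simpa using hx1
      have h1 := (hasSum_Gam w (Real.sqrt x) hs).sub (hasSum_Gam v (Real.sqrt x) hs)
      rw [Real.sq_sqrt hx0] at h1
      have e : (fun j => (Gc w j - Gc v j) * x ^ j)
          = fun j => Gc w j * x ^ j - Gc v j * x ^ j := by
        funext j; ring
      rw [e]
      exact h1) (by
      intro j k hjk hneg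
      have hj : 1 ≤ j := by
        rcases Nat.eq_zero_or_pos j with rfl | hj
        · simp only [Gc_zero, sub_self, lt_irrefl] at hneg
        · exact hj
      have : ∀ m, Gc w (j + m) - Gc v (j + m) ≤ 0 := by
        intro m
        induction m with
        | zero => exact hneg.le
        | succ m ih =>
          have := Gc_cross v w hv hvw hw (j + m) (by omega) (by linarith)
          rw [← add_assoc]
          linarith
      obtain ⟨m, rfl⟩ := Nat.exists_eq_add_of_le hjk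
      exact this m) (Real.log 2 * 2 / (2 ^ w - 1)) (by
      intro x hx0 hx1
      have hs : Real.sqrt x ∈ Set.Icc (0 : ℝ) 1 :=
        ⟨Real.sqrt_nonneg x, Real.sqrt_le_one.2 hx1.le⟩
      have h1 := Gam_ge w (Real.sqrt x) hw0 hw hs
      have h2 := Gam_le v (Real.sqrt x) hv ⟨by linarith [hs.1], hs.2⟩
      have h3 : x ≤ Real.sqrt x := by
        calc x = Real.sqrt x * Real.sqrt x := (Real.mul_self_sqrt hx0).symm
          _ ≤ Real.sqrt x * 1 := mul_le_mul_of_nonneg_left hs.2 hs.1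
          _ = Real.sqrt x := mul_one _
      have h4 := two_rpow_sub_pos w hw0
      have h5 : (0 : ℝ) ≤ Real.log 2 * 2 / (2 ^ w - 1) := by
        have : (0 : ℝ) ≤ Real.log 2 := Real.log_nonneg (by norm_num)
        positivity
      nlinarith) (s ^ 2) (by positivity) hx1
  simp only [Real.sqrt_sq_eq_abs, Gam_abs] at this
  linarith

end Pool.Agent.H58.Tal
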