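import Pool.Agent.H58.Tal.Defs6
import Pool.Agent.H58.Tal.M7a
import Pool.Agent.H58.Tal.M0

/-! Module M6R1a (helper67): the algebra reducing `IneqII` to `R1star`. -/

set_option autoImplicit false

open Finset Real

namespace Pool.Agent.H58.Tal

/-- `Γ_v(s) ≥ D(s)` for `0 < v ≤ 1`, `|s| < 1` -/
lemma Dn_le_Gam (e s : ℝ) (he : 0 < e) (he1 : e ≤ 1) (hs0 : -1 < s) (hs1 : s < 1) :
    Dn s ≤ Gam e s := by
  have hN : HasDerivAt (fun v : ℝ => Nv v s) (Dn s) 0 := by
    have h1 : HasDerivAt (fun v : ℝ => (1 + s) ^ (1 + v)) ((1 + s) * Real.log (1 + s)) 0 := by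
      have := (((hasDerivAt_id (0 : ℝ)).const_add 1)).const_rpow (a := 1 + s) (by linarith)
      simpa [mul_comm] using this
    have h2 : HasDerivAt (fun v : ℝ => (1 - s) ^ (1 + v)) ((1 - s) * Real.log (1 - s)) 0 := by
      have := (((hasDerivAt_id (0 : ℝ)).const_add 1)).const_rpow (a := 1 - s) (by linarith)
      simpa [mul_comm] using this
    have h3 := (h1.add h2).div_const 2
    exact h3
  have hP : HasDerivAt (fun v : ℝ => (2 : ℝ) ^ v) (Real.log 2) 0 := by
    have := ((hasDerivAt_id (0 : ℝ))).const_rpow (a := (2:ℝ)) (by norm_num)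
    simpa using this
  rw [hasDerivAt_iff_tendsto_slope] at hN hP
  have hl2 : (0:ℝ) < Real.log 2 := Real.log_pos (by norm_num)
  have hT := (hN.div hP hl2.ne').const_mul (Real.log 2)
  have hT' : Filter.Tendsto (fun v : ℝ => Real.log 2 * (slope (fun v : ℝ => Nv v s) 0 v / slope (fun v : ℝ => (2 : ℝ) ^ v) 0 v))
      (nhdsWithin 0 (Set.Ioi 0)) (nhds (Dn s)) := by
    have e1 : Real.log 2 * (Dn s / Real.log 2) = Dn s := by field_simp
    rw [e1] at hT
    exact hT.mono_left (nhdsWithin_mono _ (fun x hx => ne_of_gt hx))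
  refine le_of_tendsto hT' ?_
  have hmem : Set.Ioc (0:ℝ) e ∈ nhdsWithin (0:ℝ) (Set.Ioi 0) := Ioc_mem_nhdsGT he
  filter_upwards [hmem] with v hv
  have hmono := m7a.1 v e s hv.1 hv.2 he1 ⟨hs0.le, hs1.le⟩
  refine le_trans (le_of_eq ?_) hmono
  have hv0 : v ≠ 0 := hv.1.ne'
  have hp := two_rpow_sub_pos v hv.1
  have hN0 : Nv 0 s = 1 := by simp [Nv]
  rw [slope_def_field, slope_def_field, hN0, Real.rpow_zero, Gam]
  field_simp

/-- `2(t - ln(1+t)) - ln(1+t)² ≤ t³/3` for `t ≥ 0` -/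
lemma v2_le (t : ℝ) (ht : 0 ≤ t) :
    2 * (t - Real.log (1 + t)) - Real.log (1 + t) ^ 2 ≤ t ^ 3 / 3 := by
  let h : ℝ → ℝ := fun t => t ^ 3 / 3 - 2 * (t - Real.log (1 + t)) + Real.log (1 + t) ^ 2
  have hd : ∀ x : ℝ, 0 ≤ x → HasDerivAt h
      (x ^ 2 - 2 * (1 - 1 / (1 + x)) + 2 * Real.log (1 + x) * (1 / (1 + x))) x := by
    intro x hx
    have hl : HasDerivAt (fun y : ℝ => Real.log (1 + y)) (1 / (1 + x)) x := by
      have h1 : HasDerivAt (fun y : ℝ => 1 + y) 1 x := (hasDerivAt_id x).const_add 1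
      exact h1.log (by linarith)
    have h3 : HasDerivAt (fun y : ℝ => y ^ 3 / 3) (x ^ 2) x := by
      have := (hasDerivAt_pow 3 x).div_const 3
      refine this.congr_deriv ?_
      push_cast
      ring
    have h4 : HasDerivAt (fun y : ℝ => 2 * (y - Real.log (1 + y))) (2 * (1 - 1 / (1 + x))) x :=
      ((hasDerivAt_id x).sub hl).const_mul 2
    have h5 : HasDerivAt (fun y : ℝ => Real.log (1 + y) ^ 2)
        (2 * Real.log (1 + x) * (1 / (1 + x))) x := by
      have := hl.pow 2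
      refine this.congr_deriv ?_
      push_cast
      ring
    exact (h3.sub h4).add h5
  have hmono : MonotoneOn h (Set.Ici 0) := by
    apply monotoneOn_of_deriv_nonneg (convex_Ici 0)
    · intro x hx
      exact (hd x hx).continuousAt.continuousWithinAt
    · intro x hx
      rw [interior_Ici] at hx
      exact (hd x (le_of_lt hx)).differentiableAt.differentiableWithinAt
    · intro x hx
      rw [interior_Ici] at hx
      have hx0 : 0 < x := hx
      rw [(hd x hx0.le).deriv]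
      have h1 := Real.le_log_one_add_of_nonneg hx0.le
      have h2 : 0 < 1 + x := by linarith
      have h3 : 0 < x + 2 := by linarith
      have h4 : 2 * (2 * x / (x + 2)) * (1 / (1 + x)) ≤ 2 * Real.log (1 + x) * (1 / (1 + x)) := by
        have : 0 ≤ 1 / (1 + x) := by positivity
        exact mul_le_mul_of_nonneg_right (by linarith) this
      have h5 : x ^ 2 - 2 * (1 - 1 / (1 + x)) + 2 * (2 * x / (x + 2)) * (1 / (1 + x)) =
          x ^ 3 * (x + 3) / ((1 + x) * (x + 2)) := by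
        field_simp
        ring
      have h6 : 0 ≤ x ^ 3 * (x + 3) / ((1 + x) * (x + 2)) := by positivity
      linarith
  have h0 : h 0 = 0 := by simp [h]
  have := hmono (Set.mem_Ici.2 le_rfl) (Set.mem_Ici.2 ht) ht
  rw [h0] at this
  simp only [h] at this
  linarith

/-- the final algebraic step -/
lemma alg_final (e t v y r d l A k z P : ℝ) (he : 0 < e) (ht : 0 < t) (ht1 : t < 1)
    (hd : 0 ≤ d) (hA : 0 ≤ A) (hP : 0 ≤ P) (hv : v ≤ t ^ 3 / 3)
    (hR : P * (1 + e * z) + e * d * (A * (1 + t ^ 2) / 12 + e * P * t ^ 2 / 6) ≤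
      y * l * A + e * r * k * A) :
    e * t ^ 2 * (1 - t ^ 2) * P * (2 * t * (1 + e * z) + e ^ 2 * d * (1 - t) * v) ≤
      (1 - t ^ 2) * (t * A) * (2 * t ^ 2 * (e * y * l + e ^ 2 * r * k) - e ^ 2 * d * v) := by
  have hx : 0 < t ^ 2 := by positivity
  have h1 : (1 - t) * v ≤ t ^ 3 / 3 := by
    have h3 : 0 ≤ t * (t ^ 3 / 3) := by positivity
    have := mul_le_mul_of_nonneg_left hv (by linarith : (0:ℝ) ≤ 1 - t)
    linarith
  have h2 : v ≤ t ^ 2 * (1 + t ^ 2) / 6 := by
    have := mul_nonneg hx.le (sq_nonneg (1 - t))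
    linarith
  have h3 : 0 ≤ e ^ 2 * d * t ^ 2 * P * (t ^ 3 / 3 - (1 - t) * v) := by
    have : 0 ≤ t ^ 3 / 3 - (1 - t) * v := by linarith
    positivity
  have h4 : 0 ≤ e * d * t * A * (t ^ 2 * (1 + t ^ 2) / 6 - v) := by
    have : 0 ≤ t ^ 2 * (1 + t ^ 2) / 6 - v := by linarith
    positivity
  have h5 : 0 ≤ 2 * t ^ 3 * ((y * l * A + e * r * k * A) -
      (P * (1 + e * z) + e * d * (A * (1 + t ^ 2) / 12 + e * P * t ^ 2 / 6))) := by
    have : 0 ≤ (y * l * A + e * r * k * A) -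
      (P * (1 + e * z) + e * d * (A * (1 + t ^ 2) / 12 + e * P * t ^ 2 / 6)) := by
      linarith
    positivity
  have h6 : 0 ≤ e * (1 - t ^ 2) := mul_nonneg he.le (by nlinarith)
  have h7 := mul_nonneg h6 (add_nonneg (add_nonneg h3 h4) h5)
  have key : (1 - t ^ 2) * (t * A) * (2 * t ^ 2 * (e * y * l + e ^ 2 * r * k) - e ^ 2 * d * v) -
      e * t ^ 2 * (1 - t ^ 2) * P * (2 * t * (1 + e * z) + e ^ 2 * d * (1 - t) * v) =
      e * (1 - t ^ 2) * (e ^ 2 * d * t ^ 2 * P * (t ^ 3 / 3 - (1 - t) * v) +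
        e * d * t * A * (t ^ 2 * (1 + t ^ 2) / 6 - v) +
        2 * t ^ 3 * ((y * l * A + e * r * k * A) -
      (P * (1 + e * z) + e * d * (A * (1 + t ^ 2) / 12 + e * P * t ^ 2 / 6)))) := by
    ring
  linarith

theorem m6R1a : M6R1a := by
  intro e t he he1 ht ht1 hR
  have hx : 0 < t ^ 2 := by positivity
  have hx1 : t ^ 2 < 1 := by nlinarith
  have hl2 : (0:ℝ) < Real.log 2 := Real.log_pos (by norm_num)
  have hgg : 0 < gg e := gg_pos (by linarith)
  have hac := ac_pos
  -- positivity of `B + e ln 2`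
  have h2e := two_rpow_sub_pos e he
  have hB : 0 < Bb e := by unfold Bb; positivity
  have hBe : 0 < (1 + e) * (Bb e + Real.log 2 * e) := by positivity
  have hDG : Dn t ≤ Gam e t := Dn_le_Gam e t he (by linarith) (by linarith) ht1
  have hv2 := v2_le t ht.le
  -- abbreviations
  have hP : 0 ≤ Ph e t := by
    unfold Ph
    apply div_nonneg (by linarith)
    have : 0 < 1 - t ^ 2 := by linarith
    positivity
  have hdr : 0 ≤ dr e := by
    unfold dr wlo whi
    positivity
  have hlogs : Real.log (1 - t ^ 2) = Real.log (1 + t) + Real.log (1 - t) := by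
    rw [← Real.log_mul (by linarith) (by linarith)]
    congr 1; ring
  have ha : Real.log (1 + t) = t * oo t - t ^ 2 * la t / 2 := by
    unfold oo la
    rw [hlogs]
    field_simp
    ring
  have hc : Real.log (1 - t) = -(t * oo t + t ^ 2 * la t / 2) := by
    unfold oo la
    rw [hlogs]
    field_simp
    ring
  have hoo : 0 ≤ oo t := by
    unfold oo
    have h1 : 0 ≤ Real.log (1 + t) := Real.log_nonneg (by linarith)
    have h2 : Real.log (1 - t) ≤ 0 := Real.log_nonpos (by linarith) (by linarith)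
    apply div_nonneg <;> linarith
  have hN : Gam e t - Dn t = e * t ^ 2 * (1 - t ^ 2) * Ph e t := by
    unfold Ph
    have : (1 - t ^ 2) ≠ 0 := by linarith
    field_simp
  have hY : YY e = e * yh e := by unfold YY yh; ring
  have hsqp : 0 < (1 + e) * (Bb e + Real.log 2 * e) / (2 * e) := by positivity
  have hrho : wlo / sq e = e ^ 2 * rh e := by
    unfold sq rh
    field_simp
    ring
  have hrho' : whi / sq e = e ^ 2 * rh e + e ^ 2 * dr e := by
    unfold sq rh dr
    field_simp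
    ring
  have hkk : kk t = oo t ^ 2 - la t + t ^ 2 * la t ^ 2 / 4 := rfl
  have hzz : zz e t = yh e * (t ^ 2 * la t + 2 * oo t - 2) +
    e * rh e * (t ^ 2 * kk t + 2 - 2 * oo t + t ^ 2 * oo t * la t) := rfl
  obtain ⟨v, hv⟩ : ∃ v, v = 2 * (t - Real.log (1 + t)) - Real.log (1 + t) ^ 2 := ⟨_, rfl⟩
  rw [← hv] at hv2
  have hS : uu e t + vv e t =
      2 * t ^ 2 * (e * yh e * la t + e ^ 2 * rh e * kk t) - e ^ 2 * dr e * v := by
    unfold uu vv
    rw [hY, hrho, hrho', hkk, hv, ha, hc]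
    ring
  have hR' : 2 * t + (1 + t) * uu e t - (1 - t) * vv e t =
      2 * t * (1 + e * zz e t) + e ^ 2 * dr e * (1 - t) * v := by
    unfold uu vv
    rw [hY, hrho, hrho', hzz, hkk, hv, ha, hc]
    ring
  unfold IneqII
  rw [hS, hR', hN]
  have hO : (Real.log (1 + t) - Real.log (1 - t)) / 2 = t * oo t := by
    rw [ha, hc]; ring
  rw [hO]
  unfold R1star at hR
  exact alg_final e t v (yh e) (rh e) (dr e) (la t) (oo t) (kk t) (zz e t) (Ph e t)
    he ht ht1 hdr hoo hP hv2 hR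

end Pool.Agent.H58.Tal
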