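import Pool.Agent.H58.Tal.M6R1Defs
import Pool.Agent.H58.Tal.Defs6R
import Pool.Agent.H58.Tal.M7a

/-! Module M6R1s: power series and the finite criterion for `R1star`. -/

set_option autoImplicit false

open Finset Real Filter Topology

namespace Pool.Agent.H58.Tal.R1

open Pool.Agent.H58.Tal

/-- `∑ a_i x^i = s` -/
def HS (a : ℕ → ℝ) (x s : ℝ) : Prop := HasSum (fun i => a i * x ^ i) s

lemma HS.congr {a b : ℕ → ℝ} {x s u : ℝ} (h : HS a x s) (hab : ∀ i, b i = a i) (hs : u = s) :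
    HS b x u := by
  have : b = a := funext hab
  rw [this, hs]; exact h

lemma HS.add {a b : ℕ → ℝ} {x s u : ℝ} (ha : HS a x s) (hb : HS b x u) :
    HS (fun i => a i + b i) x (s + u) := by
  have h := HasSum.add ha hb
  have e : (fun i => (a i + b i) * x ^ i) = fun i => a i * x ^ i + b i * x ^ i := by
    funext i; ring
  unfold HS; rw [e]; exact h

lemma HS.sub {a b : ℕ → ℝ} {x s u : ℝ} (ha : HS a x s) (hb : HS b x u) :
    HS (fun i => a i - b i) x (s - u) := by
  have h := HasSum.sub ha hb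
  have e : (fun i => (a i - b i) * x ^ i) = fun i => a i * x ^ i - b i * x ^ i := by
    funext i; ring
  unfold HS; rw [e]; exact h

lemma HS.smul {a : ℕ → ℝ} {x s : ℝ} (c : ℝ) (ha : HS a x s) :
    HS (fun i => c * a i) x (c * s) := by
  have h := HasSum.mul_left c ha
  have e : (fun i => (c * a i) * x ^ i) = fun i => c * (a i * x ^ i) := by
    funext i; ring
  unfold HS; rw [e]; exact h

lemma HS.delta (c x : ℝ) : HS (fun i => if i = 0 then c else 0) x c := by
  have h := hasSum_ite_eq (0 : ℕ) c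
  have e : (fun i : ℕ => (if i = 0 then c else 0) * x ^ i) = fun i : ℕ => if i = 0 then c else 0 := by
    funext i
    by_cases hi : i = 0
    · simp [hi]
    · simp [hi]
  unfold HS; rw [e]; exact h

lemma HS.sh {a : ℕ → ℝ} {x s : ℝ} (ha : HS a x s) : HS (sh a) x (x * s) := by
  unfold HS
  rw [← hasSum_nat_add_iff' 1]
  have h := HasSum.mul_left x ha
  have e : (fun i => R1.sh a (i + 1) * x ^ (i + 1)) = fun i => x * (a i * x ^ i) := by
    funext i
    show a i * x ^ (i + 1) = _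
    ring
  have e2 : x * s - ∑ i ∈ range 1, R1.sh a i * x ^ i = x * s := by
    simp [R1.sh]
  rw [e, e2]; exact h

lemma HS.cv {a b : ℕ → ℝ} {x s u : ℝ} (ha : HS a x s) (hb : HS b x u) :
    HS (cv a b) x (s * u) := by
  have h1 : Summable fun i => ‖a i * x ^ i‖ := ha.summable.norm
  have h2 : Summable fun i => ‖b i * x ^ i‖ := hb.summable.norm
  have h := hasSum_sum_range_mul_of_summable_norm h1 h2
  rw [ha.tsum_eq, hb.tsum_eq] at h
  unfold HS
  have e : (fun i => R1.cv a b i * x ^ i) =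
      fun n => ∑ k ∈ range (n + 1), a k * x ^ k * (b (n - k) * x ^ (n - k)) := by
    funext n
    unfold R1.cv
    rw [sum_mul]
    refine sum_congr rfl fun k hk => ?_
    have : x ^ n = x ^ k * x ^ (n - k) := by
      rw [← pow_add]; congr 1; have := mem_range.1 hk; omega
    rw [this]; ring
  rw [e]; exact h

/-! ### Abel's criterion -/

lemma abel_finite (a : ℕ → ℝ) (h : ∀ n, 0 ≤ ∑ i ∈ range (n + 1), a i) {r : ℝ} (hr0 : 0 ≤ r)
    (hr1 : r ≤ 1) (n : ℕ) :
    r ^ n * ∑ i ∈ range (n + 1), a i ≤ ∑ i ∈ range (n + 1), a i * r ^ i := by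
  induction n with
  | zero => simp
  | succ n ih =>
    rw [sum_range_succ _ (n + 1), sum_range_succ (fun i => a i * r ^ i) (n + 1)]
    have h1 : r ^ (n + 1) * ∑ i ∈ range (n + 1), a i ≤ r ^ n * ∑ i ∈ range (n + 1), a i := by
      refine mul_le_mul_of_nonneg_right ?_ (h n)
      rw [pow_succ]
      exact mul_le_of_le_one_right (by positivity) hr1
    rw [mul_add]
    linarith [mul_comm (r ^ (n + 1)) (a (n + 1))]

lemma abel_series {r s : ℕ → ℝ} (hr : ∀ i, 0 ≤ r i) (hs : ∀ i, 0 ≤ s i) {x x1 R S R1 : ℝ}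
    (hx0 : 0 ≤ x) (hx : x ≤ x1) (hx1 : 0 < x1) (hR : HS r x R) (hS : HS s x S) (hR1 : HS r x1 R1)
    (J : ℕ) (h1 : ∀ j ≤ J, 0 ≤ ∑ i ∈ range (j + 1), (s i - r i) * x1 ^ i)
    (h2 : R1 ≤ ∑ i ∈ range (J + 1), s i * x1 ^ i) : R ≤ S := by
  have hall : ∀ n, 0 ≤ ∑ i ∈ range (n + 1), (s i - r i) * x1 ^ i := by
    intro n
    rcases le_or_gt n J with hn | hn
    · exact h1 n hn
    · have e1 : ∑ i ∈ range (n + 1), r i * x1 ^ i ≤ R1 :=
        sum_le_hasSum _ (fun i _ => mul_nonneg (hr i) (by positivity)) hR1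
      have e2 : ∑ i ∈ range (J + 1), s i * x1 ^ i ≤ ∑ i ∈ range (n + 1), s i * x1 ^ i :=
        sum_le_sum_of_subset_of_nonneg (range_subset_range.2 (by omega))
          (fun i _ _ => mul_nonneg (hs i) (by positivity))
      have e3 : ∑ i ∈ range (n + 1), (s i - r i) * x1 ^ i =
          ∑ i ∈ range (n + 1), s i * x1 ^ i - ∑ i ∈ range (n + 1), r i * x1 ^ i := by
        rw [← sum_sub_distrib]
        exact sum_congr rfl fun i _ => by ring
      rw [e3]; linarith
  set q : ℝ := x / x1 with hq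
  have hq0 : 0 ≤ q := by positivity
  have hq1 : q ≤ 1 := by rw [hq, div_le_one hx1]; exact hx
  have hxq : x = x1 * q := by rw [hq]; field_simp
  have hfin : ∀ n, 0 ≤ ∑ i ∈ range (n + 1), (s i - r i) * x ^ i := by
    intro n
    have h3 := abel_finite (fun i => (s i - r i) * x1 ^ i) hall hq0 hq1 n
    have h4 : ∑ i ∈ range (n + 1), (s i - r i) * x ^ i =
        ∑ i ∈ range (n + 1), (s i - r i) * x1 ^ i * q ^ i := by
      refine sum_congr rfl fun i _ => ?_
      rw [hxq, mul_pow]; ring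
    rw [h4]
    exact le_trans (mul_nonneg (by positivity) (hall n)) h3
  have hd : HasSum (fun i => (s i - r i) * x ^ i) (S - R) := hS.sub hR
  have ht := (hd.tendsto_sum_nat.comp (tendsto_add_atTop_nat 1))
  have := ge_of_tendsto' ht hfin
  linarith

/-! ### The elementary series -/

lemma cv_nonneg {a b : ℕ → ℝ} (ha : ∀ i, 0 ≤ a i) (hb : ∀ i, 0 ≤ b i) (n : ℕ) : 0 ≤ cv a b n :=
  sum_nonneg fun i _ => mul_nonneg (ha i) (hb _)

lemma sh_nonneg {a : ℕ → ℝ} (ha : ∀ i, 0 ≤ a i) (n : ℕ) : 0 ≤ sh a n := by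
  cases n with
  | zero => exact le_rfl
  | succ n => exact ha n

lemma laC_nonneg (i : ℕ) : 0 ≤ laC i := by unfold laC; positivity
lemma ooC_nonneg (i : ℕ) : 0 ≤ ooC i := by unfold ooC; positivity

lemma hs_la {t : ℝ} (ht : 0 < t) (ht1 : t < 1) : HS laC (t ^ 2) (la t) := by
  have hx : |t ^ 2| < 1 := by
    rw [abs_of_pos (by positivity)]; nlinarith
  have h := (Real.hasSum_pow_div_log_of_abs_lt_one hx).mul_left ((t ^ 2)⁻¹)
  have e : (fun i => laC i * (t ^ 2) ^ i) =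
      fun n : ℕ => (t ^ 2)⁻¹ * ((t ^ 2) ^ (n + 1) / ((n : ℝ) + 1)) := by
    funext i
    unfold laC
    rw [pow_succ (t ^ 2) i]
    field_simp
    try ring
  have e2 : la t = (t ^ 2)⁻¹ * -Real.log (1 - t ^ 2) := by
    unfold la; field_simp
  unfold HS
  rw [e, e2]; exact h

lemma hs_oo {t : ℝ} (ht : 0 < t) (ht1 : t < 1) : HS ooC (t ^ 2) (oo t) := by
  have hx : |t| < 1 := by rwa [abs_of_pos ht]
  have h := (Real.hasSum_log_sub_log_of_abs_lt_one hx).mul_left ((2 * t)⁻¹)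
  have e : (fun i => ooC i * (t ^ 2) ^ i) =
      fun n : ℕ => (2 * t)⁻¹ * ((2 : ℝ) * (1 / (2 * (n : ℝ) + 1)) * t ^ (2 * n + 1)) := by
    funext i
    unfold ooC
    rw [pow_succ t (2 * i), pow_mul]
    field_simp
  have e2 : oo t = (2 * t)⁻¹ * (Real.log (1 + t) - Real.log (1 - t)) := by
    unfold oo; field_simp
  unfold HS
  rw [e, e2]; exact h

lemma hs_one {x : ℝ} (hx0 : 0 ≤ x) (hx1 : x < 1) : HS (fun _ => 1) x (1 - x)⁻¹ := by
  have h := hasSum_geometric_of_lt_one hx0 hx1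
  unfold HS
  simpa using h

lemma hs_kk {t : ℝ} (ht : 0 < t) (ht1 : t < 1) : HS kkC (t ^ 2) (kk t) := by
  have hl := hs_la ht ht1
  have ho := hs_oo ht ht1
  refine (((ho.cv ho).sub hl).add ((hl.cv hl).sh.smul (1 / 4))).congr (fun i => ?_) ?_
  · unfold kkC; ring
  · unfold kk; ring

lemma hs_y1 {t : ℝ} (ht : 0 < t) (ht1 : t < 1) :
    HS y1C (t ^ 2) (t ^ 2 * la t + 2 * oo t - 2) := by
  have hl := hs_la ht ht1
  have ho := hs_oo ht ht1
  refine ((hl.sh.add (ho.smul 2)).sub (HS.delta 2 _)).congr (fun i => ?_) rfl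
  unfold y1C; ring

lemma hs_w1 {t : ℝ} (ht : 0 < t) (ht1 : t < 1) :
    HS w1C (t ^ 2) (t ^ 2 * kk t + 2 - 2 * oo t + t ^ 2 * oo t * la t) := by
  have hl := hs_la ht ht1
  have ho := hs_oo ht ht1
  have hk := hs_kk ht ht1
  refine (((hk.sh.add (HS.delta 2 _)).sub (ho.smul 2)).add (ho.cv hl).sh).congr
    (fun i => ?_) (by ring)
  unfold w1C; ring

lemma hs_z (e : ℝ) {t : ℝ} (ht : 0 < t) (ht1 : t < 1) : HS (zC e) (t ^ 2) (zz e t) := by
  refine (((hs_y1 ht ht1).smul (yh e)).add ((hs_w1 ht ht1).smul (e * rh e))).congr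
    (fun i => ?_) ?_
  · unfold zC; ring
  · unfold zz; ring

/-! ### The series of `Ph` -/

lemma Gc_eq {e : ℝ} (he : 0 < e) (i : ℕ) :
    Gc e (i + 1) = (1 + e) * Bb e * piC e i / ((2 * (i : ℝ) + 1) * (2 * (i : ℝ) + 2)) := by
  induction i with
  | zero =>
    rw [zero_add, Gc, cc_one]
    have := two_rpow_sub_pos e he
    unfold Bb
    simp only [piC, Nat.cast_zero]
    field_simp
    ring
  | succ i ih =>
    have h := Gc_succ e (i + 1) (by omega)
    push_cast at h ⊢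
    rw [ih] at h
    have h1 : (0 : ℝ) < 2 * (i : ℝ) + 1 := by positivity
    have h2 : (0 : ℝ) < 2 * (i : ℝ) + 2 := by positivity
    have h3 : (0 : ℝ) < 2 * ((i : ℝ) + 1) + 1 := by positivity
    have h4 : (0 : ℝ) < 2 * ((i : ℝ) + 1) + 2 := by positivity
    rw [eq_div_iff (by positivity)]
    rw [mul_comm, h]
    simp only [piC]
    field_simp
    ring

lemma pi_kap (e : ℝ) (i : ℕ) : 1 - piC e i = e * kapC e i := by
  induction i with
  | zero => simp [piC, kapC]
  | succ i ih =>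
    have h1 : (0 : ℝ) < 2 * (i : ℝ) + 1 := by positivity
    have h2 : (0 : ℝ) < 2 * (i : ℝ) + 2 := by positivity
    simp only [piC, kapC]
    have : e * (kapC e i + piC e i * (1 / (2 * (i : ℝ) + 1) + 1 / (2 * (i : ℝ) + 2) -
        e / ((2 * (i : ℝ) + 1) * (2 * (i : ℝ) + 2)))) = (1 - piC e i) + piC e i *
        (e / (2 * (i : ℝ) + 1) + e / (2 * (i : ℝ) + 2) -
          e ^ 2 / ((2 * (i : ℝ) + 1) * (2 * (i : ℝ) + 2))) := by
      rw [ih]; ring
    rw [this]
    field_simp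
    ring

/-- coefficients of `(Gam - Dn)/(e x)` -/
noncomputable def nC (e : ℝ) (i : ℕ) : ℝ := (Gc e (i + 1) - (ooC i - laC i / 2)) / e

lemma nC_eq {e : ℝ} (he : 0 < e) (i : ℕ) :
    nC e i = (2 * P0 e - (1 + e) * Bb e * kapC e i) / ((2 * (i : ℝ) + 1) * (2 * (i : ℝ) + 2)) := by
  have h1 : (0 : ℝ) < 2 * (i : ℝ) + 1 := by positivity
  have h2 : (0 : ℝ) < 2 * (i : ℝ) + 2 := by positivity
  have h3 := pi_kap e i
  unfold nC
  rw [Gc_eq he]
  have hpi : piC e i = 1 - e * kapC e i := by linarith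
  rw [hpi]
  unfold ooC laC P0
  have h4 : (i : ℝ) + 1 ≠ 0 := by positivity
  field_simp
  ring

lemma PC_eq {e : ℝ} (he : 0 < e) (i : ℕ) : PC e i = ∑ k ∈ range (i + 1), nC e k := by
  induction i with
  | zero =>
    simp only [PC, zero_add, range_one, sum_singleton]
    rw [nC_eq he]
    simp only [kapC, Nat.cast_zero]
    ring
  | succ i ih =>
    rw [sum_range_succ, ← ih, nC_eq he]
    simp only [PC]
    push_cast
    have h1 : (2 * ((i : ℝ) + 1) + 1) = 2 * (i : ℝ) + 3 := by ring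
    have h2 : (2 * ((i : ℝ) + 1) + 2) = 2 * (i : ℝ) + 4 := by ring
    rw [h1, h2]
    ring

lemma hs_Gam {e t : ℝ} (ht : 0 < t) (ht1 : t < 1) :
    HS (fun i => Gc e (i + 1)) (t ^ 2) (Gam e t / t ^ 2) := by
  have h := hasSum_Gam e t (by rwa [abs_of_pos ht])
  rw [← hasSum_nat_add_iff' 1] at h
  simp only [range_one, sum_singleton, Gc_zero, zero_mul, sub_zero] at h
  have h2 := h.mul_left ((t ^ 2)⁻¹)
  have e1 : (fun i => Gc e (i + 1) * (t ^ 2) ^ i) =
      fun i => (t ^ 2)⁻¹ * (Gc e (i + 1) * (t ^ 2) ^ (i + 1)) := by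
    funext i
    rw [pow_succ (t ^ 2) i]
    field_simp
    try ring
  unfold HS
  rw [e1, div_eq_mul_inv, mul_comm]
  exact h2

lemma Dn_eq {t : ℝ} (ht : 0 < t) (ht1 : t < 1) : Dn t / t ^ 2 = oo t - la t / 2 := by
  have h1 : Real.log (1 - t ^ 2) = Real.log (1 + t) + Real.log (1 - t) := by
    rw [← Real.log_mul (by linarith) (by linarith)]
    congr 1; ring
  unfold Dn oo la
  rw [h1]
  field_simp
  ring

lemma hs_n {e t : ℝ} (ht : 0 < t) (ht1 : t < 1) :
    HS (nC e) (t ^ 2) ((Gam e t - Dn t) / (e * t ^ 2)) := by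
  have h := ((hs_Gam (e := e) ht ht1).sub ((hs_oo ht ht1).sub ((hs_la ht ht1).smul (1 / 2)))).smul
    (1 / e)
  refine h.congr (fun i => ?_) ?_
  · unfold nC; ring
  · have := Dn_eq ht ht1
    have e1 : oo t - 1 / 2 * la t = Dn t / t ^ 2 := by rw [this]; ring
    rw [e1]
    field_simp

lemma hs_P {e t : ℝ} (he : 0 < e) (ht : 0 < t) (ht1 : t < 1) : HS (PC e) (t ^ 2) (Ph e t) := by
  have hx1 : t ^ 2 < 1 := by nlinarith
  have h := (hs_n (e := e) ht ht1).cv (hs_one (sq_nonneg t) hx1)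
  refine h.congr (fun i => ?_) ?_
  · rw [PC_eq he]; unfold cv; simp
  · unfold Ph
    have : 1 - t ^ 2 ≠ 0 := by linarith
    field_simp

/-! ### Signs -/

lemma Bb_pos {e : ℝ} (he : 0 < e) : 0 < Bb e := by
  have := two_rpow_sub_pos e he
  have h2 : 0 < Real.log 2 := Real.log_pos (by norm_num)
  unfold Bb; positivity

lemma Bb_le_one {e : ℝ} (he : 0 < e) : Bb e ≤ 1 := by
  have h1 := two_rpow_sub_pos e he
  unfold Bb
  rw [div_le_one h1, Real.rpow_def_of_pos (by norm_num)]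
  linarith [Real.add_one_le_exp (Real.log 2 * e)]

lemma half_le_Bb {e : ℝ} (he : 0 < e) (he1 : e ≤ 1) : 1 / 2 ≤ Bb e := by
  have h1 := two_rpow_sub_pos e he
  have h2 : (2 : ℝ) ^ e ≤ 1 + e := by
    have := rpow_one_add_le_one_add_mul_self (s := 1) (by norm_num) he.le he1
    norm_num at this
    linarith
  have h3 := Real.log_two_gt_d9
  unfold Bb
  rw [le_div_iff₀ h1]
  nlinarith

lemma gg_pos {e : ℝ} (_he : 0 < e) (he1 : e ≤ 1) : 0 < gg e := by
  unfold gg
  nlinarith [sq_nonneg (e - 105 / 74), mul_nonneg (sq_nonneg e) (sub_nonneg.2 he1)]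

lemma ac_pos : 0 < ac := by
  have := Real.log_two_lt_d9
  unfold ac; linarith

lemma yh_nonneg {e : ℝ} (he : 0 < e) (he1 : e ≤ 1) : 0 ≤ yh e := by
  have h1 := half_le_Bb he he1
  have h2 : e / (1 + e) ≤ 1 / 2 := by
    rw [div_le_div_iff₀ (by linarith) (by norm_num)]; linarith
  have h3 := gg_pos he he1
  have h4 := ac_pos
  unfold yh
  exact mul_nonneg (div_nonneg h4.le h3.le) (by linarith)

lemma rh_nonneg (e : ℝ) : 0 ≤ rh e := by unfold rh wlo; positivity
lemma dr_nonneg (e : ℝ) : 0 ≤ dr e := by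
  unfold dr wlo whi
  have : (0 : ℝ) ≤ 4 * (123 / 1000 - 262 / 10000) := by norm_num
  positivity

lemma kkC_nonneg (m : ℕ) : 0 ≤ kkC m := by
  have h1 : 1 / ((m : ℝ) + 1) ≤ cv ooC ooC m := by
    have h2 : ∀ i ∈ range (m + 1), 1 / ((m : ℝ) + 1) ^ 2 ≤ ooC i * ooC (m - i) := by
      intro i hi
      have hi' : i ≤ m := by have := mem_range.1 hi; omega
      unfold ooC
      rw [Nat.cast_sub hi', div_mul_div_comm, one_mul]
      have hi'' : (i : ℝ) ≤ m := by exact_mod_cast hi'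
      have hi0 : (0 : ℝ) ≤ i := by positivity
      apply one_div_le_one_div_of_le
      · have : 0 < 2 * ((m : ℝ) - i) + 1 := by linarith
        positivity
      · nlinarith [sq_nonneg ((m : ℝ) - 2 * i)]
    have h3 := sum_le_sum h2
    rw [sum_const, card_range, nsmul_eq_mul] at h3
    unfold cv
    refine le_trans (le_of_eq ?_) h3
    push_cast
    field_simp
  have h2 : 0 ≤ sh (cv laC laC) m := sh_nonneg (cv_nonneg laC_nonneg laC_nonneg) m
  unfold kkC
  have : laC m = 1 / ((m : ℝ) + 1) := rfl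
  rw [this]; linarith

lemma y1C_nonneg (m : ℕ) : 0 ≤ y1C m := by
  cases m with
  | zero => simp [y1C, sh, ooC]
  | succ m =>
    have h1 := laC_nonneg m
    have h2 := ooC_nonneg (m + 1)
    simp only [y1C, sh, Nat.add_eq_zero_iff, one_ne_zero, and_false, if_false, sub_zero]
    linarith

lemma w1C_nonneg (m : ℕ) : 0 ≤ w1C m := by
  cases m with
  | zero => simp [w1C, sh, ooC]
  | succ m =>
    have h1 := kkC_nonneg m
    have h3 : 2 / (2 * (m : ℝ) + 3) ≤ cv ooC laC m := by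
      have h2 : ∀ i ∈ range (m + 1), 8 / (2 * (m : ℝ) + 3) ^ 2 ≤ ooC i * laC (m - i) := by
        intro i hi
        have hi' : i ≤ m := by have := mem_range.1 hi; omega
        unfold ooC laC
        rw [Nat.cast_sub hi', div_mul_div_comm, one_mul]
        have hi'' : (i : ℝ) ≤ m := by exact_mod_cast hi'
        have hi0 : (0 : ℝ) ≤ i := by positivity
        have h5 : 0 < (m : ℝ) - i + 1 := by linarith
        rw [div_le_div_iff₀ (by positivity) (by positivity)]
        nlinarith [sq_nonneg (2 * (m : ℝ) + 1 - 4 * i)]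
      have h3 := sum_le_sum h2
      rw [sum_const, card_range, nsmul_eq_mul] at h3
      unfold cv
      refine le_trans ?_ h3
      push_cast
      rw [mul_div_assoc', div_le_div_iff₀ (by positivity) (by positivity)]
      have hm : (0 : ℝ) ≤ m := by positivity
      nlinarith
    have e1 : 2 * ooC (m + 1) = 2 / (2 * (m : ℝ) + 3) := by
      unfold ooC; push_cast
      have : 2 * ((m : ℝ) + 1) + 1 = 2 * m + 3 := by ring
      rw [this]; ring
    simp only [w1C, sh, Nat.add_eq_zero_iff, one_ne_zero, and_false, if_false, add_zero]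
    linarith

lemma zC_nonneg {e : ℝ} (he : 0 < e) (he1 : e ≤ 1) (i : ℕ) : 0 ≤ zC e i := by
  have h1 := yh_nonneg he he1
  have h2 := rh_nonneg e
  have h3 := y1C_nonneg i
  have h4 := w1C_nonneg i
  unfold zC; positivity

lemma piC_bounds {e : ℝ} (he : 0 < e) (he1 : e ≤ 1) (i : ℕ) :
    0 ≤ piC e i ∧ piC e (i + 1) ≤ (1 - e) * (1 - e / 2) := by
  have hf : ∀ j : ℕ, 0 ≤ 1 - e / (2 * (j : ℝ) + 1) ∧ 1 - e / (2 * (j : ℝ) + 1) ≤ 1 ∧
      0 ≤ 1 - e / (2 * (j : ℝ) + 2) ∧ 1 - e / (2 * (j : ℝ) + 2) ≤ 1 := by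
    intro j
    have hj : (0 : ℝ) ≤ j := by positivity
    refine ⟨?_, ?_, ?_, ?_⟩
    · rw [sub_nonneg, div_le_one (by positivity)]; linarith
    · have : 0 ≤ e / (2 * (j : ℝ) + 1) := by positivity
      linarith
    · rw [sub_nonneg, div_le_one (by positivity)]; linarith
    · have : 0 ≤ e / (2 * (j : ℝ) + 2) := by positivity
      linarith
  induction i with
  | zero =>
    refine ⟨by simp [piC], ?_⟩
    simp only [piC, Nat.cast_zero, mul_zero, zero_add, div_one, one_mul]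
    exact le_rfl
  | succ i ih =>
    obtain ⟨a1, a2, a3, a4⟩ := hf i
    obtain ⟨b1, b2, b3, b4⟩ := hf (i + 1)
    have h1 : 0 ≤ piC e (i + 1) := by
      simp only [piC]
      exact mul_nonneg (mul_nonneg ih.1 a1) a3
    refine ⟨h1, ?_⟩
    have h2 : piC e (i + 1 + 1) ≤ piC e (i + 1) := by
      show piC e (i + 1) * (1 - e / (2 * ((i + 1 : ℕ) : ℝ) + 1)) *
        (1 - e / (2 * ((i + 1 : ℕ) : ℝ) + 2)) ≤ piC e (i + 1)
      have h3 : piC e (i + 1) * (1 - e / (2 * ((i + 1 : ℕ) : ℝ) + 1)) ≤ piC e (i + 1) :=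
        mul_le_of_le_one_right h1 b2
      exact (mul_le_of_le_one_right (mul_nonneg h1 b1) b4).trans h3
    exact h2.trans ih.2

lemma nC_nonpos {e : ℝ} (he : 0 < e) (he1 : e ≤ 1) (i : ℕ) : nC e (i + 1) ≤ 0 := by
  have h1 : (0 : ℝ) < 2 * ((i + 1 : ℕ) : ℝ) + 1 := by positivity
  have h2 : (0 : ℝ) < 2 * ((i + 1 : ℕ) : ℝ) + 2 := by positivity
  rw [nC_eq he]
  apply div_nonpos_of_nonpos_of_nonneg _ (by positivity)
  have hB := Bb_le_one he
  have hB0 := Bb_pos he
  have hpi := (piC_bounds he he1 i).2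
  have h0 : e * (2 * P0 e - (1 + e) * Bb e * kapC e (i + 1)) =
      (1 + e) * Bb e * piC e (i + 1) - 1 := by
    have h3 := pi_kap e (i + 1)
    have h4 : e * (2 * P0 e) = (1 + e) * Bb e - 1 := by
      unfold P0; field_simp; ring
    linear_combination h4 + (1 + e) * Bb e * h3
  have h5 : (1 + e) * Bb e * piC e (i + 1) ≤ 1 := by
    calc (1 + e) * Bb e * piC e (i + 1) ≤ (1 + e) * 1 * ((1 - e) * (1 - e / 2)) := by
          apply mul_le_mul _ hpi (piC_bounds he he1 (i + 1)).1 (by positivity)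
          exact mul_le_mul_of_nonneg_left hB (by linarith)
      _ = (1 - e ^ 2) * (1 - e / 2) := by ring
      _ ≤ 1 * 1 := by
          apply mul_le_mul _ _ _ zero_le_one
          · nlinarith
          · linarith
          · linarith
      _ = 1 := by ring
  by_contra hc
  push Not at hc
  have := mul_pos he hc
  linarith

lemma PC_nonneg {e : ℝ} (he : 0 < e) (he1 : e ≤ 1) (i : ℕ) : 0 ≤ PC e i := by
  rw [PC_eq he]
  set C : ℝ := Real.log 2 * 2 / (2 ^ e - 1) with hC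
  have key : ∀ s : ℝ, 0 < s → s < 1 →
      -C * (1 - s) / (e * s ^ 2) ≤ ∑ k ∈ range (i + 1), nC e k * (s ^ 2) ^ k := by
    intro s hs hs1
    have h1 := hs_n (e := e) hs hs1
    have h2 : (Gam e s - Dn s) / (e * s ^ 2) ≤ ∑ k ∈ range (i + 1), nC e k * (s ^ 2) ^ k := by
      have h3 : HasSum (fun k => -(nC e k * (s ^ 2) ^ k)) (-((Gam e s - Dn s) / (e * s ^ 2))) :=
        h1.neg
      have h4 := sum_le_hasSum (range (i + 1)) (fun k hk => by
        have : 1 ≤ k := by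
          have := mt mem_range.2 hk; omega
        obtain ⟨m, rfl⟩ := Nat.exists_eq_add_of_le this
        rw [add_comm 1 m]
        have h5 := nC_nonpos he he1 m
        have h6 : 0 ≤ (s ^ 2) ^ (m + 1) := by positivity
        nlinarith [mul_nonneg (neg_nonneg.2 h5) h6]) h3
      rw [sum_neg_distrib] at h4
      linarith
    refine le_trans ?_ h2
    apply div_le_div_of_nonneg_right _ (by positivity)
    have h3 := Gam_ge e s he he1 ⟨hs.le, hs1.le⟩
    have h4 : Dn s ≤ Real.log 2 := by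
      unfold Dn
      have a1 : Real.log (1 + s) ≤ Real.log 2 := Real.log_le_log (by linarith) (by linarith)
      have a2 : Real.log (1 - s) ≤ 0 := Real.log_nonpos (by linarith) (by linarith)
      have a3 : 0 ≤ Real.log (1 + s) := Real.log_nonneg (by linarith)
      have a4 : (1 - s) * Real.log (1 - s) ≤ 0 := mul_nonpos_of_nonneg_of_nonpos (by linarith) a2
      have a5 : (1 + s) * Real.log (1 + s) ≤ 2 * Real.log 2 :=
        mul_le_mul (by linarith) a1 a3 (by norm_num)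
      linarith
    rw [← hC] at h3
    linarith
  have hlim1 : Tendsto (fun s : ℝ => -C * (1 - s) / (e * s ^ 2)) (𝓝[<] 1)
      (𝓝 (-C * (1 - 1) / (e * 1 ^ 2))) := by
    apply Tendsto.mono_left _ nhdsWithin_le_nhds
    have : ContinuousAt (fun s : ℝ => -C * (1 - s) / (e * s ^ 2)) 1 := by
      apply ContinuousAt.div
      · fun_prop
      · fun_prop
      · have := he.ne'; simp [this]
    exact this
  have hlim2 : Tendsto (fun s : ℝ => ∑ k ∈ range (i + 1), nC e k * (s ^ 2) ^ k) (𝓝[<] 1)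
      (𝓝 (∑ k ∈ range (i + 1), nC e k * ((1 : ℝ) ^ 2) ^ k)) := by
    apply Tendsto.mono_left _ nhdsWithin_le_nhds
    exact Continuous.tendsto (by fun_prop) 1
  have h := le_of_tendsto_of_tendsto hlim1 hlim2 (by
    filter_upwards [Ioo_mem_nhdsLT (zero_lt_one' ℝ)] with s hs
    exact key s hs.1 hs.2)
  simpa using h

lemma PC_anti {e : ℝ} (he : 0 < e) (he1 : e ≤ 1) (i m : ℕ) : PC e (i + m) ≤ PC e i := by
  induction m with
  | zero => exact le_rfl
  | succ m ih =>
    have h1 : PC e (i + (m + 1)) = PC e (i + m) + nC e (i + m + 1) := by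
      rw [PC_eq he, PC_eq he, ← add_assoc, sum_range_succ]
    have := nC_nonpos he he1 (i + m)
    linarith

lemma Ph_le {e t : ℝ} (he : 0 < e) (he1 : e ≤ 1) (ht : 0 < t) (ht1 : t < 1) (J : ℕ) :
    Ph e t ≤ PtU e t J := by
  have h := hs_P he ht ht1
  have hx0 : 0 < t ^ 2 := by positivity
  have hx1 : t ^ 2 < 1 := by nlinarith
  unfold HS at h
  rw [← hasSum_nat_add_iff' (J + 1)] at h
  have hg := (hasSum_geometric_of_lt_one hx0.le hx1).mul_left (PC e (J + 1) * (t ^ 2) ^ (J + 1))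
  have h2 := hasSum_le (fun n => by
    have h3 := PC_anti he he1 (J + 1) n
    have h4 : 0 ≤ (t ^ 2) ^ (n + (J + 1)) := by positivity
    have h5 : n + (J + 1) = J + 1 + n := by omega
    show PC e (n + (J + 1)) * (t ^ 2) ^ (n + (J + 1)) ≤
      PC e (J + 1) * (t ^ 2) ^ (J + 1) * (t ^ 2) ^ n
    rw [h5] at h4 ⊢
    rw [mul_assoc, ← pow_add]
    exact mul_le_mul_of_nonneg_right h3 h4) h hg
  unfold PtU
  have : PC e (J + 1) * ((t ^ 2) ^ (J + 1) / (1 - t ^ 2)) =
      PC e (J + 1) * (t ^ 2) ^ (J + 1) * (1 - t ^ 2)⁻¹ := by ring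
  rw [this]
  linarith

lemma rC_nonneg {e : ℝ} (he : 0 < e) (he1 : e ≤ 1) (i : ℕ) : 0 ≤ rC e i := by
  have h1 := PC_nonneg he he1
  have h2 := zC_nonneg he he1
  have h3 := cv_nonneg h1 h2 i
  have h4 := dr_nonneg e
  have h5 := sh_nonneg h1 i
  have h6 := ooC_nonneg i
  have h7 := sh_nonneg ooC_nonneg i
  have h8 := h1 i
  unfold rC; positivity

lemma sC_nonneg {e : ℝ} (he : 0 < e) (he1 : e ≤ 1) (i : ℕ) : 0 ≤ sC e i := by
  have h1 := yh_nonneg he he1
  have h2 := rh_nonneg e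
  have h3 := cv_nonneg laC_nonneg ooC_nonneg i
  have h4 := cv_nonneg kkC_nonneg ooC_nonneg i
  unfold sC; positivity

/-- the left side of `R1star` -/
noncomputable def Rl (e t P : ℝ) : ℝ :=
  P * (1 + e * zz e t) + e * dr e * (oo t * (1 + t ^ 2) / 12 + e * P * t ^ 2 / 6)

lemma hs_r {e t : ℝ} (he : 0 < e) (ht : 0 < t) (ht1 : t < 1) :
    HS (rC e) (t ^ 2) (Rl e t (Ph e t)) := by
  have hP := hs_P he ht ht1
  have hz := hs_z e ht ht1
  have ho := hs_oo ht ht1
  refine ((hP.add ((hP.cv hz).smul e)).add (((ho.add ho.sh).smul (e * dr e / 12)).add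
    (hP.sh.smul (e * dr e * e / 6)))).congr (fun i => ?_) ?_
  · unfold rC; ring
  · unfold Rl; ring

lemma hs_s {e t : ℝ} (ht : 0 < t) (ht1 : t < 1) :
    HS (sC e) (t ^ 2) (yh e * la t * oo t + e * rh e * kk t * oo t) := by
  have hl := hs_la ht ht1
  have ho := hs_oo ht ht1
  have hk := hs_kk ht ht1
  refine (((hl.cv ho).smul (yh e)).add ((hk.cv ho).smul (e * rh e))).congr (fun i => ?_) ?_
  · unfold sC; ring
  · ring

lemma zz_nonneg {e t : ℝ} (he : 0 < e) (he1 : e ≤ 1) (ht : 0 < t) (ht1 : t < 1) : 0 ≤ zz e t :=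
  (hs_z e ht ht1).nonneg fun i => mul_nonneg (zC_nonneg he he1 i) (by positivity)

theorem R1star_of_chk {e t t1 : ℝ} {J : ℕ} (he : 0 < e) (he1 : e ≤ 1) (ht : 0 < t)
    (htt : t ≤ t1) (ht1 : t1 < 1) (h : ChkR1 e t1 J) : R1star e t := by
  have ht10 : 0 < t1 := ht.trans_le htt
  have ht1' : t < 1 := htt.trans_lt ht1
  obtain ⟨Pt, hPt, htail⟩ := h.tail
  have hR : Rl e t1 (Ph e t1) ≤ Rl e t1 Pt := by
    have hP : Ph e t1 ≤ Pt := (Ph_le he he1 ht10 ht1 J).trans hPt
    have hz := zz_nonneg he he1 ht10 ht1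
    have hd := dr_nonneg e
    unfold Rl
    have h1 : Ph e t1 * (1 + e * zz e t1) ≤ Pt * (1 + e * zz e t1) :=
      mul_le_mul_of_nonneg_right hP (by positivity)
    have h2 : e * Ph e t1 * t1 ^ 2 / 6 ≤ e * Pt * t1 ^ 2 / 6 := by
      have : 0 ≤ e * t1 ^ 2 / 6 := by positivity
      nlinarith
    have h3 : e * dr e * (oo t1 * (1 + t1 ^ 2) / 12 + e * Ph e t1 * t1 ^ 2 / 6) ≤
        e * dr e * (oo t1 * (1 + t1 ^ 2) / 12 + e * Pt * t1 ^ 2 / 6) :=
      mul_le_mul_of_nonneg_left (by linarith) (by positivity)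
    linarith
  exact abel_series (rC_nonneg he he1) (sC_nonneg he he1) (by positivity)
    (by gcongr) (by positivity) (hs_r he ht ht1') (hs_s ht ht1') (hs_r he ht10 ht1) J h.part
    (hR.trans htail)

lemma q0_eq {e : ℝ} (he : 0 < e) (he1 : e ≤ 1) : sC e 0 - rC e 0 = e * q0e e := by
  have hg := (gg_pos he he1).ne'
  have h1 : sC e 0 = yh e := by
    unfold sC
    simp [cv, kkC, laC, ooC, sh]
  have h2 : zC e 0 = 0 := by
    unfold zC
    simp [y1C, w1C, ooC, sh]
  have h3 : rC e 0 = P0 e + e * dr e / 12 := by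
    unfold rC
    simp only [cv, zero_add, range_one, sum_singleton, Nat.sub_zero, h2, mul_zero, add_zero, sh,
      PC, ooC, Nat.cast_zero, zero_div]
    ring
  rw [h1, h3]
  have h5 : gg e = 1 - (21 / 20) * e + (59 / 100) * e ^ 2 - (11 / 50) * e ^ 3 := rfl
  have h6 : e * (21 / 20 - 59 / 100 * e + 22 / 100 * e ^ 2) = 1 - gg e := by rw [h5]; ring
  have hb : Bb e = 1 - Real.log 2 * e / 2 + e ^ 2 * b2 e := by
    unfold b2; field_simp; ring
  have h7 : (Bb e - 1) / e = -(Real.log 2 / 2) + e * b2 e := by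
    rw [hb]; field_simp; ring
  unfold yh P0 q0e
  rw [h7]
  have h8 : e * (ac / gg e * (21 / 20 - 59 / 100 * e + 22 / 100 * e ^ 2 - Real.log 2 / 2 +
      e * b2 e - 1 / (1 + e))) = ac / gg e * (1 - gg e - Real.log 2 / 2 * e + e ^ 2 * b2 e
        - e / (1 + e)) := by
    rw [← h6]; ring
  have h9 : e * (ac / gg e * (21 / 20 - 59 / 100 * e + 22 / 100 * e ^ 2 - Real.log 2 / 2 +
      e * b2 e - 1 / (1 + e)) + (Real.log 2 / 2 - b2 e * (1 + e)) / 2 - dr e / 12) =
      ac / gg e * (1 - gg e - Real.log 2 / 2 * e + e ^ 2 * b2 e - e / (1 + e)) +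
      e * ((Real.log 2 / 2 - b2 e * (1 + e)) / 2 - dr e / 12) := by
    rw [← h8]; ring
  rw [h9, hb]
  have h10 : ac = (2 - Real.log 2) / 4 := rfl
  have h11 : ac / gg e * (1 - gg e - Real.log 2 / 2 * e + e ^ 2 * b2 e - e / (1 + e)) =
      ac / gg e * (1 - Real.log 2 * e / 2 + e ^ 2 * b2 e - e / (1 + e)) - ac := by
    field_simp; ring
  rw [h11, h10]
  ring

theorem m6r1s' : R1.M6R1s :=
  ⟨fun _ _ _ _ he he1 ht htt ht1 h => R1star_of_chk he he1 ht htt ht1 h,
    fun _ he he1 => q0_eq he he1⟩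

/-! ### Bridge to the interface `Defs6R` -/

lemma b_la (i : ℕ) : ((Tal.laC i : ℚ) : ℝ) = laC i := by
  unfold Tal.laC laC; push_cast; rfl

lemma b_oo (i : ℕ) : ((oC i : ℚ) : ℝ) = ooC i := by
  unfold oC ooC; push_cast; rfl

lemma b_cv {a b : ℕ → ℚ} {a' b' : ℕ → ℝ} (ha : ∀ i, (a i : ℝ) = a' i)
    (hb : ∀ i, (b i : ℝ) = b' i) (n : ℕ) : ((conv a b n : ℚ) : ℝ) = cv a' b' n := by
  unfold conv cv
  push_cast
  exact sum_congr rfl fun i _ => by rw [ha, hb]

lemma b_kk (n : ℕ) : ((kC n : ℚ) : ℝ) = kkC n := by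
  unfold kC kkC
  cases n with
  | zero =>
    simp only [if_true, sh]
    push_cast
    rw [b_cv b_oo b_oo, b_la]; ring
  | succ n =>
    simp only [Nat.add_eq_zero_iff, one_ne_zero, and_false, if_false, Nat.add_sub_cancel, sh]
    push_cast
    rw [b_cv b_oo b_oo, b_la, b_cv b_la b_la]

lemma b_y1 (n : ℕ) : ((Tal.y1C n : ℚ) : ℝ) = y1C n := by
  unfold Tal.y1C y1C
  cases n with
  | zero => simp [sh, ooC]
  | succ n =>
    simp only [Nat.add_eq_zero_iff, one_ne_zero, and_false, if_false, Nat.add_sub_cancel, sh]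
    push_cast
    rw [b_oo, b_la]; ring

lemma b_w1 (n : ℕ) : ((Tal.w1C n : ℚ) : ℝ) = w1C n := by
  unfold Tal.w1C w1C
  cases n with
  | zero => simp [sh, ooC]
  | succ n =>
    simp only [Nat.add_eq_zero_iff, one_ne_zero, and_false, if_false, Nat.add_sub_cancel, sh, loC]
    push_cast
    rw [b_oo, b_kk, b_cv b_la b_oo]
    have : cv laC ooC n = cv ooC laC n := by
      unfold cv
      rw [← sum_range_reflect]
      refine sum_congr rfl fun i hi => ?_
      have hi' : i ≤ n := by have := mem_range.1 hi; omega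
      have e1 : n + 1 - 1 - i = n - i := by omega
      have e2 : n - (n - i) = i := by omega
      rw [e1, e2, mul_comm]
    rw [this]; ring

lemma b_PK (e : ℝ) (i : ℕ) : PK e i = (piC e i, kapC e i) := by
  induction i with
  | zero => rfl
  | succ i ih =>
    simp only [PK, piC, kapC, ih]
    rw [Prod.mk.injEq]
    constructor
    · ring
    · rfl

lemma b_PC (e : ℝ) (i : ℕ) : Tal.PC e i = PC e i := by
  induction i with
  | zero => rfl
  | succ i ih =>
    simp only [Tal.PC, PC, ih, b_PK, P0]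
    have h1 : (2 * ((i : ℝ) + 2)) * (2 * ((i : ℝ) + 2) - 1) =
        (2 * (i : ℝ) + 3) * (2 * (i : ℝ) + 4) := by ring
    rw [h1]; ring

lemma b_zC (e : ℝ) (i : ℕ) : Tal.zC e i = zC e i := by
  unfold Tal.zC zC; rw [b_y1, b_w1]

lemma b_AC (e : ℝ) (i : ℕ) : AC e i = sC e i := by
  unfold AC sC loC koC
  rw [b_cv b_la b_oo, b_cv b_kk b_oo]

lemma b_GC (e : ℝ) (n : ℕ) : GC e n = rC e n := by
  unfold GC rC
  have h1 : ∑ i ∈ range (n + 1), Tal.PC e i * Tal.zC e (n - i) = cv (PC e) (zC e) n := by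
    unfold cv
    exact sum_congr rfl fun i _ => by rw [b_PC, b_zC]
  rw [h1, b_PC, b_oo]
  cases n with
  | zero => simp [sh]
  | succ n =>
    simp only [Nat.add_eq_zero_iff, one_ne_zero, and_false, if_false, Nat.add_sub_cancel, sh]
    rw [b_oo, b_PC]

lemma b_Pup (e t : ℝ) (J : ℕ) : Pup e t J = PtU e t J := by
  unfold Pup PtU
  congr 1
  · exact sum_congr rfl fun i _ => by rw [b_PC, pow_mul]
  · rw [b_PC, pow_mul]; ring

end Pool.Agent.H58.Tal.R1

namespace Pool.Agent.H58.Tal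

theorem m6r1s : M6R1s := by
  intro e t1 J he he1 ht10 ht1 hpart htail t ht htt
  refine R1.R1star_of_chk he (by linarith) ht htt ht1 (J := J) ⟨?_, ?_⟩
  · intro j hj
    refine le_of_le_of_eq (hpart j hj) ?_
    exact sum_congr rfl fun i _ => by rw [R1.b_AC, R1.b_GC, pow_mul]
  · refine ⟨Pup e t1 J, (R1.b_Pup e t1 J).ge, htail.trans (le_of_eq ?_)⟩
    exact sum_congr rfl fun i _ => by rw [R1.b_AC, pow_mul]

/-- no cancellation at `e = 0` in the zeroth difference -/
theorem AC_sub_GC_zero {e : ℝ} (he : 0 < e) (he1 : e ≤ 1) :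
    AC e 0 - GC e 0 = e * R1.q0e e := by
  rw [R1.b_AC, R1.b_GC, R1.q0_eq he he1]

end Pool.Agent.H58.Tal
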