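import Pool.Agent.H58.Tal.M7cG

/-! Module M7c: the one-dimensional inequality `Ineq1D` (small `ε` analytically, the rest by a kernel-checked grid). -/

set_option autoImplicit false

open Finset Real

namespace Pool.Agent.H58.Tal

namespace C7

lemma log_ten_le : Real.log 10 ≤ 233 / 100 := by
  have h1 : Real.log 10 = 3 * Real.log 2 + Real.log (5 / 4) := by
    have : (10:ℝ) = 2 ^ 3 * (5 / 4) := by norm_num
    rw [this, Real.log_mul (by norm_num) (by norm_num), Real.log_pow]
    push_cast; ring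
  have h2 : Real.log (5 / 4) ≤ 5 / 4 - 1 := Real.log_le_sub_one_of_pos (by norm_num)
  have := Real.log_two_lt_d9
  rw [h1]; linarith

lemma log_lower {e : ℝ} (he : 0 < e) : 1 - 233 / 100 - 1 / (10 * e) ≤ Real.log e := by
  have h := Real.log_le_sub_one_of_pos (x := 1 / (10 * e)) (by positivity)
  have h2 : Real.log (1 / (10 * e)) = -(Real.log 10 + Real.log e) := by
    rw [one_div, Real.log_inv, Real.log_mul (by norm_num) he.ne']
  have := log_ten_le
  rw [h2] at h
  linarith

/-- `τ Q(e) ≥ (1+e)(1 - τ e/2)` -/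
lemma Q_lower {e : ℝ} (he : 0 < e) (he1 : e ≤ 1) :
    (1 + e) * (1 - Real.log 2 * e / 2) ≤ Q e * Real.log 2 := by
  set τ := Real.log 2 with hτ
  have t0 : 0 < τ := Real.log_pos (by norm_num)
  have t1 : τ < 1 := by have := Real.log_two_lt_d9; rw [hτ]; linarith
  have hx0 : 0 < τ * e := mul_pos t0 he
  have hx1 : τ * e ≤ 1 := by
    have := mul_le_mul t1.le he1 he.le (by norm_num : (0:ℝ) ≤ 1)
    linarith only [this]
  have hexp := Real.exp_bound' hx0.le hx1 (n := 3) (by norm_num)
  have hs : ∑ m ∈ range 3, (τ * e) ^ m / (m.factorial : ℝ) + (τ * e) ^ 3 * (((3:ℕ):ℝ) + 1) /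
      (((3:ℕ).factorial : ℝ) * ((3:ℕ) : ℝ)) =
      1 + τ * e + (τ * e) ^ 2 / 2 + (τ * e) ^ 3 * (2 / 9) := by
    simp [Finset.sum_range_succ, Nat.factorial]; ring
  rw [hs] at hexp
  have h1 := one_lt_two_rpow he
  unfold Q
  rw [div_mul_eq_mul_div, le_div_iff₀ (by linarith), two_rpow_eq]
  set x := τ * e with hx
  have h2 : (1 - x / 2) * (Real.exp x - 1) ≤ x := by
    have h3 : (1 - x / 2) * (Real.exp x - 1) ≤
        (1 - x / 2) * (x + x ^ 2 / 2 + x ^ 3 * (2 / 9)) := by
      apply mul_le_mul_of_nonneg_left (by linarith) (by linarith)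
    have h4 : (1 - x / 2) * (x + x ^ 2 / 2 + x ^ 3 * (2 / 9)) =
        x - x ^ 3 / 36 - x ^ 4 / 9 := by ring
    have h5 : 0 ≤ x ^ 3 := by positivity
    have h6 : 0 ≤ x ^ 4 := by positivity
    linarith
  calc (1 + e) * (1 - τ * e / 2) * (Real.exp x - 1)
      = (1 + e) * ((1 - x / 2) * (Real.exp x - 1)) := by rw [hx]; ring
    _ ≤ (1 + e) * x := by apply mul_le_mul_of_nonneg_left h2 (by linarith)
    _ = (1 + e) * e * τ := by rw [hx]; ring

lemma Q_upper {e : ℝ} (he : 0 < e) (he1 : e ≤ 1 / 10) : Q e ≤ 159 / 100 := by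
  have h1 := one_lt_two_rpow he
  have l1 := Real.log_two_gt_d9
  unfold Q
  rw [div_le_iff₀ (by linarith), two_rpow_eq]
  have h2 := Real.add_one_le_exp (Real.log 2 * e)
  have h3 := mul_lt_mul_of_pos_right l1 he
  have h4 := mul_le_mul_of_nonneg_right he1 he.le
  nlinarith only [h2, h3, h4, he]

lemma small_range {e : ℝ} (he : 0 < e) (he1 : e ≤ 1 / 10) : A (LL e) ≤ Q e * W (LL e) := by
  have L1 := Real.log_two_gt_d9
  have L2 := Real.log_two_lt_d9
  have hac := ac_pos
  have hlog := log_lower he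
  have hQl := Q_lower he (by linarith)
  have hQu := Q_upper he he1
  set τ := Real.log 2 with hτ
  -- (2-τ) l ≥ 3.58/e - 6.138
  have hLL : LL e = 4 / (2 - τ) * (1 / e + (21 / 20) * Real.log e - (59 / 100) * e +
      (11 / 100) * e ^ 2 - 13 / 25) + 27 / 20 := by
    unfold LL ac
    rw [← hτ]
    have : (2 - τ) ≠ 0 := by linarith
    field_simp
  set l := LL e with hl
  have h2t : 0 < 2 - τ := by linarith
  have hle : (2 - τ) * l * e = 4 * (1 + e * ((21 / 20) * Real.log e - (59 / 100) * e +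
      (11 / 100) * e ^ 2 - 13 / 25)) + 27 / 20 * (2 - τ) * e := by
    rw [hLL]
    field_simp
    ring
  have hlow : 358 / 100 - 6138 / 1000 * e ≤ (2 - τ) * l * e := by
    rw [hle]
    have h3 : e * (1 - 233 / 100 - 1 / (10 * e)) ≤ e * Real.log e :=
      mul_le_mul_of_nonneg_left hlog he.le
    have h4 : e * (1 - 233 / 100 - 1 / (10 * e)) = -(133 / 100) * e - 1 / 10 := by
      field_simp; ring
    rw [h4] at h3
    have h5 : 0 ≤ e ^ 3 := by positivity
    have a1 := mul_le_mul_of_nonneg_right L2.le he.le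
    have a2 := mul_le_mul_of_nonneg_right he1 he.le
    nlinarith only [h3, h5, a1, a2, he]
  have hl6 : 6 ≤ l := by
    by_contra hc
    have hc' := not_le.mp hc
    have : (2 - τ) * l * e ≤ (2 - τ) * 6 * e := by gcongr
    have a1 := mul_lt_mul_of_pos_right L1 he
    nlinarith only [this, a1, hlow, he1]
  have a3 := mul_le_mul L2.le he1 he.le (by norm_num : (0:ℝ) ≤ 0.6931471808)
  have hf0 : 0 < 1 - τ / 2 - τ * e / 2 := by linarith only [a3, L2]
  set δ := e * (1 - τ / 2 - τ * e / 2) with hδ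
  have hδ0 : 0 < δ := by
    rw [hδ]; exact mul_pos he hf0
  have hδl : (2 - τ) ≤ δ * l := by
    have h3 : δ * l * (2 - τ) = (1 - τ / 2 - τ * e / 2) * ((2 - τ) * l * e) := by rw [hδ]; ring
    have h4 : (1 - τ / 2 - τ * e / 2) * (358 / 100 - 6138 / 1000 * e) ≤ δ * l * (2 - τ) := by
      rw [h3]; exact mul_le_mul_of_nonneg_left hlow hf0.le
    have h5 : (2 - τ) * (2 - τ) ≤ (1 - τ / 2 - τ * e / 2) * (358 / 100 - 6138 / 1000 * e) := by
      have h6 : 65342 / 100000 - 34658 / 100000 * e ≤ 1 - τ / 2 - τ * e / 2 := by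
        have a1 := mul_le_mul_of_nonneg_right L2.le he.le
        linarith only [a1, L2, he]
      have h7 : (65342 / 100000 - 34658 / 100000 * e) * (358 / 100 - 6138 / 1000 * e) ≤
          (1 - τ / 2 - τ * e / 2) * (358 / 100 - 6138 / 1000 * e) :=
        mul_le_mul_of_nonneg_right h6 (by linarith)
      have h8 : (2 - τ) * (2 - τ) ≤ 1307 / 1000 * (1307 / 1000) := by
        apply mul_le_mul <;> linarith only [L1, L2]
      nlinarith only [h7, h8, he, he1, sq_nonneg e]
    by_contra hc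
    have hc' := not_le.mp hc
    have h6 := mul_lt_mul_of_pos_right hc' h2t
    linarith only [h6, h4, h5]
  have hl0 : 0 < l := by linarith
  apply of_G (τ := τ) (y := l + τ) (b := Real.exp (-l)) hτ rfl rfl hl0
  set y := l + τ with hy
  set b := Real.exp (-l) with hb
  have hb0 : 0 < b := Real.exp_pos _
  have hy0 : 0 < y := by linarith
  have F : 0 ≤ Q e * τ * y ^ 2 - l * (y + 2) := by
    have h3 : (1 + e) * (1 - τ * e / 2) * y ^ 2 ≤ Q e * τ * y ^ 2 :=
      mul_le_mul_of_nonneg_right hQl (by positivity)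
    have h4 : (1 + e) * (1 - τ * e / 2) = 1 + δ := by rw [hδ]; ring
    rw [h4] at h3
    have h5 : (1 + δ) * y ^ 2 - l * (y + 2) = δ * y ^ 2 - (2 - τ) * l + τ ^ 2 := by
      rw [hy]; ring
    have h6 : δ * l * l ≤ δ * y ^ 2 := by
      have : l * l ≤ y ^ 2 := by
        rw [← sq]; exact pow_le_pow_left₀ hl0.le (by linarith only [hy, L1]) 2
      calc δ * l * l = δ * (l * l) := by ring
        _ ≤ _ := mul_le_mul_of_nonneg_left this hδ0.le
    have h7 : (2 - τ) * l ≤ δ * l * l := mul_le_mul_of_nonneg_right hδl hl0.le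
    have h8 := sq_nonneg τ
    linarith
  have S : 0 ≤ (l / 2) * (2 * y ^ 2 + 3 * y + 2) - Q e * y ^ 2 * (y - l / 2) := by
    have h3 : 0 ≤ y ^ 2 * (y - l / 2) := by
      apply mul_nonneg (sq_nonneg _); linarith
    have h4 : Q e * (y ^ 2 * (y - l / 2)) ≤ 159 / 100 * (y ^ 2 * (y - l / 2)) :=
      mul_le_mul_of_nonneg_right hQu h3
    have h5 : 159 / 100 * (y - l / 2) ≤ l := by linarith
    have h6 : y ^ 2 * (159 / 100 * (y - l / 2)) ≤ y ^ 2 * l :=
      mul_le_mul_of_nonneg_left h5 (sq_nonneg _)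
    have h7 : 0 ≤ l * y := by positivity
    nlinarith only [h4, h6, h7, hl0]
  have := mul_nonneg hb0.le S
  linarith

end C7

open C7 in
theorem m7c : M7c := by
  intro ep hep l hl
  have hlog := Real.log_two_gt_d9
  have hl' : 27 / 20 < l := by linarith
  have he0 := hep.pos l hl'
  have he1 := hep.le l hl
  have hLL := hep.LL_ep l hl'
  have key : A l ≤ Q (ep l) * W l := by
    rcases le_total (ep l) (1 / 10) with h | h
    · have := small_range he0 h
      rwa [hLL] at this
    · have := mid_range (ep l) h he1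
      rwa [hLL] at this
  have hτ0 : 0 ≤ Real.log 2 / 2 := by linarith
  have h1 := mul_le_mul_of_nonneg_left key hτ0
  unfold Q A W at h1
  refine le_trans h1 (le_of_eq ?_)
  ring

end Pool.Agent.H58.Tal
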