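import Pool.Agent.H58.Tal.Final
import Pool.Agent.H58.Tal.M0
import Pool.Agent.H58.Tal.M6A
import Pool.Agent.H58.Tal.M6C
import Pool.Agent.H58.Tal.M6R1a
import Pool.Agent.H58.Tal.M7c
import Pool.Agent.H58.Tal.M6R1s
import Pool.Agent.H95.Tal.M6W
import Pool.Agent.H58.Tal.M6B
import Pool.Agent.H91.Tal.R2
import Pool.Agent.H77.Tal.M6R1c

set_option autoImplicit false

namespace Pool.Agent.H58.Tal

theorem m6_of (hW : M6W) (hR1 : M6R1b) (hR2 : M6R2) : M6 := by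
  intro ep hep
  refine m6a ep hep hW m6C ?_
  rintro e t ⟨he, ht, ht1, he1, h⟩
  have h1 : ∀ e t : ℝ, 0 < e → 0 < t →
    ((e ≤ 77 / 100 ∧ t ≤ 9 / 10) ∨ (e ≤ 966 / 1000 ∧ t ≤ 4 / 10)) → e ≤ 966 / 1000 → t < 1 → IneqII e t :=
    fun e t he ht h he1 ht1 => m6R1a e t he he1 ht ht1 (hR1 e t he ht h)
  rcases h with h | h | h
  · exact h1 e t he ht (Or.inl h) he1 ht1
  · exact h1 e t he ht (Or.inr ⟨he1, h⟩) he1 ht1
  · exact hR2 e t he h.1 h.2 ht1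

theorem frozen_of' (h5 : Star) (hW : M6W) (hR1 : M6R1b) (hR2 : M6R2) : Frozen :=
  frozen_of m0 h5 (m6_of hW hR1 hR2) m7c

theorem frozen_of'' (h5 : Star) (hR1c : M6R1c) (hR2 : M6R2) : Frozen :=
  frozen_of' h5 W6.m6w (m6r1b_of m6r1s hR1c) hR2

theorem frozen_of3 (h5 : Star) (hR1c : M6R1c) : Frozen :=
  frozen_of'' h5 hR1c (m6r2 m6b)

theorem frozen_of4 (h5 : Star) : Frozen := frozen_of3 h5 m6r1c

end Pool.Agent.H58.Tal
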