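import Mathlib

/-! Interval arithmetic on `Int` scaled by `2^48`, made for `by decide +kernel`.

* `Iv` : structure with `lo hi : Int`; `mem x I : I.lo ≤ x * 2^48 ∧ x * 2^48 ≤ I.hi` (`x : ℝ`).
* operations: `Iv.add`, `Iv.sub`, `Iv.neg`, `Iv.mul`, `Iv.sqr`, `Iv.pow`, `Iv.inv`, `Iv.div` (positive
  denominators), `Iv.smul` (integer), `Iv.qmul p q` (rational `p/q`), `Iv.divN` (positive natural),
  `Iv.ofQ p q` (rational), `Iv.ofInt`, `Iv.tau` (`log 2`), `Iv.hull`.
* membership lemmas `mem_add ...` etc. for each operation.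
* checks: `of_nonneg : mem x I → nonneg I = true → 0 ≤ x`, `of_pos`, `of_le`, `of_lt`.
* lists: `dot`, `horner` with real versions `dotR`, `hornerR` and `mem_dot`, `mem_horner` (`memL`).
* `cover_sound`, `grid_sound`: a check on every interval of a subdivision proves the statement on the
  whole interval.  Write `def chk (E : Iv) : Bool := ...`, prove
  `∀ E, chk E = true → ∀ e, mem e E → P e`, and finish with
  `grid_sound hchk a h n (by decide) (by decide +kernel)` (`a`, `h` integers scaled by `2^48`).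
* speed: about 7000 multiplications or additions per second in the kernel.

All results of operations are forced (`fI`), so that the kernel does not build big thunks. -/

set_option autoImplicit false

namespace Pool.Agent.H58.Tal

/-- forces the evaluation of a natural number -/
def fN {α : Type} (n : Nat) (k : Nat → α) : α :=
  match n with
  | 0 => k 0
  | m + 1 => k (m + 1)

/-- forces the evaluation of an integer -/
def fI {α : Type} (x : Int) (k : Int → α) : α :=
  match x with
  | .ofNat n => fN n (fun n => k (.ofNat n))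
  | .negSucc n => fN n (fun n => k (.negSucc n))

@[simp] lemma fN_eq {α : Type} (n : Nat) (k : Nat → α) : fN n k = k n := by cases n <;> rfl
@[simp] lemma fI_eq {α : Type} (x : Int) (k : Int → α) : fI x k = k x := by
  cases x <;> simp [fI]

/-- intervals with end points scaled by `2^48` -/
structure Iv where
  lo : Int
  hi : Int

namespace Iv

/-- the scale `2^48` -/
def S : Int := 281474976710656

/-- forced constructor -/
def mk' (lo hi : Int) : Iv := fI lo fun lo => fI hi fun hi => ⟨lo, hi⟩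

@[simp] lemma mk'_eq (lo hi : Int) : mk' lo hi = ⟨lo, hi⟩ := by simp [mk']

/-- membership -/
def mem (x : ℝ) (I : Iv) : Prop := (I.lo : ℝ) ≤ x * 2 ^ 48 ∧ x * 2 ^ 48 ≤ (I.hi : ℝ)

lemma S_cast : ((S : Int) : ℝ) = 2 ^ 48 := by unfold S; norm_num

lemma S_pos : (0 : Int) < S := by unfold S; norm_num

/-- lower rounding of a quotient -/
lemma fdiv_le (p q : Int) (hq : 0 < q) : ((p / q : Int) : ℝ) ≤ (p : ℝ) / q := by
  have hq' : (0 : ℝ) < q := by exact_mod_cast hq
  rw [le_div_iff₀ hq']
  have : p / q * q ≤ p := Int.ediv_mul_le p (by omega)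
  exact_mod_cast this

/-- upper rounding of a quotient -/
lemma le_cdiv (p q : Int) (hq : 0 < q) : (p : ℝ) / q ≤ ((-((-p) / q) : Int) : ℝ) := by
  have h := fdiv_le (-p) q hq
  push_cast at h ⊢
  have e : (-(p : ℝ)) / q = -((p : ℝ) / q) := by ring
  rw [e] at h
  linarith

/-! ### constants -/

/-- integer constant -/
def ofInt (n : Int) : Iv := mk' (n * S) (n * S)

lemma mem_ofInt (n : Int) : mem (n : ℝ) (ofInt n) := by
  unfold mem ofInt
  simp only [mk'_eq]
  push_cast
  rw [S_cast]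
  exact ⟨le_rfl, le_rfl⟩

/-- rational constant `p/q`, `q > 0` -/
def ofQ (p : Int) (q : Nat) : Iv := mk' (p * S / q) (-((-(p * S)) / q))

lemma mem_ofQ (p : Int) (q : Nat) (hq : 0 < q) : mem ((p : ℝ) / q) (ofQ p q) := by
  unfold mem ofQ
  simp only [mk'_eq]
  have h1 := fdiv_le (p * S) q (by exact_mod_cast hq)
  have h2 := le_cdiv (p * S) q (by exact_mod_cast hq)
  have e : ((p * S : Int) : ℝ) / ((q : Int) : ℝ) = (p : ℝ) / q * 2 ^ 48 := by
    push_cast; rw [S_cast]; ring
  rw [e] at h1 h2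
  exact ⟨h1, h2⟩

/-- `log 2` (accuracy `2^-47`) -/
def tau : Iv := ⟨195103586505167, 195103586505168⟩

lemma mem_tau : mem (Real.log 2) tau := by
  have h := Real.abs_log_sub_add_sum_range_le (x := (1 / 2 : ℝ)) (by rw [abs_of_pos] <;> norm_num) 52
  have e : Real.log (1 - 1 / 2) = -Real.log 2 := by
    rw [show (1 - 1 / 2 : ℝ) = 2⁻¹ by norm_num, Real.log_inv]
  rw [e, abs_of_pos (by norm_num : (0 : ℝ) < 1 / 2), abs_le] at h
  set s : ℝ := ∑ i ∈ Finset.range 52, (1 / 2 : ℝ) ^ (i + 1) / (i + 1) with hs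
  have hs1 : (195103586505167 + 1 / 4 : ℝ) ≤ s * 2 ^ 48 := by
    rw [hs]; simp only [Finset.sum_range_succ, Finset.sum_range_zero]; norm_num
  have hs2 : s * 2 ^ 48 ≤ (195103586505168 - 1 / 4 : ℝ) := by
    rw [hs]; simp only [Finset.sum_range_succ, Finset.sum_range_zero]; norm_num
  have h1 := h.1
  have h2 := h.2
  norm_num at h1 h2
  unfold mem tau
  push_cast
  constructor <;> norm_num at * <;> nlinarith

/-! ### operations -/

/-- addition -/
def add (I J : Iv) : Iv :=
  match I, J with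
  | ⟨a, b⟩, ⟨c, d⟩ => mk' (a + c) (b + d)

lemma mem_add {x y : ℝ} {I J : Iv} (hx : mem x I) (hy : mem y J) : mem (x + y) (add I J) := by
  unfold mem at *
  simp only [add, mk'_eq]
  push_cast
  constructor <;> [linarith [hx.1, hy.1]; linarith [hx.2, hy.2]]

/-- negation -/
def neg (I : Iv) : Iv :=
  match I with
  | ⟨a, b⟩ => mk' (-b) (-a)

lemma mem_neg {x : ℝ} {I : Iv} (hx : mem x I) : mem (-x) (neg I) := by
  unfold mem at *
  simp only [neg, mk'_eq]
  push_cast
  constructor <;> [linarith [hx.2]; linarith [hx.1]]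

/-- subtraction -/
def sub (I J : Iv) : Iv :=
  match I, J with
  | ⟨a, b⟩, ⟨c, d⟩ => mk' (a - d) (b - c)

lemma mem_sub {x y : ℝ} {I J : Iv} (hx : mem x I) (hy : mem y J) : mem (x - y) (sub I J) := by
  unfold mem at *
  simp only [sub, mk'_eq]
  push_cast
  constructor <;> [linarith [hx.1, hy.2]; linarith [hx.2, hy.1]]

/-- `⌊n / 2^48⌋` -/
def fl (n : Nat) : Nat := Nat.div n 281474976710656
/-- `⌈n / 2^48⌉` -/
def cl (n : Nat) : Nat := Nat.div (Nat.add n 281474976710655) 281474976710656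

/-- multiplication, general case (slow) -/
def mulG (I J : Iv) : Iv :=
  match I, J with
  | ⟨a, b⟩, ⟨c, d⟩ =>
    fI (a * c) fun p => fI (a * d) fun q => fI (b * c) fun r => fI (b * d) fun s =>
      mk' (min (min p q) (min r s) / S) (-((-(max (max p q) (max r s))) / S))

/-- multiplication (sign cases for speed) -/
def mul (I J : Iv) : Iv :=
  match I, J with
  | ⟨.ofNat a, .ofNat b⟩, ⟨.ofNat c, .ofNat d⟩ =>
    fN (fl (Nat.mul a c)) fun lo => fN (cl (Nat.mul b d)) fun hi => ⟨.ofNat lo, .ofNat hi⟩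
  | ⟨.negSucc a, .negSucc b⟩, ⟨.ofNat c, .ofNat d⟩ =>
    fN (cl (Nat.mul (Nat.succ a) d)) fun lo => fN (fl (Nat.mul (Nat.succ b) c)) fun hi =>
      ⟨Int.negOfNat lo, Int.negOfNat hi⟩
  | ⟨.ofNat a, .ofNat b⟩, ⟨.negSucc c, .negSucc d⟩ =>
    fN (cl (Nat.mul b (Nat.succ c))) fun lo => fN (fl (Nat.mul a (Nat.succ d))) fun hi =>
      ⟨Int.negOfNat lo, Int.negOfNat hi⟩
  | ⟨.negSucc a, .negSucc b⟩, ⟨.negSucc c, .negSucc d⟩ =>
    fN (fl (Nat.mul (Nat.succ b) (Nat.succ d))) fun lo =>
      fN (cl (Nat.mul (Nat.succ a) (Nat.succ c))) fun hi => ⟨.ofNat lo, .ofNat hi⟩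
  | ⟨.negSucc a, .ofNat b⟩, ⟨.ofNat _, .ofNat d⟩ =>
    fN (cl (Nat.mul (Nat.succ a) d)) fun lo => fN (cl (Nat.mul b d)) fun hi =>
      ⟨Int.negOfNat lo, .ofNat hi⟩
  | ⟨.ofNat _, .ofNat b⟩, ⟨.negSucc c, .ofNat d⟩ =>
    fN (cl (Nat.mul b (Nat.succ c))) fun lo => fN (cl (Nat.mul b d)) fun hi =>
      ⟨Int.negOfNat lo, .ofNat hi⟩
  | I, J => mulG I J

lemma mul_bounds {a b c d x y : ℝ} (h1 : a ≤ x) (h2 : x ≤ b) (h3 : c ≤ y) (h4 : y ≤ d) :
    min (min (a * c) (a * d)) (min (b * c) (b * d)) ≤ x * y ∧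
    x * y ≤ max (max (a * c) (a * d)) (max (b * c) (b * d)) := by
  constructor
  · by_contra hcon
    push Not at hcon
    simp only [lt_min_iff] at hcon
    obtain ⟨⟨h5, h6⟩, h7, h8⟩ := hcon
    rcases le_total 0 y with hy | hy
    · -- x*y >= a*y
      have h9 : a * y ≤ x * y := mul_le_mul_of_nonneg_right h1 hy
      rcases le_total 0 a with ha | ha
      · have := mul_le_mul_of_nonneg_left h3 ha; linarith
      · have := mul_le_mul_of_nonpos_left h4 ha; linarith
    · have h9 : b * y ≤ x * y := mul_le_mul_of_nonpos_right h2 hy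
      rcases le_total 0 b with hb | hb
      · have := mul_le_mul_of_nonneg_left h3 hb; linarith
      · have := mul_le_mul_of_nonpos_left h4 hb; linarith
  · by_contra hcon
    push Not at hcon
    simp only [max_lt_iff] at hcon
    obtain ⟨⟨h5, h6⟩, h7, h8⟩ := hcon
    rcases le_total 0 y with hy | hy
    · have h9 : x * y ≤ b * y := mul_le_mul_of_nonneg_right h2 hy
      rcases le_total 0 b with hb | hb
      · have := mul_le_mul_of_nonneg_left h4 hb; linarith
      · have := mul_le_mul_of_nonpos_left h3 hb; linarith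
    · have h9 : x * y ≤ a * y := mul_le_mul_of_nonpos_right h1 hy
      rcases le_total 0 a with ha | ha
      · have := mul_le_mul_of_nonneg_left h4 ha; linarith
      · have := mul_le_mul_of_nonpos_left h3 ha; linarith

lemma mem_mulG {x y : ℝ} {I J : Iv} (hx : mem x I) (hy : mem y J) : mem (x * y) (mulG I J) := by
  obtain ⟨a, b⟩ := I
  obtain ⟨c, d⟩ := J
  unfold mem at *
  simp only [mulG, fI_eq, mk'_eq]
  obtain ⟨h1, h2⟩ := mul_bounds hx.1 hx.2 hy.1 hy.2
  have e : x * 2 ^ 48 * (y * 2 ^ 48) / 2 ^ 48 = x * y * 2 ^ 48 := by field_simp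
  have h3 := fdiv_le (min (min (a * c) (a * d)) (min (b * c) (b * d))) S S_pos
  have h4 := le_cdiv (max (max (a * c) (a * d)) (max (b * c) (b * d))) S S_pos
  rw [S_cast] at h3 h4
  push_cast at h3 h4 ⊢
  rw [← e]
  exact ⟨h3.trans (div_le_div_of_nonneg_right h1 (by positivity)),
    (div_le_div_of_nonneg_right h2 (by positivity)).trans h4⟩

lemma fl_le (n : Nat) : (fl n : ℝ) * 2 ^ 48 ≤ n := by
  have h : n / 281474976710656 * 281474976710656 ≤ n := Nat.div_mul_le_self _ _
  have h2 : ((fl n : ℕ) : ℝ) * 281474976710656 ≤ n := by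
    have : fl n = n / 281474976710656 := rfl
    rw [this]; exact_mod_cast h
  norm_num at h2 ⊢
  exact h2

lemma le_cl (n : Nat) : (n : ℝ) ≤ (cl n : ℝ) * 2 ^ 48 := by
  have h : n ≤ (n + 281474976710655) / 281474976710656 * 281474976710656 := by omega
  have h2 : (n : ℝ) ≤ ((cl n : ℕ) : ℝ) * 281474976710656 := by
    have : cl n = (n + 281474976710655) / 281474976710656 := rfl
    rw [this]; exact_mod_cast h
  norm_num at h2 ⊢
  exact h2

lemma pp {a b c d X Y : ℝ} (ha : 0 ≤ a) (hc : 0 ≤ c) (h1 : a ≤ X) (h2 : X ≤ b) (h3 : c ≤ Y)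
    (h4 : Y ≤ d) : a * c ≤ X * Y ∧ X * Y ≤ b * d :=
  ⟨mul_le_mul h1 h3 hc (ha.trans h1), mul_le_mul h2 h4 (hc.trans h3) ((ha.trans h1).trans h2)⟩

lemma mixed {a b d X Y : ℝ} (ha : 0 ≤ a) (hb : 0 ≤ b) (hY : 0 ≤ Y) (h1 : -a ≤ X) (h2 : X ≤ b)
    (h4 : Y ≤ d) : -(a * d) ≤ X * Y ∧ X * Y ≤ b * d := by
  constructor
  · have h5 : -a * Y ≤ X * Y := mul_le_mul_of_nonneg_right h1 hY
    have h6 : a * Y ≤ a * d := mul_le_mul_of_nonneg_left h4 ha
    linarith
  · have h5 : X * Y ≤ b * Y := mul_le_mul_of_nonneg_right h2 hY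
    have h6 : b * Y ≤ b * d := mul_le_mul_of_nonneg_left h4 hb
    linarith

/-- from bounds of the product of the scaled numbers -/
lemma mem_of_scaled {x y : ℝ} {I : Iv}
    (h1 : (I.lo : ℝ) * 2 ^ 48 ≤ x * 2 ^ 48 * (y * 2 ^ 48))
    (h2 : x * 2 ^ 48 * (y * 2 ^ 48) ≤ (I.hi : ℝ) * 2 ^ 48) : mem (x * y) I := by
  unfold mem
  have e : x * 2 ^ 48 * (y * 2 ^ 48) = x * y * 2 ^ 48 * 2 ^ 48 := by ring
  rw [e] at h1 h2
  exact ⟨le_of_mul_le_mul_right h1 (by positivity), le_of_mul_le_mul_right h2 (by positivity)⟩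

lemma negOf (n : Nat) : ((Int.negOfNat n : Int) : ℝ) = -(n : ℝ) := by
  rw [Int.negOfNat_eq]; simp

lemma negS (n : Nat) : ((Int.negSucc n : Int) : ℝ) = -((n + 1 : Nat) : ℝ) := by
  rw [Int.negSucc_eq]; push_cast; ring

lemma mem_mul {x y : ℝ} {I J : Iv} (hx : mem x I) (hy : mem y J) : mem (x * y) (mul I J) := by
  have hG := mem_mulG hx hy
  rcases I with ⟨a | a, b | b⟩ <;> rcases J with ⟨c | c, d | d⟩ <;> simp only [mul] <;>
    try exact hG
  all_goals
    clear hG
    unfold mem at hx hy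
    simp only [Int.ofNat_eq_natCast, Int.cast_natCast, negS] at hx hy
    obtain ⟨h1, h2⟩ := hx
    obtain ⟨h3, h4⟩ := hy
    simp only [fN_eq]
    apply mem_of_scaled
    all_goals simp only [Int.ofNat_eq_natCast, Int.cast_natCast, negOf, Nat.mul_eq,
      Nat.succ_eq_add_one]
  -- case (pp)(pp)
  · have := pp (Nat.cast_nonneg a) (Nat.cast_nonneg c) h1 h2 h3 h4
    have h5 := fl_le (a * c)
    push_cast at h5
    exact h5.trans this.1
  · have := pp (Nat.cast_nonneg a) (Nat.cast_nonneg c) h1 h2 h3 h4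
    have h5 := le_cl (b * d)
    push_cast at h5
    exact this.2.trans h5
  -- case (pp)(np)
  · have := mixed (Nat.cast_nonneg (c + 1)) (Nat.cast_nonneg d)
      ((Nat.cast_nonneg a).trans h1) h3 h4 h2
    have h5 := le_cl (b * (c + 1))
    push_cast at h5 this ⊢
    have h6 := this.1
    linarith
  · have := mixed (Nat.cast_nonneg (c + 1)) (Nat.cast_nonneg d)
      ((Nat.cast_nonneg a).trans h1) h3 h4 h2
    have h5 := le_cl (b * d)
    push_cast at h5 this ⊢
    have h6 := this.2
    linarith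
  -- case (pp)(nn)
  · have := pp (X := x * 2 ^ 48) (Y := -(y * 2 ^ 48)) (Nat.cast_nonneg a)
      (Nat.cast_nonneg (d + 1)) h1 h2 (by linarith) (by linarith : _ ≤ ((c + 1 : ℕ) : ℝ))
    have h5 := le_cl (b * (c + 1))
    push_cast at h5 this ⊢
    have h6 := this.2
    linarith
  · have := pp (X := x * 2 ^ 48) (Y := -(y * 2 ^ 48)) (Nat.cast_nonneg a)
      (Nat.cast_nonneg (d + 1)) h1 h2 (by linarith) (by linarith : _ ≤ ((c + 1 : ℕ) : ℝ))
    have h5 := fl_le (a * (d + 1))
    push_cast at h5 this ⊢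
    have h6 := this.1
    linarith
  -- case (np)(pp)
  · have := mixed (Nat.cast_nonneg (a + 1)) (Nat.cast_nonneg b)
      ((Nat.cast_nonneg c).trans h3) h1 h2 h4
    have h5 := le_cl ((a + 1) * d)
    push_cast at h5 this ⊢
    have h6 := this.1
    linarith
  · have := mixed (Nat.cast_nonneg (a + 1)) (Nat.cast_nonneg b)
      ((Nat.cast_nonneg c).trans h3) h1 h2 h4
    have h5 := le_cl (b * d)
    push_cast at h5 this ⊢
    have h6 := this.2
    linarith
  -- case (nn)(pp)
  · have := pp (X := -(x * 2 ^ 48)) (Y := y * 2 ^ 48) (Nat.cast_nonneg (b + 1))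
      (Nat.cast_nonneg c) (by linarith) (by linarith : _ ≤ ((a + 1 : ℕ) : ℝ)) h3 h4
    have h5 := le_cl ((a + 1) * d)
    push_cast at h5 this ⊢
    have h6 := this.2
    linarith
  · have := pp (X := -(x * 2 ^ 48)) (Y := y * 2 ^ 48) (Nat.cast_nonneg (b + 1))
      (Nat.cast_nonneg c) (by linarith) (by linarith : _ ≤ ((a + 1 : ℕ) : ℝ)) h3 h4
    have h5 := fl_le ((b + 1) * c)
    push_cast at h5 this ⊢
    have h6 := this.1
    linarith
  -- case (nn)(nn)
  · have := pp (X := -(x * 2 ^ 48)) (Y := -(y * 2 ^ 48)) (Nat.cast_nonneg (b + 1))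
      (Nat.cast_nonneg (d + 1)) (by linarith) (by linarith : _ ≤ ((a + 1 : ℕ) : ℝ))
      (by linarith) (by linarith : _ ≤ ((c + 1 : ℕ) : ℝ))
    have h5 := fl_le ((b + 1) * (d + 1))
    push_cast at h5 this ⊢
    have h6 := this.1
    linarith
  · have := pp (X := -(x * 2 ^ 48)) (Y := -(y * 2 ^ 48)) (Nat.cast_nonneg (b + 1))
      (Nat.cast_nonneg (d + 1)) (by linarith) (by linarith : _ ≤ ((a + 1 : ℕ) : ℝ))
      (by linarith) (by linarith : _ ≤ ((c + 1 : ℕ) : ℝ))
    have h5 := le_cl ((a + 1) * (c + 1))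
    push_cast at h5 this ⊢
    have h6 := this.2
    linarith

/-- multiplication by an integer -/
def smul (n : Int) (I : Iv) : Iv :=
  match I with
  | ⟨a, b⟩ => if 0 ≤ n then mk' (n * a) (n * b) else mk' (n * b) (n * a)

lemma mem_smul (n : Int) {x : ℝ} {I : Iv} (hx : mem x I) : mem ((n : ℝ) * x) (smul n I) := by
  obtain ⟨a, b⟩ := I
  unfold mem at *
  simp only at hx
  simp only [smul]
  split_ifs with hn
  · have hn' : (0 : ℝ) ≤ n := by exact_mod_cast hn
    simp only [mk'_eq]
    push_cast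
    have h1 := mul_le_mul_of_nonneg_left hx.1 hn'
    have h2 := mul_le_mul_of_nonneg_left hx.2 hn'
    constructor <;> linarith
  · have hn' : (n : ℝ) ≤ 0 := by
      have : n ≤ 0 := by omega
      exact_mod_cast this
    simp only [mk'_eq]
    push_cast
    have h1 := mul_le_mul_of_nonpos_left hx.1 hn'
    have h2 := mul_le_mul_of_nonpos_left hx.2 hn'
    constructor <;> linarith

/-- division by a positive natural number -/
def divN (I : Iv) (n : Nat) : Iv :=
  match I with
  | ⟨a, b⟩ => mk' (a / n) (-((-b) / n))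

lemma mem_divN {x : ℝ} {I : Iv} (hx : mem x I) (n : Nat) (hn : 0 < n) :
    mem (x / n) (divN I n) := by
  obtain ⟨a, b⟩ := I
  unfold mem at *
  simp only at hx
  simp only [divN, mk'_eq]
  have hn' : (0 : ℝ) < n := by exact_mod_cast hn
  have h3 := fdiv_le a n (by exact_mod_cast hn)
  have h4 := le_cdiv b n (by exact_mod_cast hn)
  have e : x / n * 2 ^ 48 = x * 2 ^ 48 / n := by ring
  rw [e]
  push_cast at h3 h4 ⊢
  exact ⟨h3.trans (div_le_div_of_nonneg_right hx.1 hn'.le),
    (div_le_div_of_nonneg_right hx.2 hn'.le).trans h4⟩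

/-- multiplication by a rational `p/q`, `q > 0` -/
def qmul (p : Int) (q : Nat) (I : Iv) : Iv := divN (smul p I) q

lemma mem_qmul (p : Int) (q : Nat) (hq : 0 < q) {x : ℝ} {I : Iv} (hx : mem x I) :
    mem ((p : ℝ) / q * x) (qmul p q I) := by
  have := mem_divN (mem_smul p hx) q hq
  have e : (p : ℝ) / q * x = p * x / q := by ring
  rw [e]; exact this

/-- inverse; meaningful if `lo > 0` -/
def inv (I : Iv) : Iv :=
  match I with
  | ⟨a, b⟩ => mk' (S * S / b) (-((-(S * S)) / a))

lemma mem_inv {x : ℝ} {I : Iv} (hx : mem x I) (hI : 0 < I.lo) : mem x⁻¹ (inv I) := by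
  obtain ⟨a, b⟩ := I
  unfold mem at *
  simp only at hx hI
  simp only [inv, mk'_eq]
  have ha : (0 : ℝ) < a := by exact_mod_cast hI
  have hx0 : 0 < x * 2 ^ 48 := lt_of_lt_of_le ha hx.1
  have hx0' : 0 < x := by
    by_contra hcon
    push Not at hcon
    have : x * 2 ^ 48 ≤ 0 := mul_nonpos_of_nonpos_of_nonneg hcon (by positivity)
    linarith
  have hb : (0 : ℝ) < b := lt_of_lt_of_le hx0 hx.2
  have hb' : 0 < b := by exact_mod_cast hb
  have h3 := fdiv_le (S * S) b hb'
  have h4 := le_cdiv (S * S) a hI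
  push_cast at h3 h4 ⊢
  rw [S_cast] at h3 h4
  have e : x⁻¹ * 2 ^ 48 = (2 ^ 48 * 2 ^ 48) / (x * 2 ^ 48) := by field_simp
  rw [e]
  exact ⟨h3.trans (div_le_div_of_nonneg_left (by positivity) hx0 hx.2),
    (div_le_div_of_nonneg_left (by positivity) ha hx.1).trans h4⟩

/-- division by a positive interval -/
def div (I J : Iv) : Iv := mul I (inv J)

lemma mem_div {x y : ℝ} {I J : Iv} (hx : mem x I) (hy : mem y J) (hJ : 0 < J.lo) :
    mem (x / y) (div I J) := by
  rw [div_eq_mul_inv]
  exact mem_mul hx (mem_inv hy hJ)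

/-- square -/
def sqr (I : Iv) : Iv :=
  match I with
  | ⟨a, b⟩ =>
    if 0 ≤ a then mk' (a * a / S) (-((-(b * b)) / S))
    else if b ≤ 0 then mk' (b * b / S) (-((-(a * a)) / S))
    else mk' 0 (-((-(max (a * a) (b * b))) / S))

lemma mem_sqr {x : ℝ} {I : Iv} (hx : mem x I) : mem (x ^ 2) (sqr I) := by
  obtain ⟨a, b⟩ := I
  unfold mem at *
  simp only at hx
  simp only [sqr]
  have e : (x * 2 ^ 48) ^ 2 / 2 ^ 48 = x ^ 2 * 2 ^ 48 := by field_simp
  split_ifs with ha hb
  · have ha' : (0 : ℝ) ≤ a := by exact_mod_cast ha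
    simp only [mk'_eq]
    have h3 := fdiv_le (a * a) S S_pos
    have h4 := le_cdiv (b * b) S S_pos
    rw [S_cast] at h3 h4
    push_cast at h3 h4 ⊢
    rw [← e]
    have h1 : (a : ℝ) * a ≤ (x * 2 ^ 48) ^ 2 := by nlinarith [hx.1]
    have h2 : (x * 2 ^ 48) ^ 2 ≤ (b : ℝ) * b := by nlinarith [hx.1, hx.2]
    exact ⟨h3.trans (div_le_div_of_nonneg_right h1 (by positivity)),
      (div_le_div_of_nonneg_right h2 (by positivity)).trans h4⟩
  · have hb' : (b : ℝ) ≤ 0 := by exact_mod_cast hb
    simp only [mk'_eq]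
    have h3 := fdiv_le (b * b) S S_pos
    have h4 := le_cdiv (a * a) S S_pos
    rw [S_cast] at h3 h4
    push_cast at h3 h4 ⊢
    rw [← e]
    have h1 : (b : ℝ) * b ≤ (x * 2 ^ 48) ^ 2 := by nlinarith [hx.2]
    have h2 : (x * 2 ^ 48) ^ 2 ≤ (a : ℝ) * a := by nlinarith [hx.1, hx.2]
    exact ⟨h3.trans (div_le_div_of_nonneg_right h1 (by positivity)),
      (div_le_div_of_nonneg_right h2 (by positivity)).trans h4⟩
  · simp only [mk'_eq]
    have h4 := le_cdiv (max (a * a) (b * b)) S S_pos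
    rw [S_cast] at h4
    push_cast at h4 ⊢
    rw [← e]
    refine ⟨by positivity, le_trans (div_le_div_of_nonneg_right ?_ (by positivity)) h4⟩
    rcases le_total 0 (x * 2 ^ 48) with h | h
    · apply le_max_of_le_right; nlinarith [hx.2]
    · apply le_max_of_le_left; nlinarith [hx.1]

/-- powers -/
def pow (I : Iv) : Nat → Iv
  | 0 => ofInt 1
  | n + 1 => mul (pow I n) I

lemma mem_pow {x : ℝ} {I : Iv} (hx : mem x I) (n : Nat) : mem (x ^ n) (pow I n) := by
  induction n with
  | zero =>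
    have := mem_ofInt 1
    simpa [pow] using this
  | succ n ih => rw [pow_succ]; exact mem_mul ih hx

instance : Add Iv := ⟨add⟩
instance : Sub Iv := ⟨sub⟩
instance : Neg Iv := ⟨neg⟩
instance : Mul Iv := ⟨mul⟩
instance : Div Iv := ⟨div⟩
instance (n : Nat) : OfNat Iv n := ⟨ofInt n⟩

lemma mem_add' {x y : ℝ} {I J : Iv} (hx : mem x I) (hy : mem y J) : mem (x + y) (I + J) :=
  mem_add hx hy
lemma mem_sub' {x y : ℝ} {I J : Iv} (hx : mem x I) (hy : mem y J) : mem (x - y) (I - J) :=
  mem_sub hx hy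
lemma mem_neg' {x : ℝ} {I : Iv} (hx : mem x I) : mem (-x) (-I) := mem_neg hx
lemma mem_mul' {x y : ℝ} {I J : Iv} (hx : mem x I) (hy : mem y J) : mem (x * y) (I * J) :=
  mem_mul hx hy
lemma mem_div' {x y : ℝ} {I J : Iv} (hx : mem x I) (hy : mem y J) (hJ : 0 < J.lo) :
    mem (x / y) (I / J) := mem_div hx hy hJ
lemma mem_ofNat (n : Nat) : mem (n : ℝ) (OfNat.ofNat n : Iv) := by
  have := mem_ofInt (n : Int)
  push_cast at this
  exact this

/-- hull: from the lower end of `I` to the upper end of `J` -/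
def hull (I J : Iv) : Iv :=
  match I, J with
  | ⟨a, _⟩, ⟨_, d⟩ => ⟨a, d⟩

lemma mem_hull {x y z : ℝ} {I J : Iv} (hx : mem x I) (hy : mem y J) (h1 : x ≤ z) (h2 : z ≤ y) :
    mem z (hull I J) := by
  unfold mem at *
  simp only [hull]
  have h3 : x * 2 ^ 48 ≤ z * 2 ^ 48 := mul_le_mul_of_nonneg_right h1 (by positivity)
  have h4 : z * 2 ^ 48 ≤ y * 2 ^ 48 := mul_le_mul_of_nonneg_right h2 (by positivity)
  exact ⟨hx.1.trans h3, h4.trans hy.2⟩

/-- enlarging -/
lemma mem_mono {x : ℝ} {I J : Iv} (hx : mem x I) (h1 : J.lo ≤ I.lo) (h2 : I.hi ≤ J.hi) :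
    mem x J := by
  unfold mem at *
  have h1' : (J.lo : ℝ) ≤ I.lo := by exact_mod_cast h1
  have h2' : (I.hi : ℝ) ≤ J.hi := by exact_mod_cast h2
  exact ⟨h1'.trans hx.1, hx.2.trans h2'⟩

/-! ### checks -/

/-- `0 ≤ lo` -/
def nonneg (I : Iv) : Bool := decide (0 ≤ I.lo)
/-- `0 < lo` -/
def pos (I : Iv) : Bool := decide (0 < I.lo)
/-- `I.hi ≤ J.lo` -/
def le (I J : Iv) : Bool := decide (I.hi ≤ J.lo)
/-- `I.hi < J.lo` -/
def lt (I J : Iv) : Bool := decide (I.hi < J.lo)

lemma of_nonneg {x : ℝ} {I : Iv} (hx : mem x I) (h : nonneg I = true) : 0 ≤ x := by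
  unfold nonneg at h
  rw [decide_eq_true_eq] at h
  have h' : (0 : ℝ) ≤ I.lo := by exact_mod_cast h
  have := h'.trans hx.1
  by_contra hcon
  push Not at hcon
  have : x * 2 ^ 48 < 0 := mul_neg_of_neg_of_pos hcon (by positivity)
  linarith

lemma of_pos {x : ℝ} {I : Iv} (hx : mem x I) (h : pos I = true) : 0 < x := by
  unfold pos at h
  rw [decide_eq_true_eq] at h
  have h' : (0 : ℝ) < I.lo := by exact_mod_cast h
  have := h'.trans_le hx.1
  by_contra hcon
  push Not at hcon
  have : x * 2 ^ 48 ≤ 0 := mul_nonpos_of_nonpos_of_nonneg hcon (by positivity)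
  linarith

lemma pos_lo {I : Iv} (h : pos I = true) : 0 < I.lo := by
  unfold pos at h
  rwa [decide_eq_true_eq] at h

lemma of_le {x y : ℝ} {I J : Iv} (hx : mem x I) (hy : mem y J) (h : le I J = true) : x ≤ y := by
  unfold le at h
  rw [decide_eq_true_eq] at h
  have h' : (I.hi : ℝ) ≤ J.lo := by exact_mod_cast h
  have := (hx.2.trans h').trans hy.1
  exact le_of_mul_le_mul_right this (by positivity)

lemma of_lt {x y : ℝ} {I J : Iv} (hx : mem x I) (hy : mem y J) (h : lt I J = true) : x < y := by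
  unfold lt at h
  rw [decide_eq_true_eq] at h
  have h' : (I.hi : ℝ) < J.lo := by exact_mod_cast h
  have := (hx.2.trans_lt h').trans_le hy.1
  exact lt_of_mul_lt_mul_right this (by positivity)

/-! ### subdivision -/

/-- check `chk` on all intervals `[a, b]` of consecutive elements of the list -/
def cover (chk : Iv → Bool) : Int → List Int → Bool
  | _, [] => true
  | a, b :: l => decide (a ≤ b) && (chk ⟨a, b⟩ && cover chk b l)

/-- the last element -/
def last : Int → List Int → Int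
  | a, [] => a
  | _, b :: l => last b l

theorem cover_sound {chk : Iv → Bool} {P : ℝ → Prop}
    (hchk : ∀ I : Iv, chk I = true → ∀ x : ℝ, mem x I → P x) :
    ∀ (l : List Int) (a : Int), cover chk a l = true → l ≠ [] →
      ∀ x : ℝ, (a : ℝ) ≤ x * 2 ^ 48 → x * 2 ^ 48 ≤ (last a l : ℝ) → P x := by
  intro l
  induction l with
  | nil => intro a _ h; exact absurd rfl h
  | cons b l ih =>
    intro a h _ x hx1 hx2
    simp only [cover, Bool.and_eq_true, decide_eq_true_eq] at h
    obtain ⟨_, h2, h3⟩ := h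
    rcases le_or_gt (x * 2 ^ 48) (b : ℝ) with hb | hb
    · exact hchk ⟨a, b⟩ h2 x ⟨hx1, hb⟩
    · cases l with
      | nil =>
        simp only [last] at hx2
        exact absurd hx2 (not_le.mpr hb)
      | cons c l => exact ih b h3 (by simp) x hb.le hx2

/-- equidistant subdivision: `a, a + h, ..., a + n h` -/
def grid (h : Int) : Int → Nat → List Int
  | _, 0 => []
  | a, n + 1 => fI (a + h) fun b => b :: grid h b n

lemma last_grid (h : Int) (n : Nat) : ∀ a : Int, last a (grid h a n) = a + n * h := by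
  induction n with
  | zero => intro a; simp [grid, last]
  | succ n ih =>
    intro a
    simp only [grid, fI_eq, last]
    rw [ih]; push_cast; ring

theorem grid_sound {chk : Iv → Bool} {P : ℝ → Prop}
    (hchk : ∀ I : Iv, chk I = true → ∀ x : ℝ, mem x I → P x) (a h : Int) (n : Nat) (hn : 0 < n)
    (hc : cover chk a (grid h a n) = true) :
    ∀ x : ℝ, (a : ℝ) ≤ x * 2 ^ 48 → x * 2 ^ 48 ≤ ((a + n * h : Int) : ℝ) → P x := by
  intro x h1 h2
  apply cover_sound hchk (grid h a n) a hc _ x h1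
  · rw [last_grid]; exact h2
  · cases n with
    | zero => omega
    | succ n => simp [grid]

/-! ### lists (power series with interval coefficients) -/

/-- `a_0 b_j + a_1 b_{j-1} + ...` : `dot a b` is the sum of products of corresponding entries -/
def dot : List Iv → List Iv → Iv
  | a :: l, b :: m => add (mul a b) (dot l m)
  | _, _ => ofInt 0

/-- list membership, entry by entry -/
def memL : List ℝ → List Iv → Prop
  | [], [] => True
  | x :: l, I :: m => mem x I ∧ memL l m
  | _, _ => False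

/-- real version of `dot` -/
noncomputable def dotR : List ℝ → List ℝ → ℝ
  | a :: l, b :: m => a * b + dotR l m
  | _, _ => 0

lemma mem_dot : ∀ {a b : List ℝ} {I J : List Iv}, memL a I → memL b J →
    mem (dotR a b) (dot I J) := by
  have h0 : mem 0 (ofInt 0) := by simpa using mem_ofInt 0
  intro a
  induction a with
  | nil =>
    intro b I J ha hb
    cases I with
    | nil => simpa [dot, dotR] using h0
    | cons i I => exact absurd ha (by simp [memL])
  | cons x a ih =>
    intro b I J ha hb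
    cases I with
    | nil => exact absurd ha (by simp [memL])
    | cons i I =>
      cases b with
      | nil =>
        cases J with
        | nil => simpa [dot, dotR] using h0
        | cons j J => exact absurd hb (by simp [memL])
      | cons y b =>
        cases J with
        | nil => exact absurd hb (by simp [memL])
        | cons j J => exact mem_add (mem_mul ha.1 hb.1) (ih ha.2 hb.2)

/-- Horner evaluation `a_0 + x (a_1 + x (...))` -/
def horner (X : Iv) : List Iv → Iv
  | [] => ofInt 0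
  | a :: l => add a (mul X (horner X l))

/-- real version -/
noncomputable def hornerR (x : ℝ) : List ℝ → ℝ
  | [] => 0
  | a :: l => a + x * hornerR x l

lemma mem_horner {x : ℝ} {X : Iv} (hx : mem x X) : ∀ {a : List ℝ} {I : List Iv}, memL a I →
    mem (hornerR x a) (horner X I) := by
  intro a
  induction a with
  | nil =>
    intro I ha
    cases I with
    | nil => simpa [horner, hornerR] using mem_ofInt 0
    | cons i I => exact absurd ha (by simp [memL])
  | cons y a ih =>
    intro I ha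
    cases I with
    | nil => exact absurd ha (by simp [memL])
    | cons i I => exact mem_add ha.1 (mem_mul hx (ih ha.2))

end Iv

end Pool.Agent.H58.Tal
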