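import Mathlib
import Pool.Agent.H58.Tal.Defs

/-! Module M1 of MP_324c10_co: the one-level inequality implies the frozen statement (helper86). -/

set_option autoImplicit false

open Finset Real

namespace Pool.Agent.H58.Tal

namespace M1aux

/-- sign of agreement -/
def ss (a b : Bool) : ℝ := if a = b then 1 else -1

/-- the noise kernel -/
noncomputable def KK {n : ℕ} (u : ℝ) (x y : Fin n → Bool) : ℝ := ∏ i, (1 + u * ss (x i) (y i))

/-- `∑_S u^{|S|} fhat(S)²` -/
noncomputable def SU {n : ℕ} (f : (Fin n → Bool) → ℝ) (u : ℝ) : ℝ :=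
  (∑ x, ∑ y, f x * f y * KK u x y) / 4 ^ n

/-- `∑_S fhat(S)²/(|S|+1)` -/
noncomputable def RR {n : ℕ} (f : (Fin n → Bool) → ℝ) : ℝ := ∫ u in (0:ℝ)..1, SU f u

variable {n : ℕ}

theorem KK_nonneg {u : ℝ} (h0 : 0 ≤ u) (h1 : u ≤ 1) (x y : Fin n → Bool) : 0 ≤ KK u x y := by
  refine Finset.prod_nonneg fun i _ => ?_
  unfold ss
  split_ifs <;> linarith

theorem KK_zero (x y : Fin n → Bool) : KK 0 x y = 1 := by simp [KK]

theorem KK_one (x y : Fin n → Bool) : KK 1 x y = if x = y then 2 ^ n else 0 := by
  split_ifs with h
  · subst h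
    simp only [KK, ss, if_true, one_mul]
    rw [Finset.prod_const, Finset.card_univ, Fintype.card_fin]
    norm_num
  · obtain ⟨i, hi⟩ : ∃ i, x i ≠ y i := by
      by_contra hcon
      push Not at hcon
      exact h (funext hcon)
    refine Finset.prod_eq_zero (Finset.mem_univ i) ?_
    simp [ss, hi]

theorem KK_cont (x y : Fin n → Bool) : Continuous fun u => KK u x y := by
  unfold KK
  fun_prop

theorem SU_cont (f : (Fin n → Bool) → ℝ) : Continuous (SU f) := by
  unfold SU
  refine Continuous.div_const ?_ _
  refine continuous_finsetSum _ fun x _ => continuous_finsetSum _ fun y _ => ?_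
  exact continuous_const.mul (KK_cont x y)

theorem KK_insert (i : Fin (n + 1)) (u : ℝ) (a b : Bool) (x y : Fin n → Bool) :
    KK u (i.insertNth a x : Fin (n + 1) → Bool) (i.insertNth b y)
      = (1 + u * ss a b) * KK u x y := by
  unfold KK
  rw [Fin.prod_univ_succAbove _ i]
  simp

theorem KK_deriv (x y : Fin (n + 1) → Bool) (u : ℝ) :
    HasDerivAt (fun u => KK u x y)
      (∑ i, ss (x i) (y i) * KK u (i.removeNth x) (i.removeNth y)) u := by
  have h : ∀ i ∈ (Finset.univ : Finset (Fin (n + 1))),
      HasDerivAt (fun u : ℝ => 1 + u * ss (x i) (y i)) (ss (x i) (y i)) u := by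
    intro i _
    simpa using ((hasDerivAt_id u).mul_const (ss (x i) (y i))).const_add 1
  have h2 := HasDerivAt.fun_finsetProd h
  refine h2.congr_deriv ?_
  refine Finset.sum_congr rfl fun i _ => ?_
  rw [smul_eq_mul, mul_comm]
  congr 1
  unfold KK
  rw [← Finset.compl_singleton, ← Fin.image_succAbove_univ,
    Finset.prod_image (fun a _ b _ h => Fin.succAbove_right_injective h)]
  rfl

theorem sum_insert (i : Fin (n + 1)) (F : (Fin (n + 1) → Bool) → ℝ) :
    ∑ x, F x = ∑ x : Fin n → Bool, (F (i.insertNth true x) + F (i.insertNth false x)) := by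
  rw [← (Fin.insertNthEquiv (fun _ => Bool) i).sum_comp, Fintype.sum_prod_type,
    Fintype.sum_bool, ← Finset.sum_add_distrib]
  rfl

/-- derivative of `SU` -/
noncomputable def SD (f : (Fin (n + 1) → Bool) → ℝ) (u : ℝ) : ℝ :=
  (∑ x, ∑ y, f x * f y * ∑ i, ss (x i) (y i) * KK u (i.removeNth x) (i.removeNth y)) / 4 ^ (n + 1)

theorem SU_deriv (f : (Fin (n + 1) → Bool) → ℝ) (u : ℝ) : HasDerivAt (SU f) (SD f u) u := by
  unfold SU SD
  refine HasDerivAt.div_const ?_ _
  refine HasDerivAt.fun_sum fun x _ => HasDerivAt.fun_sum fun y _ => ?_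
  exact (KK_deriv x y u).const_mul (f x * f y)

theorem SD_cont (f : (Fin (n + 1) → Bool) → ℝ) : Continuous (SD f) := by
  unfold SD
  refine Continuous.div_const ?_ _
  refine continuous_finsetSum _ fun x _ => continuous_finsetSum _ fun y _ => ?_
  refine continuous_const.mul (continuous_finsetSum _ fun i _ => ?_)
  exact continuous_const.mul (KK_cont _ _)

/-- fibre -/
def fib (f : (Fin (n + 1) → Bool) → ℝ) (i : Fin (n + 1)) (a : Bool) (x : Fin n → Bool) : ℝ :=
  f (i.insertNth a x)

/-- half difference of the two fibres -/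
noncomputable def dfib (f : (Fin (n + 1) → Bool) → ℝ) (i : Fin (n + 1)) (x : Fin n → Bool) : ℝ :=
  (f (i.insertNth true x) - f (i.insertNth false x)) / 2

/-- pair sums with a kernel depending on the agreement in coordinate `i` -/
theorem pair_sum (f : (Fin (n + 1) → Bool) → ℝ) (i : Fin (n + 1)) (u : ℝ)
    (c : Bool → Bool → ℝ) :
    ∑ x, ∑ y, f x * f y * (c (x i) (y i) * KK u (i.removeNth x) (i.removeNth y))
      = ∑ x : Fin n → Bool, ∑ y : Fin n → Bool,
        (fib f i true x * fib f i true y * c true true
          + fib f i true x * fib f i false y * c true false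
          + fib f i false x * fib f i true y * c false true
          + fib f i false x * fib f i false y * c false false) * KK u x y := by
  rw [sum_insert i]
  refine Finset.sum_congr rfl fun x _ => ?_
  rw [sum_insert i, sum_insert i, ← Finset.sum_add_distrib]
  refine Finset.sum_congr rfl fun y _ => ?_
  simp only [Fin.insertNth_apply_same, Fin.removeNth_insertNth, fib]
  ring

theorem KK_split (i : Fin (n + 1)) (u : ℝ) (x y : Fin (n + 1) → Bool) :
    KK u x y = (1 + u * ss (x i) (y i)) * KK u (i.removeNth x) (i.removeNth y) := by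
  unfold KK
  rw [Fin.prod_univ_succAbove _ i]
  rfl

/-- pointwise form of (R1) -/
theorem R1_point (f : (Fin (n + 1) → Bool) → ℝ) (u : ℝ) :
    ∑ i, (SU (fib f i true) u + SU (fib f i false) u) / 2
      = (n + 1) * SU f u + (1 - u) * SD f u := by
  have h1 : ∀ i : Fin (n + 1), (SU (fib f i true) u + SU (fib f i false) u) / 2
      = (∑ x, ∑ y, f x * f y * ((1 + ss (x i) (y i)) *
          KK u (i.removeNth x) (i.removeNth y))) / 4 ^ (n + 1) := by
    intro i
    rw [pair_sum f i u (fun a b => 1 + ss a b)]
    unfold SU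
    rw [← add_div, ← Finset.sum_add_distrib, div_div, div_eq_div_iff (by positivity)
      (by positivity), Finset.sum_mul, Finset.sum_mul]
    refine Finset.sum_congr rfl fun x _ => ?_
    rw [← Finset.sum_add_distrib, Finset.sum_mul, Finset.sum_mul]
    refine Finset.sum_congr rfl fun y _ => ?_
    simp only [ss, if_true, reduceCtorEq, if_false]
    ring
  rw [Finset.sum_congr rfl fun i _ => h1 i, ← Finset.sum_div]
  unfold SU SD
  rw [mul_div_assoc', mul_div_assoc', ← add_div]
  congr 1
  rw [Finset.sum_comm, Finset.mul_sum, Finset.mul_sum, ← Finset.sum_add_distrib]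
  refine Finset.sum_congr rfl fun x _ => ?_
  rw [Finset.sum_comm, Finset.mul_sum, Finset.mul_sum, ← Finset.sum_add_distrib]
  refine Finset.sum_congr rfl fun y _ => ?_
  have h2 : ((n : ℝ) + 1) * KK u x y = ∑ i : Fin (n + 1),
      (1 + u * ss (x i) (y i)) * KK u (i.removeNth x) (i.removeNth y) := by
    rw [Finset.sum_congr rfl fun i _ => (KK_split i u x y).symm, Finset.sum_const,
      Finset.card_univ, Fintype.card_fin, nsmul_eq_mul]
    push_cast
    ring
  have h3 : ((n : ℝ) + 1) * (f x * f y * KK u x y) = f x * f y * (((n : ℝ) + 1) * KK u x y) := by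
    ring
  rw [h3, h2, Finset.mul_sum, Finset.mul_sum, Finset.mul_sum, ← Finset.sum_add_distrib]
  refine Finset.sum_congr rfl fun i _ => ?_
  ring

/-- pointwise form of (R2) -/
theorem R2_point (f : (Fin (n + 1) → Bool) → ℝ) (u : ℝ) :
    ∑ i, SU (dfib f i) u = SD f u := by
  have h1 : ∀ i : Fin (n + 1), SU (dfib f i) u
      = (∑ x, ∑ y, f x * f y * (ss (x i) (y i) *
          KK u (i.removeNth x) (i.removeNth y))) / 4 ^ (n + 1) := by
    intro i
    rw [pair_sum f i u (fun a b => ss a b)]
    unfold SU
    rw [div_eq_div_iff (by positivity) (by positivity), Finset.sum_mul, Finset.sum_mul]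
    refine Finset.sum_congr rfl fun x _ => ?_
    rw [Finset.sum_mul, Finset.sum_mul]
    refine Finset.sum_congr rfl fun y _ => ?_
    simp only [ss, if_true, reduceCtorEq, if_false, dfib, fib]
    ring
  rw [Finset.sum_congr rfl fun i _ => h1 i, ← Finset.sum_div]
  unfold SD
  congr 1
  rw [Finset.sum_comm]
  refine Finset.sum_congr rfl fun x _ => ?_
  rw [Finset.sum_comm]
  refine Finset.sum_congr rfl fun y _ => ?_
  rw [← Finset.mul_sum]

theorem SU_zero (f : (Fin n → Bool) → ℝ) : SU f 0 = mean f ^ 2 := by
  unfold SU mean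
  simp only [KK_zero, mul_one]
  rw [div_pow, ← Finset.sum_mul_sum, ← sq]
  congr 1
  rw [← pow_mul, mul_comm, pow_mul]
  norm_num

theorem SU_one (f : (Fin n → Bool) → ℝ) : SU f 1 = mean (fun x => f x ^ 2) := by
  unfold SU mean
  simp only [KK_one, mul_ite, mul_zero, Finset.sum_ite_eq, Finset.mem_univ, if_true]
  rw [← Finset.sum_mul, div_eq_div_iff (by positivity) (by positivity)]
  have : (4:ℝ) ^ n = 2 ^ n * 2 ^ n := by rw [← mul_pow]; norm_num
  rw [this]
  simp only [← sq]
  ring

theorem R1 (f : (Fin (n + 1) → Bool) → ℝ) :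
    ∑ i, (RR (fib f i true) + RR (fib f i false)) / 2
      = (n + 2) * RR f - mean f ^ 2 := by
  have hint : ∀ {m : ℕ} (g : (Fin m → Bool) → ℝ),
      IntervalIntegrable (SU g) MeasureTheory.volume 0 1 := fun g => (SU_cont g).intervalIntegrable _ _
  have h1 : ∑ i, (RR (fib f i true) + RR (fib f i false)) / 2
      = ∫ u in (0:ℝ)..1, ∑ i, (SU (fib f i true) u + SU (fib f i false) u) / 2 := by
    rw [intervalIntegral.integral_finsetSum]
    · refine Finset.sum_congr rfl fun i _ => ?_
      rw [intervalIntegral.integral_div, intervalIntegral.integral_add (hint _) (hint _)]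
      rfl
    · intro i _
      exact ((hint _).add (hint _)).div_const 2
  rw [h1, intervalIntegral.integral_congr (fun u _ => R1_point f u)]
  have h2 : ∀ u ∈ Set.uIcc (0:ℝ) 1,
      HasDerivAt (fun u => (1 - u) * SU f u) (-1 * SU f u + (1 - u) * SD f u) u := by
    intro u _
    have ha : HasDerivAt (fun u : ℝ => 1 - u) (-1) u := by
      simpa using (hasDerivAt_id u).const_sub 1
    exact ha.mul (SU_deriv f u)
  have hc : Continuous fun u : ℝ => -1 * SU f u + (1 - u) * SD f u :=
    (continuous_const.mul (SU_cont f)).add ((continuous_const.sub continuous_id).mul (SD_cont f))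
  have hi : IntervalIntegrable (fun u : ℝ => -1 * SU f u + (1 - u) * SD f u)
      MeasureTheory.volume 0 1 := hc.intervalIntegrable _ _
  have h3 := intervalIntegral.integral_eq_sub_of_hasDerivAt h2 hi
  have h4 : (fun u : ℝ => (n + 1 : ℝ) * SU f u + (1 - u) * SD f u)
      = fun u => (n + 2 : ℝ) * SU f u + (-1 * SU f u + (1 - u) * SD f u) := by
    funext u
    ring
  rw [h4, intervalIntegral.integral_add ((hint f).const_mul _) hi, h3,
    intervalIntegral.integral_const_mul, SU_zero]
  unfold RR
  ring

theorem R2 (f : (Fin (n + 1) → Bool) → ℝ) :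
    ∑ i, RR (dfib f i) = mean (fun x => f x ^ 2) - mean f ^ 2 := by
  have hint : ∀ {m : ℕ} (g : (Fin m → Bool) → ℝ),
      IntervalIntegrable (SU g) MeasureTheory.volume 0 1 := fun g => (SU_cont g).intervalIntegrable _ _
  have h1 : ∑ i, RR (dfib f i) = ∫ u in (0:ℝ)..1, ∑ i, SU (dfib f i) u := by
    rw [intervalIntegral.integral_finsetSum]
    · rfl
    · intro i _
      exact hint _
  rw [h1, intervalIntegral.integral_congr (fun u _ => R2_point f u),
    intervalIntegral.integral_eq_sub_of_hasDerivAt (fun u _ => SU_deriv f u)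
      ((SD_cont f).intervalIntegrable _ _), SU_one, SU_zero]

/-- (R3) -/
theorem RR_abs (f g : (Fin n → Bool) → ℝ) (h : ∀ x, |f x| ≤ g x) : RR f ≤ RR g := by
  refine intervalIntegral.integral_mono_on (by norm_num) ((SU_cont f).intervalIntegrable _ _)
    ((SU_cont g).intervalIntegrable _ _) ?_
  intro u hu
  unfold SU
  refine div_le_div_of_nonneg_right ?_ (by positivity)
  refine Finset.sum_le_sum fun x _ => Finset.sum_le_sum fun y _ => ?_
  refine mul_le_mul_of_nonneg_right ?_ (KK_nonneg hu.1 hu.2 x y)
  calc f x * f y ≤ |f x * f y| := le_abs_self _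
    _ = |f x| * |f y| := abs_mul _ _
    _ ≤ g x * g y := mul_le_mul (h x) (h y) (abs_nonneg _) ((abs_nonneg _).trans (h x))

theorem RR_smul (c : ℝ) (f : (Fin n → Bool) → ℝ) : RR (fun x => c * f x) = c ^ 2 * RR f := by
  unfold RR
  rw [← intervalIntegral.integral_const_mul]
  refine intervalIntegral.integral_congr fun u _ => ?_
  simp only [SU]
  rw [mul_div_assoc', Finset.mul_sum]
  congr 1
  refine Finset.sum_congr rfl fun x _ => ?_
  rw [Finset.mul_sum]
  refine Finset.sum_congr rfl fun y _ => ?_
  ring

theorem mean_split (f : (Fin (n + 1) → Bool) → ℝ) (i : Fin (n + 1)) :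
    mean f = (mean (fib f i true) + mean (fib f i false)) / 2 := by
  unfold mean fib
  rw [sum_insert i, Finset.sum_add_distrib, pow_succ]
  field_simp

theorem hmean_eq (f : (Fin (n + 1) → Bool) → ℝ) (i : Fin (n + 1)) (a : Bool) :
    hmean f i a = mean (fib f i a) := by
  unfold hmean mean fib
  rw [sum_insert i]
  have h : ∀ x : Fin n → Bool,
      ((if (i.insertNth true x : Fin (n + 1) → Bool) i = a then f (i.insertNth true x) else 0)
        + (if (i.insertNth false x : Fin (n + 1) → Bool) i = a then f (i.insertNth false x) else 0))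
        = f (i.insertNth a x) := by
    intro x
    simp only [Fin.insertNth_apply_same]
    cases a <;> simp
  rw [Finset.sum_congr rfl fun x _ => h x, pow_succ]
  field_simp

theorem Psi_zero : Psi 0 = 0 := by simp [Psi]

theorem Psi_one : Psi 1 = 1 := by simp [Psi]; norm_num

theorem RR_le_Psi (hO : OLI) : ∀ (n : ℕ) (f : (Fin n → Bool) → ℝ), (∀ x, f x = 0 ∨ f x = 1) →
    RR f ≤ Psi (mean f) := by
  intro n
  induction n with
  | zero =>
    intro f hf
    have h1 : ∀ u, SU f u = f default ^ 2 := by
      intro u
      unfold SU KK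
      simp [Finset.univ_unique]
      rw [sq]
      exact congrArg₂ (· * ·) (congrArg f (Subsingleton.elim _ _))
        (congrArg f (Subsingleton.elim _ _))
    have h2 : RR f = f default ^ 2 := by
      unfold RR
      rw [intervalIntegral.integral_congr (fun u _ => h1 u)]
      simp
    have h3 : mean f = f default := by
      unfold mean
      simp [Finset.univ_unique]
      exact congrArg f (Subsingleton.elim _ _)
    rw [h2, h3]
    rcases hf default with h | h
    · rw [h, Psi_zero]; norm_num
    · rw [h, Psi_one]; norm_num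
  | succ n ih =>
    intro f hf
    have hf01 : ∀ x, 0 ≤ f x ∧ f x ≤ 1 := by
      intro x
      rcases hf x with h | h <;> rw [h] <;> norm_num
    have hm0 : 0 ≤ mean f := by
      unfold mean
      exact div_nonneg (Finset.sum_nonneg fun x _ => (hf01 x).1) (by positivity)
    rcases hm0.eq_or_lt with hm | hm
    · -- mean zero: `f = 0`
      have hs : ∑ x, f x = 0 := by
        have : mean f * 2 ^ (n + 1) = ∑ x, f x := by
          unfold mean
          field_simp
        rw [← this, ← hm, zero_mul]
      have hz : ∀ x, f x = 0 := by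
        intro x
        exact (Finset.sum_eq_zero_iff_of_nonneg (fun x _ => (hf01 x).1)).1 hs x (Finset.mem_univ x)
      have h1 : RR f = 0 := by
        unfold RR SU
        simp [hz]
      rw [h1, ← hm, Psi_zero]
    · have holi := hO (n + 1) f hf01 hm
      have hR1 := R1 f
      have hfib : ∀ i, (RR (fib f i true) + RR (fib f i false)) / 2
          ≤ J (mean f) (th f i) + Psi (mean f) := by
        intro i
        have ha := ih (fib f i true) (fun x => hf _)
        have hb := ih (fib f i false) (fun x => hf _)
        have e1 : mean f * (1 + th f i) = mean (fib f i true) := by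
          unfold th
          rw [hmean_eq, hmean_eq]
          have hs := mean_split f i
          field_simp
          linarith
        have e2 : mean f * (1 - th f i) = mean (fib f i false) := by
          unfold th
          rw [hmean_eq, hmean_eq]
          have hs := mean_split f i
          field_simp
          linarith
        unfold J
        rw [e1, e2]
        linarith
      have hsum := Finset.sum_le_sum fun i (_ : i ∈ (Finset.univ : Finset (Fin (n + 1)))) => hfib i
      rw [hR1, Finset.sum_add_distrib, Finset.sum_const, Finset.card_univ, Fintype.card_fin,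
        nsmul_eq_mul] at hsum
      push_cast at hsum
      have hn : (0:ℝ) < n + 2 := by positivity
      have : (n + 2 : ℝ) * RR f ≤ (n + 2) * Psi (mean f) := by linarith
      exact le_of_mul_le_mul_left this hn

/-- the final numerical estimate -/
theorem Psi_le {b : ℝ} (h0 : 0 ≤ b) (h1 : b < 1) :
    Psi b / 4 ≤ b / Real.logb 2 (1 / b) / 2 := by
  rcases h0.eq_or_lt with h | h
  · rw [← h, Psi_zero]; simp
  · have hk : 0 < Real.logb 2 (1 / b) := by
      refine Real.logb_pos (by norm_num) ?_
      rw [lt_div_iff₀ h]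
      linarith
    unfold Psi
    set k := Real.logb 2 (1 / b)
    rw [div_div, div_div, div_le_div_iff₀ (by positivity) (by positivity)]
    have : (2 - b) * k ≤ 2 * (1 + k) := by nlinarith
    nlinarith

end M1aux

open M1aux

/-- MODULE M1 -/
theorem m1 : M1 := by
  intro hO n A hA0 hA1
  rcases n with _ | n
  · simp at hA1
    exact absurd hA0 (by simp [hA1])
  refine or_iff_not_imp_left.2 fun hcon => ?_
  classical
  set f : (Fin (n + 1) → Bool) → ℝ := fun x => if x ∈ A then 1 else 0 with hf
  -- the boundary on the smaller cube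
  set g : Fin (n + 1) → (Fin n → Bool) → ℝ := fun i x =>
    if f (i.insertNth true x) = f (i.insertNth false x) then 0 else 1 with hg
  set β : Fin (n + 1) → ℝ := fun i => ((Finset.univ.filter (fun (x : Fin (n + 1) → Bool) =>
              ¬ (x ∈ A ↔ Function.update x i (!(x i)) ∈ A))).card : ℝ) / 2 ^ (n + 1) with hβ
  have hmf : mean f = (A.card : ℝ) / 2 ^ (n + 1) := by
    unfold mean
    rw [hf]
    simp
  have hmf2 : mean (fun x => f x ^ 2) = (A.card : ℝ) / 2 ^ (n + 1) := by
    unfold mean
    rw [hf]
    simp
  have hflip : ∀ (i : Fin (n + 1)) (a : Bool) (x : Fin n → Bool),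
      Function.update (i.insertNth a x : Fin (n + 1) → Bool) i
        (!((i.insertNth a x : Fin (n + 1) → Bool) i)) = i.insertNth (!a) x := by
    intro i a x
    simp
  have hiff : ∀ x y, (¬ (x ∈ A ↔ y ∈ A)) ↔ f x ≠ f y := by
    intro x y
    simp only [hf]
    by_cases hx : x ∈ A <;> by_cases hy : y ∈ A <;> simp [hx, hy]
  have hmg : ∀ i, mean (g i) = β i := by
    intro i
    have h1 : ((Finset.univ.filter (fun (x : Fin (n + 1) → Bool) =>
              ¬ (x ∈ A ↔ Function.update x i (!(x i)) ∈ A))).card : ℝ)
        = ∑ x : Fin (n + 1) → Bool,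
            if f x = f (Function.update x i (!(x i))) then 0 else 1 := by
      rw [Finset.card_filter]
      push_cast
      refine Finset.sum_congr rfl fun x _ => ?_
      by_cases h : f x = f (Function.update x i (!(x i)))
      · rw [if_pos h, if_neg]
        rw [hiff]
        exact fun h' => h' h
      · rw [if_neg h, if_pos]
        rw [hiff]
        exact h
    simp only [hβ]
    rw [h1, sum_insert i]
    unfold mean
    have h2 : ∀ x : Fin n → Bool,
        ((if f (i.insertNth true x) = f (Function.update (i.insertNth true x) i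
            (!((i.insertNth true x : Fin (n + 1) → Bool) i))) then (0:ℝ) else 1)
          + (if f (i.insertNth false x) = f (Function.update (i.insertNth false x) i
            (!((i.insertNth false x : Fin (n + 1) → Bool) i))) then (0:ℝ) else 1)) = 2 * g i x := by
      intro x
      rw [hflip, hflip]
      simp only [hg, Bool.not_true, Bool.not_false]
      by_cases h : f (i.insertNth true x) = f (i.insertNth false x)
      · rw [if_pos h, if_pos h.symm]; norm_num
      · rw [if_neg h, if_neg (fun h' => h h'.symm)]; norm_num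
    rw [Finset.sum_congr rfl fun x _ => h2 x, ← Finset.mul_sum, pow_succ]
    field_simp
  have hβ0 : ∀ i, 0 ≤ β i := fun i => by simp only [hβ]; positivity
  have hβ1 : ∀ i, β i < 1 := by
    intro i
    refine lt_of_le_of_ne ?_ (fun h => hcon ⟨i, h⟩)
    simp only [hβ]
    rw [div_le_one (by positivity)]
    have := Finset.card_filter_le (Finset.univ : Finset (Fin (n + 1) → Bool))
      (fun x => ¬ (x ∈ A ↔ Function.update x i (!(x i)) ∈ A))
    rw [Finset.card_univ] at this
    simp only [Fintype.card_fun, Fintype.card_bool, Fintype.card_fin] at this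
    exact_mod_cast this
  have hvar := R2 f
  rw [hmf, hmf2] at hvar
  have hstep : ∀ i, RR (dfib f i) ≤ Psi (β i) / 4 := by
    intro i
    have h1 : RR (dfib f i) ≤ RR (fun x => (1 / 2 : ℝ) * g i x) := by
      refine RR_abs _ _ fun x => ?_
      simp only [dfib, hg]
      by_cases h : f (i.insertNth true x) = f (i.insertNth false x)
      · rw [if_pos h, h]; simp
      · rw [if_neg h]
        have ha : ∀ z, f z = 0 ∨ f z = 1 := by
          intro z
          simp only [hf]
          split_ifs
          · right; rfl
          · left; rfl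
        rcases ha (i.insertNth true x) with h1 | h1 <;>
          rcases ha (i.insertNth false x) with h2 | h2 <;> rw [h1, h2] at h ⊢
        · exact absurd rfl h
        · norm_num [abs_le]
        · norm_num [abs_le]
        · exact absurd rfl h
    rw [RR_smul] at h1
    have h2 := RR_le_Psi hO n (g i) (fun x => by
      simp only [hg]
      split_ifs
      · left; rfl
      · right; rfl)
    rw [hmg] at h2
    linarith
  have hsum := Finset.sum_le_sum fun i (_ : i ∈ (Finset.univ : Finset (Fin (n + 1)))) =>
    (hstep i).trans (Psi_le (hβ0 i) (hβ1 i))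
  rw [hvar, ← Finset.sum_div] at hsum
  have : 2 * ((A.card : ℝ) / 2 ^ (n + 1)) * (1 - (A.card : ℝ) / 2 ^ (n + 1))
      = 2 * ((A.card : ℝ) / 2 ^ (n + 1) - ((A.card : ℝ) / 2 ^ (n + 1)) ^ 2) := by ring
  rw [this]
  have hgoal : 2 * ((A.card : ℝ) / 2 ^ (n + 1) - ((A.card : ℝ) / 2 ^ (n + 1)) ^ 2)
      ≤ ∑ i, β i / Real.logb 2 (1 / β i) := by linarith
  exact hgoal

end Pool.Agent.H58.Tal
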