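import Pool.Agent.H3.Tal.PolyC
import Pool.Agent.H3.Tal.PolyBa
import Pool.Agent.H3.Tal.PolyBb

/-! Module M5: the inequality `Star`. -/

set_option autoImplicit false

open Finset Real

namespace Pool.Agent.H58.Tal.M5

/-- bounds of `x/(e^x - 1)` for `0 < x ≤ 1` -/
lemma bern_num (x : ℝ) (h0 : 0 < x) (h1 : x ≤ 1) :
    x ≤ (Real.exp x - 1) * (1 - x / 2 + x ^ 2 / 12) := by
  have h := Real.sum_le_exp_of_nonneg h0.le 6
  simp only [Finset.sum_range_succ, Finset.sum_range_zero, Nat.factorial] at h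
  norm_num at h
  have hp : 0 < 1 - x / 2 + x ^ 2 / 12 := by nlinarith [sq_nonneg x]
  have h2 : (x + x ^ 2 / 2 + x ^ 3 / 6 + x ^ 4 / 24 + x ^ 5 / 120) * (1 - x / 2 + x ^ 2 / 12)
      ≤ (Real.exp x - 1) * (1 - x / 2 + x ^ 2 / 12) :=
    mul_le_mul_of_nonneg_right (by linarith) hp.le
  refine le_trans ?_ h2
  have h5 : 0 ≤ x ^ 5 := by positivity
  have h6 : 0 ≤ x ^ 6 := by positivity
  have h7 : 0 ≤ x ^ 7 := by positivity
  have h65 : x ^ 6 ≤ x ^ 5 := by
    rw [pow_succ]; nlinarith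
  have e1 : (x + x ^ 2 / 2 + x ^ 3 / 6 + x ^ 4 / 24 + x ^ 5 / 120) * (1 - x / 2 + x ^ 2 / 12)
      = x + x ^ 5 / 720 - x ^ 6 / 1440 + x ^ 7 / 1440 := by ring
  rw [e1]
  linarith

lemma bern_num_lo (x : ℝ) (h0 : 0 < x) (h1 : x ≤ 1) :
    (Real.exp x - 1) * (1 - x / 2) ≤ x := by
  -- `e^x (1 - x/2) ≤ 1 + x/2`
  have h := Real.exp_bound' h0.le h1 (n := 3) (by norm_num)
  simp only [Finset.sum_range_succ, Finset.sum_range_zero, Nat.factorial] at h
  norm_num at h
  have hp : 0 < 1 - x / 2 := by linarith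
  have h2 : Real.exp x * (1 - x / 2) ≤ (1 + x + x ^ 2 / 2 + x ^ 3 * 4 / 18) * (1 - x / 2) :=
    mul_le_mul_of_nonneg_right (by linarith) hp.le
  have h3 : 0 ≤ x ^ 3 := by positivity
  have h4 : 0 ≤ x ^ 4 := by positivity
  nlinarith [h2, h3, h4]

lemma sq_lo (t : ℝ) (h : 0.693147180 ≤ t) : 0.480453013 ≤ t ^ 2 := by nlinarith

lemma sq_hi (t : ℝ) (h0 : 0 ≤ t) (h : t ≤ 0.6931471808) : t ^ 2 ≤ 0.480453015 := by nlinarith

lemma cu_lo (t : ℝ) (h : 0.6931471803 ≤ t) : 0.333024650 ≤ t ^ 3 := by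
  have h2 : 0.4804530135 ≤ t ^ 2 := by nlinarith
  have h3 : t ^ 3 = t ^ 2 * t := by ring
  have := mul_le_mul h2 h (by norm_num) (by positivity)
  rw [h3]; refine le_trans ?_ this; norm_num

lemma cu_hi (t : ℝ) (h0 : 0 ≤ t) (h : t ≤ 0.6931471808) : t ^ 3 ≤ 0.333024653 := by
  have h2 : t ^ 2 ≤ 0.4804530145 := by nlinarith
  have h3 : t ^ 3 = t ^ 2 * t := by ring
  have := mul_le_mul h2 h h0 (by norm_num)
  rw [h3]; refine le_trans this ?_; norm_num

lemma ge_two_of_mul (a G : ℝ) (hG : 0 < G) (h : 0 ≤ a * G - 2 * G) : 2 ≤ a := by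
  have h' : 2 * G ≤ a * G := by linarith
  exact le_of_mul_le_mul_right h' hG

lemma nonneg_of_mul' (a G : ℝ) (hG : 0 < G) (h : 0 ≤ a * G) : 0 ≤ a := by
  exact le_of_mul_le_mul_right (by simpa using h) hG

lemma c1_ge (e c t : ℝ) (he : 0 < e) (he1 : e < 1) (h : 2 ≤ e * c) (ht0 : 0 ≤ t) (ht : t ≤ 1) :
    0 ≤ c - e * t := by
  have hc : 0 < c := by
    by_contra h0
    have := mul_nonpos_of_nonneg_of_nonpos he.le (not_lt.1 h0)
    linarith
  have h1 : e * c ≤ 1 * c := mul_le_mul_of_nonneg_right he1.le hc.le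
  have h2 : e * t ≤ 1 * 1 := mul_le_mul he1.le ht ht0 (by norm_num)
  linarith

lemma hmb_aux (e y : ℝ) (he : 0 ≤ e) (he1 : e ≤ 1) (hy0 : 0 ≤ y) (hy1 : y ≤ 1) :
    0 ≤ 1 - e * (1 - e) / 2 * y := by
  have h1 : e * (1 - e) ≤ 1 := by nlinarith
  have h0 : 0 ≤ e * (1 - e) := mul_nonneg he (by linarith)
  have h2 : e * (1 - e) / 2 * y ≤ 1 / 2 * 1 := mul_le_mul (by linarith) hy1 hy0 (by norm_num)
  linarith

end Pool.Agent.H58.Tal.M5

namespace Pool.Agent.H58.Tal

open M5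

theorem m5 : Star := by
  intro e s he he' hs0 hs1
  have he1 : e < 1 := by linarith
  set t := Real.log 2 with ht
  have t1 : 0.6931471803 < t := Real.log_two_gt_d9
  have t2 : t < 0.6931471808 := Real.log_two_lt_d9
  have bt : 0.693147180 ≤ t := by linarith
  have bt' : t ≤ 0.693147181 := by linarith
  have bu : 0.480453013 ≤ t ^ 2 := sq_lo t bt
  have bu' : t ^ 2 ≤ 0.480453015 := sq_hi t (by linarith) t2.le
  have bv : 0.333024650 ≤ t ^ 3 := cu_lo t t1.le
  have bv' : t ^ 3 ≤ 0.333024653 := cu_hi t (by linarith) t2.le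
  have h2t : 0 < 2 - t := by linarith
  set k := 4 / (2 - t) with hkdef
  have hkt : k * t = 2 * k - 4 := by rw [hkdef]; field_simp; ring
  have bk : 3.0607884 ≤ k := by rw [hkdef, le_div_iff₀ h2t]; linarith
  have bk' : k ≤ 3.0607885 := by rw [hkdef, div_le_iff₀ h2t]; linarith
  have hgg := gg_pos e he.le he1.le
  have hGG : 0 < GG e := mul_pos hgg (by linarith)
  set a := e * c1 e with hadef
  have ha : a * GG e = aGG e k := by
    rw [hadef, c1, aGG, GG]
    have hac : ac = 1 / k := by rw [ac, hkdef, ← ht]; field_simp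
    have hk0 : k ≠ 0 := by positivity
    rw [hac]
    have hg := hgg.ne'
    have hep : (1 + e) ≠ 0 := by positivity
    field_simp
  have ha2 : 2 ≤ a := by
    have h := a_ge_two e t k he.le he1.le bt bt' bu bu' bv bv' bk bk'
    rw [← ha] at h
    exact ge_two_of_mul a (GG e) hGG h
  -- bounds of `AA`
  set x := t * e with hx
  have hx0 : 0 < x := by positivity
  have hx1 : x ≤ 1 := by rw [hx]; exact mul_le_one₀ (by linarith) he.le he1.le
  have h2e : (2:ℝ) ^ e = Real.exp x := by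
    rw [Real.rpow_def_of_pos (by norm_num)]
  have hex : 0 < Real.exp x - 1 := by
    have := Real.add_one_lt_exp hx0.ne'
    linarith
  have hc1 : 0 ≤ c1 e - e * t := c1_ge e (c1 e) t he he1 ha2 (by linarith) (by linarith)
  have hce : c2 e * e = (c1 e - e * t) * (x / (Real.exp x - 1)) := by
    have hne : Real.exp x - 1 ≠ 0 := hex.ne'
    rw [c2, h2e, ← ht, div_mul_eq_mul_div, ← mul_div_assoc]
    congr 1
    rw [hx]; ring
  have hB1 : x / (Real.exp x - 1) ≤ 1 - x / 2 + x ^ 2 / 12 := by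
    rw [div_le_iff₀ hex]
    have := bern_num x hx0 hx1
    linarith
  have hB2 : 1 - x / 2 ≤ x / (Real.exp x - 1) := by
    rw [le_div_iff₀ hex]
    have := bern_num_lo x hx0 hx1
    linarith
  have hcu : c2 e * e ≤ (c1 e - e * t) * (1 - x / 2 + x ^ 2 / 12) := by
    rw [hce]; exact mul_le_mul_of_nonneg_left hB1 hc1
  have hcl : (c1 e - e * t) * (1 - x / 2) ≤ c2 e * e := by
    rw [hce]; exact mul_le_mul_of_nonneg_left hB2 hc1
  have hAA : AA e = t ^ 2 * e + a * t + c2 e * e - 2 * t - c1 e := by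
    rw [AA, ← ht, hadef]; ring
  have hAu : AA e ≤ a * t / 2 + a * t ^ 2 * e / 12 - 2 * t + t ^ 2 * e - t * e
      + t ^ 2 * e ^ 2 / 2 - t ^ 3 * e ^ 3 / 12 := by
    have e1 : (c1 e - e * t) * (1 - x / 2 + x ^ 2 / 12) = c1 e - a * t / 2 + a * t ^ 2 * e / 12
        - e * t + t ^ 2 * e ^ 2 / 2 - t ^ 3 * e ^ 3 / 12 := by
      rw [hadef, hx]; ring
    rw [hAA]; linarith
  have hAl : a * t / 2 - 2 * t + t ^ 2 * e - t * e + t ^ 2 * e ^ 2 / 2 ≤ AA e := by
    have e1 : (c1 e - e * t) * (1 - x / 2) = c1 e - a * t / 2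
        - e * t + t ^ 2 * e ^ 2 / 2 := by
      rw [hadef, hx]; ring
    rw [hAA]; linarith
  -- `T_2 ≥ 0`
  have hnu1 : 0 ≤ nu 1 e := by
    rw [nu_1]; clear_value t k a; nlinarith only [mul_nonneg he.le (sub_nonneg.2 he1.le), mul_pos he he, he, he1]
  have hT2 : 0 ≤ Tn e 1 := by
    have h := gpl_nonneg e t k he.le he1.le bt bt' bu bu' bv bv' bk bk'
    rw [← GTlo e t a k hkt ha] at h
    have h2 : 0 ≤ Tlo e t a := nonneg_of_mul' _ _ hGG h
    refine h2.trans ?_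
    rw [Tlo, Tn]
    have := mul_le_mul_of_nonneg_right hAl hnu1
    linarith
  have hTn : ∀ j, 1 ≤ j → 0 ≤ Tn e j ∧ 0 ≤ nu j e ∧ nu1 j e ≤ 0 := fun j hj =>
    Tn_nonneg e he he1 (by
      have : 0 ≤ 2 * t * e := by positivity
      linarith) hT2 j hj
  have hnu : ∀ j, 0 ≤ nu j e := by
    intro j
    rcases Nat.eq_zero_or_pos j with rfl | hj
    · rw [nu_0]; linarith
    · exact (hTn j hj).2.1
  have hTh : ∀ j, Tn e j ≤ That e t a j := by
    intro j
    rw [Tn, That]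
    have := mul_le_mul_of_nonneg_right hAu (hnu j)
    linarith
  -- the three bounds
  set y := s ^ 2 with hy
  have hy0 : 0 ≤ y := by positivity
  have hy1 : y < 1 := by rw [hy]; exact pow_lt_one₀ hs0 hs1 two_ne_zero
  have hTT := TT_le e s he he1 hs0 hs1 (fun j hj => (hTn j hj).1) 6 (by norm_num)
  simp only [Finset.sum_range_succ, Finset.sum_range_zero, Tc, ← hy, ← ht] at hTT
  have hyp : ∀ i, i ≤ 7 → 0 ≤ y ^ i - y ^ 7 := by
    intro i hi
    have := pow_le_pow_of_le_one hy0 hy1.le hi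
    linarith
  set W := (1 + e) * t ^ 2 * (1 - y ^ 7) + That e t a 0 * (y ^ 1 - y ^ 7)
    + That e t a 1 * (y ^ 2 - y ^ 7) + That e t a 2 * (y ^ 3 - y ^ 7)
    + That e t a 3 * (y ^ 4 - y ^ 7) + That e t a 4 * (y ^ 5 - y ^ 7)
    + That e t a 5 * (y ^ 6 - y ^ 7) with hW
  have hTW : TT e s ≤ W := by
    have g1 := mul_le_mul_of_nonneg_right (hTh 0) (hyp 1 (by norm_num))
    have g2 := mul_le_mul_of_nonneg_right (hTh 1) (hyp 2 (by norm_num))
    have g3 := mul_le_mul_of_nonneg_right (hTh 2) (hyp 3 (by norm_num))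
    have g4 := mul_le_mul_of_nonneg_right (hTh 3) (hyp 4 (by norm_num))
    have g5 := mul_le_mul_of_nonneg_right (hTh 4) (hyp 5 (by norm_num))
    have g6 := mul_le_mul_of_nonneg_right (hTh 5) (hyp 6 (by norm_num))
    have e1 : 0 + (1 + e) * t ^ 2 * y ^ 0 + Tn e 0 * y ^ 1 + Tn e 1 * y ^ 2 + Tn e 2 * y ^ 3
        + Tn e 3 * y ^ 4 + Tn e 4 * y ^ 5 + Tn e 5 * y ^ 6
        + y ^ (6 + 1) * (0 - (0 + (1 + e) * t ^ 2 + Tn e 0 + Tn e 1 + Tn e 2 + Tn e 3
          + Tn e 4 + Tn e 5))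
        = (1 + e) * t ^ 2 * (1 - y ^ 7) + Tn e 0 * (y ^ 1 - y ^ 7) + Tn e 1 * (y ^ 2 - y ^ 7)
          + Tn e 2 * (y ^ 3 - y ^ 7) + Tn e 3 * (y ^ 4 - y ^ 7) + Tn e 4 * (y ^ 5 - y ^ 7)
          + Tn e 5 * (y ^ 6 - y ^ 7) := by ring
    rw [e1] at hTT
    rw [hW]
    linarith only [g1, g2, g3, g4, g5, g6, hTT]
  have hD := Dn_le s hs0 hs1
  rw [← hy, ← ht] at hD
  have hm := mm_le e s he he1 hs0 hs1
  rw [← hy] at hm
  have hm0 := mm_nonneg e s hs0 hs1
  set X := (1 - y) * (t + (t - 1 / 2) * y + (t - 7 / 12) * y ^ 2) with hX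
  have hX0 : 0 ≤ X := by
    have : 0 ≤ 1 - y := by linarith
    have : 0 ≤ t - 1 / 2 := by linarith
    have : 0 ≤ t - 7 / 12 := by linarith
    positivity
  have hXD : X ≤ t - Dn s := by
    have : X = t - (y / 2 + y ^ 2 / 12 + y ^ 3 * (t - 7 / 12)) := by rw [hX]; ring
    linarith
  have hR : (1 + e) * X ^ 2 ≤ (1 + e) * (t - Dn s) ^ 2 := by
    apply mul_le_mul_of_nonneg_left _ (by linarith)
    exact pow_le_pow_left₀ hX0 hXD 2
  rcases le_or_gt (TT e s) 0 with hneg | hpos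
  · have h1 : mm e s * TT e s ≤ 0 := mul_nonpos_of_nonneg_of_nonpos hm0 hneg
    have h2 : 0 ≤ (1 + e) * X ^ 2 := by positivity
    linarith
  · refine le_trans ?_ hR
    have hmb : 0 ≤ 1 - e * (1 - e) / 2 * y := hmb_aux e y he.le he1.le hy0 hy1.le
    have h1 : mm e s * TT e s ≤ (1 - e * (1 - e) / 2 * y) * W :=
      mul_le_mul hm hTW hpos.le hmb
    refine h1.trans ?_
    have b0 := B_0 e t k he.le he1.le bt bt' bu bu' bv bv' bk bk'
    have b1 := B_1 e t k he.le he1.le bt bt' bu bu' bv bv' bk bk'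
    have b2 := B_2 e t k he.le he1.le bt bt' bu bu' bv bv' bk bk'
    have b3 := B_3 e t k he.le he1.le bt bt' bu bu' bv bv' bk bk'
    have b4 := B_4 e t k he.le he1.le bt bt' bu bu' bv bv' bk bk'
    have b5 := B_5 e t k he.le he1.le bt bt' bu bu' bv bv' bk bk'
    have b6 := B_6 e t k he.le he1.le bt bt' bu bu' bv bv' bk bk'
    rw [← GT_0 e t a k hkt ha, ← GT_1 e t a k hkt ha, ← GT_2 e t a k hkt ha,
      ← GT_3 e t a k hkt ha, ← GT_4 e t a k hkt ha, ← GT_5 e t a k hkt ha, ← GP_eq]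
      at b0 b1 b2 b3 b4 b5 b6
    have h1y : 0 ≤ 1 - y := by linarith
    have key : GG e * ((1 + e) * X ^ 2 - (1 - e * (1 - e) / 2 * y) * W)
        = (1 - y) * y * (
          (1 - y) ^ 6 * Bx0 e t (GG e) (That e t a 0 * GG e) (That e t a 1 * GG e)
            (That e t a 2 * GG e) (That e t a 3 * GG e) (That e t a 4 * GG e) (That e t a 5 * GG e)
          + 6 * y * (1 - y) ^ 5 * Bx1 e t (GG e) (That e t a 0 * GG e) (That e t a 1 * GG e)
            (That e t a 2 * GG e) (That e t a 3 * GG e) (That e t a 4 * GG e) (That e t a 5 * GG e)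
          + 15 * y ^ 2 * (1 - y) ^ 4 * Bx2 e t (GG e) (That e t a 0 * GG e) (That e t a 1 * GG e)
            (That e t a 2 * GG e) (That e t a 3 * GG e) (That e t a 4 * GG e) (That e t a 5 * GG e)
          + 20 * y ^ 3 * (1 - y) ^ 3 * Bx3 e t (GG e) (That e t a 0 * GG e) (That e t a 1 * GG e)
            (That e t a 2 * GG e) (That e t a 3 * GG e) (That e t a 4 * GG e) (That e t a 5 * GG e)
          + 15 * y ^ 4 * (1 - y) ^ 2 * Bx4 e t (GG e) (That e t a 0 * GG e) (That e t a 1 * GG e)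
            (That e t a 2 * GG e) (That e t a 3 * GG e) (That e t a 4 * GG e) (That e t a 5 * GG e)
          + 6 * y ^ 5 * (1 - y) * Bx5 e t (GG e) (That e t a 0 * GG e) (That e t a 1 * GG e)
            (That e t a 2 * GG e) (That e t a 3 * GG e) (That e t a 4 * GG e) (That e t a 5 * GG e)
          + y ^ 6 * Bx6 e t (GG e) (That e t a 0 * GG e) (That e t a 1 * GG e)
            (That e t a 2 * GG e) (That e t a 3 * GG e) (That e t a 4 * GG e) (That e t a 5 * GG e)) := by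
      rw [hX, hW]
      simp only [Bx0, Bx1, Bx2, Bx3, Bx4, Bx5, Bx6]
      generalize GG e = G
      generalize That e t a 0 = T0
      generalize That e t a 1 = T1
      generalize That e t a 2 = T2
      generalize That e t a 3 = T3
      generalize That e t a 4 = T4
      generalize That e t a 5 = T5
      ring
    have hpos2 : 0 ≤ GG e * ((1 + e) * X ^ 2 - (1 - e * (1 - e) / 2 * y) * W) := by
      rw [key]
      positivity
    have := (mul_nonneg_iff_of_pos_left hGG).1 hpos2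
    linarith only [this]

end Pool.Agent.H58.Tal
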