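import Pool.Agent.H58.Tal.Defs6

/-! Module M6R1b: coefficient sequences (index `i` = coefficient of `x^i`, `x = t^2`) and the finite criterion. -/

set_option autoImplicit false

open Finset Real

namespace Pool.Agent.H58.Tal.R1

open Pool.Agent.H58.Tal

/-- Cauchy product -/
noncomputable def cv (a b : ℕ → ℝ) (n : ℕ) : ℝ := ∑ i ∈ range (n + 1), a i * b (n - i)
/-- shift (multiplication by `x`) -/
noncomputable def sh (a : ℕ → ℝ) : ℕ → ℝ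
  | 0 => 0
  | (n + 1) => a n
noncomputable def laC (i : ℕ) : ℝ := 1 / ((i : ℝ) + 1)
noncomputable def ooC (i : ℕ) : ℝ := 1 / (2 * (i : ℝ) + 1)
noncomputable def kkC (i : ℕ) : ℝ := cv ooC ooC i - laC i + sh (cv laC laC) i / 4
noncomputable def y1C (i : ℕ) : ℝ := sh laC i + 2 * ooC i - (if i = 0 then 2 else 0)
noncomputable def w1C (i : ℕ) : ℝ := sh kkC i + (if i = 0 then 2 else 0) - 2 * ooC i + sh (cv ooC laC) i

/-- `Π_{i+1}` -/
noncomputable def piC (e : ℝ) : ℕ → ℝ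
  | 0 => 1
  | (i + 1) => piC e i * (1 - e / (2 * (i : ℝ) + 1)) * (1 - e / (2 * (i : ℝ) + 2))
/-- `κ_{i+1}`: `1 - Π_{i+1} = e κ_{i+1}` -/
noncomputable def kapC (e : ℝ) : ℕ → ℝ
  | 0 => 0
  | (i + 1) => kapC e i + piC e i *
      (1 / (2 * (i : ℝ) + 1) + 1 / (2 * (i : ℝ) + 2) - e / ((2 * (i : ℝ) + 1) * (2 * (i : ℝ) + 2)))
noncomputable def P0 (e : ℝ) : ℝ := (Bb e + (Bb e - 1) / e) / 2
/-- coefficients of `Ph e` -/
noncomputable def PC (e : ℝ) : ℕ → ℝ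
  | 0 => P0 e
  | (i + 1) => PC e i - ((1 + e) * Bb e * kapC e (i + 1) - 2 * P0 e) / ((2 * (i : ℝ) + 3) * (2 * (i : ℝ) + 4))
/-- coefficients of `zz e` -/
noncomputable def zC (e : ℝ) (i : ℕ) : ℝ := yh e * y1C i + e * rh e * w1C i
/-- coefficients of the left side of `R1star` -/
noncomputable def rC (e : ℝ) (i : ℕ) : ℝ :=
  PC e i + e * cv (PC e) (zC e) i + e * dr e * ((ooC i + sh ooC i) / 12 + e * sh (PC e) i / 6)
/-- coefficients of the right side of `R1star` -/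
noncomputable def sC (e : ℝ) (i : ℕ) : ℝ := yh e * cv laC ooC i + e * rh e * cv kkC ooC i

/-- `b2(e) = (B - 1 + e ln2 / 2)/e^2` -/
noncomputable def b2 (e : ℝ) : ℝ := (Bb e - 1 + Real.log 2 * e / 2) / e ^ 2

/-- the zeroth difference divided by `e` -/
noncomputable def q0e (e : ℝ) : ℝ :=
  ac / gg e * (21 / 20 - 59 / 100 * e + 22 / 100 * e ^ 2 - Real.log 2 / 2 + e * b2 e - 1 / (1 + e))
    + (Real.log 2 / 2 - b2 e * (1 + e)) / 2 - dr e / 12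

/-- upper bound of `Ph e t1`, from the coefficients up to index `J + 1` -/
noncomputable def PtU (e t1 : ℝ) (J : ℕ) : ℝ :=
  (∑ i ∈ range (J + 1), PC e i * (t1 ^ 2) ^ i) + PC e (J + 1) * ((t1 ^ 2) ^ (J + 1) / (1 - t1 ^ 2))

/-- the finite check -/
structure ChkR1 (e t1 : ℝ) (J : ℕ) : Prop where
  /-- all partial sums at `x = t1^2` are nonnegative -/
  part : ∀ j ≤ J, 0 ≤ ∑ i ∈ range (j + 1), (sC e i - rC e i) * (t1 ^ 2) ^ i
  /-- the whole left side at `t1` is at most the partial sum of the right side -/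
  tail : ∃ Pt : ℝ, PtU e t1 J ≤ Pt ∧
    Pt * (1 + e * zz e t1) + e * dr e * (oo t1 * (1 + t1 ^ 2) / 12 + e * Pt * t1 ^ 2 / 6) ≤
      ∑ i ∈ range (J + 1), sC e i * (t1 ^ 2) ^ i

/-- MODULE M6R1s -/
def M6R1s : Prop :=
  (∀ e t t1 : ℝ, ∀ J : ℕ, 0 < e → e ≤ 1 → 0 < t → t ≤ t1 → t1 < 1 → ChkR1 e t1 J → R1star e t) ∧
  (∀ e : ℝ, 0 < e → e ≤ 1 → sC e 0 - rC e 0 = e * q0e e)

/-- MODULE M6R1c -/
def M6R1c : Prop :=
  (∀ e : ℝ, 0 < e → e ≤ 77 / 100 → ChkR1 e (9 / 10) 25) ∧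
  (∀ e : ℝ, 0 < e → e ≤ 966 / 1000 → ChkR1 e (4 / 10) 15)

end Pool.Agent.H58.Tal.R1
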