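import Pool.Agent.H58.Tal.Defs

/-! Module M7c, part A: closed forms, monotonicity of `Q`, the single crossing step. -/

set_option autoImplicit false

open Finset Real

namespace Pool.Agent.H58.Tal.C7

/-- `Q(e) = (1+e) e/(2^e-1)` -/
noncomputable def Q (e : ℝ) : ℝ := (1 + e) * e / (2 ^ e - 1)

noncomputable def A (l : ℝ) : ℝ := ∫ v in (0:ℝ)..1, v * (1 + v) * Real.exp (-v * (l + Real.log 2))
noncomputable def W (l : ℝ) : ℝ :=
  ∫ v in (0:ℝ)..1, (Real.exp (-v * l) - Real.exp (-v * (l + Real.log 2)))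

lemma two_rpow_eq (v : ℝ) : (2:ℝ) ^ v = Real.exp (Real.log 2 * v) := by
  rw [Real.rpow_def_of_pos (by norm_num)]

lemma one_lt_two_rpow {v : ℝ} (hv : 0 < v) : 1 < (2:ℝ) ^ v :=
  Real.one_lt_rpow (by norm_num) hv

lemma bern {z r : ℝ} (hz : 0 ≤ z) (hr : 0 ≤ r) (hr1 : r ≤ 1) :
    1 + r * z - r * (1 - r) * z ^ 2 / 2 ≤ (1 + z) ^ r := by
  -- derivative argument
  set f : ℝ → ℝ := fun z => (1 + z) ^ r - (1 + r * z - r * (1 - r) * z ^ 2 / 2) with hf
  have hd : ∀ x : ℝ, 0 < x → HasDerivAt f (r * (1 + x) ^ (r - 1) - (r - r * (1 - r) * x)) x := by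
    intro x hx
    have h1 : HasDerivAt (fun z : ℝ => 1 + z) 1 x := by
      simpa using (hasDerivAt_id x).const_add 1
    have h2 := h1.rpow_const (p := r) (Or.inl (by linarith : (1 + x) ≠ 0))
    have h3 : HasDerivAt (fun z : ℝ => 1 + r * z - r * (1 - r) * z ^ 2 / 2)
        (r - r * (1 - r) * x) x := by
      have a1 : HasDerivAt (fun z : ℝ => r * z) r x := by
        simpa using (hasDerivAt_id x).const_mul r
      have a2 : HasDerivAt (fun z : ℝ => r * (1 - r) * z ^ 2 / 2) (r * (1 - r) * x) x := by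
        exact HasDerivAt.congr_deriv (((hasDerivAt_pow 2 x).const_mul (r * (1 - r))).div_const 2)
          (by push_cast; ring)
      exact HasDerivAt.sub (a1.const_add 1) a2
    exact HasDerivAt.congr_deriv (HasDerivAt.sub h2 h3) (by ring)
  have hcont : ContinuousOn f (Set.Ici 0) := by
    have : ContinuousOn (fun z : ℝ => (1 + z) ^ r) (Set.Ici 0) := by
      apply ContinuousOn.rpow_const (by fun_prop)
      intro x hx; left; have : (0:ℝ) ≤ x := hx; linarith
    apply ContinuousOn.sub this; fun_prop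
  have hmono : MonotoneOn f (Set.Ici 0) := by
    apply monotoneOn_of_deriv_nonneg (convex_Ici 0) hcont
    · intro x hx
      rw [interior_Ici] at hx
      exact (hd x hx).differentiableAt.differentiableWithinAt
    · intro x hx
      rw [interior_Ici] at hx
      have hx0 : (0:ℝ) < x := hx
      rw [(hd x hx).deriv]
      have h1x : 0 < 1 + x := by linarith
      have key : 1 - (1 - r) * x ≤ (1 + x) ^ (r - 1) := by
        have e1 : (1 + x) ^ (1 - r) ≤ 1 + (1 - r) * x :=
          rpow_one_add_le_one_add_mul_self (by linarith) (by linarith) (by linarith)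
        have e2 : (1 + x) ^ (r - 1) = ((1 + x) ^ (1 - r))⁻¹ := by
          rw [← Real.rpow_neg h1x.le]; congr 1; ring
        have e3 : 0 < (1 + x) ^ (1 - r) := Real.rpow_pos_of_pos h1x _
        rw [e2]
        have e4 : (1 - (1 - r) * x) * (1 + x) ^ (1 - r) ≤ 1 := by
          by_cases hc : 0 ≤ 1 - (1 - r) * x
          · calc (1 - (1 - r) * x) * (1 + x) ^ (1 - r)
                ≤ (1 - (1 - r) * x) * (1 + (1 - r) * x) := by gcongr
              _ ≤ 1 := by nlinarith [sq_nonneg ((1 - r) * x)]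
          · have hc' : 1 - (1 - r) * x < 0 := not_le.mp hc
            nlinarith
        rw [← one_div, le_div_iff₀ e3]
        exact e4
      nlinarith
  have h0 : f 0 = 0 := by simp [hf]
  have := hmono (Set.mem_Ici.mpr le_rfl) (Set.mem_Ici.mpr hz) hz
  rw [h0] at this
  simp only [hf] at this
  linarith

/-- `Q` is nondecreasing on `(0,1]`, in product form. -/
lemma Q_mul {u v : ℝ} (hu : 0 < u) (huv : u ≤ v) (hv : v ≤ 1) :
    ((2:ℝ) ^ v - 1) * ((1 + u) * u) ≤ ((2:ℝ) ^ u - 1) * ((1 + v) * v) := by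
  have hv0 : 0 < v := lt_of_lt_of_le hu huv
  set z : ℝ := (2:ℝ) ^ v - 1 with hz
  have hz0 : 0 < z := by have := one_lt_two_rpow hv0; simp [hz]; linarith
  have hzv : z ≤ v := by
    have : (1 + 1 : ℝ) ^ v ≤ 1 + v * 1 :=
      rpow_one_add_le_one_add_mul_self (by norm_num) hv0.le hv
    have h2 : (1 + 1 : ℝ) = 2 := by norm_num
    rw [h2] at this
    simp only [hz]; linarith
  set r : ℝ := u / v with hr
  have hr0 : 0 ≤ r := by positivity
  have hr1 : r ≤ 1 := by rw [hr, div_le_one hv0]; exact huv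
  have hur : u = r * v := by rw [hr]; field_simp
  have hb := bern hz0.le hr0 hr1
  have h1 : (1 + z) ^ r = (2:ℝ) ^ u := by
    have : 1 + z = (2:ℝ) ^ v := by simp [hz]
    rw [this, ← Real.rpow_mul (by norm_num), hur]; congr 1; ring
  rw [h1] at hb
  -- (2^u - 1) ≥ r z - r(1-r) z²/2 ≥ r z (1 - (1-r) v/2)
  have h2 : r * z * (1 - (1 - r) * v / 2) ≤ (2:ℝ) ^ u - 1 := by
    have : r * (1 - r) * z ^ 2 / 2 ≤ r * (1 - r) * (z * v) / 2 := by
      have h3 : z ^ 2 ≤ z * v := by nlinarith
      have h4 : 0 ≤ r * (1 - r) := by apply mul_nonneg hr0; linarith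
      nlinarith
    nlinarith
  have h5 : z * ((1 + u) * u) ≤ (r * z * (1 - (1 - r) * v / 2)) * ((1 + v) * v) := by
    have h6 : (1 + u) ≤ (1 - (1 - r) * v / 2) * (1 + v) := by
      rw [hur]
      nlinarith [mul_nonneg (mul_nonneg (sub_nonneg.mpr hr1) hv0.le) (sub_nonneg.mpr hv)]
    have h7 : 0 ≤ z * (r * v) := by positivity
    calc z * ((1 + u) * u) = (z * (r * v)) * (1 + u) := by rw [hur]; ring
      _ ≤ (z * (r * v)) * ((1 - (1 - r) * v / 2) * (1 + v)) := by gcongr
      _ = _ := by ring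
  have h8 : (0:ℝ) ≤ (1 + v) * v := by positivity
  calc z * ((1 + u) * u) ≤ (r * z * (1 - (1 - r) * v / 2)) * ((1 + v) * v) := h5
    _ ≤ ((2:ℝ) ^ u - 1) * ((1 + v) * v) := by gcongr

lemma Q_mono {u v : ℝ} (hu : 0 < u) (huv : u ≤ v) (hv : v ≤ 1) : Q u ≤ Q v := by
  have h1 := one_lt_two_rpow hu
  have h2 := one_lt_two_rpow (lt_of_lt_of_le hu huv)
  unfold Q
  rw [div_le_div_iff₀ (by linarith) (by linarith)]
  have := Q_mul hu huv hv
  linarith

lemma Q_nonneg {u : ℝ} (hu : 0 < u) : 0 ≤ Q u := by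
  have h1 := one_lt_two_rpow hu
  unfold Q
  apply div_nonneg (by positivity) (by linarith)

/-- the integrand of `Q(e) W(l) - A(l)` -/
lemma QW_sub_A (q l : ℝ) : q * W l - A l =
    ∫ v in (0:ℝ)..1, (q * (Real.exp (-v * l) - Real.exp (-v * (l + Real.log 2))) -
      v * (1 + v) * Real.exp (-v * (l + Real.log 2))) := by
  unfold W A
  rw [← intervalIntegral.integral_const_mul, ← intervalIntegral.integral_sub]
  · apply Continuous.intervalIntegrable; fun_prop
  · apply Continuous.intervalIntegrable; fun_prop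

/-- single crossing: if `A ≤ Q(e) W` holds at `m`, it holds at every `l ≥ m`. -/
lemma cross {e m l : ℝ} (he : 0 < e) (he1 : e ≤ 1) (hml : m ≤ l) (h : A m ≤ Q e * W m) :
    A l ≤ Q e * W l := by
  rw [← sub_nonneg, QW_sub_A] at h ⊢
  set φ : ℝ → ℝ := fun v => Q e * (1 - Real.exp (-v * Real.log 2)) -
    v * (1 + v) * Real.exp (-v * Real.log 2) with hφ
  have hform : ∀ v x : ℝ, (Q e * (Real.exp (-v * x) - Real.exp (-v * (x + Real.log 2))) -
      v * (1 + v) * Real.exp (-v * (x + Real.log 2))) = φ v * Real.exp (-v * x) := by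
    intro v x
    have : Real.exp (-v * (x + Real.log 2)) = Real.exp (-v * x) * Real.exp (-v * Real.log 2) := by
      rw [← Real.exp_add]; congr 1; ring
    rw [this, hφ]; ring
  have hsign : ∀ v ∈ Set.Icc (0:ℝ) 1, 0 ≤ φ v * (e - v) := by
    intro v hv
    have hexp : Real.exp (-v * Real.log 2) = ((2:ℝ) ^ v)⁻¹ := by
      rw [two_rpow_eq, ← Real.exp_neg]; congr 1; ring
    rcases eq_or_lt_of_le hv.1 with h0 | h0
    · rw [← h0]; simp [hφ]
    · have h2v := one_lt_two_rpow h0
      have h2e := one_lt_two_rpow he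
      have hφv : φ v = ((2:ℝ) ^ v)⁻¹ * (Q e * ((2:ℝ) ^ v - 1) - v * (1 + v)) := by
        rw [hφ]; simp only; rw [hexp]; field_simp
      have hQv : v * (1 + v) = Q v * ((2:ℝ) ^ v - 1) := by
        unfold Q
        have : (2:ℝ) ^ v - 1 ≠ 0 := by linarith
        field_simp
      have : φ v * (e - v) = ((2:ℝ) ^ v)⁻¹ * ((2:ℝ) ^ v - 1) * ((Q e - Q v) * (e - v)) := by
        rw [hφv, hQv]; ring
      rw [this]
      apply mul_nonneg
      · apply mul_nonneg
        · positivity
        · linarith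
      · rcases le_total v e with hve | hve
        · exact mul_nonneg (sub_nonneg.mpr (Q_mono h0 hve he1)) (sub_nonneg.mpr hve)
        · exact mul_nonneg_of_nonpos_of_nonpos
            (sub_nonpos.mpr (Q_mono he hve hv.2)) (sub_nonpos.mpr hve)
  have hpt : ∀ v ∈ Set.Icc (0:ℝ) 1,
      Real.exp (-e * (l - m)) * (φ v * Real.exp (-v * m)) ≤ φ v * Real.exp (-v * l) := by
    intro v hv
    have hs := hsign v hv
    have e1 : Real.exp (-v * l) = Real.exp (-v * m) * Real.exp (-v * (l - m)) := by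
      rw [← Real.exp_add]; congr 1; ring
    rw [e1]
    have hpos := Real.exp_pos (-v * m)
    suffices hh : φ v * Real.exp (-e * (l - m)) ≤ φ v * Real.exp (-v * (l - m)) by
      nlinarith
    rcases lt_trichotomy v e with hve | hve | hve
    · have hφ0 : 0 ≤ φ v := by
        by_contra hc
        have hc' : φ v < 0 := not_le.mp hc
        nlinarith [mul_pos (neg_pos.mpr hc') (sub_pos.mpr hve)]
      apply mul_le_mul_of_nonneg_left _ hφ0
      apply Real.exp_le_exp.mpr
      nlinarith [mul_nonneg (sub_nonneg.mpr hve.le) (sub_nonneg.mpr hml)]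
    · rw [hve]
    · have hφ0 : φ v ≤ 0 := by
        by_contra hc
        have hc' : 0 < φ v := not_le.mp hc
        nlinarith [mul_pos hc' (sub_pos.mpr hve)]
      apply mul_le_mul_of_nonpos_left _ hφ0
      apply Real.exp_le_exp.mpr
      nlinarith [mul_nonneg (sub_nonneg.mpr hve.le) (sub_nonneg.mpr hml)]
  have hcont : Continuous φ := by rw [hφ]; fun_prop
  simp_rw [hform] at h ⊢
  calc (0:ℝ) ≤ Real.exp (-e * (l - m)) * ∫ v in (0:ℝ)..1, φ v * Real.exp (-v * m) := by
        positivity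
    _ = ∫ v in (0:ℝ)..1, Real.exp (-e * (l - m)) * (φ v * Real.exp (-v * m)) := by
        rw [intervalIntegral.integral_const_mul]
    _ ≤ ∫ v in (0:ℝ)..1, φ v * Real.exp (-v * l) := by
        apply intervalIntegral.integral_mono_on (by norm_num)
        · apply Continuous.intervalIntegrable; fun_prop
        · apply Continuous.intervalIntegrable; fun_prop
        · exact hpt

lemma W_nonneg (l : ℝ) : 0 ≤ W l := by
  unfold W
  apply intervalIntegral.integral_nonneg (by norm_num)
  intro v hv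
  rw [sub_nonneg]
  apply Real.exp_le_exp.mpr
  have : 0 < Real.log 2 := Real.log_pos (by norm_num)
  nlinarith [mul_nonneg hv.1 this.le]

/-- closed form of `A` -/
lemma A_eq {l y b : ℝ} (hy : y = l + Real.log 2) (hb : b = Real.exp (-l)) (hy0 : y ≠ 0) :
    A l = 1 / y ^ 2 + 2 / y ^ 3 - b / 2 * (2 / y + 3 / y ^ 2 + 2 / y ^ 3) := by
  have hder : ∀ v ∈ Set.uIcc (0:ℝ) 1, HasDerivAt
      (fun v : ℝ => -(Real.exp (-v * y) * ((v + v ^ 2) / y + (1 + 2 * v) / y ^ 2 + 2 / y ^ 3)))
      (v * (1 + v) * Real.exp (-v * (l + Real.log 2))) v := by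
    intro v _
    rw [← hy]
    have h1 : HasDerivAt (fun v : ℝ => Real.exp (-v * y)) (Real.exp (-v * y) * (-y)) v := by
      have : HasDerivAt (fun v : ℝ => -v * y) (-y) v :=
        HasDerivAt.congr_deriv ((hasDerivAt_id v).neg.mul_const y) (by ring)
      exact this.exp
    have h2 : HasDerivAt (fun v : ℝ => (v + v ^ 2) / y + (1 + 2 * v) / y ^ 2 + 2 / y ^ 3)
        ((1 + 2 * v) / y + 2 / y ^ 2) v := by
      have a1 : HasDerivAt (fun v : ℝ => (v + v ^ 2) / y) ((1 + 2 * v) / y) v := by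
        exact HasDerivAt.congr_deriv (((hasDerivAt_id v).add (hasDerivAt_pow 2 v)).div_const y)
          (by push_cast; ring)
      have a2 : HasDerivAt (fun v : ℝ => (1 + 2 * v) / y ^ 2) (2 / y ^ 2) v := by
        exact HasDerivAt.congr_deriv ((((hasDerivAt_id v).const_mul 2).const_add 1).div_const (y ^ 2))
          (by ring)
      exact HasDerivAt.congr_deriv ((a1.add a2).add (hasDerivAt_const v (2 / y ^ 3))) (by ring)
    refine HasDerivAt.congr_deriv (h1.mul h2).neg ?_
    field_simp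
    ring
  have hint : IntervalIntegrable (fun v : ℝ => v * (1 + v) * Real.exp (-v * (l + Real.log 2)))
      MeasureTheory.volume 0 1 := by
    apply Continuous.intervalIntegrable; fun_prop
  unfold A
  rw [intervalIntegral.integral_eq_sub_of_hasDerivAt hder hint]
  have hby : Real.exp (-1 * y) = b / 2 := by
    rw [hb, hy]
    have : Real.exp (-1 * (l + Real.log 2)) = Real.exp (-l) * Real.exp (-Real.log 2) := by
      rw [← Real.exp_add]; congr 1; ring
    rw [this, Real.exp_neg (Real.log 2), Real.exp_log (by norm_num)]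
    ring
  rw [hby]
  simp only [neg_zero, zero_mul, Real.exp_zero]
  ring

lemma int_exp {x : ℝ} (hx : x ≠ 0) :
    (∫ v in (0:ℝ)..1, Real.exp (-v * x)) = (1 - Real.exp (-x)) / x := by
  have hder : ∀ v ∈ Set.uIcc (0:ℝ) 1, HasDerivAt
      (fun v : ℝ => -(Real.exp (-v * x) / x)) (Real.exp (-v * x)) v := by
    intro v _
    have h1 : HasDerivAt (fun v : ℝ => Real.exp (-v * x)) (Real.exp (-v * x) * (-x)) v := by
      have : HasDerivAt (fun v : ℝ => -v * x) (-x) v :=
        HasDerivAt.congr_deriv ((hasDerivAt_id v).neg.mul_const x) (by ring)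
      exact this.exp
    refine HasDerivAt.congr_deriv (h1.div_const x).neg ?_
    field_simp
  rw [intervalIntegral.integral_eq_sub_of_hasDerivAt hder
    (by apply Continuous.intervalIntegrable; fun_prop)]
  simp only [neg_zero, zero_mul, Real.exp_zero, neg_mul, one_mul]
  ring

/-- closed form of `W` -/
lemma W_eq {l y b : ℝ} (hy : y = l + Real.log 2) (hb : b = Real.exp (-l)) (hy0 : y ≠ 0)
    (hl0 : l ≠ 0) :
    W l = 1 / l - 1 / y - b * (1 / l - 1 / (2 * y)) := by
  unfold W
  rw [intervalIntegral.integral_sub (by apply Continuous.intervalIntegrable; fun_prop)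
    (by apply Continuous.intervalIntegrable; fun_prop), int_exp hl0, ← hy, int_exp hy0]
  have hby : Real.exp (-y) = b / 2 := by
    rw [hb, hy]
    have : Real.exp (-(l + Real.log 2)) = Real.exp (-l) * Real.exp (-Real.log 2) := by
      rw [← Real.exp_add]; congr 1; ring
    rw [this, Real.exp_neg (Real.log 2), Real.exp_log (by norm_num)]
    ring
  rw [hby, ← hb]
  field_simp
  ring

/-- polynomial form: `G ≥ 0` implies `A ≤ q W` -/
lemma of_G {l y b q τ : ℝ} (hτ : τ = Real.log 2) (hy : y = l + τ) (hb : b = Real.exp (-l))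
    (hl : 0 < l)
    (hG : 0 ≤ q * (τ * y ^ 2 - b * y ^ 2 * (y - l / 2)) - l * (y + 2) +
      b * (l / 2) * (2 * y ^ 2 + 3 * y + 2)) : A l ≤ q * W l := by
  have hτ0 : 0 < τ := by rw [hτ]; exact Real.log_pos (by norm_num)
  have hy0 : 0 < y := by rw [hy]; linarith
  rw [A_eq (by rw [hy, hτ]) hb hy0.ne', W_eq (by rw [hy, hτ]) hb hy0.ne' hl.ne']
  rw [← sub_nonneg]
  have : q * (1 / l - 1 / y - b * (1 / l - 1 / (2 * y))) -
      (1 / y ^ 2 + 2 / y ^ 3 - b / 2 * (2 / y + 3 / y ^ 2 + 2 / y ^ 3)) =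
      (q * (τ * y ^ 2 - b * y ^ 2 * (y - l / 2)) - l * (y + 2) +
      b * (l / 2) * (2 * y ^ 2 + 3 * y + 2)) / (l * y ^ 3) := by
    have hτy : τ = y - l := by rw [hy]; ring
    rw [hτy]
    field_simp
    ring
  rw [this]
  apply div_nonneg hG
  positivity

end Pool.Agent.H58.Tal.C7
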