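import Pool.Agent.H58.Tal.M7cA

/-! Module M7c, part B: certified rational evaluation at grid points. -/

set_option autoImplicit false

open Finset Real

namespace Pool.Agent.H58.Tal.C7

/-- `hor x k n = Σ_{j<n} x^j k!/(k+j)!` -/
def hor (x : ℚ) : ℕ → ℕ → ℚ
  | _, 0 => 0
  | k, n + 1 => 1 + x / ((k + 1 : ℕ) : ℚ) * hor x (k + 1) n

lemma hor_eq (x : ℚ) (k n : ℕ) :
    (hor x k n : ℝ) = ∑ j ∈ range n, (x:ℝ) ^ j * ((k.factorial : ℝ) / ((k + j).factorial : ℝ)) := by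
  induction n generalizing k with
  | zero => simp [hor]
  | succ n ih =>
    rw [hor, Finset.sum_range_succ']
    push_cast
    rw [ih (k + 1), Finset.mul_sum]
    have h0 : ((k.factorial : ℝ)) ≠ 0 := by positivity
    have : (x:ℝ) ^ 0 * ((k.factorial : ℝ) / ((k + 0).factorial : ℝ)) = 1 := by
      simp [h0]
    rw [this, add_comm]
    congr 1
    apply Finset.sum_congr rfl
    intro j _
    have e1 : k + 1 + j = k + (j + 1) := by ring
    rw [e1, Nat.factorial_succ k]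
    have h1 : ((k:ℝ) + 1) ≠ 0 := by positivity
    have h2 : (((k + (j + 1)).factorial : ℝ)) ≠ 0 := by positivity
    push_cast
    field_simp
    ring

lemma hor_zero_eq (x : ℚ) (n : ℕ) :
    (hor x 0 n : ℝ) = ∑ j ∈ range n, (x:ℝ) ^ j / (j.factorial : ℝ) := by
  rw [hor_eq]
  apply Finset.sum_congr rfl
  intro j _
  simp [div_eq_mul_inv]

lemma hor_le_exp {x : ℚ} (hx : 0 ≤ x) (n : ℕ) : (hor x 0 n : ℝ) ≤ Real.exp x := by
  rw [hor_zero_eq]
  exact Real.sum_le_exp_of_nonneg (by exact_mod_cast hx) n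

/-- upper bound for `exp` on `[0,1]` (`n = 10`) -/
def up (x : ℚ) : ℚ := hor x 0 10 + x ^ 10 * 11 / 36288000

lemma exp_le_up {x : ℚ} (hx : 0 ≤ x) (hx1 : x ≤ 1) : Real.exp x ≤ (up x : ℝ) := by
  have h := Real.exp_bound' (x := (x:ℝ)) (by exact_mod_cast hx) (by exact_mod_cast hx1)
    (n := 10) (by norm_num)
  unfold up
  push_cast
  rw [hor_zero_eq]
  have e : ((10:ℕ).factorial : ℝ) * ((10:ℕ):ℝ) = 36288000 := by norm_num [Nat.factorial]
  have : (x:ℝ) ^ 10 * (((10:ℕ):ℝ) + 1) / (((10:ℕ).factorial : ℝ) * ((10:ℕ):ℝ)) =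
      (x:ℝ) ^ 10 * 11 / 36288000 := by
    rw [e]; norm_num
  rw [← this]
  exact h

def t1 : ℚ := 6931471803 / 10000000000
def t2 : ℚ := 6931471808 / 10000000000

lemma t1_lt : (t1 : ℝ) < Real.log 2 := by
  have := Real.log_two_gt_d9
  unfold t1; push_cast; linarith
lemma lt_t2 : Real.log 2 < (t2 : ℝ) := by
  have := Real.log_two_lt_d9
  unfold t2; push_cast; linarith

/-- lower bound for the numerator of `LL` -/
def nn (e2 Lam : ℚ) : ℚ := 1 / e2 - 21 / 20 * Lam - 59 / 100 * e2 + 11 / 100 * e2 ^ 2 - 13 / 25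

/-- the check at one grid interval `[e1,e2]` -/
def chk (e1 e2 Lam l bl bu q : ℚ) : Bool :=
  decide (0 < e1) && decide (e1 ≤ e2) && decide (e2 ≤ 1) && decide (0 ≤ Lam) &&
  decide (1 ≤ hor Lam 0 30 * e2) && decide (0 < l) && decide (l ≤ 32) &&
  decide (0 ≤ nn e2 Lam) &&
  decide (l ≤ nn e2 Lam * (4 / (2 - t1)) + 27 / 20) &&
  decide (0 ≤ bl) && decide (0 ≤ bu) &&
  decide (1 ≤ bu * hor l 0 30) && decide (bl * (up (l / 32)) ^ 32 ≤ 1) &&
  decide (0 ≤ q) && decide (q * (up (t2 * e1) - 1) ≤ (1 + e1) * e1) &&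
  decide (0 ≤ t1 * (l + t1) ^ 2 - bu * (l + t2) ^ 2 * (l + t2 - l / 2)) &&
  decide (0 ≤ q * (t1 * (l + t1) ^ 2 - bu * (l + t2) ^ 2 * (l + t2 - l / 2)) - l * (l + t2 + 2) +
    bl * (l / 2) * (2 * (l + t1) ^ 2 + 3 * (l + t1) + 2))

lemma ac_pos : 0 < ac := by
  have := lt_t2
  unfold ac; unfold t2 at this; push_cast at this; linarith

/-- `LL` is antitone on `(0,1]` -/
lemma LL_anti {e e' : ℝ} (he : 0 < e) (hee : e ≤ e') (he' : e' ≤ 1) : LL e' ≤ LL e := by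
  have h0 : 0 < e' := lt_of_lt_of_le he hee
  unfold LL
  have hac := ac_pos
  have hlog : Real.log e' - Real.log e ≤ (e' - e) * (e' + e) / (2 * (e * e')) := by
    rw [← Real.log_div h0.ne' he.ne']
    have h1 : 1 ≤ e' / e := by rw [le_div_iff₀ he]; linarith
    have := Real.self_le_sinh_iff.mpr (Real.log_nonneg h1)
    rw [Real.sinh_log (div_pos h0 he)] at this
    calc Real.log (e' / e) ≤ (e' / e - (e' / e)⁻¹) / 2 := this
      _ = (e' - e) * (e' + e) / (2 * (e * e')) := by field_simp; ring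
  have hkey : 0 ≤ (1 / e - 1 / e') - 21 / 20 * ((e' - e) * (e' + e) / (2 * (e * e'))) +
      59 / 100 * (e' - e) - 11 / 100 * (e' ^ 2 - e ^ 2) := by
    have hid : (1 / e - 1 / e') - 21 / 20 * ((e' - e) * (e' + e) / (2 * (e * e'))) +
      59 / 100 * (e' - e) - 11 / 100 * (e' ^ 2 - e ^ 2) =
      (e' - e) / (e * e') * (1 - 21 / 40 * (e + e') + e * e' * (59 / 100 - 11 / 100 * (e + e'))) := by
      field_simp; ring
    rw [hid]
    apply mul_nonneg (div_nonneg (sub_nonneg.mpr hee) (mul_pos he h0).le)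
    have h2 : 0 ≤ (1 - e) * (1 - e') := mul_nonneg (by linarith) (by linarith)
    have h3 : 0 ≤ 59 / 100 - 11 / 100 * (e + e') - 37 / 100 := by linarith
    have h4 : 0 ≤ e * e' * (59 / 100 - 11 / 100 * (e + e') - 37 / 100) :=
      mul_nonneg (mul_pos he h0).le h3
    nlinarith only [h2, h4, hee, he']
  have : (1 / e' + (21 / 20) * Real.log e' - (59 / 100) * e' + (11 / 100) * e' ^ 2 - 13 / 25) ≤
      (1 / e + (21 / 20) * Real.log e - (59 / 100) * e + (11 / 100) * e ^ 2 - 13 / 25) := by linarith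
  have h5 := div_le_div_of_nonneg_right this hac.le
  linarith

lemma sound {e1 e2 Lam l bl bu q : ℚ} (h : chk e1 e2 Lam l bl bu q = true) :
    ∀ e : ℝ, (e1:ℝ) ≤ e → e ≤ (e2:ℝ) → A (LL e) ≤ Q e * W (LL e) := by
  simp only [chk, Bool.and_eq_true, decide_eq_true_eq] at h
  obtain ⟨⟨⟨⟨⟨⟨⟨⟨⟨⟨⟨⟨⟨⟨⟨⟨c1, c2⟩, c3⟩, c4⟩, c5⟩, c6⟩, c7⟩, c8⟩, c9⟩, c10⟩, c11⟩, c12⟩, c13⟩, c14⟩,
    c15⟩, c16⟩, c17⟩ := h
  have d1 : (0:ℝ) < e1 := by exact_mod_cast c1
  have d2 : (e1:ℝ) ≤ e2 := by exact_mod_cast c2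
  have d3 : (e2:ℝ) ≤ 1 := by exact_mod_cast c3
  have d4 : (0:ℝ) ≤ Lam := by exact_mod_cast c4
  have d5 : (1:ℝ) ≤ (hor Lam 0 30 : ℝ) * e2 := by exact_mod_cast c5
  have d6 : (0:ℝ) < l := by exact_mod_cast c6
  have d7 : (l:ℝ) ≤ 32 := by exact_mod_cast c7
  have hnn : ((nn e2 Lam : ℚ) : ℝ) =
      1 / (e2:ℝ) - 21 / 20 * Lam - 59 / 100 * e2 + 11 / 100 * e2 ^ 2 - 13 / 25 := by
    unfold nn; push_cast; ring
  have d8 : (0:ℝ) ≤ ((nn e2 Lam : ℚ) : ℝ) := by exact_mod_cast c8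
  have d9 : (l:ℝ) ≤ ((nn e2 Lam : ℚ) : ℝ) * (4 / (2 - t1)) + 27 / 20 := by
    have := (Rat.cast_le (K := ℝ)).mpr c9
    push_cast at this
    exact this
  have d10 : (0:ℝ) ≤ bl := by exact_mod_cast c10
  have d11 : (0:ℝ) ≤ bu := by exact_mod_cast c11
  have d12 : (1:ℝ) ≤ (bu:ℝ) * (hor l 0 30 : ℝ) := by exact_mod_cast c12
  have d13 : (bl:ℝ) * ((up (l / 32) : ℚ) : ℝ) ^ 32 ≤ 1 := by exact_mod_cast c13
  have d14 : (0:ℝ) ≤ q := by exact_mod_cast c14
  have d15 : (q:ℝ) * (((up (t2 * e1) : ℚ) : ℝ) - 1) ≤ (1 + e1) * e1 := by exact_mod_cast c15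
  have d16 : (0:ℝ) ≤ t1 * (l + t1) ^ 2 - bu * (l + t2) ^ 2 * (l + t2 - l / 2) := by
    exact_mod_cast c16
  have d17 : (0:ℝ) ≤ q * (t1 * (l + t1) ^ 2 - bu * (l + t2) ^ 2 * (l + t2 - l / 2)) -
    l * (l + t2 + 2) + bl * (l / 2) * (2 * (l + t1) ^ 2 + 3 * (l + t1) + 2) := by
    exact_mod_cast c17
  have T1 := t1_lt
  have T2 := lt_t2
  have ht1 : (0:ℝ) < t1 := by unfold t1; push_cast; norm_num
  have ht1' : (t1:ℝ) < 1 := by unfold t1; push_cast; norm_num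
  have ht2' : (t2:ℝ) < 1 := by unfold t2; push_cast; norm_num
  have h02 : (0:ℝ) < e2 := lt_of_lt_of_le d1 d2
  -- log e2 ≥ -Lam
  have hlog : -(Lam:ℝ) ≤ Real.log e2 := by
    rw [Real.le_log_iff_exp_le h02, Real.exp_neg]
    have hE : (hor Lam 0 30 : ℝ) ≤ Real.exp Lam := hor_le_exp c4 30
    have hEp := Real.exp_pos (Lam:ℝ)
    rw [inv_le_iff_one_le_mul₀ hEp]
    have hx := mul_le_mul_of_nonneg_right hE h02.le
    linarith only [hx, d5]
  -- LL e2 ≥ l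
  have hLL : (l:ℝ) ≤ LL e2 := by
    unfold LL
    have hN : ((nn e2 Lam : ℚ) : ℝ) ≤
        (1 / (e2:ℝ) + (21 / 20) * Real.log e2 - (59 / 100) * e2 + (11 / 100) * (e2:ℝ) ^ 2 - 13 / 25) := by
      rw [hnn]; linarith
    have hac := ac_pos
    have hac2 : ac ≤ (2 - t1) / 4 := by unfold ac; linarith
    have : ((nn e2 Lam : ℚ) : ℝ) * (4 / (2 - t1)) ≤
        (1 / (e2:ℝ) + (21 / 20) * Real.log e2 - (59 / 100) * e2 + (11 / 100) * (e2:ℝ) ^ 2 - 13 / 25) / ac := by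
      calc ((nn e2 Lam : ℚ) : ℝ) * (4 / (2 - t1))
          = ((nn e2 Lam : ℚ) : ℝ) / ((2 - t1) / 4) := by
            field_simp
        _ ≤ ((nn e2 Lam : ℚ) : ℝ) / ac :=
            div_le_div_of_nonneg_left d8 hac hac2
        _ ≤ _ := by gcongr
    linarith
  -- b bounds
  set b : ℝ := Real.exp (-(l:ℝ)) with hb
  have hbexp : b * Real.exp l = 1 := by
    rw [hb, ← Real.exp_add]; simp
  have hEl := Real.exp_pos (l:ℝ)
  have hb0 : 0 < b := Real.exp_pos _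
  have hbu : b ≤ bu := by
    have hE : (hor l 0 30 : ℝ) ≤ Real.exp l := hor_le_exp c6.le 30
    have hx := mul_le_mul_of_nonneg_left hE d11
    have : 1 ≤ (bu:ℝ) * Real.exp l := by linarith only [hx, d12]
    by_contra hc
    have hc' := not_le.mp hc
    have hy := mul_lt_mul_of_pos_right hc' hEl
    linarith only [hy, this, hbexp]
  have hbl : (bl:ℝ) ≤ b := by
    have h32 : (0:ℚ) ≤ l / 32 := by positivity
    have h32' : l / 32 ≤ 1 := by rw [div_le_one (by norm_num)]; exact c7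
    have hE := exp_le_up h32 h32'
    have hE2 : Real.exp l ≤ ((up (l / 32) : ℚ) : ℝ) ^ 32 := by
      have : Real.exp l = (Real.exp (((l / 32 : ℚ)) : ℝ)) ^ 32 := by
        rw [← Real.exp_nat_mul]; congr 1; push_cast; ring
      rw [this]
      exact pow_le_pow_left₀ (Real.exp_pos _).le hE 32
    have : (bl:ℝ) * Real.exp l ≤ 1 := le_trans (mul_le_mul_of_nonneg_left hE2 d10) d13
    by_contra hc
    have hc' := not_le.mp hc
    have hy := mul_lt_mul_of_pos_right hc' hEl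
    linarith only [hy, this, hbexp]
  -- Q e1 ≥ q
  have hq : (q:ℝ) ≤ Q e1 := by
    unfold Q
    have h1 := one_lt_two_rpow d1
    rw [le_div_iff₀ (by linarith)]
    have h2 : (2:ℝ) ^ (e1:ℝ) ≤ ((up (t2 * e1) : ℚ) : ℝ) := by
      rw [two_rpow_eq]
      have h3 : Real.exp (Real.log 2 * e1) ≤ Real.exp (((t2 * e1 : ℚ)) : ℝ) := by
        apply Real.exp_le_exp.mpr
        push_cast
        exact mul_le_mul_of_nonneg_right T2.le d1.le
      refine le_trans h3 (exp_le_up ?_ ?_)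
      · have : (0:ℚ) ≤ t2 := by unfold t2; norm_num
        positivity
      · have h4 : t2 ≤ 1 := by unfold t2; norm_num
        have h5 : e1 ≤ 1 := le_trans c2 c3
        have h6 : (0:ℚ) ≤ t2 := by unfold t2; norm_num
        have h7 := mul_le_mul h4 h5 c1.le (by norm_num : (0:ℚ) ≤ 1)
        linarith only [h7]
    calc (q:ℝ) * ((2:ℝ) ^ (e1:ℝ) - 1) ≤ q * (((up (t2 * e1) : ℚ) : ℝ) - 1) := by gcongr
      _ ≤ _ := d15
  -- the inequality at `l`
  have hmain : A l ≤ Q e1 * W l := by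
    apply of_G (τ := Real.log 2) rfl rfl hb d6
    set τ : ℝ := Real.log 2 with hτ
    set y : ℝ := l + τ with hy
    have y1 : (l:ℝ) + t1 ≤ y := by rw [hy]; linarith
    have y2 : y ≤ (l:ℝ) + t2 := by rw [hy]; linarith
    have y0 : 0 < (l:ℝ) + t1 := by linarith
    have hC : (t1:ℝ) * (l + t1) ^ 2 - bu * (l + t2) ^ 2 * (l + t2 - l / 2) ≤
        τ * y ^ 2 - b * y ^ 2 * (y - l / 2) := by
      have g1 : (t1:ℝ) * (l + t1) ^ 2 ≤ τ * y ^ 2 := by gcongr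
      have g2 : b * y ^ 2 * (y - l / 2) ≤ bu * (l + t2) ^ 2 * (l + t2 - l / 2) := by
        have : 0 ≤ y - l / 2 := by linarith
        gcongr
      linarith
    have hQC : (q:ℝ) * (t1 * (l + t1) ^ 2 - bu * (l + t2) ^ 2 * (l + t2 - l / 2)) ≤
        Q e1 * (τ * y ^ 2 - b * y ^ 2 * (y - l / 2)) :=
      mul_le_mul hq hC d16 (le_trans d14 hq)
    have h3 : (l:ℝ) * (y + 2) ≤ l * (l + t2 + 2) := by gcongr
    have h4 : (bl:ℝ) * (l / 2) * (2 * (l + t1) ^ 2 + 3 * (l + t1) + 2) ≤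
        b * (l / 2) * (2 * y ^ 2 + 3 * y + 2) := by gcongr
    linarith
  intro e he1 he2
  have he0 : 0 < e := lt_of_lt_of_le d1 he1
  have hel : (l:ℝ) ≤ LL e := le_trans hLL (LL_anti he0 he2 d3)
  have hcr := cross d1 (le_trans d2 d3) hel hmain
  calc A (LL e) ≤ Q e1 * W (LL e) := hcr
    _ ≤ Q e * W (LL e) := by
      apply mul_le_mul_of_nonneg_right _ (W_nonneg _)
      exact Q_mono d1 he1 (le_trans he2 d3)

end Pool.Agent.H58.Tal.C7
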